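import Mathlib

/-!
# Log pairs, log discrepancies and minimal log discrepancies (affine, at a closed point)

`k` is the ground field and `K` the function field of the variety.  A prime divisor `E` over a
variety `X` with function field `K` is the same as its (normalised, divisorial) valuation
`ord_E` of `K / k`; this is how prime divisors are treated below.
-/

open scoped BigOperators

namespace Pool.Agent.H26

universe u v

/-- A normalised discrete valuation of the field `K` which is trivial on the ground field `k`,
written additively, with `ord 0 = ⊤`. -/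
structure DVal (k : Type u) (K : Type v) [Field k] [Field K] [Algebra k K] where
  /-- the order of vanishing -/
  ord : AddValuation K (WithTop ℤ)
  /-- the valuation is trivial on `k` -/
  ord_algebraMap : ∀ c : k, c ≠ 0 → ord (algebraMap k K c) = 0
  /-- the value group is all of `ℤ` -/
  exists_ord_eq_one : ∃ t : K, ord t = 1

namespace DVal

variable {k : Type u} {K : Type v} [Field k] [Field K] [Algebra k K]

/-- The order of vanishing of a nonzero element, as an integer (junk value `0` at `0`). -/
def val (v : DVal k K) (x : K) : ℤ := (v.ord x).untopD 0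

/-- `v` is a divisorial valuation of the `n`-dimensional function field `K / k`, i.e. the order of
vanishing along a prime divisor on some normal model of `K`: its residue field has transcendence
degree `n - 1` over `k`, that is, the valuation ring contains `n - 1` elements whose residues are
algebraically independent over `k`. -/
def IsDivisorial (v : DVal k K) (n : ℕ) : Prop :=
  ∃ (m : ℕ) (y : Fin m → K), m + 1 = n ∧ (∀ i, 0 ≤ v.ord (y i)) ∧
    ∀ P : MvPolynomial (Fin m) k, P ≠ 0 → v.ord (MvPolynomial.aeval y P) = 0

/-- `v` is nonnegative on the coordinate ring `A`, and its centre on `Spec A` is the prime `P`. -/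
def HasCenter (v : DVal k K) (A : Subalgebra k K) (P : Ideal A) : Prop :=
  (∀ a : A, 0 ≤ v.ord (a : K)) ∧ ∀ a : A, a ∈ P ↔ 0 < v.ord (a : K)

/-- `v` is (the order of vanishing along) a prime divisor on `Spec A` passing through the closed
point `𝔪`: its centre on `Spec A` is a prime of height one contained in `𝔪`. -/
def IsPrimeDivisorThrough (v : DVal k K) (A : Subalgebra k K) (𝔪 : Ideal A) : Prop :=
  ∃ P : Ideal A, v.HasCenter A P ∧ P.height = 1 ∧ P ≤ 𝔪

/-- A basis `ω` of the `K`-vector space `Ω[K⁄k]` stands for the rational top form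
`ω 0 ∧ ω 1 ∧ ⋯ ∧ ω (n-1)`.  `v.FormOrd ω e` says that this form has order `e` along the prime
divisor `E` of `v`.  Indeed the stalk at the generic point of `E` of the canonical sheaf is the
module over the valuation ring of `v` generated by the forms `dy_1 ∧ ⋯ ∧ dy_n` with all `y_i` in
the valuation ring, and `dy_1 ∧ ⋯ ∧ dy_n = det_ω (dy_1, …, dy_n) • (ω 0 ∧ ⋯ ∧ ω (n-1))`. -/
def FormOrd (v : DVal k K) {n : ℕ} (ω : Module.Basis (Fin n) K (Ω[K⁄k])) (e : ℤ) : Prop :=
  (∀ y : Fin n → K, (∀ i, 0 ≤ v.ord (y i)) →
    ((-e : ℤ) : WithTop ℤ) ≤ v.ord (ω.det fun i => KaehlerDifferential.D k K (y i))) ∧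
  ∃ y : Fin n → K, (∀ i, 0 ≤ v.ord (y i)) ∧
    v.ord (ω.det fun i => KaehlerDifferential.D k K (y i)) = ((-e : ℤ) : WithTop ℤ)

end DVal

/-- A germ of an affine log pair `x ∈ (X, Δ)` of dimension `n` with function field `K`:
`X = Spec A` is a normal affine variety, `x` is the closed point `pt`, `bdry v` is the coefficient
of the boundary `Δ` along the prime divisor `v`, `ω` is a rational top form, whose divisor is the
canonical divisor `K_X`, and `K_X + Δ` is `ℝ`-Cartier at `x`: near `x` it is
`∑ i, r i • div (s i)`. -/
structure LogGerm (k : Type u) (K : Type v) [Field k] [Field K] [Algebra k K] (n : ℕ) where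
  /-- the coordinate ring of `X` -/
  A : Subalgebra k K
  fg : A.FG
  isFractionRing : IsFractionRing A K
  normal : IsIntegrallyClosed A
  /-- the closed point `x` -/
  pt : Ideal A
  isMaximal : pt.IsMaximal
  /-- the coefficients of the boundary `Δ` -/
  bdry : DVal k K → ℝ
  /-- a rational top form -/
  ω : Module.Basis (Fin n) K (Ω[K⁄k])
  /-- index set of the local equation of `K_X + Δ` -/
  ι : Type
  fintype : Fintype ι
  /-- real exponents in the local equation of `K_X + Δ` at `x` -/
  r : ι → ℝ
  /-- rational functions in the local equation of `K_X + Δ` at `x` -/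
  s : ι → K
  s_ne_zero : ∀ i, s i ≠ 0
  cartier : ∀ v : DVal k K, v.IsPrimeDivisorThrough A pt →
    ∃ e : ℤ, v.FormOrd ω e ∧ (e : ℝ) + bdry v = ∑ i, r i * (v.val (s i) : ℝ)

namespace LogGerm

variable {k : Type u} {K : Type v} [Field k] [Field K] [Algebra k K] {n : ℕ}

attribute [instance] LogGerm.fintype

/-- `G.IsLogDiscrepancy v a`: the log discrepancy of the prime divisor `v` over `X` with respect to
`(X, Δ)` is `a = 1 + mult_v (K_Y - f^*(K_X + Δ))`. -/
def IsLogDiscrepancy (G : LogGerm k K n) (v : DVal k K) (a : ℝ) : Prop :=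
  ∃ e : ℤ, v.FormOrd G.ω e ∧ a = 1 + (e : ℝ) - ∑ i, G.r i * (v.val (G.s i) : ℝ)

/-- The minimal log discrepancy `mld (x, X, Δ)`: the infimum of the log discrepancies of the prime
divisors over `X` with centre `x`. -/
noncomputable def mld (G : LogGerm k K n) : EReal :=
  sInf {a : EReal | ∃ (v : DVal k K) (b : ℝ), v.IsDivisorial n ∧ v.HasCenter G.A G.pt ∧
    G.IsLogDiscrepancy v b ∧ a = (b : EReal)}

end LogGerm

/-- a set of reals satisfies the descending chain condition -/
def DCC (S : Set ℝ) : Prop :=
  ∀ a : ℕ → ℝ, (∀ i, a i ∈ S) → Antitone a → ∃ N, ∀ i, N ≤ i → a i = a N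

/-- a set of extended reals satisfies the ascending chain condition -/
def ACC (S : Set EReal) : Prop :=
  ∀ a : ℕ → EReal, (∀ i, a i ∈ S) → Monotone a → ∃ N, ∀ i, N ≤ i → a i = a N

end Pool.Agent.H26
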