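import Mathlib
import Pool.Agent.H26.Defs

/-! # Basic facts on normalised discrete valuations -/

open scoped BigOperators

namespace Pool.Agent.H26

universe u v

variable {k : Type u} {K : Type v} [Field k] [Field K] [Algebra k K]

namespace DVal

variable (v : DVal k K)

lemma ord_eq_val {x : K} (hx : x ≠ 0) : v.ord x = ((v.val x : ℤ) : WithTop ℤ) := by
  have h : v.ord x ≠ ⊤ := (AddValuation.ne_top_iff v.ord).2 hx
  unfold val
  obtain ⟨z, hz⟩ := WithTop.ne_top_iff_exists.1 h
  rw [← hz]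
  rfl

lemma ord_zero : v.ord 0 = ⊤ := v.ord.map_zero

lemma ord_eq_iff {x : K} {z : ℤ} : v.ord x = (z : WithTop ℤ) ↔ x ≠ 0 ∧ v.val x = z := by
  constructor
  · intro h
    have hx : x ≠ 0 := by
      rintro rfl
      rw [ord_zero] at h
      exact WithTop.top_ne_coe h
    refine ⟨hx, ?_⟩
    rw [v.ord_eq_val hx] at h
    exact_mod_cast h
  · rintro ⟨hx, h⟩
    rw [v.ord_eq_val hx, h]

lemma le_ord_iff {x : K} {z : ℤ} : (z : WithTop ℤ) ≤ v.ord x ↔ x = 0 ∨ z ≤ v.val x := by
  by_cases hx : x = 0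
  · simp [hx]
  · rw [v.ord_eq_val hx]
    simp [hx]

lemma lt_ord_iff {x : K} {z : ℤ} : (z : WithTop ℤ) < v.ord x ↔ x = 0 ∨ z < v.val x := by
  by_cases hx : x = 0
  · simp [hx, WithTop.coe_lt_top]
  · rw [v.ord_eq_val hx]
    simp [hx]

lemma nonneg_ord_iff {x : K} : 0 ≤ v.ord x ↔ x = 0 ∨ 0 ≤ v.val x := by
  have := v.le_ord_iff (x := x) (z := 0)
  simpa using this

lemma pos_ord_iff {x : K} : 0 < v.ord x ↔ x = 0 ∨ 0 < v.val x := by
  have := v.lt_ord_iff (x := x) (z := 0)
  simpa using this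

lemma ord_eq_zero_iff {x : K} : v.ord x = 0 ↔ x ≠ 0 ∧ v.val x = 0 := by
  have := v.ord_eq_iff (x := x) (z := 0)
  simpa using this

@[simp] lemma val_one : v.val 1 = 0 := by
  unfold val; rw [v.ord.map_one]; rfl

lemma val_mul {x y : K} (hx : x ≠ 0) (hy : y ≠ 0) : v.val (x * y) = v.val x + v.val y := by
  have h := v.ord.map_mul x y
  rw [v.ord_eq_val hx, v.ord_eq_val hy, v.ord_eq_val (mul_ne_zero hx hy)] at h
  exact_mod_cast h

lemma val_inv {x : K} (hx : x ≠ 0) : v.val x⁻¹ = - v.val x := by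
  have h := v.val_mul hx (inv_ne_zero hx)
  rw [mul_inv_cancel₀ hx, val_one] at h
  linarith

lemma val_div {x y : K} (hx : x ≠ 0) (hy : y ≠ 0) : v.val (x / y) = v.val x - v.val y := by
  rw [div_eq_mul_inv, v.val_mul hx (inv_ne_zero hy), v.val_inv hy]; ring

@[simp] lemma val_neg (x : K) : v.val (-x) = v.val x := by
  unfold val; rw [v.ord.map_neg]

lemma val_pow {x : K} (hx : x ≠ 0) (m : ℕ) : v.val (x ^ m) = m * v.val x := by
  induction m with
  | zero => simp
  | succ m ih => rw [pow_succ, v.val_mul (pow_ne_zero _ hx) hx, ih]; push_cast; ring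

lemma val_zpow {x : K} (hx : x ≠ 0) (m : ℤ) : v.val (x ^ m) = m * v.val x := by
  cases m with
  | ofNat m => simpa using v.val_pow hx m
  | negSucc m =>
    rw [zpow_negSucc, v.val_inv (pow_ne_zero _ hx), v.val_pow hx]
    push_cast [Int.negSucc_eq]
    ring

lemma val_prod {ι : Type*} (s : Finset ι) (f : ι → K) (hf : ∀ i ∈ s, f i ≠ 0) :
    v.val (∏ i ∈ s, f i) = ∑ i ∈ s, v.val (f i) := by
  classical
  induction s using Finset.induction_on with
  | empty => simp
  | insert a s ha ih =>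
    rw [Finset.prod_insert ha, Finset.sum_insert ha, v.val_mul (hf a (Finset.mem_insert_self _ _))
      (Finset.prod_ne_zero_iff.2 fun i hi => hf i (Finset.mem_insert_of_mem hi)),
      ih fun i hi => hf i (Finset.mem_insert_of_mem hi)]

lemma val_algebraMap (c : k) : v.val (algebraMap k K c) = 0 := by
  by_cases hc : c = 0
  · subst hc; simp [val]
  · exact ((v.ord_eq_zero_iff).1 (v.ord_algebraMap c hc)).2

lemma ord_algebraMap_nonneg (c : k) : 0 ≤ v.ord (algebraMap k K c) := by
  by_cases hc : c = 0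
  · subst hc; simp
  · rw [v.ord_algebraMap c hc]

lemma ord_prod {ι : Type*} (s : Finset ι) (f : ι → K) :
    v.ord (∏ i ∈ s, f i) = ∑ i ∈ s, v.ord (f i) := by
  classical
  induction s using Finset.induction_on with
  | empty => simp
  | insert a s ha ih => rw [Finset.prod_insert ha, Finset.sum_insert ha, v.ord.map_mul, ih]

lemma val_add_ge {x y : K} {z : ℤ} (hx : (z : WithTop ℤ) ≤ v.ord x) (hy : (z : WithTop ℤ) ≤ v.ord y) :
    (z : WithTop ℤ) ≤ v.ord (x + y) := v.ord.map_le_add hx hy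

/-- two elements whose difference has larger value have the same value -/
lemma val_eq_of_lt {x y : K} (hx : x ≠ 0) (h : v.ord x < v.ord (y - x)) :
    y ≠ 0 ∧ v.val y = v.val x := by
  have h1 : v.ord y = v.ord x := v.ord.map_eq_of_lt_sub h
  rw [v.ord_eq_val hx] at h1
  exact v.ord_eq_iff.1 h1

end DVal

end Pool.Agent.H26
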