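import Mathlib
import Pool.Agent.H26.Defs

/-! # Chain conditions -/

open scoped BigOperators

namespace Pool.Agent.H26

lemma DCC.isPWO {Γ : Set ℝ} (h : DCC Γ) : Γ.IsPWO := by
  rw [Set.isPWO_iff_isWF, Set.isWF_iff_no_descending_seq]
  intro f hf hmem
  obtain ⟨N, hN⟩ := h f hmem hf.antitone
  have h1 := hf (Nat.lt_succ_self N)
  have h2 := hN (N + 1) (Nat.le_succ N)
  rw [h2] at h1
  exact lt_irrefl _ h1

lemma DCC.isPWO_closure {Γ : Set ℝ} (h : DCC Γ) (h0 : Γ ⊆ Set.Icc 0 1) :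
    (AddSubmonoid.closure Γ : Set ℝ).IsPWO :=
  h.isPWO.addSubmonoid_closure fun _ hx => (h0 hx).1

lemma closure_nonneg {Γ : Set ℝ} (h0 : Γ ⊆ Set.Icc 0 1) :
    ∀ w ∈ (AddSubmonoid.closure Γ : Set ℝ), 0 ≤ w := by
  intro w hw
  have : AddSubmonoid.closure Γ ≤ AddSubmonoid.nonneg ℝ := by
    rw [AddSubmonoid.closure_le]
    intro x hx
    exact (h0 hx).1
  exact this hw

lemma ACC_of_no_strictMono {S : Set EReal}
    (h : ∀ t : ℕ → EReal, (∀ i, t i ∈ S) → ¬ StrictMono t) : ACC S := by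
  intro a ha hmono
  by_contra hcon
  push Not at hcon
  have hstep : ∀ N, ∃ i, N < i ∧ a N < a i := by
    intro N
    obtain ⟨i, hi, hne⟩ := hcon N
    have h1 : a N ≤ a i := hmono hi
    have h2 : a N < a i := lt_of_le_of_ne h1 (Ne.symm hne)
    refine ⟨i, lt_of_le_of_ne hi ?_, h2⟩
    rintro rfl
    exact lt_irrefl _ h2
  choose g hg1 hg2 using hstep
  let φ : ℕ → ℕ := fun n => Nat.rec 0 (fun _ x => g x) n
  refine h (fun n => a (φ n)) (fun n => ha _) (strictMono_nat_of_lt_succ fun n => ?_)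
  exact hg2 (φ n)

lemma ACC_of_real {S : Set EReal}
    (h : ∀ t : ℕ → ℝ, (∀ i, (t i : EReal) ∈ S) → ¬ StrictMono t) : ACC S := by
  refine ACC_of_no_strictMono fun t ht hmono => ?_
  have hcoe : ∀ i, ((t (i + 1)).toReal : EReal) = t (i + 1) := by
    intro i
    refine EReal.coe_toReal ?_ ?_
    · exact (lt_of_lt_of_le (hmono (Nat.lt_succ_self (i + 1))) le_top).ne
    · exact (lt_of_le_of_lt bot_le (hmono (Nat.lt_succ_self i))).ne'
  refine h (fun i => (t (i + 1)).toReal) (fun i => ?_) (strictMono_nat_of_lt_succ fun i => ?_)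
  · rw [hcoe]; exact ht _
  · rw [← EReal.coe_lt_coe_iff, hcoe, hcoe]
    exact hmono (Nat.lt_succ_self _)

end Pool.Agent.H26
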