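import Mathlib

/-!
# A Kronecker-type recurrence lemma along an ultrafilter

For rational points `x i` of `ℝ^N` and an ultrafilter `U` on the index set, a point `g` on which
every integral linear form that is eventually integral on `x i` is integral can be approximated by
integral multiples of `x i` modulo `ℤ^N`, for `U`-almost all `i`.
-/

open scoped BigOperators Real
open Filter

namespace Pool.Agent.H26

/-- the additive character `t ↦ exp (2 π i t)` -/
noncomputable def ee (t : ℝ) : ℂ := Complex.exp (2 * π * Complex.I * t)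

lemma ee_zero : ee 0 = 1 := by simp [ee]

lemma ee_add (s t : ℝ) : ee (s + t) = ee s * ee t := by
  unfold ee
  rw [← Complex.exp_add]
  congr 1
  push_cast
  ring

lemma ee_sum {ι : Type*} (s : Finset ι) (f : ι → ℝ) : ee (∑ i ∈ s, f i) = ∏ i ∈ s, ee (f i) := by
  classical
  induction s using Finset.induction_on with
  | empty => simp [ee_zero]
  | insert a s ha ih => rw [Finset.sum_insert ha, Finset.prod_insert ha, ee_add, ih]

lemma ee_nat_mul (q : ℕ) (t : ℝ) : ee (q * t) = ee t ^ q := by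
  induction q with
  | zero => simp [ee_zero]
  | succ q ih => rw [pow_succ, ← ih, ← ee_add]; congr 1; push_cast; ring

lemma ee_eq_one_iff (t : ℝ) : ee t = 1 ↔ ∃ z : ℤ, t = z := by
  unfold ee
  rw [Complex.exp_eq_one_iff]
  constructor
  · rintro ⟨n, hn⟩
    refine ⟨n, ?_⟩
    have h2 : (2 * (π : ℂ) * Complex.I) ≠ 0 := by
      simp [Real.pi_ne_zero]
    have h3 : (2 * (π : ℂ) * Complex.I) * (t : ℂ) = (2 * (π : ℂ) * Complex.I) * (n : ℂ) := by
      rw [hn]; ring
    have h4 := mul_left_cancel₀ h2 h3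
    exact_mod_cast h4
  · rintro ⟨n, hn⟩
    refine ⟨n, ?_⟩
    rw [hn]
    push_cast
    ring

lemma ee_int (z : ℤ) : ee z = 1 := (ee_eq_one_iff _).2 ⟨z, rfl⟩

/-- the one variable kernel `cos (π x) ^ (2 K)` as a trigonometric polynomial -/
lemma cos_pow_eq (K : ℕ) (x : ℝ) :
    ((Real.cos (π * x) ^ (2 * K) : ℝ) : ℂ) =
      ∑ j ∈ Finset.range (2 * K + 1), ((Nat.choose (2 * K) j : ℝ) / 4 ^ K : ℝ) * ee ((j - K) * x) := by
  have h1 : Complex.cos ((π : ℂ) * (x : ℂ)) = (ee (x / 2) + ee (-(x / 2))) / 2 := by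
    unfold ee
    push_cast
    rw [Complex.cos]
    congr 2
    · congr 1; ring
    · congr 1; ring
  have h2 : ee (x / 2) + ee (-(x / 2)) = ee (-(x / 2)) * (ee x + 1) := by
    rw [mul_add, ← ee_add, mul_one]
    congr 2
    ring
  push_cast
  rw [h1, h2, div_pow, mul_pow, add_pow]
  have h3 : (2 : ℂ) ^ (2 * K) = 4 ^ K := by
    rw [pow_mul]; norm_num
  rw [h3, Finset.mul_sum, Finset.sum_div]
  refine Finset.sum_congr rfl fun j hj => ?_
  have h4 : ee ((j - K) * x) = ee (-(x / 2)) ^ (2 * K) * ee x ^ j := by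
    rw [← ee_nat_mul, ← ee_nat_mul, ← ee_add]
    congr 1
    push_cast
    ring
  rw [h4]
  simp only [one_pow, mul_one]
  ring

/-- average of a character over the cyclic group generated by a rational point -/
lemma sum_ee_eq (Q : ℕ) (t : ℝ) (z : ℤ) (h : Q * t = z) :
    ∑ q ∈ Finset.range Q, ee (q * t) = if ee t = 1 then (Q : ℂ) else 0 := by
  split_ifs with h1
  · simp [ee_nat_mul, h1]
  · simp only [ee_nat_mul]
    have h2 : ee t ^ Q = 1 := by rw [← ee_nat_mul, h]; exact ee_int z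
    rw [geom_sum_eq h1, h2]
    simp

variable {N : ℕ}

/-- coefficient of the kernel -/
noncomputable def cc (K : ℕ) (j : Fin N → ℕ) : ℝ := ∏ l, ((Nat.choose (2 * K) (j l) : ℝ) / 4 ^ K)

lemma cc_nonneg (K : ℕ) (j : Fin N → ℕ) : 0 ≤ cc K j :=
  Finset.prod_nonneg fun _ _ => by positivity

/-- the kernel as a trigonometric polynomial -/
lemma kernel_eq (K : ℕ) (x : Fin N → ℝ) :
    ((∏ l, Real.cos (π * x l) ^ (2 * K) : ℝ) : ℂ) =
      ∑ j ∈ Fintype.piFinset fun _ : Fin N => Finset.range (2 * K + 1),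
        (cc K j : ℂ) * ee (∑ l, ((j l : ℝ) - K) * x l) := by
  rw [Complex.ofReal_prod]
  simp_rw [cos_pow_eq]
  rw [Finset.prod_univ_sum]
  refine Finset.sum_congr rfl fun j hj => ?_
  rw [Finset.prod_mul_distrib, ee_sum, cc, Complex.ofReal_prod]

/-- sum of the kernel, translated by `-g`, over the cyclic group generated by `x` -/
lemma sum_kernel_eq (K Q : ℕ) (x g : Fin N → ℝ)
    (hx : ∀ l, ∃ z : ℤ, Q * x l = z) :
    ((∑ q ∈ Finset.range Q, ∏ l, Real.cos (π * (q * x l - g l)) ^ (2 * K) : ℝ) : ℂ) =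
      ∑ j ∈ Fintype.piFinset fun _ : Fin N => Finset.range (2 * K + 1),
        (cc K j : ℂ) * (ee (-∑ l, ((j l : ℝ) - K) * g l) *
          if ee (∑ l, ((j l : ℝ) - K) * x l) = 1 then (Q : ℂ) else 0) := by
  rw [Complex.ofReal_sum]
  simp_rw [kernel_eq]
  rw [Finset.sum_comm]
  refine Finset.sum_congr rfl fun j hj => ?_
  rw [← Finset.mul_sum]
  congr 1
  obtain ⟨z, hz⟩ : ∃ z : ℤ, Q * (∑ l, ((j l : ℝ) - K) * x l) = z := by
    choose z hz using hx
    refine ⟨∑ l, ((j l : ℤ) - K) * z l, ?_⟩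
    push_cast
    rw [Finset.mul_sum]
    refine Finset.sum_congr rfl fun l _ => ?_
    rw [← hz l]
    ring
  rw [← sum_ee_eq Q _ z hz, Finset.mul_sum]
  refine Finset.sum_congr rfl fun q hq => ?_
  rw [← ee_add]
  congr 1
  rw [Finset.mul_sum, ← Finset.sum_neg_distrib, ← Finset.sum_add_distrib]
  refine Finset.sum_congr rfl fun l _ => ?_
  ring

/-- lower bound for the kernel sum -/
lemma le_sum_kernel (K Q : ℕ) (hK : 0 < K) (x : Fin N → ℝ)
    (hx : ∀ l, ∃ z : ℤ, Q * x l = z) :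
    (Q : ℝ) * (1 / (2 * K)) ^ N ≤
      ∑ q ∈ Finset.range Q, ∏ l, Real.cos (π * (q * x l)) ^ (2 * K) := by
  have h := sum_kernel_eq K Q x 0 hx
  simp only [Pi.zero_apply, sub_zero, mul_zero, Finset.sum_const_zero, neg_zero, ee_zero,
    one_mul] at h
  have h2 : (∑ q ∈ Finset.range Q, ∏ l, Real.cos (π * (q * x l)) ^ (2 * K)) =
      ∑ j ∈ Fintype.piFinset fun _ : Fin N => Finset.range (2 * K + 1),
        cc K j * (if ee (∑ l, ((j l : ℝ) - K) * x l) = 1 then (Q : ℝ) else 0) := by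
    apply Complex.ofReal_injective
    rw [h]
    push_cast
    refine Finset.sum_congr rfl fun j _ => ?_
    split_ifs <;> simp
  rw [h2]
  have hmem : (fun _ => K) ∈ Fintype.piFinset fun _ : Fin N => Finset.range (2 * K + 1) := by
    simp only [Fintype.mem_piFinset, Finset.mem_range]
    intro _; omega
  refine le_trans ?_ (Finset.single_le_sum (f := fun j : Fin N → ℕ => cc K j * (if ee (∑ l, ((j l : ℝ) - K) * x l) = 1 then (Q : ℝ) else 0)) ?_ hmem)
  · simp only [sub_self, zero_mul, Finset.sum_const_zero, ee_zero, if_true]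
    rw [mul_comm]
    refine mul_le_mul_of_nonneg_right ?_ (by positivity)
    rw [cc, Finset.prod_const, Finset.card_univ, Fintype.card_fin]
    refine pow_le_pow_left₀ (by positivity) ?_ N
    have h5 := Nat.four_pow_le_two_mul_self_mul_centralBinom K hK
    rw [Nat.centralBinom] at h5
    have h6 : (4 : ℝ) ^ K ≤ 2 * K * Nat.choose (2 * K) K := by exact_mod_cast h5
    rw [div_le_div_iff₀ (by positivity) (by positivity)]
    linarith
  · intro j _
    refine mul_nonneg (cc_nonneg _ _) ?_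
    split_ifs <;> positivity

lemma cos_sq_le (ε y : ℝ) (hε : 0 < ε) (hε2 : ε ≤ 1 / 2) (h : ∀ z : ℤ, ε ≤ |y + z|) :
    Real.cos (π * y) ^ 2 ≤ Real.cos (π * ε) ^ 2 := by
  set w : ℝ := y - round y with hw
  have h1 : |w| ≤ 1 / 2 := by
    rw [hw]; exact abs_sub_round y
  have h2 : ε ≤ |w| := by
    have := h (-round y)
    rw [hw]
    push_cast at this
    simpa [sub_eq_add_neg] using this
  have h3 : Real.cos (π * y) ^ 2 = Real.cos (π * |w|) ^ 2 := by
    have h4 : π * y = π * w + round y * π := by rw [hw]; ring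
    have h5 : Real.cos (π * |w|) = Real.cos (π * w) := by
      rcases abs_cases w with ⟨h, _⟩ | ⟨h, _⟩
      · rw [h]
      · rw [h, mul_neg, Real.cos_neg]
    rw [h4, h5, Real.cos_add_int_mul_pi]
    rw [mul_pow]
    have h7 : ((-1 : ℝ) ^ (round y)) ^ 2 = 1 := by
      rw [← zpow_natCast, ← zpow_mul, mul_comm, zpow_mul]
      norm_num
    rw [h7, one_mul]
  rw [h3]
  have h8 : Real.cos (π * |w|) ≤ Real.cos (π * ε) := by
    apply Real.cos_le_cos_of_nonneg_of_le_pi
    · positivity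
    · nlinarith [Real.pi_pos]
    · nlinarith [Real.pi_pos]
  have h9 : 0 ≤ Real.cos (π * |w|) := by
    apply Real.cos_nonneg_of_neg_pi_div_two_le_of_le
    · nlinarith [Real.pi_pos, abs_nonneg w]
    · nlinarith [Real.pi_pos, abs_nonneg w]
  nlinarith

lemma cos_sq_lt_one (ε : ℝ) (hε : 0 < ε) (hε2 : ε ≤ 1 / 2) : Real.cos (π * ε) ^ 2 < 1 := by
  have h1 : Real.cos (π * ε) < 1 := by
    rw [← Real.cos_zero]
    apply Real.cos_lt_cos_of_nonneg_of_le_pi
    · exact le_refl _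
    · nlinarith [Real.pi_pos]
    · positivity
  have h2 : 0 ≤ Real.cos (π * ε) := by
    apply Real.cos_nonneg_of_neg_pi_div_two_le_of_le
    · nlinarith [Real.pi_pos]
    · nlinarith [Real.pi_pos]
  nlinarith

/-- there is `K` such that `K ≥ 1` and `ρ ^ K < (1 / (2 K)) ^ N` -/
lemma exists_K (N : ℕ) (ρ : ℝ) (h0 : 0 ≤ ρ) (h1 : ρ < 1) :
    ∃ K : ℕ, 0 < K ∧ ρ ^ K < (1 / (2 * (K : ℝ))) ^ N := by
  have h := tendsto_pow_const_mul_const_pow_of_lt_one N h0 h1
  have h2 : Tendsto (fun n : ℕ => (2 : ℝ) ^ N * ((n : ℝ) ^ N * ρ ^ n)) atTop (nhds (2 ^ N * 0)) :=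
    h.const_mul _
  rw [mul_zero] at h2
  have h3 := (h2.eventually (gt_mem_nhds (show (0 : ℝ) < 1 by norm_num))).and
    (eventually_gt_atTop 0)
  obtain ⟨K, hK1, hK2⟩ := h3.exists
  refine ⟨K, hK2, ?_⟩
  have hK3 : (0 : ℝ) < K := by exact_mod_cast hK2
  have h5 : (2 : ℝ) ^ N * ((K : ℝ) ^ N * ρ ^ K) = (2 * K) ^ N * ρ ^ K := by
    rw [mul_pow]; ring
  rw [h5] at hK1
  rw [one_div, inv_pow, inv_eq_one_div, lt_div_iff₀ (by positivity), mul_comm]
  exact hK1

/-- **Kronecker-type lemma.** -/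
lemma kronecker (U : Ultrafilter ℕ) (x : ℕ → Fin N → ℝ)
    (hx : ∀ i, ∃ Q : ℕ, 0 < Q ∧ ∀ l, ∃ z : ℤ, Q * x i l = z) (g : Fin N → ℝ)
    (hg : ∀ m : Fin N → ℤ, (∀ᶠ i in (U : Filter ℕ), ∃ z : ℤ, ∑ l, (m l : ℝ) * x i l = z) →
      ∃ z : ℤ, ∑ l, (m l : ℝ) * g l = z) (ε : ℝ) (hε : 0 < ε) :
    ∀ᶠ i in (U : Filter ℕ), ∃ (q : ℕ) (z : Fin N → ℤ), ∀ l, |q * x i l + z l - g l| < ε := by
  wlog hε2 : ε ≤ 1 / 2 generalizing ε
  · have := this (1 / 2) (by norm_num) le_rfl
    filter_upwards [this] with i hi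
    obtain ⟨q, z, h⟩ := hi
    exact ⟨q, z, fun l => (h l).trans (not_le.1 hε2)⟩
  set ρ := Real.cos (π * ε) ^ 2 with hρ
  obtain ⟨K, hK0, hK⟩ := exists_K N ρ (sq_nonneg _) (cos_sq_lt_one ε hε hε2)
  -- for almost all i, every frequency of the kernel is decided
  set J := Fintype.piFinset fun _ : Fin N => Finset.range (2 * K + 1) with hJ
  have hdec : ∀ᶠ i in (U : Filter ℕ), ∀ j ∈ J,
      (ee (∑ l, ((j l : ℝ) - K) * x i l) = 1 → ee (-∑ l, ((j l : ℝ) - K) * g l) = 1) := by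
    rw [Filter.eventually_all_finset]
    intro j _
    by_cases h : ∀ᶠ i in (U : Filter ℕ), ∃ z : ℤ, ∑ l, ((fun l => (j l : ℤ) - K) l : ℝ) * x i l = z
    · have h2 := hg _ h
      refine Filter.Eventually.of_forall fun i _ => ?_
      obtain ⟨z, hz⟩ := h2
      rw [ee_eq_one_iff]
      refine ⟨-z, ?_⟩
      push_cast at hz ⊢
      rw [hz]
    · rw [← Ultrafilter.eventually_not] at h
      filter_upwards [h] with i hi h3
      exfalso
      apply hi
      rw [ee_eq_one_iff] at h3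
      obtain ⟨z, hz⟩ := h3
      refine ⟨z, ?_⟩
      push_cast
      exact hz
  filter_upwards [hdec] with i hi
  by_contra hcon
  push Not at hcon
  obtain ⟨Q, hQ, hQx⟩ := hx i
  have e1 := sum_kernel_eq K Q (x i) g hQx
  have e2 := sum_kernel_eq K Q (x i) 0 hQx
  have e3 : (∑ q ∈ Finset.range Q, ∏ l, Real.cos (π * (q * x i l - g l)) ^ (2 * K) : ℝ) =
      ∑ q ∈ Finset.range Q, ∏ l, Real.cos (π * (q * x i l)) ^ (2 * K) := by
    apply Complex.ofReal_injective
    rw [e1]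
    simp only [Pi.zero_apply, sub_zero, mul_zero, Finset.sum_const_zero, neg_zero, ee_zero,
      one_mul] at e2
    rw [e2]
    refine Finset.sum_congr rfl fun j hj => ?_
    congr 1
    split_ifs with h
    · rw [hi j hj h, one_mul]
    · simp
  have e4 := le_sum_kernel K Q hK0 (x i) hQx
  have e5 : (∑ q ∈ Finset.range Q, ∏ l, Real.cos (π * (q * x i l - g l)) ^ (2 * K) : ℝ) ≤
      ∑ q ∈ Finset.range Q, ρ ^ K := by
    refine Finset.sum_le_sum fun q _ => ?_
    -- some coordinate is far from the integers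
    have : ∃ l, ∀ z : ℤ, ε ≤ |(q * x i l - g l) + z| := by
      by_contra hno
      push Not at hno
      choose z hz using hno
      obtain ⟨l, hl⟩ := hcon q z
      have := hz l
      have e : (q * x i l - g l) + z l = q * x i l + z l - g l := by ring
      rw [e] at this
      linarith
    obtain ⟨l, hl⟩ := this
    rw [← Finset.mul_prod_erase _ _ (Finset.mem_univ l)]
    have h1 : Real.cos (π * (q * x i l - g l)) ^ (2 * K) ≤ ρ ^ K := by
      rw [pow_mul]
      exact pow_le_pow_left₀ (sq_nonneg _) (cos_sq_le ε _ hε hε2 hl) K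
    have h2 : (∏ l ∈ Finset.univ.erase l, Real.cos (π * (q * x i l - g l)) ^ (2 * K)) ≤ 1 := by
      refine Finset.prod_le_one (fun _ _ => ?_) (fun _ _ => ?_)
      · rw [pow_mul]; positivity
      · rw [pow_mul]; exact pow_le_one₀ (sq_nonneg _) (Real.cos_sq_le_one _)
    have h3 : (0 : ℝ) ≤ ∏ l ∈ Finset.univ.erase l, Real.cos (π * (q * x i l - g l)) ^ (2 * K) :=
      Finset.prod_nonneg fun _ _ => by rw [pow_mul]; positivity
    calc _ ≤ ρ ^ K * 1 := mul_le_mul h1 h2 h3 (by positivity)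
      _ = ρ ^ K := mul_one _
  rw [e3, Finset.sum_const, Finset.card_range, nsmul_eq_mul] at e5
  have hQ' : (0 : ℝ) < Q := by exact_mod_cast hQ
  have := le_of_mul_le_mul_left (e4.trans e5) hQ'
  linarith

end Pool.Agent.H26
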