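import Mathlib
import Pool.Agent.H26.Kronecker

/-!
# The limiting argument

`engine`: for a sequence of cyclic extensions of `ℤ^N` inside `ℚ^N` and of convex piecewise linear
functions `x ↦ ∑ x_l - min_{u ∈ U j} ⟨u, x⟩` with `U j ⊆ W^N`, `W` a well ordered set of
nonnegative reals, the minima over the positive lattice points cannot increase strictly.
-/

open scoped BigOperators Real
open Filter

namespace Pool.Agent.H26

/-- the closure of a well-ordered set of reals is well-ordered -/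
lemma isPWO_closure {W : Set ℝ} (hW : W.IsPWO) : (closure W).IsPWO := by
  rw [Set.isPWO_iff_isWF, Set.isWF_iff_no_descending_seq]
  intro f hf hmem
  have key : ∀ n : ℕ, ∃ w ∈ W, f (2 * n + 2) < w ∧ w < f (2 * n) := by
    intro n
    have h1 : f (2 * n + 2) < f (2 * n + 1) := hf (by omega)
    have h2 : f (2 * n + 1) < f (2 * n) := hf (by omega)
    have h3 := mem_closure_iff.1 (hmem (2 * n + 1)) (Set.Ioo (f (2 * n + 2)) (f (2 * n)))
      isOpen_Ioo ⟨h1, h2⟩
    obtain ⟨w, hw1, hw2⟩ := h3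
    exact ⟨w, hw2, hw1.1, hw1.2⟩
  choose w hwW hw1 hw2 using key
  rw [Set.isPWO_iff_isWF, Set.isWF_iff_no_descending_seq] at hW
  refine hW w (strictAnti_nat_of_succ_lt fun n => ?_) hwW
  have h4 := hw2 (n + 1)
  have e : 2 * (n + 1) = 2 * n + 2 := by ring
  rw [e] at h4
  exact h4.trans (hw1 n)

/-- a family in a well-ordered set converging along a filter is eventually below its limit -/
lemma eventually_le_of_isPWO {W : Set ℝ} (hW : W.IsPWO) {ι : Type*} {F : Filter ι} {u : ι → ℝ}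
    (hu : ∀ᶠ i in F, u i ∈ W) {a : ℝ} (h : Tendsto u F (nhds a)) : ∀ᶠ i in F, u i ≤ a := by
  by_cases hne : (W ∩ Set.Ioi a).Nonempty
  · have hWF : (W ∩ Set.Ioi a).IsWF := (Set.isPWO_iff_isWF.1 hW).mono Set.inter_subset_left
    have h2 : hWF.min hne ∈ W ∩ Set.Ioi a := Set.IsWF.min_mem hWF hne
    have h3 := h.eventually (gt_mem_nhds h2.2)
    filter_upwards [h3, hu] with i hi1 hi2
    by_contra hcon
    rw [not_le] at hcon
    exact absurd hi1 (not_lt.2 (Set.IsWF.min_le hWF hne ⟨hi2, hcon⟩))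
  · filter_upwards [hu] with i hi
    by_contra hcon
    rw [not_le] at hcon
    exact hne ⟨u i, hi, hcon⟩

variable {N : ℕ}

/-- along an ultrafilter, a bounded family of vectors with entries in a well ordered set is
eventually below its limit, which has entries in the closure -/
lemma exists_limit {W : Set ℝ} (hW : W.IsPWO) (hW0 : ∀ w ∈ W, 0 ≤ w) (F : Ultrafilter ℕ)
    (u : ℕ → Fin N → ℝ) (hu : ∀ᶠ i in (F : Filter ℕ), ∀ l, u i l ∈ W) (C : Fin N → ℝ)
    (hC : ∀ᶠ i in (F : Filter ℕ), ∀ l, u i l ≤ C l) :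
    ∃ a : Fin N → ℝ, Tendsto u F (nhds a) ∧ (∀ l, a l ∈ closure W) ∧
      (∀ᶠ i in (F : Filter ℕ), u i ≤ a) := by
  have hcomp : IsCompact (Set.univ.pi fun l : Fin N => Set.Icc (0 : ℝ) (C l)) :=
    isCompact_univ_pi fun _ => isCompact_Icc
  have hmem : ∀ᶠ i in (F : Filter ℕ), u i ∈ (Set.univ.pi fun l : Fin N => Set.Icc (0 : ℝ) (C l)) := by
    filter_upwards [hu, hC] with i h1 h2 l _
    exact ⟨hW0 _ (h1 l), h2 l⟩
  obtain ⟨a, _, ha⟩ := hcomp.ultrafilter_le_nhds (F.map u) (by
    rw [Filter.le_principal_iff]; exact hmem)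
  have ha' : Tendsto u F (nhds a) := ha
  have hl : ∀ l, Tendsto (fun i => u i l) F (nhds (a l)) := fun l =>
    (tendsto_pi_nhds.1 ha') l
  refine ⟨a, ha', fun l => ?_, ?_⟩
  · refine mem_closure_of_tendsto (hl l) ?_
    filter_upwards [hu] with i hi using hi l
  · have : ∀ l, ∀ᶠ i in (F : Filter ℕ), u i l ≤ a l := fun l =>
      eventually_le_of_isPWO hW (by filter_upwards [hu] with i hi using hi l) (hl l)
    filter_upwards [Filter.eventually_all.2 this] with i hi l using hi l

/-- The limiting family `B`: finitely many vectors such that almost every `U i` has elements below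
each of them, and such that, near a positive vector `g`, they control all the small elements of
almost every `U i`. -/
lemma exists_B {W : Set ℝ} (hW : W.IsPWO) (hW0 : ∀ w ∈ W, 0 ≤ w) (F : Ultrafilter ℕ)
    (U : ℕ → Set (Fin N → ℝ)) (hU : ∀ j, ∀ u ∈ U j, ∀ l, u l ∈ W) :
    ∃ B : Set (Fin N → ℝ), B.Finite ∧
      (∀ᶠ j in (F : Filter ℕ), ∀ b ∈ B, ∃ u ∈ U j, u ≤ b) ∧
      ∀ g : Fin N → ℝ, (∀ l, 0 < g l) → ∀ C δ : ℝ, 0 < δ → ∃ ε > 0,
        ∀ᶠ i in (F : Filter ℕ), ∀ g' : Fin N → ℝ, (∀ l, |g' l - g l| < ε) → ∀ u ∈ U i,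
          ∑ l, u l * g' l ≤ C → ∃ b ∈ B, ∑ l, b l * g l ≤ ∑ l, u l * g' l + δ := by
  classical
  set V : Set (Fin N → ℝ) := {q | (∀ l, q l ∈ closure W) ∧
    ∀ᶠ i in (F : Filter ℕ), ∃ u ∈ U i, u ≤ q} with hV
  have hVpwo : V.IsPWO := by
    refine (Set.IsPWO.pi (s := fun _ : Fin N => closure W) fun _ => isPWO_closure hW).mono ?_
    intro q hq l _
    exact hq.1 l
  set B : Set (Fin N → ℝ) := {b | Minimal (· ∈ V) b} with hB
  have hBfin : B.Finite := by
    have h1 : IsAntichain (· ≤ ·) B := by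
      intro a ha b hb hab hle
      exact hab (le_antisymm hle (hb.2 ha.1 hle))
    exact h1.finite_of_partiallyWellOrderedOn (hVpwo.mono fun b hb => hb.1)
  refine ⟨B, hBfin, ?_, ?_⟩
  · have h2 : ∀ b ∈ B, ∀ᶠ j in (F : Filter ℕ), ∃ u ∈ U j, u ≤ b := fun b hb => hb.1.2
    exact (Filter.eventually_all_finite hBfin).2 h2
  · intro g hg C δ hδ
    -- a bound for the entries
    have hbd : ∃ D : ℝ, 0 < D ∧ ∀ l, 2 * |C| / g l ≤ D := by
      refine ⟨1 + ∑ l, 2 * |C| / g l, ?_, fun l => ?_⟩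
      · have : 0 ≤ ∑ l, 2 * |C| / g l := Finset.sum_nonneg fun l _ =>
          div_nonneg (by positivity) (hg l).le
        linarith
      · have : 2 * |C| / g l ≤ ∑ l, 2 * |C| / g l :=
          Finset.single_le_sum (f := fun l => 2 * |C| / g l)
            (fun l _ => div_nonneg (by positivity) (hg l).le) (Finset.mem_univ l)
        linarith
    obtain ⟨D, hD0, hD⟩ := hbd
    have hε : ∃ ε : ℝ, 0 < ε ∧ (∀ l, ε ≤ g l / 2) ∧ ε * (N * D) ≤ δ / 2 := by
      have h1 : ∃ ε1 : ℝ, 0 < ε1 ∧ ∀ l, ε1 ≤ g l / 2 := by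
        rcases Nat.eq_zero_or_pos N with h0 | h0
        · subst h0
          exact ⟨1, one_pos, fun l => l.elim0⟩
        · have : Nonempty (Fin N) := ⟨⟨0, h0⟩⟩
          obtain ⟨l0, hl0⟩ := Finite.exists_min g
          exact ⟨g l0 / 2, half_pos (hg l0), fun l => by linarith [hl0 l]⟩
      obtain ⟨ε1, h11, h12⟩ := h1
      have h2 : 0 < N * D + 1 := by positivity
      refine ⟨min ε1 (δ / 2 / (N * D + 1)), lt_min h11 (by positivity), fun l =>
        (min_le_left _ _).trans (h12 l), ?_⟩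
      have h3 : min ε1 (δ / 2 / (N * D + 1)) ≤ δ / 2 / (N * D + 1) := min_le_right _ _
      calc min ε1 (δ / 2 / (N * D + 1)) * (N * D)
          ≤ (δ / 2 / (N * D + 1)) * (N * D) := by
            apply mul_le_mul_of_nonneg_right h3; positivity
        _ ≤ (δ / 2 / (N * D + 1)) * (N * D + 1) := by
            apply mul_le_mul_of_nonneg_left _ (by positivity)
            linarith
        _ = δ / 2 := by field_simp
    obtain ⟨ε, hε0, hε1, hε2⟩ := hε
    refine ⟨ε, hε0, ?_⟩
    by_contra hcon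
    rw [← Ultrafilter.eventually_not] at hcon
    -- choose bad elements
    have hbad : ∀ᶠ i in (F : Filter ℕ), ∃ u : Fin N → ℝ, u ∈ U i ∧ (∀ l, u l ≤ 2 * |C| / g l) ∧
        ∀ b ∈ B, ∑ l, u l * g l ≤ ∑ l, b l * g l - δ / 2 := by
      filter_upwards [hcon] with i hi
      push Not at hi
      obtain ⟨g', hg', u, hu, hle, hb⟩ := hi
      have hu0 : ∀ l, 0 ≤ u l := fun l => hW0 _ (hU i u hu l)
      have hg'2 : ∀ l, g l / 2 ≤ g' l := fun l => by
        have := abs_lt.1 (hg' l)
        linarith [hε1 l]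
      have hul : ∀ l, u l ≤ 2 * |C| / g l := by
        intro l
        rw [le_div_iff₀ (hg l)]
        have h1 : u l * g' l ≤ ∑ l, u l * g' l :=
          Finset.single_le_sum (f := fun l => u l * g' l)
            (fun l _ => mul_nonneg (hu0 l) (by linarith [hg'2 l, hg l])) (Finset.mem_univ l)
        have h2 : u l * (g l / 2) ≤ u l * g' l := mul_le_mul_of_nonneg_left (hg'2 l) (hu0 l)
        have h3 := le_abs_self C
        linarith
      refine ⟨u, hu, hul, fun b hbB => ?_⟩
      have h4 := hb b hbB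
      have h5 : ∑ l, u l * g l ≤ ∑ l, u l * g' l + ε * (N * D) := by
        have h6 : ∀ l, u l * g l ≤ u l * g' l + ε * D := by
          intro l
          have := abs_lt.1 (hg' l)
          have h7 : u l * (g l - g' l) ≤ D * ε := by
            calc u l * (g l - g' l) ≤ u l * ε := by
                  apply mul_le_mul_of_nonneg_left _ (hu0 l); linarith
              _ ≤ D * ε := by
                  apply mul_le_mul_of_nonneg_right _ hε0.le
                  exact (hul l).trans (hD l)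
          linarith
        calc ∑ l, u l * g l ≤ ∑ l, (u l * g' l + ε * D) := Finset.sum_le_sum fun l _ => h6 l
          _ = ∑ l, u l * g' l + ε * (N * D) := by
              rw [Finset.sum_add_distrib]; simp; ring
      linarith
    choose! u hu1 using (Filter.eventually_iff_exists_mem.1 hbad).choose_spec.2
    set S := (Filter.eventually_iff_exists_mem.1 hbad).choose with hS
    have hSmem : S ∈ (F : Filter ℕ) := (Filter.eventually_iff_exists_mem.1 hbad).choose_spec.1
    have hev : ∀ᶠ i in (F : Filter ℕ), i ∈ S := hSmem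
    obtain ⟨a, ha1, ha2, ha3⟩ := exists_limit hW hW0 F u
      (by filter_upwards [hev] with i hi l using hU i _ (hu1 i hi).1 l) (fun l => 2 * |C| / g l)
      (by filter_upwards [hev] with i hi l using (hu1 i hi).2.1 l)
    have haV : a ∈ V := ⟨ha2, by
      filter_upwards [hev, ha3] with i hi h
      exact ⟨u i, (hu1 i hi).1, h⟩⟩
    obtain ⟨b, hba, hbB⟩ := hVpwo.exists_le_minimal haV
    have h8 : ∑ l, b l * g l ≤ ∑ l, a l * g l :=
      Finset.sum_le_sum fun l _ => mul_le_mul_of_nonneg_right (hba l) (hg l).le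
    have h9 : Tendsto (fun i => ∑ l, u i l * g l) F (nhds (∑ l, a l * g l)) := by
      refine tendsto_finsetSum _ fun l _ => ?_
      exact ((tendsto_pi_nhds.1 ha1) l).mul_const _
    have h10 : ∑ l, a l * g l ≤ ∑ l, b l * g l - δ / 2 := by
      refine le_of_tendsto h9 ?_
      filter_upwards [hev] with i hi
      exact (hu1 i hi).2.2 b hbB
    linarith

/-- **The engine.** -/
theorem engine (N : ℕ) {W : Set ℝ} (hW : W.IsPWO) (hW0 : ∀ w ∈ W, 0 ≤ w)
    (U : ℕ → Set (Fin N → ℝ)) (hU : ∀ j, ∀ u ∈ U j, ∀ l, u l ∈ W)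
    (x : ℕ → Fin N → ℝ) (hx : ∀ i, ∃ Q : ℕ, 0 < Q ∧ ∀ l, ∃ z : ℤ, Q * x i l = z)
    (hpos : ∀ i l, 0 < x i l) (t : ℕ → ℝ)
    (E1 : ∀ (j : ℕ) (q : ℕ) (z : Fin N → ℤ), (∀ l, 0 < q * x j l + z l) →
      ∃ u ∈ U j, t j ≤ ∑ l, (1 - u l) * (q * x j l + z l))
    (E2 : ∀ j, ∀ u ∈ U j, ∑ l, (1 - u l) * x j l < t (j + 1)) : ¬ StrictMono t := by
  classical
  intro hmono
  set F : Ultrafilter ℕ := Filter.hyperfilter ℕ with hF
  have hFtop : ∀ m : ℕ, ∀ᶠ i in (F : Filter ℕ), m ≤ i := by
    intro m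
    have h1 : (F : Filter ℕ) ≤ Filter.cofinite := Filter.hyperfilter_le_cofinite
    apply h1
    rw [Nat.cofinite_eq_atTop]
    exact Filter.eventually_ge_atTop m
  obtain ⟨B, hBfin, hB1, hB2⟩ := exists_B hW hW0 F U hU
  -- the group of eventually integral forms
  let M : AddSubgroup (Fin N → ℤ) :=
    { carrier := {m | ∀ᶠ i in (F : Filter ℕ), ∃ z : ℤ, ∑ l, (m l : ℝ) * x i l = z}
      zero_mem' := by
        refine Filter.Eventually.of_forall fun i => ⟨0, by simp⟩
      add_mem' := by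
        intro a b ha hb
        filter_upwards [ha, hb] with i h1 h2
        obtain ⟨z1, h1⟩ := h1
        obtain ⟨z2, h2⟩ := h2
        refine ⟨z1 + z2, ?_⟩
        push_cast
        rw [← h1, ← h2, ← Finset.sum_add_distrib]
        refine Finset.sum_congr rfl fun l _ => ?_
        simp only [Pi.add_apply]
        push_cast
        ring
      neg_mem' := by
        intro a ha
        filter_upwards [ha] with i h1
        obtain ⟨z1, h1⟩ := h1
        refine ⟨-z1, ?_⟩
        push_cast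
        rw [← h1, ← Finset.sum_neg_distrib]
        refine Finset.sum_congr rfl fun l _ => ?_
        simp only [Pi.neg_apply]
        push_cast
        ring }
  have hMfg : ∀ᶠ i in (F : Filter ℕ), ∀ m ∈ M, ∃ z : ℤ, ∑ l, (m l : ℝ) * x i l = z := by
    have hfg : (AddSubgroup.toIntSubmodule M).FG := IsNoetherian.noetherian _
    obtain ⟨S, hS⟩ := hfg
    have h1 : ∀ m ∈ S, ∀ᶠ i in (F : Filter ℕ), ∃ z : ℤ, ∑ l, (m l : ℝ) * x i l = z := by
      intro m hm
      have h2 : m ∈ AddSubgroup.toIntSubmodule M := by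
        rw [← hS]; exact Submodule.subset_span hm
      exact h2
    have h2 := (Filter.eventually_all_finset S).2 h1
    filter_upwards [h2] with i hi m hm
    have h3 : m ∈ Submodule.span ℤ (S : Set (Fin N → ℤ)) := by rw [hS]; exact hm
    induction h3 using Submodule.span_induction with
    | mem m hmS => exact hi m hmS
    | zero => exact ⟨0, by simp⟩
    | add a b ha hb h1 h2 =>
      have ha' : a ∈ M := by
        have : a ∈ AddSubgroup.toIntSubmodule M := by rw [← hS]; exact ha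
        exact this
      have hb' : b ∈ M := by
        have : b ∈ AddSubgroup.toIntSubmodule M := by rw [← hS]; exact hb
        exact this
      obtain ⟨z1, h1⟩ := h1 ha'
      obtain ⟨z2, h2⟩ := h2 hb'
      refine ⟨z1 + z2, ?_⟩
      push_cast
      rw [← h1, ← h2, ← Finset.sum_add_distrib]
      refine Finset.sum_congr rfl fun l _ => ?_
      simp only [Pi.add_apply]
      push_cast
      ring
    | smul c a ha h1 =>
      have ha' : a ∈ M := by
        have : a ∈ AddSubgroup.toIntSubmodule M := by rw [← hS]; exact ha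
        exact this
      obtain ⟨z1, h1⟩ := h1 ha'
      refine ⟨c * z1, ?_⟩
      push_cast
      rw [← h1, Finset.mul_sum]
      refine Finset.sum_congr rfl fun l _ => ?_
      simp only [Pi.smul_apply, smul_eq_mul]
      push_cast
      ring
  -- choose a good index j
  obtain ⟨j, hj1, hj2⟩ := (hB1.and hMfg).exists
  set g := x j with hg
  have hgpos : ∀ l, 0 < g l := hpos j
  have hgB : ∀ b ∈ B, ∑ l, (1 - b l) * g l < t (j + 1) := by
    intro b hb
    obtain ⟨u, hu, hub⟩ := hj1 b hb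
    refine lt_of_le_of_lt ?_ (E2 j u hu)
    refine Finset.sum_le_sum fun l _ => ?_
    exact mul_le_mul_of_nonneg_right (by linarith [hub l]) (hgpos l).le
  obtain ⟨δ, hδ0, hδ⟩ : ∃ δ : ℝ, 0 < δ ∧ ∀ b ∈ B, ∑ l, (1 - b l) * g l + 3 * δ < t (j + 1) := by
    rcases B.eq_empty_or_nonempty with hBe | hBne
    · exact ⟨1, one_pos, by simp [hBe]⟩
    · obtain ⟨b0, hb0, hmax⟩ := hBfin.exists_maximalFor (fun b => ∑ l, (1 - b l) * g l) B hBne
      have h1 := hgB b0 hb0
      refine ⟨(t (j + 1) - ∑ l, (1 - b0 l) * g l) / 4, by linarith, fun b hb => ?_⟩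
      have h2 : ∑ l, (1 - b l) * g l ≤ ∑ l, (1 - b0 l) * g l := by
        by_contra hcon
        rw [not_le] at hcon
        exact absurd (hmax hb hcon.le) (not_le.2 hcon)
      linarith
  obtain ⟨ε, hε0, hε⟩ := hB2 g hgpos (∑ l, g l + 1 - t 0) δ hδ0
  obtain ⟨ε', hε'0, hε'1, hε'2, hε'3, hε'4⟩ : ∃ ε' : ℝ, 0 < ε' ∧ ε' ≤ ε ∧ (∀ l, ε' ≤ g l) ∧
      N * ε' ≤ δ ∧ N * ε' ≤ 1 := by
    have h1 : ∃ ε1 : ℝ, 0 < ε1 ∧ ∀ l, ε1 ≤ g l := by
      rcases Nat.eq_zero_or_pos N with h0 | h0
      · subst h0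
        exact ⟨1, one_pos, fun l => l.elim0⟩
      · have : Nonempty (Fin N) := ⟨⟨0, h0⟩⟩
        obtain ⟨l0, hl0⟩ := Finite.exists_min g
        exact ⟨g l0, hgpos l0, hl0⟩
    obtain ⟨ε1, h11, h12⟩ := h1
    have hN : (0 : ℝ) ≤ N := by positivity
    refine ⟨min (min ε ε1) (min δ 1 / (N + 1)), ?_, ?_, ?_, ?_, ?_⟩
    · exact lt_min (lt_min hε0 h11) (by positivity)
    · exact (min_le_left _ _).trans (min_le_left _ _)
    · intro l
      exact ((min_le_left _ _).trans (min_le_right _ _)).trans (h12 l)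
    · have h2 : min (min ε ε1) (min δ 1 / (N + 1)) ≤ min δ 1 / (N + 1) := min_le_right _ _
      have h3 : (N : ℝ) * (min δ 1 / (N + 1)) ≤ min δ 1 := by
        rw [mul_div_assoc', div_le_iff₀ (by positivity)]
        have : 0 < min δ 1 := lt_min hδ0 one_pos
        nlinarith
      exact (mul_le_mul_of_nonneg_left h2 hN).trans (h3.trans (min_le_left _ _))
    · have h2 : min (min ε ε1) (min δ 1 / (N + 1)) ≤ min δ 1 / (N + 1) := min_le_right _ _
      have h3 : (N : ℝ) * (min δ 1 / (N + 1)) ≤ min δ 1 := by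
        rw [mul_div_assoc', div_le_iff₀ (by positivity)]
        have : 0 < min δ 1 := lt_min hδ0 one_pos
        nlinarith
      exact (mul_le_mul_of_nonneg_left h2 hN).trans (h3.trans (min_le_right _ _))
  have hkron := kronecker F x hx g (fun m hm => hj2 m hm) ε' hε'0
  obtain ⟨i, hi1, hi2, hi3⟩ := (hε.and (hkron.and (hFtop (j + 1)))).exists
  obtain ⟨q, z, hqz⟩ := hi2
  have hpos' : ∀ l, 0 < q * x i l + z l := by
    intro l
    have h1 := abs_lt.1 (hqz l)
    have h2 := hε'2 l
    linarith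
  obtain ⟨u, huU, hut⟩ := E1 i q z hpos'
  have hsum : ∑ l, (q * x i l + z l) ≤ ∑ l, g l + N * ε' := by
    calc ∑ l, (q * x i l + z l) ≤ ∑ l : Fin N, (g l + ε') := by
          refine Finset.sum_le_sum fun l _ => ?_
          have h1 := abs_lt.1 (hqz l)
          linarith
      _ = ∑ l, g l + N * ε' := by rw [Finset.sum_add_distrib]; simp
  have hexp : ∑ l, (1 - u l) * (q * x i l + z l) =
      ∑ l, (q * x i l + z l) - ∑ l, u l * (q * x i l + z l) := by
    rw [← Finset.sum_sub_distrib]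
    refine Finset.sum_congr rfl fun l _ => ?_
    ring
  have ht0 : t 0 ≤ t i := hmono.monotone (Nat.zero_le i)
  have hC : ∑ l, u l * (q * x i l + z l) ≤ ∑ l, g l + 1 - t 0 := by
    rw [hexp] at hut
    linarith
  obtain ⟨b, hb, hbu⟩ := hi1 (fun l => q * x i l + z l)
    (fun l => (hqz l).trans_le hε'1) u huU hC
  have h1 := hδ b hb
  have h2 : ∑ l, (1 - b l) * g l = ∑ l, g l - ∑ l, b l * g l := by
    rw [← Finset.sum_sub_distrib]
    refine Finset.sum_congr rfl fun l _ => ?_
    ring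
  have h3 : t (j + 1) ≤ t i := hmono.monotone hi3
  rw [hexp] at hut
  linarith

end Pool.Agent.H26
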