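import Mathlib

/-! # The lemmas of Farkas and Caratheodory over the rationals -/

open scoped BigOperators

namespace Pool.Agent.H26

universe u v

/-- Farkas' lemma in Bartl's form -/
theorem farkas_bartl {W : Type u} [AddCommGroup W] [Module ℚ W] :
    ∀ (N : ℕ) (α : Fin N → W →ₗ[ℚ] ℚ) (γ : W →ₗ[ℚ] ℚ),
      (∀ x, (∀ i, 0 ≤ α i x) → 0 ≤ γ x) →
      ∃ c : Fin N → ℚ, (∀ i, 0 ≤ c i) ∧ ∀ x, γ x = ∑ i, c i * α i x := by
  intro N
  induction N with
  | zero =>
    intro α γ h
    refine ⟨fun i => i.elim0, fun i => i.elim0, fun x => ?_⟩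
    have h1 := h x fun i => i.elim0
    have h2 := h (-x) fun i => i.elim0
    rw [map_neg] at h2
    simp only [Finset.univ_eq_empty, Finset.sum_empty]
    linarith
  | succ N ih =>
    intro α γ h
    by_cases hcase : ∀ x, (∀ i : Fin N, 0 ≤ α i.castSucc x) → 0 ≤ γ x
    · obtain ⟨c, hc, hγ⟩ := ih (fun i => α i.castSucc) γ hcase
      refine ⟨Fin.snoc (α := fun _ => ℚ) c 0, ?_, ?_⟩
      · intro i
        refine Fin.lastCases ?_ (fun i => ?_) i
        · simp
        · simpa using hc i
      · intro x
        rw [Fin.sum_univ_castSucc, hγ x]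
        simp
    · push Not at hcase
      obtain ⟨x0, hx0, hγ0⟩ := hcase
      have hlast : α (Fin.last N) x0 < 0 := by
        by_contra hcon
        push Not at hcon
        have := h x0 fun i => by
          refine Fin.lastCases ?_ (fun i => ?_) i
          · exact hcon
          · exact hx0 i
        linarith
      -- rescale
      set a : ℚ := -(α (Fin.last N) x0) with ha
      have ha0 : 0 < a := by linarith
      set x1 : W := a⁻¹ • x0 with hx1
      have h1last : α (Fin.last N) x1 = -1 := by
        rw [hx1, map_smul, smul_eq_mul]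
        have h2 : α (Fin.last N) x0 = -a := by rw [ha, neg_neg]
        rw [h2, mul_neg, inv_mul_cancel₀ ha0.ne']
      have h1 : ∀ i : Fin N, 0 ≤ α i.castSucc x1 := fun i => by
        rw [hx1, map_smul, smul_eq_mul]
        exact mul_nonneg (inv_nonneg.2 ha0.le) (hx0 i)
      have h1γ : γ x1 < 0 := by
        rw [hx1, map_smul, smul_eq_mul]
        exact mul_neg_of_pos_of_neg (inv_pos.2 ha0) hγ0
      obtain ⟨c, hc, hγ⟩ := ih (fun i => α i.castSucc + (α i.castSucc x1) • α (Fin.last N))
        (γ + (γ x1) • α (Fin.last N)) (by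
          intro x hx
          have h2 := h (x + (α (Fin.last N) x) • x1) (by
            intro i
            refine Fin.lastCases ?_ (fun i => ?_) i
            · rw [map_add, map_smul, smul_eq_mul, h1last]
              linarith
            · have := hx i
              rw [LinearMap.add_apply, LinearMap.smul_apply, smul_eq_mul] at this
              rw [map_add, map_smul, smul_eq_mul]
              linarith)
          rw [map_add, map_smul, smul_eq_mul] at h2
          rw [LinearMap.add_apply, LinearMap.smul_apply, smul_eq_mul]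
          linarith)
      refine ⟨Fin.snoc (α := fun _ => ℚ) c (∑ i, c i * α i.castSucc x1 - γ x1), ?_, ?_⟩
      · intro i
        refine Fin.lastCases ?_ (fun i => ?_) i
        · simp only [Fin.snoc_last]
          have := Finset.sum_nonneg fun i (_ : i ∈ Finset.univ) => mul_nonneg (hc i) (h1 i)
          linarith
        · simpa using hc i
      · intro x
        rw [Fin.sum_univ_castSucc]
        simp only [Fin.snoc_castSucc, Fin.snoc_last]
        have h3 := hγ x
        rw [LinearMap.add_apply, LinearMap.smul_apply, smul_eq_mul] at h3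
        simp only [LinearMap.add_apply, LinearMap.smul_apply, smul_eq_mul] at h3
        have h4 : ∑ i, c i * (α i.castSucc x + α i.castSucc x1 * α (Fin.last N) x) =
            ∑ i, c i * α i.castSucc x + (∑ i, c i * α i.castSucc x1) * α (Fin.last N) x := by
          rw [Finset.sum_mul, ← Finset.sum_add_distrib]
          refine Finset.sum_congr rfl fun i _ => ?_
          ring
        rw [h4] at h3
        linarith

/-- Caratheodory's theorem for cones -/
theorem caratheodory {V : Type u} [AddCommGroup V] [Module ℚ V] {ι : Type v} (v : ι → V) :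
    ∀ (N : ℕ) (T : Finset ι) (c : ι → ℚ), T.card = N → (∀ i ∈ T, 0 < c i) →
      ∃ (T' : Finset ι) (c' : ι → ℚ), T' ⊆ T ∧ (∀ i ∈ T', 0 < c' i) ∧
        ∑ i ∈ T', c' i • v i = ∑ i ∈ T, c i • v i ∧
        LinearIndependent ℚ (fun i : T' => v i) := by
  classical
  intro N
  induction N using Nat.strong_induction_on with
  | _ N ih =>
    intro T c hT hc
    by_cases hli : LinearIndependent ℚ (fun i : T => v i)
    · exact ⟨T, c, Finset.Subset.refl _, hc, rfl, hli⟩
    · rw [Fintype.not_linearIndependent_iff] at hli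
      obtain ⟨g0, hg0, i1, hi1⟩ := hli
      -- extend to a function with a positive value
      obtain ⟨g, hg, i2, hi2, hi2pos⟩ : ∃ g : ι → ℚ, ∑ i ∈ T, g i • v i = 0 ∧
          ∃ i ∈ T, 0 < g i := by
        rcases lt_or_gt_of_ne hi1 with h | h
        · refine ⟨fun i => if h : i ∈ T then -g0 ⟨i, h⟩ else 0, ?_, i1, i1.2, ?_⟩
          · rw [← Finset.sum_attach]
            have : ∑ x ∈ T.attach, (if h : (x : ι) ∈ T then -g0 ⟨x, h⟩ else 0) • v x =
                -∑ x : T, g0 x • v x := by
              rw [← Finset.sum_neg_distrib]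
              refine Finset.sum_congr rfl fun x _ => ?_
              rw [dif_pos x.2, neg_smul]
            rw [this, hg0, neg_zero]
          · simp only [i1.2, dif_pos]
            linarith
        · refine ⟨fun i => if h : i ∈ T then g0 ⟨i, h⟩ else 0, ?_, i1, i1.2, ?_⟩
          · rw [← Finset.sum_attach]
            have : ∑ x ∈ T.attach, (if h : (x : ι) ∈ T then g0 ⟨x, h⟩ else 0) • v x =
                ∑ x : T, g0 x • v x := by
              refine Finset.sum_congr rfl fun x _ => ?_
              rw [dif_pos x.2]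
            rw [this, hg0]
          · simp only [i1.2, dif_pos]
            exact h
      obtain ⟨i0, hi0, hmin⟩ := (T.filter (fun i => 0 < g i)).exists_min_image
        (fun i => c i / g i) ⟨i2, Finset.mem_filter.2 ⟨hi2, hi2pos⟩⟩
      rw [Finset.mem_filter] at hi0
      set θ := c i0 / g i0 with hθ
      have hθ0 : 0 < θ := div_pos (hc _ hi0.1) hi0.2
      have hnn : ∀ i ∈ T, 0 ≤ c i - θ * g i := by
        intro i hi
        by_cases hgi : 0 < g i
        · have h1 := hmin i (Finset.mem_filter.2 ⟨hi, hgi⟩)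
          have h2 : θ * g i ≤ c i / g i * g i := by gcongr
          rw [div_mul_cancel₀ _ hgi.ne'] at h2
          linarith
        · push Not at hgi
          have h1 : θ * g i ≤ 0 := mul_nonpos_of_nonneg_of_nonpos hθ0.le hgi
          have h2 := hc i hi
          linarith
      set T1 := T.filter (fun i => 0 < c i - θ * g i) with hT1
      have hlt : T1.card < N := by
        rw [← hT]
        refine Finset.card_lt_card ⟨Finset.filter_subset _ _, fun hsub => ?_⟩
        have h1 := Finset.mem_filter.1 (hsub hi0.1)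
        have h2 : c i0 - θ * g i0 = 0 := by
          rw [hθ, div_mul_cancel₀ _ hi0.2.ne', sub_self]
        rw [h2] at h1
        exact lt_irrefl _ h1.2
      obtain ⟨T', c', hsub, hpos, hsum, hli'⟩ := ih T1.card hlt T1 (fun i => c i - θ * g i) rfl
        fun i hi => (Finset.mem_filter.1 hi).2
      refine ⟨T', c', hsub.trans (Finset.filter_subset _ _), hpos, ?_, hli'⟩
      rw [hsum, hT1, Finset.sum_filter]
      have h1 : ∑ i ∈ T, (if 0 < c i - θ * g i then (c i - θ * g i) • v i else 0) =
          ∑ i ∈ T, (c i • v i - θ • (g i • v i)) := by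
        refine Finset.sum_congr rfl fun i hi => ?_
        rw [smul_smul, ← sub_smul]
        split_ifs with h
        · rfl
        · have : c i - θ * g i = 0 := le_antisymm (not_lt.1 h) (hnn i hi)
          rw [this, zero_smul]
      rw [h1, Finset.sum_sub_distrib, ← Finset.smul_sum, hg, smul_zero, sub_zero]

/-- the cone version used below: a nonzero lattice vector which is nonnegative on the dual cone is
a positive rational combination of `n` (not necessarily distinct) generators -/
theorem exists_positive_combination {n : ℕ} (R : Finset (Fin n → ℤ)) (w : Fin n → ℤ) (hw : w ≠ 0)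
    (h : ∀ m : Fin n → ℤ, (∀ ρ ∈ R, 0 ≤ m ⬝ᵥ ρ) → 0 ≤ m ⬝ᵥ w) :
    ∃ (c : Fin n → (Fin n → ℤ)) (x : Fin n → ℚ), (∀ l, c l ∈ R) ∧ (∀ l, 0 < x l) ∧
      ∀ i, (w i : ℚ) = ∑ l, x l * (c l i : ℚ) := by
  classical
  let e : Fin R.card ≃ R := R.equivFin.symm
  let dot : (Fin n → ℤ) → ((Fin n → ℚ) →ₗ[ℚ] ℚ) := fun ρ =>
    { toFun := fun x => ∑ i, x i * (ρ i : ℚ)
      map_add' := fun x y => by simp [add_mul, Finset.sum_add_distrib]
      map_smul' := fun a x => by simp [Finset.mul_sum, mul_assoc] }
  obtain ⟨a, ha, haw⟩ := farkas_bartl R.card (fun i => dot (e i)) (dot w) (by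
    intro x hx
    -- clear denominators
    let D : ℤ := ∏ i, ((x i).den : ℤ)
    have hD : 0 < D := Finset.prod_pos fun i _ => by exact_mod_cast (x i).pos
    have hint : ∀ i, ∃ z : ℤ, (D : ℚ) * x i = z := by
      intro i
      refine ⟨(∏ j ∈ Finset.univ.erase i, ((x j).den : ℤ)) * (x i).num, ?_⟩
      have h1 : D = ((x i).den : ℤ) * ∏ j ∈ Finset.univ.erase i, ((x j).den : ℤ) :=
        (Finset.mul_prod_erase _ _ (Finset.mem_univ i)).symm
      rw [h1]
      push_cast
      have h2 : ((x i).den : ℚ) * x i = (x i).num := by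
        rw [mul_comm]; exact Rat.mul_den_eq_num _
      calc ((x i).den : ℚ) * (∏ j ∈ Finset.univ.erase i, ((x j).den : ℚ)) * x i =
          (∏ j ∈ Finset.univ.erase i, ((x j).den : ℚ)) * (((x i).den : ℚ) * x i) := by ring
        _ = _ := by rw [h2]
    choose z hz using hint
    have hdotz : ∀ ρ : Fin n → ℤ, ((z ⬝ᵥ ρ : ℤ) : ℚ) = D * dot ρ x := by
      intro ρ
      unfold dotProduct
      push_cast
      change _ = (D : ℚ) * ∑ i, x i * (ρ i : ℚ)
      rw [Finset.mul_sum]
      refine Finset.sum_congr rfl fun i _ => ?_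
      rw [← hz i]; ring
    have hDq : (0 : ℚ) < D := by exact_mod_cast hD
    have h2 := h z fun ρ hρ => by
      have h3 := hx (e.symm ⟨ρ, hρ⟩)
      simp only [Equiv.apply_symm_apply] at h3
      have h4 : (0 : ℚ) ≤ ((z ⬝ᵥ ρ : ℤ) : ℚ) := by
        rw [hdotz]; exact mul_nonneg hDq.le h3
      exact_mod_cast h4
    have h5 : (0 : ℚ) ≤ D * dot w x := by rw [← hdotz]; exact_mod_cast h2
    exact nonneg_of_mul_nonneg_right h5 hDq)
  -- the equation
  have hweq : ∀ j, (w j : ℚ) = ∑ i, a i * ((e i : Fin n → ℤ) j : ℚ) := by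
    intro j
    have h1 := haw (Pi.single j 1)
    change ∑ i, (Pi.single j (1 : ℚ) : Fin n → ℚ) i * (w i : ℚ) = ∑ i, a i *
      (∑ l, (Pi.single j (1 : ℚ) : Fin n → ℚ) l * ((e i : Fin n → ℤ) l : ℚ)) at h1
    simpa [Pi.single_apply] using h1
  let V : Fin R.card → (Fin n → ℚ) := fun i j => ((e i : Fin n → ℤ) j : ℚ)
  have hVsum : ∑ i ∈ Finset.univ.filter (fun i => 0 < a i), a i • V i = fun j => (w j : ℚ) := by
    rw [Finset.sum_filter]
    funext j
    rw [hweq j, Finset.sum_apply]
    refine Finset.sum_congr rfl fun i _ => ?_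
    split_ifs with hi
    · rfl
    · have : a i = 0 := le_antisymm (not_lt.1 hi) (ha i)
      rw [this]; simp
  obtain ⟨T, c', _, hpos, hsum, hli⟩ := caratheodory V _ _ a rfl
    (fun i hi => (Finset.mem_filter.1 hi).2 : ∀ i ∈ Finset.univ.filter (fun i => 0 < a i), 0 < a i)
  rw [hVsum] at hsum
  have hTcard : T.card ≤ n := by
    have := hli.fintype_card_le_finrank
    simpa using this
  have hTne : T.Nonempty := by
    rw [Finset.nonempty_iff_ne_empty]
    rintro rfl
    apply hw
    funext j
    have := congrFun hsum j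
    simp at this
    exact_mod_cast this.symm
  -- a surjection from `Fin n`
  obtain ⟨t0, ht0⟩ := hTne
  let eT : Fin T.card ≃ T := T.equivFin.symm
  let p : Fin n → T := fun l => if hl : l.1 < T.card then eT ⟨l.1, hl⟩ else ⟨t0, ht0⟩
  have hp : Function.Surjective p := by
    intro t
    have h1 := (eT.symm t).2
    refine ⟨⟨(eT.symm t).1, lt_of_lt_of_le h1 hTcard⟩, ?_⟩
    simp only [p]
    rw [dif_pos h1]
    simp
  let cnt : T → ℚ := fun t => ((Finset.univ.filter (fun l => p l = t)).card : ℚ)
  have hcnt : ∀ t, 0 < cnt t := by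
    intro t
    obtain ⟨l, hl⟩ := hp t
    have : 0 < (Finset.univ.filter (fun l => p l = t)).card :=
      Finset.card_pos.2 ⟨l, Finset.mem_filter.2 ⟨Finset.mem_univ _, hl⟩⟩
    exact Nat.cast_pos.2 this
  refine ⟨fun l => e (p l), fun l => c' (p l) / cnt (p l), fun l => (e (p l)).2,
    fun l => div_pos (hpos _ (p l).2) (hcnt _), fun i => ?_⟩
  have h1 : ∑ l, c' (p l) / cnt (p l) * ((e (p l) : Fin n → ℤ) i : ℚ) =
      ∑ t : T, ∑ l ∈ Finset.univ.filter (fun l => p l = t),
        c' t / cnt t * ((e t : Fin n → ℤ) i : ℚ) := by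
    rw [← Finset.sum_fiberwise (s := Finset.univ) (g := p)]
    refine Finset.sum_congr rfl fun t _ => Finset.sum_congr rfl fun l hl => ?_
    rw [(Finset.mem_filter.1 hl).2]
  rw [h1]
  have h2 : ∀ t : T, ∑ l ∈ Finset.univ.filter (fun l => p l = t),
      c' t / cnt t * ((e t : Fin n → ℤ) i : ℚ) = c' t * V t i := by
    intro t
    rw [Finset.sum_const, nsmul_eq_mul]
    change cnt t * _ = _
    have := (hcnt t).ne'
    change cnt t * (c' t / cnt t * V t i) = _
    field_simp
  simp_rw [h2]
  have h3 := congrFun hsum i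
  rw [Finset.sum_apply] at h3
  simp only [Pi.smul_apply, smul_eq_mul] at h3
  rw [← h3, Finset.sum_coe_sort T (fun t => c' t * V t i)]

end Pool.Agent.H26
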