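import Mathlib
import Pool.Agent.H26.Basic

/-! # Logarithmic forms have at most simple poles; change of the top form -/

open scoped BigOperators
open KaehlerDifferential

namespace Pool.Agent.H26

universe u v

variable {k : Type u} {K : Type v} [Field k] [Field K] [Algebra k K]

/-- logarithmic differential -/
noncomputable def dlog (k : Type u) {K : Type v} [Field k] [Field K] [Algebra k K] (y : K) :
    Ω[K⁄k] := y⁻¹ • D k K y

lemma dlog_mul {x y : K} (hx : x ≠ 0) (hy : y ≠ 0) : dlog k (x * y) = dlog k x + dlog k y := by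
  unfold dlog
  rw [Derivation.leibniz, smul_add, smul_smul, smul_smul, mul_inv, add_comm]
  congr 2
  · field_simp
  · field_simp

lemma dlog_one : dlog k (1 : K) = 0 := by simp [dlog]

lemma dlog_zpow {x : K} (hx : x ≠ 0) (m : ℤ) : dlog k (x ^ m) = (m : K) • dlog k x := by
  unfold dlog
  rw [Derivation.leibniz_zpow, ← Int.cast_smul_eq_zsmul K, smul_smul, smul_smul, smul_smul]
  congr 1
  rw [zpow_sub_one₀ hx]
  have : x ^ m ≠ 0 := zpow_ne_zero _ hx
  field_simp

lemma dlog_prod {ι : Type*} (s : Finset ι) (f : ι → K) (hf : ∀ i ∈ s, f i ≠ 0) :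
    dlog k (∏ i ∈ s, f i) = ∑ i ∈ s, dlog k (f i) := by
  classical
  induction s using Finset.induction_on with
  | empty => simp [dlog_one]
  | insert a s ha ih =>
    rw [Finset.prod_insert ha, Finset.sum_insert ha, dlog_mul (hf a (Finset.mem_insert_self _ _))
      (Finset.prod_ne_zero_iff.2 fun i hi => hf i (Finset.mem_insert_of_mem hi)),
      ih fun i hi => hf i (Finset.mem_insert_of_mem hi)]

lemma D_eq_smul_dlog {y : K} (hy : y ≠ 0) : D k K y = y • dlog k y := by
  unfold dlog
  rw [smul_smul, mul_inv_cancel₀ hy, one_smul]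

variable {n : ℕ}

/-- logarithmic forms have at most simple poles -/
theorem log_form_bound (w : DVal k K) (ω : Module.Basis (Fin n) K (Ω[K⁄k])) (e : ℤ)
    (he : w.FormOrd ω e) (y : Fin n → K) (hy : ∀ i, y i ≠ 0) :
    ((-e - 1 : ℤ) : WithTop ℤ) ≤ w.ord (ω.det fun i => dlog k (y i)) := by
  classical
  obtain ⟨t, ht⟩ := w.exists_ord_eq_one
  have ht1 := (w.ord_eq_iff (z := 1)).1 (by exact_mod_cast ht)
  obtain ⟨ht0, htv⟩ := ht1
  set a : Fin n → ℤ := fun i => w.val (y i) with ha
  set u : Fin n → K := fun i => y i * t ^ (-(a i)) with hu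
  have hu0 : ∀ i, u i ≠ 0 := fun i => mul_ne_zero (hy i) (zpow_ne_zero _ ht0)
  have huv : ∀ i, w.val (u i) = 0 := fun i => by
    rw [hu]
    simp only
    rw [w.val_mul (hy i) (zpow_ne_zero _ ht0), w.val_zpow ht0, htv]
    ring
  have hyu : ∀ i, y i = t ^ (a i) * u i := fun i => by
    rw [hu]
    simp only
    rw [zpow_neg]
    field_simp
  have hdl : (fun i => dlog k (y i)) = (fun i => (a i : K) • dlog k t) + (fun i => dlog k (u i)) := by
    funext i
    rw [Pi.add_apply, hyu i, dlog_mul (zpow_ne_zero _ ht0) (hu0 i), dlog_zpow ht0]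
  rw [hdl]
  have hexp := (ω.det : AlternatingMap K (Ω[K⁄k]) K (Fin n)).toMultilinearMap.map_add_univ
    (fun i => (a i : K) • dlog k t) (fun i => dlog k (u i))
  have hexp' : ω.det ((fun i => (a i : K) • dlog k t) + (fun i => dlog k (u i))) =
      ∑ s : Finset (Fin n), ω.det (s.piecewise (fun i => (a i : K) • dlog k t)
        (fun i => dlog k (u i))) := hexp
  rw [hexp']
  refine w.ord.map_le_sum fun s _ => ?_
  set z : Fin n → K := fun i => if i ∈ s then t else u i with hz
  set c : Fin n → K := fun i => if i ∈ s then (a i : K) * t⁻¹ else (u i)⁻¹ with hc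
  have hpw : (s.piecewise (fun i => (a i : K) • dlog k t) (fun i => dlog k (u i))) =
      fun i => c i • D k K (z i) := by
    funext i
    by_cases hi : i ∈ s
    · rw [Finset.piecewise_eq_of_mem _ _ _ hi, hz, hc]
      simp only [hi, if_true]
      rw [dlog, smul_smul]
    · rw [Finset.piecewise_eq_of_notMem _ _ _ hi, hz, hc]
      simp only [hi, if_false]
      rw [dlog]
  have hsm : ω.det (fun i => c i • D k K (z i)) = (∏ i, c i) • ω.det (fun i => D k K (z i)) :=
    (ω.det : AlternatingMap K (Ω[K⁄k]) K (Fin n)).toMultilinearMap.map_smul_univ c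
      (fun i => D k K (z i))
  rw [hpw, hsm]
  by_cases hcard : s.card ≤ 1
  · have hint : ∀ m : ℤ, 0 ≤ w.ord ((m : K)) := by
      intro m
      have : ((m : ℤ) : K) = algebraMap k K (m : k) := by simp
      rw [this]; exact w.ord_algebraMap_nonneg _
    have hcord : ((-1 : ℤ) : WithTop ℤ) ≤ w.ord (∏ i, c i) := by
      rw [w.ord_prod]
      have h1 : ∀ i, (((if i ∈ s then -1 else 0 : ℤ)) : WithTop ℤ) ≤ w.ord (c i) := by
        intro i
        rw [hc]
        by_cases hi : i ∈ s
        · simp only [hi, if_true]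
          rw [w.ord.map_mul]
          have h2 : w.ord t⁻¹ = ((-1 : ℤ) : WithTop ℤ) := by
            rw [w.ord_eq_val (inv_ne_zero ht0), w.val_inv ht0, htv]
          rw [h2]
          calc ((-1 : ℤ) : WithTop ℤ) = 0 + ((-1 : ℤ) : WithTop ℤ) := by rw [zero_add]
            _ ≤ w.ord ((a i : ℤ) : K) + ((-1 : ℤ) : WithTop ℤ) := by gcongr; exact hint _
        · simp only [hi, if_false]
          rw [w.ord_eq_val (inv_ne_zero (hu0 i)), w.val_inv (hu0 i), huv i]
          simp
      calc ((-1 : ℤ) : WithTop ℤ) ≤ ((∑ i, (if i ∈ s then -1 else 0 : ℤ) : ℤ) : WithTop ℤ) := by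
            norm_cast
            rw [Finset.sum_ite_mem, Finset.univ_inter, Finset.sum_const]
            simp
            omega
        _ = ∑ i, (((if i ∈ s then -1 else 0 : ℤ)) : WithTop ℤ) := by
            push_cast
            rfl
        _ ≤ ∑ i, w.ord (c i) := Finset.sum_le_sum fun i _ => h1 i
    have hdet : ((-e : ℤ) : WithTop ℤ) ≤ w.ord (ω.det fun i => D k K (z i)) := by
      refine he.1 z fun i => ?_
      rw [hz]
      by_cases hi : i ∈ s
      · simp only [hi, if_true]
        rw [ht]; exact zero_le_one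
      · simp only [hi, if_false]
        rw [w.nonneg_ord_iff, huv i]; exact Or.inr le_rfl
    rw [smul_eq_mul, w.ord.map_mul]
    calc ((-e - 1 : ℤ) : WithTop ℤ) = ((-1 : ℤ) : WithTop ℤ) + ((-e : ℤ) : WithTop ℤ) := by
          rw [← WithTop.coe_add]; congr 1; ring
      _ ≤ _ := add_le_add hcord hdet
  · push Not at hcard
    obtain ⟨i, hi, j, hj, hij⟩ := Finset.one_lt_card.1 hcard
    have h0 : ω.det (fun i => D k K (z i)) = 0 := by
      refine ω.det.map_eq_zero_of_eq _ ?_ hij
      simp [hz, hi, hj]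
    rw [h0, smul_zero, w.ord_zero]
    exact le_top

/-- change of the top form -/
lemma det_change (ω ω' : Module.Basis (Fin n) K (Ω[K⁄k])) (z : Fin n → Ω[K⁄k]) :
    ω.det z = ω.det ω' * ω'.det z := by
  have h := AlternatingMap.eq_smul_basis_det ω' ω.det
  have h2 := congrArg (fun f => f z) h
  simpa using h2

lemma det_ne_zero (ω ω' : Module.Basis (Fin n) K (Ω[K⁄k])) : ω.det ω' ≠ 0 := by
  have h := ω.isUnit_det ω'
  exact h.ne_zero

lemma FormOrd_change (w : DVal k K) (ω ω' : Module.Basis (Fin n) K (Ω[K⁄k])) {e : ℤ}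
    (he : w.FormOrd ω e) : w.FormOrd ω' (e + w.val (ω.det ω')) := by
  have hg := det_ne_zero ω ω'
  set g := ω.det ω' with hgdef
  have hchange : ∀ z : Fin n → Ω[K⁄k], ω'.det z = g⁻¹ * ω.det z := by
    intro z
    rw [det_change ω ω' z, ← hgdef]
    field_simp
  have hginv : w.ord g⁻¹ = ((-(w.val g) : ℤ) : WithTop ℤ) := by
    rw [w.ord_eq_val (inv_ne_zero hg), w.val_inv hg]
  constructor
  · intro y hy
    rw [hchange, w.ord.map_mul, hginv]
    have := he.1 y hy
    calc ((-(e + w.val g) : ℤ) : WithTop ℤ) = ((-(w.val g) : ℤ) : WithTop ℤ) + ((-e : ℤ) : WithTop ℤ) := by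
          rw [← WithTop.coe_add]; congr 1; ring
      _ ≤ _ := by gcongr
  · obtain ⟨y, hy, hyv⟩ := he.2
    refine ⟨y, hy, ?_⟩
    rw [hchange, w.ord.map_mul, hginv, hyv, ← WithTop.coe_add]
    congr 1; ring

lemma FormOrd_unique (w : DVal k K) (ω : Module.Basis (Fin n) K (Ω[K⁄k])) {e e' : ℤ}
    (he : w.FormOrd ω e) (he' : w.FormOrd ω e') : e = e' := by
  obtain ⟨y, hy, hyv⟩ := he.2
  obtain ⟨y', hy', hyv'⟩ := he'.2
  have h1 := he'.1 y hy
  have h2 := he.1 y' hy'
  rw [hyv] at h1
  rw [hyv'] at h2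
  have h3 : -e' ≤ -e := by exact_mod_cast h1
  have h4 : -e ≤ -e' := by exact_mod_cast h2
  omega

end Pool.Agent.H26
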