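import Mathlib
import Pool.Agent.H26.LogForm

/-! # The function field of a torus

`K` is a field of fractions of the ring of Laurent polynomials. -/

open scoped BigOperators
open KaehlerDifferential

namespace Pool.Agent.H26

set_option linter.unusedSectionVars false

universe u v

/-- Laurent polynomials in `n` variables: the coordinate ring of the torus `(𝔾_m)^n`. -/
abbrev Laurent (k : Type u) [Field k] (n : ℕ) := AddMonoidAlgebra k (Fin n → ℤ)

section

variable {k : Type u} [Field k] {n : ℕ} {K : Type v} [Field K] [Algebra k K]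
  [Algebra (Laurent k n) K] [IsScalarTower k (Laurent k n) K] [IsFractionRing (Laurent k n) K]

/-- the monomial (character) `χ^m` as a rational function -/
noncomputable def mono (k : Type u) [Field k] {n : ℕ} (K : Type v) [Field K]
    [Algebra (Laurent k n) K] (m : Fin n → ℤ) : K :=
  algebraMap (Laurent k n) K (AddMonoidAlgebra.single m 1)

lemma mono_zero : mono k K (0 : Fin n → ℤ) = 1 := by
  unfold mono
  rw [← AddMonoidAlgebra.one_def, map_one]

lemma mono_add (m m' : Fin n → ℤ) : mono k K (m + m') = mono k K m * mono k K m' := by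
  unfold mono
  rw [← map_mul, AddMonoidAlgebra.single_mul_single, one_mul]

lemma mono_ne_zero (m : Fin n → ℤ) : mono k K m ≠ 0 := by
  intro h
  have h1 : mono k K m * mono k K (-m) = 1 := by rw [← mono_add, add_neg_cancel, mono_zero]
  rw [h, zero_mul] at h1
  exact zero_ne_one h1

lemma mono_neg (m : Fin n → ℤ) : mono k K (-m) = (mono k K m)⁻¹ := by
  have h1 : mono k K m * mono k K (-m) = 1 := by rw [← mono_add, add_neg_cancel, mono_zero]
  exact eq_inv_of_mul_eq_one_right h1

lemma mono_sub (m m' : Fin n → ℤ) : mono k K (m - m') = mono k K m / mono k K m' := by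
  rw [sub_eq_add_neg, mono_add, mono_neg, div_eq_mul_inv]

/-- `mono` as a homomorphism to the units -/
noncomputable def monoHom (k : Type u) [Field k] (n : ℕ) (K : Type v) [Field K] [Algebra k K]
    [Algebra (Laurent k n) K] [IsScalarTower k (Laurent k n) K] [IsFractionRing (Laurent k n) K] :
    Multiplicative (Fin n → ℤ) →* K where
  toFun m := mono k K (Multiplicative.toAdd m)
  map_one' := mono_zero
  map_mul' _ _ := mono_add _ _

lemma mono_zsmul (c : ℤ) (m : Fin n → ℤ) : mono k K (c • m) = mono k K m ^ c := by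
  have h := map_zpow (monoHom k n K)
    (Multiplicative.ofAdd m) c
  simpa [monoHom] using h

lemma mono_sum {ι : Type*} (s : Finset ι) (f : ι → (Fin n → ℤ)) :
    mono k K (∑ i ∈ s, f i) = ∏ i ∈ s, mono k K (f i) := by
  classical
  induction s using Finset.induction_on with
  | empty => simp [mono_zero]
  | insert a s ha ih => rw [Finset.sum_insert ha, Finset.prod_insert ha, mono_add, ih]

/-- the `i`-th coordinate function -/
noncomputable def coord (k : Type u) [Field k] {n : ℕ} (K : Type v) [Field K]
    [Algebra (Laurent k n) K] (i : Fin n) : K :=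
  mono k K (Pi.single i 1)

lemma coord_ne_zero (i : Fin n) : coord k K i ≠ 0 := mono_ne_zero _

lemma mono_eq_prod (m : Fin n → ℤ) : mono k K m = ∏ i, coord k K i ^ m i := by
  have h : m = ∑ i, m i • (Pi.single i (1 : ℤ) : Fin n → ℤ) := by
    funext j
    simp [Finset.sum_apply, Pi.single_apply]
  conv_lhs => rw [h]
  rw [mono_sum]
  refine Finset.prod_congr rfl fun i _ => mono_zsmul _ _

lemma laurent_eq_sum (f : Laurent k n) :
    algebraMap (Laurent k n) K f =
      ∑ m ∈ f.coeff.support, algebraMap k K (f.coeff m) * mono k K m := by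
  conv_lhs => rw [← AddMonoidAlgebra.sum_coeff_single f]
  rw [Finsupp.sum, map_sum]
  refine Finset.sum_congr rfl fun m _ => ?_
  unfold mono
  rw [IsScalarTower.algebraMap_apply k (Laurent k n) K, ← map_mul]
  congr 1
  rw [AddMonoidAlgebra.coe_algebraMap]
  simp [AddMonoidAlgebra.single_mul_single]

lemma dlog_mono (m : Fin n → ℤ) :
    dlog k (mono k K m) = ∑ i, (m i : K) • dlog k (coord k K i) := by
  rw [mono_eq_prod, dlog_prod _ _ fun i _ => zpow_ne_zero _ (coord_ne_zero i)]
  refine Finset.sum_congr rfl fun i _ => dlog_zpow (coord_ne_zero i) _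

/-- weight vector of a valuation -/
noncomputable def wt (w : DVal k K) : Fin n → ℤ := fun i => w.val (coord k K i)

lemma val_mono (w : DVal k K) (m : Fin n → ℤ) :
    w.val (mono k K m) = m ⬝ᵥ wt w := by
  rw [mono_eq_prod, w.val_prod _ _ fun i _ => zpow_ne_zero _ (coord_ne_zero i)]
  unfold dotProduct wt
  refine Finset.sum_congr rfl fun i _ => w.val_zpow (coord_ne_zero i) _

lemma ord_mono (w : DVal k K) (m : Fin n → ℤ) :
    w.ord (mono k K m) = ((m ⬝ᵥ wt w : ℤ) : WithTop ℤ) := by
  rw [w.ord_eq_val (mono_ne_zero m), val_mono]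

lemma le_ord_laurent (w : DVal k K) (f : Laurent k n) (c : ℤ)
    (h : ∀ m ∈ f.coeff.support, c ≤ m ⬝ᵥ wt w) :
    (c : WithTop ℤ) ≤ w.ord (algebraMap (Laurent k n) K f) := by
  rw [laurent_eq_sum]
  refine w.ord.map_le_sum fun m hm => ?_
  rw [w.ord.map_mul, w.ord_algebraMap _ (Finsupp.mem_support_iff.1 hm), zero_add, ord_mono]
  exact_mod_cast h m hm

lemma lt_ord_laurent (w : DVal k K) (f : Laurent k n) (c : ℤ)
    (h : ∀ m ∈ f.coeff.support, c < m ⬝ᵥ wt w) :
    (c : WithTop ℤ) < w.ord (algebraMap (Laurent k n) K f) := by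
  have h1 := le_ord_laurent w f (c + 1) (fun m hm => h m hm)
  refine lt_of_lt_of_le ?_ h1
  exact_mod_cast lt_add_one c

/-! ## The logarithmic basis -/

lemma D_laurent (f : Laurent k n) :
    D k K (algebraMap (Laurent k n) K f) =
      ∑ i, (∑ m ∈ f.coeff.support,
        algebraMap k K (f.coeff m) * (m i : K) * mono k K m) •
        dlog k (coord k K i) := by
  rw [laurent_eq_sum, map_sum]
  simp_rw [Finset.sum_smul]
  rw [Finset.sum_comm]
  refine Finset.sum_congr rfl fun m _ => ?_
  rw [Derivation.leibniz, Derivation.map_algebraMap, smul_zero, add_zero,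
    D_eq_smul_dlog (mono_ne_zero m), dlog_mono, Finset.smul_sum, Finset.smul_sum]
  refine Finset.sum_congr rfl fun i _ => ?_
  rw [smul_smul, smul_smul]
  congr 1
  ring

lemma span_dlog : (⊤ : Submodule K (Ω[K⁄k])) ≤
    Submodule.span K (Set.range fun i => dlog k (coord k K (n := n) i)) := by
  rw [← KaehlerDifferential.span_range_derivation, Submodule.span_le]
  rintro _ ⟨x, rfl⟩
  obtain ⟨a, b, hb, rfl⟩ := IsFractionRing.div_surjective (Laurent k n) x
  have key : ∀ f : Laurent k n, D k K (algebraMap (Laurent k n) K f) ∈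
      Submodule.span K (Set.range fun i => dlog k (coord k K (n := n) i)) := by
    intro f
    rw [D_laurent]
    exact Submodule.sum_mem _ fun i _ => Submodule.smul_mem _ _ (Submodule.subset_span ⟨i, rfl⟩)
  rw [Derivation.leibniz_div]
  exact Submodule.smul_mem _ _ (Submodule.sub_mem _ (Submodule.smul_mem _ _ (key a))
    (Submodule.smul_mem _ _ (key b)))

/-- the basis of logarithmic forms `dlog x_i` -/
noncomputable def logBasis (ω : Module.Basis (Fin n) K (Ω[K⁄k])) :
    Module.Basis (Fin n) K (Ω[K⁄k]) :=
  haveI := Module.Finite.of_basis ω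
  basisOfTopLeSpanOfCardEqFinrank (fun i => dlog k (coord k K (n := n) i)) span_dlog
    (by rw [Module.finrank_eq_card_basis ω])

lemma logBasis_apply (ω : Module.Basis (Fin n) K (Ω[K⁄k])) (i : Fin n) :
    logBasis ω i = dlog k (coord k K i) := by
  simp [logBasis]

/-- the logarithmic derivative `x_i ∂/∂x_i` -/
noncomputable def theta (ω : Module.Basis (Fin n) K (Ω[K⁄k]))
    (i : Fin n) (x : K) : K := (logBasis ω).repr (D k _ x) i

lemma theta_laurent (ω : Module.Basis (Fin n) K (Ω[K⁄k]))
    (i : Fin n) (f : Laurent k n) :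
    theta ω i (algebraMap (Laurent k n) K f) = ∑ m ∈ f.coeff.support,
        algebraMap k K (f.coeff m) * (m i : K) * mono k K m := by
  unfold theta
  rw [D_laurent]
  have h : (∑ i, (∑ m ∈ f.coeff.support,
        algebraMap k K (f.coeff m) * (m i : K) * mono k K m) •
        dlog k (coord k K i)) = (∑ i, (∑ m ∈ f.coeff.support,
        algebraMap k K (f.coeff m) * (m i : K) * mono k K m) •
        logBasis ω i) := by
    refine Finset.sum_congr rfl fun i _ => by rw [logBasis_apply]
  rw [h]
  exact (logBasis ω).repr_sum_self _ ▸ rfl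

lemma theta_mul (ω : Module.Basis (Fin n) K (Ω[K⁄k]))
    (i : Fin n) (x y : K) : theta ω i (x * y) = x * theta ω i y + y * theta ω i x := by
  unfold theta
  rw [Derivation.leibniz, map_add, map_smul, map_smul]
  simp

lemma theta_add (ω : Module.Basis (Fin n) K (Ω[K⁄k]))
    (i : Fin n) (x y : K) : theta ω i (x + y) = theta ω i x + theta ω i y := by
  unfold theta
  rw [map_add, map_add]
  simp

lemma theta_sub (ω : Module.Basis (Fin n) K (Ω[K⁄k]))
    (i : Fin n) (x y : K) : theta ω i (x - y) = theta ω i x - theta ω i y := by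
  unfold theta
  rw [map_sub, map_sub]
  simp

lemma theta_div (ω : Module.Basis (Fin n) K (Ω[K⁄k]))
    (i : Fin n) (x y : K) :
    theta ω i (x / y) = y⁻¹ ^ 2 * (y * theta ω i x - x * theta ω i y) := by
  unfold theta
  rw [Derivation.leibniz_div, map_smul, map_sub, map_smul, map_smul]
  simp

lemma theta_mono (ω : Module.Basis (Fin n) K (Ω[K⁄k]))
    (i : Fin n) (m : Fin n → ℤ) : theta ω i (mono k K m) = (m i : K) * mono k K m := by
  have := theta_laurent ω i (AddMonoidAlgebra.single m 1)
  unfold mono at this ⊢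
  rw [this]
  simp [AddMonoidAlgebra.coeff_single]

lemma logBasis_det (ω : Module.Basis (Fin n) K (Ω[K⁄k]))
    (y : Fin n → K) :
    (logBasis ω).det (fun j => D k _ (y j)) = Matrix.det (Matrix.of fun i j => theta ω i (y j)) := by
  rw [Module.Basis.det_apply]
  rfl

end

end Pool.Agent.H26
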