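import Mathlib
import Pool.Agent.H26.Torus

/-! # Monomial valuations -/

open scoped BigOperators
open KaehlerDifferential

namespace Pool.Agent.H26

set_option linter.unusedSectionVars false

universe u v

variable {k : Type u} [Field k] {n : ℕ} {K : Type v} [Field K] [Algebra k K]
  [Algebra (Laurent k n) K] [IsScalarTower k (Laurent k n) K] [IsFractionRing (Laurent k n) K]

/-- the part of a Laurent polynomial supported on a set of exponents -/
noncomputable def restr (f : Laurent k n) (p : (Fin n → ℤ) → Prop) [DecidablePred p] :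
    Laurent k n := AddMonoidAlgebra.ofCoeff (f.coeff.filter p)

lemma restr_coeff (f : Laurent k n) (p : (Fin n → ℤ) → Prop) [DecidablePred p] :
    (restr f p).coeff = f.coeff.filter p := rfl

lemma restr_support (f : Laurent k n) (p : (Fin n → ℤ) → Prop) [DecidablePred p] :
    (restr f p).coeff.support = f.coeff.support.filter p := by
  rw [restr_coeff, Finsupp.support_filter]

lemma restr_add_restr_not (f : Laurent k n) (p : (Fin n → ℤ) → Prop) [DecidablePred p] :
    restr f p + restr f (fun m => ¬ p m) = f := by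
  have h : f.coeff.filter p + f.coeff.filter (fun m => ¬ p m) = f.coeff :=
    Finsupp.filter_add_filter_not _ _
  apply AddMonoidAlgebra.coeff_injective
  rw [AddMonoidAlgebra.coeff_add]
  exact h

/-- expansion of Laurent polynomials along the weight `w` -/
noncomputable def hahnHom (k : Type u) [Field k] {n : ℕ} (K : Type v) [Field K] [Algebra k K]
    [Algebra (Laurent k n) K] [IsScalarTower k (Laurent k n) K] [IsFractionRing (Laurent k n) K] (w : Fin n → ℤ) :
    Laurent k n →+* HahnSeries ℤ K :=
  AddMonoidAlgebra.liftNCRingHom (HahnSeries.C.comp (algebraMap k K))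
    { toFun := fun m => HahnSeries.single (Multiplicative.toAdd m ⬝ᵥ w)
        (mono k K (Multiplicative.toAdd m))
      map_one' := by
        rw [toAdd_one, zero_dotProduct, mono_zero]
        rfl
      map_mul' := by
        intro a b
        rw [toAdd_mul, add_dotProduct, mono_add, HahnSeries.single_mul_single] }
    (fun _ _ => Commute.all _ _)

lemma hahnHom_single (w : Fin n → ℤ) (m : Fin n → ℤ) (c : k) :
    hahnHom k K w (AddMonoidAlgebra.single m c) =
      HahnSeries.single (m ⬝ᵥ w) (algebraMap k K c * mono k K m) := by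
  unfold hahnHom
  rw [AddMonoidAlgebra.liftNCRingHom_single]
  change HahnSeries.single 0 _ * HahnSeries.single (m ⬝ᵥ w) (mono k K m) = _
  rw [HahnSeries.single_mul_single, zero_add]

lemma hahnHom_apply (w : Fin n → ℤ) (f : Laurent k n) :
    hahnHom k K w f = ∑ m ∈ f.coeff.support,
      HahnSeries.single (m ⬝ᵥ w) (algebraMap k K (f.coeff m) * mono k K m) := by
  conv_lhs => rw [← AddMonoidAlgebra.sum_coeff_single f]
  rw [Finsupp.sum, map_sum]
  refine Finset.sum_congr rfl fun m _ => hahnHom_single w m _

lemma hahnHom_coeff (w : Fin n → ℤ) (f : Laurent k n) (a : ℤ) :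
    (hahnHom k K w f).coeff a = algebraMap (Laurent k n) K
      (restr f fun m => m ⬝ᵥ w = a) := by
  rw [hahnHom_apply, laurent_eq_sum, restr_support, Finset.sum_filter, HahnSeries.coeff_sum]
  refine Finset.sum_congr rfl fun m _ => ?_
  rw [HahnSeries.coeff_single]
  split_ifs with h1 h2 h2
  · rw [restr_coeff, Finsupp.filter_apply_pos (fun m => m ⬝ᵥ w = a) _ h2]
  · exact absurd h1.symm h2
  · exact absurd h2.symm h1
  · rfl

lemma hahnHom_injective (w : Fin n → ℤ) : Function.Injective (hahnHom k K w) := by
  rw [injective_iff_map_eq_zero]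
  intro f hf
  by_contra hne
  have hsupp : f.coeff.support.Nonempty := by
    rw [Finsupp.support_nonempty_iff]
    intro h
    exact hne (AddMonoidAlgebra.coeff_injective h)
  obtain ⟨m, hm⟩ := hsupp
  have h1 := hahnHom_coeff (K := K) w f (m ⬝ᵥ w)
  rw [hf, HahnSeries.coeff_zero] at h1
  have h2 := (IsFractionRing.injective (Laurent k n) K) (h1.symm.trans (map_zero _).symm)
  have h3 : m ∈ (restr f fun m' => m' ⬝ᵥ w = m ⬝ᵥ w).coeff.support := by
    rw [restr_support, Finset.mem_filter]
    exact ⟨hm, rfl⟩
  rw [h2] at h3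
  simp at h3

/-- the expansion of rational functions along the weight `w` -/
noncomputable def hahnField (k : Type u) [Field k] {n : ℕ} (K : Type v) [Field K] [Algebra k K]
    [Algebra (Laurent k n) K] [IsScalarTower k (Laurent k n) K] [IsFractionRing (Laurent k n) K] (w : Fin n → ℤ) :
    K →+* HahnSeries ℤ K :=
  IsFractionRing.lift (A := Laurent k n) (g := hahnHom k K w)
    (hahnHom_injective w)

lemma hahnField_algebraMap (w : Fin n → ℤ) (f : Laurent k n) :
    hahnField k K w (algebraMap (Laurent k n) K f) = hahnHom k K w f :=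
  IsFractionRing.lift_algebraMap _ f

/-- the monomial valuation with weight `w` -/
noncomputable def monoVal (k : Type u) [Field k] {n : ℕ} (K : Type v) [Field K] [Algebra k K]
    [Algebra (Laurent k n) K] [IsScalarTower k (Laurent k n) K] [IsFractionRing (Laurent k n) K] (w : Fin n → ℤ) :
    AddValuation K (WithTop ℤ) :=
  (HahnSeries.addVal ℤ K).comap (hahnField k K w)

lemma monoVal_laurent_le (w : Fin n → ℤ) (f : Laurent k n) (m : Fin n → ℤ)
    (hm : m ∈ f.coeff.support) :
    monoVal k K w (algebraMap (Laurent k n) K f) ≤ ((m ⬝ᵥ w : ℤ) : WithTop ℤ) := by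
  change HahnSeries.addVal ℤ K (hahnField k K w _) ≤ _
  rw [hahnField_algebraMap]
  apply HahnSeries.addVal_le_of_coeff_ne_zero
  rw [hahnHom_coeff]
  intro h
  have h2 := (IsFractionRing.injective (Laurent k n) K) (h.trans (map_zero _).symm)
  have h3 : m ∈ (restr f fun m' => m' ⬝ᵥ w = m ⬝ᵥ w).coeff.support := by
    rw [restr_support, Finset.mem_filter]
    exact ⟨hm, rfl⟩
  rw [h2] at h3
  simp at h3

lemma monoVal_mono (w : Fin n → ℤ) (m : Fin n → ℤ) :
    monoVal k K w (mono k K m) = ((m ⬝ᵥ w : ℤ) : WithTop ℤ) := by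
  change HahnSeries.addVal ℤ K (hahnField k K w _) = _
  unfold mono
  rw [hahnField_algebraMap, HahnSeries.addVal_apply]
  have : hahnHom k K w (AddMonoidAlgebra.single m 1) = HahnSeries.single (m ⬝ᵥ w) (mono k K m) := by
    rw [hahnHom_single, map_one, one_mul]
  rw [this, HahnSeries.orderTop_single (mono_ne_zero m)]

lemma monoVal_const (w : Fin n → ℤ) (c : k) (hc : c ≠ 0) :
    monoVal k K w (algebraMap k K c) = 0 := by
  have h1 : algebraMap k K c =
      algebraMap (Laurent k n) K (AddMonoidAlgebra.single 0 c) := by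
    rw [IsScalarTower.algebraMap_apply k (Laurent k n) K,
      AddMonoidAlgebra.coe_algebraMap]
    rfl
  rw [h1]
  change HahnSeries.addVal ℤ K (hahnField k K w _) = _
  rw [hahnField_algebraMap, hahnHom_single, HahnSeries.addVal_apply, HahnSeries.orderTop_single
    (mul_ne_zero (by simpa using hc) (mono_ne_zero _)), zero_dotProduct]
  rfl

lemma exists_monoVal_laurent (w : Fin n → ℤ) (f : Laurent k n) (hf : f ≠ 0) :
    ∃ m ∈ f.coeff.support, (∀ m' ∈ f.coeff.support, m ⬝ᵥ w ≤ m' ⬝ᵥ w) ∧
      monoVal k K w (algebraMap (Laurent k n) K f) = ((m ⬝ᵥ w : ℤ) : WithTop ℤ) := by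
  have hsupp : f.coeff.support.Nonempty := by
    rw [Finsupp.support_nonempty_iff]
    intro h
    exact hf (AddMonoidAlgebra.coeff_injective h)
  obtain ⟨m, hm, hmin⟩ := f.coeff.support.exists_min_image (fun m => m ⬝ᵥ w) hsupp
  refine ⟨m, hm, hmin, le_antisymm (monoVal_laurent_le w f m hm) ?_⟩
  rw [laurent_eq_sum]
  refine (monoVal k K w).map_le_sum fun m' hm' => ?_
  rw [(monoVal k K w).map_mul, monoVal_mono]
  have h0 : monoVal k K w (algebraMap k K (f.coeff m')) = 0 := by
    have hc := Finsupp.mem_support_iff.1 hm'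
    exact monoVal_const w _ hc
  rw [h0, zero_add]
  exact_mod_cast hmin m' hm'

end Pool.Agent.H26
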