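import Mathlib
import Pool.Agent.H26.Monomial

/-! # Monomial valuations are divisorial, and the order of the logarithmic form -/

open scoped BigOperators
open KaehlerDifferential

namespace Pool.Agent.H26

set_option linter.unusedSectionVars false

universe u v

variable {k : Type u} [Field k] {n : ℕ} {K : Type v} [Field K] [Algebra k K]
  [Algebra (Laurent k n) K] [IsScalarTower k (Laurent k n) K] [IsFractionRing (Laurent k n) K]

/-- the normalised monomial valuation of a primitive weight -/
noncomputable def monoDVal (k : Type u) [Field k] {n : ℕ} (K : Type v) [Field K] [Algebra k K]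
    [Algebra (Laurent k n) K] [IsScalarTower k (Laurent k n) K] [IsFractionRing (Laurent k n) K] (w : Fin n → ℤ)
    (hw : ∃ m : Fin n → ℤ, m ⬝ᵥ w = 1) : DVal k K where
  ord := monoVal k K w
  ord_algebraMap := fun c hc => monoVal_const w c hc
  exists_ord_eq_one := by
    obtain ⟨m, hm⟩ := hw
    exact ⟨mono k K m, by rw [monoVal_mono, hm]; rfl⟩

lemma monoDVal_ord (w : Fin n → ℤ) (hw : ∃ m : Fin n → ℤ, m ⬝ᵥ w = 1) (x : K) :
    (monoDVal k K w hw).ord x = monoVal k K w x := rfl

lemma wt_monoDVal (w : Fin n → ℤ) (hw : ∃ m : Fin n → ℤ, m ⬝ᵥ w = 1) :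
    wt (monoDVal k K w hw) = w := by
  funext i
  have h := monoVal_mono (k := k) (K := K) w (Pi.single i 1)
  rw [single_one_dotProduct] at h
  exact (((monoDVal k K w hw).ord_eq_iff (x := coord k K i) (z := w i)).1 h).2

/-- auxiliary vectors orthogonal to the weight -/
def orthVec (w : Fin n → ℤ) (i0 j : Fin n) : Fin n → ℤ :=
  w i0 • Pi.single j 1 - w j • Pi.single i0 1

lemma orthVec_dot (w : Fin n → ℤ) (i0 j : Fin n) : orthVec w i0 j ⬝ᵥ w = 0 := by
  unfold orthVec
  rw [sub_dotProduct, smul_dotProduct, smul_dotProduct, single_one_dotProduct,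
    single_one_dotProduct]
  simp [mul_comm]

lemma orthVec_apply (w : Fin n → ℤ) (i0 j i : Fin n) (hi : i ≠ i0) :
    orthVec w i0 j i = if i = j then w i0 else 0 := by
  unfold orthVec
  simp [Pi.single_apply, hi]

lemma exists_weight_ne_zero (w : Fin n → ℤ) (hw : ∃ m : Fin n → ℤ, m ⬝ᵥ w = 1) :
    ∃ i0, w i0 ≠ 0 := by
  by_contra hcon
  push Not at hcon
  obtain ⟨m, hm⟩ := hw
  have : w = 0 := funext hcon
  rw [this, dotProduct_zero] at hm
  exact zero_ne_one hm

theorem monoDVal_isDivisorial (w : Fin n → ℤ) (hw : ∃ m : Fin n → ℤ, m ⬝ᵥ w = 1) :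
    (monoDVal k K w hw).IsDivisorial n := by
  classical
  obtain ⟨i0, hi0⟩ := exists_weight_ne_zero w hw
  cases n with
  | zero => exact i0.elim0
  | succ m =>
    refine ⟨m, fun j => mono k K (orthVec w i0 (i0.succAbove j)), rfl, ?_, ?_⟩
    · intro j
      rw [monoDVal_ord, monoVal_mono, orthVec_dot]
      rfl
    · intro P hP
      let E : (Fin m →₀ ℕ) → (Fin (m + 1) → ℤ) :=
        fun d => ∑ j, (d j : ℤ) • orthVec w i0 (i0.succAbove j)
      have hEdot : ∀ d, E d ⬝ᵥ w = 0 := by
        intro d
        simp only [E]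
        rw [sum_dotProduct]
        refine Finset.sum_eq_zero fun j _ => ?_
        rw [smul_dotProduct, orthVec_dot, smul_zero]
      have hEinj : Function.Injective E := by
        intro d d' hdd
        ext j
        have h1 := congrFun hdd (i0.succAbove j)
        simp only [E, Finset.sum_apply, Pi.smul_apply, smul_eq_mul] at h1
        have h2 : ∀ d : Fin m →₀ ℕ, ∑ x, (d x : ℤ) *
            orthVec w i0 (i0.succAbove x) (i0.succAbove j) = d j * w i0 := by
          intro d
          rw [Finset.sum_eq_single j]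
          · rw [orthVec_apply _ _ _ _ (Fin.succAbove_ne i0 j), if_pos rfl]
          · intro x _ hx
            rw [orthVec_apply _ _ _ _ (Fin.succAbove_ne i0 j), if_neg, mul_zero]
            intro h
            exact hx (Fin.succAbove_right_injective h).symm
          · simp
        rw [h2, h2] at h1
        have h3 := mul_right_cancel₀ hi0 h1
        exact_mod_cast h3
      let f : Laurent k (m + 1) := ∑ d ∈ P.support, AddMonoidAlgebra.single (E d) (P.coeff d)
      have hfc : ∀ e, f.coeff e = ∑ d ∈ P.support, if E d = e then P.coeff d else 0 := by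
        intro e
        simp only [f]
        rw [AddMonoidAlgebra.coeff_sum, Finsupp.finsetSum_apply]
        refine Finset.sum_congr rfl fun d _ => ?_
        rw [AddMonoidAlgebra.coeff_single, Finsupp.single_apply]
      have hfsupp : ∀ e ∈ f.coeff.support, e ⬝ᵥ w = 0 := by
        intro e he
        rw [Finsupp.mem_support_iff, hfc] at he
        obtain ⟨d, _, hd⟩ := Finset.exists_ne_zero_of_sum_ne_zero he
        by_cases h : E d = e
        · rw [← h, hEdot]
        · simp [h] at hd
      have hf0 : f ≠ 0 := by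
        intro h
        obtain ⟨d, hd⟩ := MvPolynomial.ne_zero_iff.1 hP
        have h1 := hfc (E d)
        rw [h, Finset.sum_eq_single d] at h1
        · simp at h1
          exact hd h1.symm
        · intro d' _ hne
          rw [if_neg]
          intro h2
          exact hne (hEinj h2)
        · intro h2
          simpa using MvPolynomial.notMem_support_iff.1 h2
      have hfeq : MvPolynomial.aeval (fun j => mono k K (orthVec w i0 (i0.succAbove j))) P =
          algebraMap (Laurent k (m + 1)) K f := by
        rw [MvPolynomial.aeval_def, MvPolynomial.eval₂_eq']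
        simp only [f]
        rw [map_sum]
        refine Finset.sum_congr rfl fun d _ => ?_
        have h1 : (AddMonoidAlgebra.single (E d) (P.coeff d) : Laurent k (m + 1)) =
            AddMonoidAlgebra.single 0 (P.coeff d) * AddMonoidAlgebra.single (E d) 1 := by
          rw [AddMonoidAlgebra.single_mul_single, zero_add, mul_one]
        have h2 : (AddMonoidAlgebra.single 0 (P.coeff d) : Laurent k (m + 1)) =
            algebraMap k (Laurent k (m + 1)) (P.coeff d) := by
          rw [AddMonoidAlgebra.coe_algebraMap]; rfl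
        rw [h1, map_mul, h2, ← IsScalarTower.algebraMap_apply]
        congr 1
        change _ = mono k K (E d)
        simp only [E]
        rw [mono_sum]
        refine Finset.prod_congr rfl fun j _ => ?_
        rw [mono_zsmul, zpow_natCast]
      rw [monoDVal_ord, hfeq]
      obtain ⟨e, he, _, hval⟩ := exists_monoVal_laurent (K := K) w f hf0
      rw [hval, hfsupp e he]
      rfl

variable (ω : Module.Basis (Fin n) K (Ω[K⁄k]))

/-- a valuation for which the logarithmic derivatives are nondecreasing on Laurent polynomials -/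
lemma monoVal_theta_laurent (w : Fin n → ℤ) (i : Fin n) (f : Laurent k n) (hf : f ≠ 0) :
    monoVal k K w (algebraMap (Laurent k n) K f) ≤
      monoVal k K w (theta ω i (algebraMap (Laurent k n) K f)) := by
  obtain ⟨m, hm, hmin, hval⟩ := exists_monoVal_laurent (K := K) w f hf
  rw [hval, theta_laurent]
  refine (monoVal k K w).map_le_sum fun m' hm' => ?_
  rw [(monoVal k K w).map_mul, (monoVal k K w).map_mul, monoVal_mono,
    monoVal_const w _ (Finsupp.mem_support_iff.1 hm'), zero_add]
  have h1 : (0 : WithTop ℤ) ≤ monoVal k K w (m' i : K) := by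
    have : ((m' i : ℤ) : K) = algebraMap k _ ((m' i : ℤ) : k) := by simp
    rw [this]
    by_cases h : ((m' i : ℤ) : k) = 0
    · rw [h]; simp
    · rw [monoVal_const w _ h]
  calc ((m ⬝ᵥ w : ℤ) : WithTop ℤ) ≤ ((m' ⬝ᵥ w : ℤ) : WithTop ℤ) := by exact_mod_cast hmin m' hm'
    _ = 0 + ((m' ⬝ᵥ w : ℤ) : WithTop ℤ) := by rw [zero_add]
    _ ≤ _ := by gcongr

lemma monoVal_theta (w : Fin n → ℤ) (i : Fin n) (x : K) :
    monoVal k K w x ≤ monoVal k K w (theta ω i x) := by
  by_cases hx : x = 0
  · subst hx
    have : theta ω i (0 : K) = 0 := by unfold theta; simp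
    rw [this]
  obtain ⟨a, b, hb, rfl⟩ := IsFractionRing.div_surjective (Laurent k n) x
  have hb0 : b ≠ 0 := nonZeroDivisors.ne_zero hb
  have ha0 : a ≠ 0 := by
    rintro rfl
    simp at hx
  set α := algebraMap (Laurent k n) K a with hα
  set β := algebraMap (Laurent k n) K b with hβ
  have hα0 : α ≠ 0 := by
    intro h
    exact ha0 ((IsFractionRing.injective (Laurent k n) K) (h.trans (map_zero _).symm))
  have hβ0 : β ≠ 0 := by
    intro h
    exact hb0 ((IsFractionRing.injective (Laurent k n) K) (h.trans (map_zero _).symm))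
  obtain ⟨c, hc⟩ := WithTop.ne_top_iff_exists.1 ((AddValuation.ne_top_iff (monoVal k K w)).2 hα0)
  obtain ⟨d, hd⟩ := WithTop.ne_top_iff_exists.1 ((AddValuation.ne_top_iff (monoVal k K w)).2 hβ0)
  have h1 := monoVal_theta_laurent ω w i a ha0
  have h2 := monoVal_theta_laurent ω w i b hb0
  rw [← hα, ← hc] at h1
  rw [← hβ, ← hd] at h2
  rw [theta_div, (monoVal k K w).map_mul, (monoVal k K w).map_pow, (monoVal k K w).map_inv,
    (monoVal k K w).map_div, ← hc, ← hd]
  have h3 : ((c + d : ℤ) : WithTop ℤ) ≤ monoVal k K w (β * theta ω i α - α * theta ω i β) := by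
    refine (monoVal k K w).map_le_sub ?_ ?_
    · rw [(monoVal k K w).map_mul, ← hd]
      calc ((c + d : ℤ) : WithTop ℤ) = (d : WithTop ℤ) + (c : WithTop ℤ) := by
            rw [← WithTop.coe_add, add_comm]
        _ ≤ _ := by gcongr
    · rw [(monoVal k K w).map_mul, ← hc]
      calc ((c + d : ℤ) : WithTop ℤ) = (c : WithTop ℤ) + (d : WithTop ℤ) := by
            rw [← WithTop.coe_add]
        _ ≤ _ := by gcongr
  calc (c : WithTop ℤ) - (d : WithTop ℤ) = ((c - d : ℤ) : WithTop ℤ) := by rfl
    _ = ((2 • (-d) : ℤ) : WithTop ℤ) + ((c + d : ℤ) : WithTop ℤ) := by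
        rw [← WithTop.coe_add]; congr 1; simp; ring
    _ ≤ 2 • (-(d : WithTop ℤ)) + _ := by
        refine add_le_add ?_ h3
        exact le_of_eq rfl

end Pool.Agent.H26
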