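import Mathlib
import Pool.Agent.H26.MonoDVal

/-! # The order of the logarithmic top form along monomial valuations -/

open scoped BigOperators
open KaehlerDifferential

namespace Pool.Agent.H26

set_option linter.unusedSectionVars false

universe u v

variable {k : Type u} [Field k] {n : ℕ} {K : Type v} [Field K] [Algebra k K]
  [Algebra (Laurent k n) K] [IsScalarTower k (Laurent k n) K] [IsFractionRing (Laurent k n) K]
variable (ω : Module.Basis (Fin n) K (Ω[K⁄k]))

/-- the derivation `∑ w_i θ_i` -/
noncomputable def thetaW (w : Fin n → ℤ) (x : K) : K :=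
  ∑ i, (w i : K) * theta ω i x

lemma thetaW_sub (w : Fin n → ℤ) (x y : K) :
    thetaW ω w (x - y) = thetaW ω w x - thetaW ω w y := by
  unfold thetaW
  rw [← Finset.sum_sub_distrib]
  refine Finset.sum_congr rfl fun i _ => ?_
  rw [theta_sub]; ring

lemma thetaW_div (w : Fin n → ℤ) (x y : K) :
    thetaW ω w (x / y) = y⁻¹ ^ 2 * (y * thetaW ω w x - x * thetaW ω w y) := by
  unfold thetaW
  rw [Finset.mul_sum, Finset.mul_sum, ← Finset.sum_sub_distrib, Finset.mul_sum]
  refine Finset.sum_congr rfl fun i _ => ?_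
  rw [theta_div]; ring

lemma thetaW_laurent (w : Fin n → ℤ) (f : Laurent k n) :
    thetaW ω w (algebraMap (Laurent k n) K f) = ∑ m ∈ f.coeff.support,
      algebraMap k K (f.coeff m) * ((m ⬝ᵥ w : ℤ) : K) * mono k K m := by
  unfold thetaW
  simp_rw [theta_laurent, Finset.mul_sum]
  rw [Finset.sum_comm]
  refine Finset.sum_congr rfl fun m _ => ?_
  unfold dotProduct
  push_cast
  rw [Finset.mul_sum, Finset.sum_mul]
  refine Finset.sum_congr rfl fun i _ => ?_
  ring

/-- the Euler relation up to higher order -/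
lemma monoVal_thetaW_laurent (w : Fin n → ℤ) (f : Laurent k n) (c : ℤ)
    (hc : monoVal k K w (algebraMap (Laurent k n) K f) = (c : WithTop ℤ)) :
    (c : WithTop ℤ) < monoVal k K w (thetaW ω w (algebraMap (Laurent k n) K f) -
      (c : K) * algebraMap (Laurent k n) K f) := by
  have hf : f ≠ 0 := by
    rintro rfl
    simp at hc
  obtain ⟨m0, hm0, hmin, hval⟩ := exists_monoVal_laurent (K := K) w f hf
  have hcm : c = m0 ⬝ᵥ w := by
    rw [hval] at hc
    exact_mod_cast hc.symm
  rw [thetaW_laurent]
  conv_rhs => rw [laurent_eq_sum f]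
  rw [Finset.mul_sum, ← Finset.sum_sub_distrib]
  have h1 : ((c + 1 : ℤ) : WithTop ℤ) ≤ monoVal k K w (∑ m ∈ f.coeff.support,
      (algebraMap k K (f.coeff m) * ((m ⬝ᵥ w : ℤ) : K) * mono k K m -
      (c : K) * (algebraMap k K (f.coeff m) * mono k K m))) := by
    refine (monoVal k K w).map_le_sum fun m hm => ?_
    have h2 : (algebraMap k K (f.coeff m) * ((m ⬝ᵥ w : ℤ) : K) * mono k K m -
      (c : K) * (algebraMap k K (f.coeff m) * mono k K m)) =
      algebraMap k K (f.coeff m * (((m ⬝ᵥ w - c : ℤ)) : k)) * mono k K m := by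
      rw [map_mul, map_intCast]
      push_cast
      ring
    rw [h2, (monoVal k K w).map_mul, monoVal_mono]
    by_cases hmc : m ⬝ᵥ w = c
    · have : f.coeff m * (((m ⬝ᵥ w - c : ℤ)) : k) = 0 := by rw [hmc]; simp
      rw [this, map_zero, AddValuation.map_zero, top_add]
      exact le_top
    · have h3 : c + 1 ≤ m ⬝ᵥ w := by
        have := hmin m hm
        omega
      have h4 : (0 : WithTop ℤ) ≤ monoVal k K w
          (algebraMap k K (f.coeff m * (((m ⬝ᵥ w - c : ℤ)) : k))) := by
        by_cases h5 : f.coeff m * (((m ⬝ᵥ w - c : ℤ)) : k) = 0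
        · rw [h5]; simp
        · rw [monoVal_const w _ h5]
      calc ((c + 1 : ℤ) : WithTop ℤ) ≤ ((m ⬝ᵥ w : ℤ) : WithTop ℤ) := by exact_mod_cast h3
        _ = 0 + ((m ⬝ᵥ w : ℤ) : WithTop ℤ) := by rw [zero_add]
        _ ≤ _ := by gcongr
  refine lt_of_lt_of_le ?_ h1
  exact_mod_cast lt_add_one c

lemma one_le_of_pos {a : WithTop ℤ} (h : 0 < a) : 1 ≤ a := by
  induction a using WithTop.recTopCoe with
  | top => exact le_top
  | coe a =>
    have : 0 < a := by exact_mod_cast h
    exact_mod_cast this

/-- the Euler derivation raises the order of elements of nonnegative order -/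
lemma monoVal_thetaW_pos (w : Fin n → ℤ) (x : K) (hx : 0 ≤ monoVal k K w x) :
    0 < monoVal k K w (thetaW ω w x) := by
  by_cases hx0 : x = 0
  · subst hx0
    have : thetaW ω w (0 : K) = 0 := by
      unfold thetaW theta; simp
    rw [this, AddValuation.map_zero]
    exact WithTop.coe_lt_top (0 : ℤ)
  obtain ⟨a, b, hb, rfl⟩ := IsFractionRing.div_surjective (Laurent k n) x
  have hb0 : b ≠ 0 := nonZeroDivisors.ne_zero hb
  have ha0 : a ≠ 0 := by
    rintro rfl
    simp at hx0
  set α := algebraMap (Laurent k n) K a with hα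
  set β := algebraMap (Laurent k n) K b with hβ
  have hα0 : α ≠ 0 := by
    intro h
    exact ha0 ((IsFractionRing.injective (Laurent k n) K) (h.trans (map_zero _).symm))
  have hβ0 : β ≠ 0 := by
    intro h
    exact hb0 ((IsFractionRing.injective (Laurent k n) K) (h.trans (map_zero _).symm))
  obtain ⟨c, hc⟩ := WithTop.ne_top_iff_exists.1 ((AddValuation.ne_top_iff (monoVal k K w)).2 hα0)
  obtain ⟨d, hd⟩ := WithTop.ne_top_iff_exists.1 ((AddValuation.ne_top_iff (monoVal k K w)).2 hβ0)
  have h1 := monoVal_thetaW_laurent ω w a c hc.symm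
  have h2 := monoVal_thetaW_laurent ω w b d hd.symm
  rw [← hα] at h1
  rw [← hβ] at h2
  have hcd : d ≤ c := by
    rw [(monoVal k K w).map_div, ← hc, ← hd] at hx
    have h3 : ((c : WithTop ℤ) - (d : WithTop ℤ)) = ((c - d : ℤ) : WithTop ℤ) := rfl
    rw [h3] at hx
    have h4 : 0 ≤ c - d := by exact_mod_cast hx
    omega
  have hkey : ((c + d : ℤ) : WithTop ℤ) < monoVal k K w (β * thetaW ω w α - α * thetaW ω w β) ∨
      (d < c ∧ ((c + d : ℤ) : WithTop ℤ) ≤ monoVal k K w (β * thetaW ω w α - α * thetaW ω w β)) := by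
    have heq : β * thetaW ω w α - α * thetaW ω w β =
        (β * (thetaW ω w α - c * α) - α * (thetaW ω w β - d * β)) + ((c - d : ℤ) : K) * (α * β) := by
      push_cast; ring
    have hA : ((c + d : ℤ) : WithTop ℤ) < monoVal k K w
        (β * (thetaW ω w α - c * α) - α * (thetaW ω w β - d * β)) := by
      rw [sub_eq_add_neg]
      refine (monoVal k K w).map_lt_add ?_ ?_
      · rw [(monoVal k K w).map_mul, ← hd, add_comm c d, WithTop.coe_add]
        exact WithTop.add_lt_add_left WithTop.coe_ne_top h1
      · rw [(monoVal k K w).map_neg, (monoVal k K w).map_mul, ← hc, WithTop.coe_add]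
        exact WithTop.add_lt_add_left WithTop.coe_ne_top h2
    rcases hcd.eq_or_lt with h | h
    · left
      rw [heq, h, sub_self]
      simpa [h] using hA
    · right
      refine ⟨h, ?_⟩
      rw [heq]
      refine (monoVal k K w).map_le_add hA.le ?_
      rw [(monoVal k K w).map_mul, (monoVal k K w).map_mul, ← hc, ← hd]
      have h5 : (0 : WithTop ℤ) ≤ monoVal k K w ((c - d : ℤ) : K) := by
        have : (((c - d : ℤ)) : K) = algebraMap k _ ((c - d : ℤ) : k) := by simp
        rw [this]
        by_cases h : ((c - d : ℤ) : k) = 0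
        · rw [h]; simp
        · rw [monoVal_const w _ h]
      calc ((c + d : ℤ) : WithTop ℤ) = 0 + ((c : WithTop ℤ) + (d : WithTop ℤ)) := by
            rw [zero_add, ← WithTop.coe_add]
        _ ≤ _ := by gcongr
  rw [thetaW_div, (monoVal k K w).map_mul, (monoVal k K w).map_pow, (monoVal k K w).map_inv, ← hd]
  have h6 : 2 • (-(d : WithTop ℤ)) = ((-(2 * d) : ℤ) : WithTop ℤ) := by
    have : -(d : WithTop ℤ) = ((-d : ℤ) : WithTop ℤ) := rfl
    rw [this, two_nsmul, ← WithTop.coe_add]
    congr 1; ring
  rw [h6]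
  rcases hkey with h | ⟨hlt, h⟩
  · calc (0 : WithTop ℤ) ≤ ((-(2 * d) + (c + d) : ℤ) : WithTop ℤ) := by
          exact_mod_cast (by omega : 0 ≤ -(2 * d) + (c + d))
      _ = ((-(2 * d) : ℤ) : WithTop ℤ) + ((c + d : ℤ) : WithTop ℤ) := by rw [← WithTop.coe_add]
      _ < _ := WithTop.add_lt_add_left WithTop.coe_ne_top h
  · calc (0 : WithTop ℤ) < ((-(2 * d) + (c + d) : ℤ) : WithTop ℤ) := by
          exact_mod_cast (by omega : 0 < -(2 * d) + (c + d))
      _ = ((-(2 * d) : ℤ) : WithTop ℤ) + ((c + d : ℤ) : WithTop ℤ) := by rw [← WithTop.coe_add]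
      _ ≤ _ := by gcongr

lemma map_det_nonneg {R : Type*} [CommRing R] (v : AddValuation R (WithTop ℤ)) (M : Matrix (Fin n) (Fin n) R)
    (i0 : Fin n) (h : ∀ i j, 0 ≤ v (M i j)) (h1 : ∀ j, 1 ≤ v (M i0 j)) : 1 ≤ v M.det := by
  rw [Matrix.det_apply]
  refine v.map_le_sum fun σ _ => ?_
  have h2 : v (Equiv.Perm.sign σ • ∏ i, M (σ i) i) = v (∏ i, M (σ i) i) := by
    rcases Int.units_eq_one_or (Equiv.Perm.sign σ) with h | h <;> rw [h]
    · simp
    · simp
  rw [h2]
  obtain ⟨j0, hj0⟩ : ∃ j0, σ j0 = i0 := σ.surjective i0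
  rw [← Finset.mul_prod_erase _ _ (Finset.mem_univ j0), v.map_mul, hj0]
  have h3 : ∀ s : Finset (Fin n), 0 ≤ v (∏ x ∈ s, M (σ x) x) := by
    intro s
    induction s using Finset.induction_on with
    | empty => simp
    | insert a s ha ih =>
      rw [Finset.prod_insert ha, v.map_mul]
      exact add_nonneg (h _ _) ih
  calc (1 : WithTop ℤ) = 1 + 0 := by rw [add_zero]
    _ ≤ _ := add_le_add (h1 j0) (h3 _)

/-- The logarithmic top form has order `-1` along every (normalised) monomial valuation. -/
theorem FormOrd_monoDVal [CharZero k] (w : Fin n → ℤ) (hw : ∃ m : Fin n → ℤ, m ⬝ᵥ w = 1) :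
    (monoDVal k K w hw).FormOrd (logBasis ω) (-1) := by
  classical
  obtain ⟨i0, hi0⟩ := exists_weight_ne_zero w hw
  have hi0k : ((w i0 : ℤ) : k) ≠ 0 := by exact_mod_cast hi0
  have hwi0 : monoVal k K w ((w i0 : ℤ) : K) = 0 := by
    have : (((w i0 : ℤ)) : K) = algebraMap k _ ((w i0 : ℤ) : k) := by simp
    rw [this, monoVal_const w _ hi0k]
  constructor
  · intro y hy
    rw [logBasis_det, monoDVal_ord]
    set T : Matrix (Fin n) (Fin n) K := Matrix.of fun i j => theta ω i (y j) with hT
    have h1 := Matrix.det_updateRow_sum T i0 (fun i => (w i : K))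
    have h2 : monoVal k K w (T.updateRow i0 (∑ i, (w i : K) • T i)).det =
        monoVal k K w T.det := by
      rw [h1, smul_eq_mul, (monoVal k K w).map_mul, hwi0, zero_add]
    rw [← h2]
    have h3 : ((-(-1) : ℤ) : WithTop ℤ) = 1 := rfl
    rw [h3]
    refine map_det_nonneg _ _ i0 ?_ ?_
    · intro i j
      by_cases hi : i = i0
      · subst hi
        rw [Matrix.updateRow_self]
        have h4 : (∑ i, (w i : K) • T i) j = thetaW ω w (y j) := by
          rw [Finset.sum_apply]
          rfl
        rw [h4]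
        exact (monoVal_thetaW_pos ω w (y j) (hy j)).le
      · rw [Matrix.updateRow_ne hi]
        exact le_trans (hy j) (monoVal_theta ω w i (y j))
    · intro j
      rw [Matrix.updateRow_self]
      have h4 : (∑ i, (w i : K) • T i) j = thetaW ω w (y j) := by
        rw [Finset.sum_apply]
        rfl
      rw [h4]
      exact one_le_of_pos (monoVal_thetaW_pos ω w (y j) (hy j))
  · obtain ⟨m1, hm1⟩ := hw
    let R : Fin n → Fin n → ℤ := fun j => if j = i0 then m1 else orthVec w i0 j
    have hR1 : R i0 = m1 := by simp [R]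
    have hR2 : ∀ j, j ≠ i0 → R j = orthVec w i0 j := fun j hj => by simp [R, hj]
    have hR : (Matrix.of R).det ≠ 0 := by
      intro hdet
      obtain ⟨v, hv0, hv⟩ := Matrix.exists_mulVec_eq_zero_iff.2 hdet
      have hrow : ∀ j, R j ⬝ᵥ v = 0 := fun j => congrFun hv j
      have h1 : m1 ⬝ᵥ v = 0 := by
        have := hrow i0
        rwa [hR1] at this
      have h2 : ∀ j, w i0 * v j = w j * v i0 := by
        intro j
        by_cases hj : j = i0
        · rw [hj]
        · have := hrow j
          rw [hR2 j hj] at this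
          unfold orthVec at this
          rw [sub_dotProduct, smul_dotProduct, smul_dotProduct, single_one_dotProduct,
            single_one_dotProduct] at this
          simp only [smul_eq_mul] at this
          linarith
      have h3 : v i0 = 0 := by
        have h4 : w i0 * (m1 ⬝ᵥ v) = v i0 * (m1 ⬝ᵥ w) := by
          unfold dotProduct
          rw [Finset.mul_sum, Finset.mul_sum]
          refine Finset.sum_congr rfl fun j _ => ?_
          calc w i0 * (m1 j * v j) = m1 j * (w i0 * v j) := by ring
            _ = m1 j * (w j * v i0) := by rw [h2]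
            _ = _ := by ring
        rw [h1, hm1] at h4
        simpa using h4.symm
      apply hv0
      funext j
      have h5 := h2 j
      rw [h3, mul_zero] at h5
      rcases mul_eq_zero.1 h5 with h | h
      · exact absurd h hi0
      · exact h
    refine ⟨fun j => mono k K (R j), ?_, ?_⟩
    · intro j
      rw [monoDVal_ord, monoVal_mono]
      by_cases hj : j = i0
      · rw [hj, hR1, hm1]
        exact_mod_cast zero_le_one
      · rw [hR2 j hj, orthVec_dot]
        rfl
    · rw [logBasis_det, monoDVal_ord]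
      have h1 : (Matrix.of fun i j => theta ω i (mono k K (R j))) =
          Matrix.of (fun i j => mono k K (R j) * (((Matrix.of R).transpose.map (fun x : ℤ => (x : K))) i j)) := by
        ext i j
        simp only [Matrix.of_apply, theta_mono, Matrix.map_apply, Matrix.transpose_apply]
        ring
      rw [h1, Matrix.det_mul_row]
      have h2 : ((Matrix.of R).transpose.map (fun x : ℤ => (x : K))).det =
          (((Matrix.of R).det : ℤ) : K) := by
        have := (Int.castRingHom K).map_det (Matrix.of R).transpose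
        rw [Matrix.det_transpose] at this
        exact this.symm
      rw [h2, (monoVal k K w).map_mul]
      have h3 : monoVal k K w (((Matrix.of R).det : ℤ) : K) = 0 := by
        have : ((((Matrix.of R).det : ℤ)) : K) = algebraMap k _ (((Matrix.of R).det : ℤ) : k) := by simp
        rw [this, monoVal_const]
        exact_mod_cast hR
      rw [h3, add_zero]
      have h4 : ∏ i, mono k K (R i) = mono k K (∑ i, R i) := (mono_sum _ _).symm
      rw [h4, monoVal_mono, sum_dotProduct]
      have h5 : ∑ i, R i ⬝ᵥ w = 1 := by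
        rw [Finset.sum_eq_single i0]
        · rw [hR1, hm1]
        · intro j _ hj
          rw [hR2 j hj, orthVec_dot]
        · simp
      rw [h5]
      rfl

end Pool.Agent.H26
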