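import Mathlib
import Pool.Agent.H26.Monomial

/-! # Initial forms, points of the torus and nondegeneracy -/

open scoped BigOperators
open KaehlerDifferential

namespace Pool.Agent.H26

set_option linter.unusedSectionVars false

universe u v

section

variable {k : Type u} [Field k] {n : ℕ} {K : Type v} [Field K] [Algebra k K]
  [Algebra (Laurent k n) K] [IsScalarTower k (Laurent k n) K] [IsFractionRing (Laurent k n) K]

open Classical in
/-- The initial form `in_w(f)` of a Laurent polynomial with respect to the weight `w`: the sum of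
its terms `c χ^m` for which `⟨m, w⟩` is minimal. -/
noncomputable def inForm (w : Fin n → ℤ) (f : Laurent k n) : Laurent k n :=
  restr f fun m => ∀ m' ∈ f.coeff.support, m ⬝ᵥ w ≤ m' ⬝ᵥ w

/-- The value of the monomial `χ^m` at the closed point `P` of the torus. -/
def monoAt (P : Fin n → kˣ) (m : Fin n → ℤ) : k := ((∏ i, P i ^ m i : kˣ) : k)

/-- The value `f(P)` of a Laurent polynomial at a closed point `P` of the torus. -/
noncomputable def evalAt (P : Fin n → kˣ) (f : Laurent k n) : k :=
  ∑ m ∈ f.coeff.support, f.coeff m * monoAt P m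

/-- The value `(x_i ∂f/∂x_i)(P)` of a logarithmic derivative of a Laurent polynomial at a closed
point of the torus. -/
noncomputable def logDerivAt (P : Fin n → kˣ) (i : Fin n) (f : Laurent k n) : k :=
  ∑ m ∈ f.coeff.support, f.coeff m * (m i : k) * monoAt P m

/-- The system of Laurent polynomials `f` is nondegenerate at the weight `w`: at each closed point
of the torus, those hypersurfaces `in_w(f_j) = 0` which contain the point are smooth there and meet
transversally. -/
def NondegAt {J : Type} (w : Fin n → ℤ) (f : J → Laurent k n) : Prop :=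
  ∀ P : Fin n → kˣ, LinearIndependent k
    (fun (j : {j : J // evalAt P (inForm w (f j)) = 0}) (i : Fin n) =>
      logDerivAt P i (inForm w (f j)))

lemma monoAt_add (P : Fin n → kˣ) (m m' : Fin n → ℤ) :
    monoAt P (m + m') = monoAt P m * monoAt P m' := by
  unfold monoAt
  rw [← Units.val_mul, ← Finset.prod_mul_distrib]
  congr 1
  refine Finset.prod_congr rfl fun i _ => ?_
  rw [Pi.add_apply, zpow_add]

lemma monoAt_zero (P : Fin n → kˣ) : monoAt P (0 : Fin n → ℤ) = 1 := by
  unfold monoAt; simp

lemma monoAt_ne_zero (P : Fin n → kˣ) (m : Fin n → ℤ) : monoAt P m ≠ 0 := Units.ne_zero _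

/-- `monoAt` as a homomorphism -/
def monoAtHom (P : Fin n → kˣ) : Multiplicative (Fin n → ℤ) →* k where
  toFun m := monoAt P (Multiplicative.toAdd m)
  map_one' := monoAt_zero P
  map_mul' _ _ := monoAt_add P _ _

/-- evaluation as an algebra homomorphism -/
noncomputable def evalHom (P : Fin n → kˣ) : Laurent k n →ₐ[k] k :=
  AddMonoidAlgebra.lift k k (Fin n → ℤ) (monoAtHom P)

lemma evalHom_apply (P : Fin n → kˣ) (f : Laurent k n) : evalHom P f = evalAt P f := by
  unfold evalHom evalAt
  rw [AddMonoidAlgebra.lift_apply]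
  rfl

/-- Hilbert's Nullstellensatz for the torus -/
theorem exists_point [IsAlgClosed k] (I : Ideal (Laurent k n)) (hI : I ≠ ⊤) :
    ∃ P : Fin n → kˣ, ∀ f ∈ I, evalAt P f = 0 := by
  obtain ⟨M, hM, hIM⟩ := Ideal.exists_le_maximal I hI
  let := Ideal.Quotient.field M
  have : Algebra.FiniteType k (Laurent k n ⧸ M) := inferInstance
  have : Module.Finite k (Laurent k n ⧸ M) := finite_of_finite_type_of_isJacobsonRing _ _
  have hbij := IsAlgClosed.algebraMap_bijective_of_isIntegral (k := k) (K := Laurent k n ⧸ M)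
  let e : k ≃ₐ[k] (Laurent k n ⧸ M) := AlgEquiv.ofBijective (Algebra.ofId _ _) hbij
  let φ : Laurent k n →ₐ[k] k := e.symm.toAlgHom.comp (Ideal.Quotient.mkₐ k M)
  have hφ : ∀ f ∈ I, φ f = 0 := by
    intro f hf
    have : Ideal.Quotient.mkₐ k M f = 0 := by
      rw [Ideal.Quotient.mkₐ_eq_mk, Ideal.Quotient.eq_zero_iff_mem]
      exact hIM hf
    change e.symm (Ideal.Quotient.mkₐ k M f) = 0
    rw [this, map_zero]
  let u : Multiplicative (Fin n → ℤ) →* k :=
    (φ : Laurent k n →* k).comp (AddMonoidAlgebra.of k (Fin n → ℤ))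
  let U : Multiplicative (Fin n → ℤ) →* kˣ := u.toHomUnits
  let P : Fin n → kˣ := fun i => U (Multiplicative.ofAdd (Pi.single i 1))
  refine ⟨P, fun f hf => ?_⟩
  rw [← hφ f hf, ← evalHom_apply]
  suffices h : evalHom P = φ by rw [h]
  refine AddMonoidAlgebra.algHom_ext (fun m => ?_) (by ext)
  have h1 : φ (AddMonoidAlgebra.single m 1) = ((U (Multiplicative.ofAdd m) : kˣ) : k) := rfl
  refine Eq.trans ?_ h1.symm
  unfold evalHom
  rw [AddMonoidAlgebra.lift_single, one_smul]
  change monoAt P m = _
  unfold monoAt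
  congr 1
  have h2 : m = ∑ i, m i • (Pi.single i (1 : ℤ) : Fin n → ℤ) := by
    funext j
    simp [Finset.sum_apply, Pi.single_apply]
  conv_rhs => rw [h2]
  rw [ofAdd_sum, map_prod]
  refine Finset.prod_congr rfl fun i _ => ?_
  rw [ofAdd_zsmul, map_zpow]


end

end Pool.Agent.H26
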