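import Mathlib
import Pool.Agent.H26.Nondeg

/-! # The lower bound for nondegenerate systems -/

open scoped BigOperators
open KaehlerDifferential

namespace Pool.Agent.H26

set_option linter.unusedSectionVars false

universe u v

section LinAlg

/-- independent vectors are completed by standard basis vectors -/
lemma exists_completion {k : Type u} [Field k] {n : ℕ} {ι : Type v} (R : ι → (Fin n → k))
    (hR : LinearIndependent k R) :
    ∃ c : Fin n → ι ⊕ Fin n, (∀ j, ∃ l, c l = Sum.inl j) ∧
      (Matrix.of fun l => Sum.elim R (fun i => Pi.single i (1 : k)) (c l)).det ≠ 0 := by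
  classical
  set v : ι ⊕ Fin n → (Fin n → k) := Sum.elim R (fun i => Pi.single i (1 : k)) with hv
  have hs : LinearIndepOn k v (Set.range (Sum.inl : ι → ι ⊕ Fin n)) := by
    have h1 : LinearIndependent k (v ∘ (Sum.inl : ι → ι ⊕ Fin n)) := hR
    exact (linearIndependent_equiv' (Equiv.ofInjective _ Sum.inl_injective) rfl).1 h1
  set b := hs.extend (Set.subset_univ _) with hb
  have hli : LinearIndepOn k v b := hs.linearIndepOn_extend _
  have hspan : ⊤ ≤ Submodule.span k (Set.range fun x : b => v x) := by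
    have h1 := hs.span_image_extend_eq_span_image (Set.subset_univ _)
    have h2 : (Set.range fun x : b => v x) = v '' b := by
      ext y; simp
    rw [h2, h1, Set.image_univ]
    have h3 : Submodule.span k (Set.range (fun i : Fin n => (Pi.single i (1 : k) : Fin n → k))) = ⊤ := by
      have := (Pi.basisFun k (Fin n)).span_eq
      convert this using 2
      ext x
      simp
    rw [← h3]
    refine Submodule.span_mono ?_
    rintro _ ⟨i, rfl⟩
    exact ⟨Sum.inr i, rfl⟩
  let B : Module.Basis b k (Fin n → k) := Module.Basis.mk hli hspan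
  let e : Fin n ≃ b := (Pi.basisFun k (Fin n)).indexEquiv B
  refine ⟨fun l => (e l : ι ⊕ Fin n), ?_, ?_⟩
  · intro j
    have hj : (Sum.inl j : ι ⊕ Fin n) ∈ b := hs.subset_extend _ ⟨j, rfl⟩
    exact ⟨e.symm ⟨_, hj⟩, by simp⟩
  · have h1 : LinearIndependent k (Matrix.of fun l => v (e l)).row := by
      have h2 : (Matrix.of fun l => v (e l)).row = (fun x : b => v x) ∘ e := rfl
      rw [h2]
      exact hli.comp _ e.injective
    have h3 := Matrix.linearIndependent_rows_iff_isUnit.1 h1
    rw [Matrix.isUnit_iff_isUnit_det] at h3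
    exact h3.ne_zero

variable {K : Type v} [Field K] (v : AddValuation K (WithTop ℤ))

lemma prod_close {ι : Type*} (s : Finset ι) (a a' : ι → K) (ha : ∀ i, 0 ≤ v (a i))
    (ha' : ∀ i, 0 ≤ v (a' i)) (h : ∀ i, 0 < v (a i - a' i)) :
    0 ≤ v (∏ i ∈ s, a i) ∧ 0 ≤ v (∏ i ∈ s, a' i) ∧ 0 < v (∏ i ∈ s, a i - ∏ i ∈ s, a' i) := by
  classical
  induction s using Finset.induction_on with
  | empty =>
    simp only [Finset.prod_empty, sub_self, v.map_zero, v.map_one, le_refl, true_and]
    exact WithTop.coe_lt_top (0 : ℤ)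
  | insert x s hx ih =>
    obtain ⟨h1, h2, h3⟩ := ih
    rw [Finset.prod_insert hx, Finset.prod_insert hx]
    refine ⟨?_, ?_, ?_⟩
    · rw [v.map_mul]; exact add_nonneg (ha _) h1
    · rw [v.map_mul]; exact add_nonneg (ha' _) h2
    · have heq : a x * ∏ i ∈ s, a i - a' x * ∏ i ∈ s, a' i =
          a x * (∏ i ∈ s, a i - ∏ i ∈ s, a' i) + (a x - a' x) * ∏ i ∈ s, a' i := by ring
      rw [heq]
      refine v.map_lt_add ?_ ?_
      · rw [v.map_mul]; exact lt_of_lt_of_le h3 (le_add_of_nonneg_left (ha _))
      · rw [v.map_mul]; exact lt_of_lt_of_le (h x) (le_add_of_nonneg_right h2)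

lemma det_close {n : ℕ} (M M' : Matrix (Fin n) (Fin n) K) (hM : ∀ i j, 0 ≤ v (M i j))
    (hM' : ∀ i j, 0 ≤ v (M' i j)) (h : ∀ i j, 0 < v (M i j - M' i j)) :
    0 < v (M.det - M'.det) := by
  rw [Matrix.det_apply, Matrix.det_apply, ← Finset.sum_sub_distrib]
  have key : ((1 : ℤ) : WithTop ℤ) ≤ v (∑ σ : Equiv.Perm (Fin n),
      (Equiv.Perm.sign σ • ∏ i, M (σ i) i - Equiv.Perm.sign σ • ∏ i, M' (σ i) i)) := by
    refine v.map_le_sum fun σ _ => ?_
    have h1 := (prod_close v Finset.univ (fun i => M (σ i) i) (fun i => M' (σ i) i)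
      (fun i => hM _ _) (fun i => hM' _ _) (fun i => h _ _)).2.2
    have h2 : v (Equiv.Perm.sign σ • ∏ i, M (σ i) i - Equiv.Perm.sign σ • ∏ i, M' (σ i) i) =
        v (∏ i, M (σ i) i - ∏ i, M' (σ i) i) := by
      rcases Int.units_eq_one_or (Equiv.Perm.sign σ) with h | h <;> rw [h]
      · simp
      · rw [← smul_sub, Units.neg_smul, one_smul, v.map_neg]
    rw [h2]
    revert h1
    generalize v (∏ i, M (σ i) i - ∏ i, M' (σ i) i) = a
    intro h1
    induction a using WithTop.recTopCoe with
    | top => exact le_top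
    | coe a =>
      have : 0 < a := by exact_mod_cast h1
      exact_mod_cast this
  exact lt_of_lt_of_le (by exact_mod_cast one_pos) key

end LinAlg

section

variable {k : Type u} [Field k] {n : ℕ} {K : Type v} [Field K] [Algebra k K]
  [Algebra (Laurent k n) K] [IsScalarTower k (Laurent k n) K] [IsFractionRing (Laurent k n) K]

/-- Laurent polynomials of degree zero with respect to the weight `w` -/
noncomputable def degZero (k : Type u) [Field k] {n : ℕ} (w : Fin n → ℤ) :
    Subalgebra k (Laurent k n) where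
  carrier := {f | ∀ m ∈ f.coeff.support, m ⬝ᵥ w = 0}
  mul_mem' := by
    classical
    intro f g hf hg m hm
    have h1 := AddMonoidAlgebra.support_coeff_mul_subset f g hm
    obtain ⟨a, ha, b, hb, rfl⟩ := Finset.mem_add.1 h1
    rw [add_dotProduct, hf a ha, hg b hb, add_zero]
  add_mem' := by
    classical
    intro f g hf hg m hm
    rw [AddMonoidAlgebra.coeff_add] at hm
    rcases Finset.mem_union.1 (Finsupp.support_add hm) with h | h
    · exact hf m h
    · exact hg m h
  algebraMap_mem' := by
    intro c m hm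
    rw [AddMonoidAlgebra.coe_algebraMap] at hm
    have hm' := Finsupp.support_single_subset hm
    rw [Finset.mem_singleton] at hm'
    rw [hm', zero_dotProduct]

lemma mem_degZero {w : Fin n → ℤ} {f : Laurent k n} :
    f ∈ degZero k w ↔ ∀ m ∈ f.coeff.support, m ⬝ᵥ w = 0 := Iff.rfl

lemma restr_zero_mem_degZero (w : Fin n → ℤ) (f : Laurent k n) :
    restr f (fun m => m ⬝ᵥ w = 0) ∈ degZero k w := by
  intro m hm
  rw [restr_support, Finset.mem_filter] at hm
  exact hm.2

lemma restr_add (f g : Laurent k n) (p : (Fin n → ℤ) → Prop) [DecidablePred p] :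
    restr (f + g) p = restr f p + restr g p := by
  apply AddMonoidAlgebra.coeff_injective
  rw [AddMonoidAlgebra.coeff_add, restr_coeff, restr_coeff, restr_coeff,
    AddMonoidAlgebra.coeff_add, Finsupp.filter_add]

lemma restr_sum {ι : Type*} (s : Finset ι) (f : ι → Laurent k n) (p : (Fin n → ℤ) → Prop)
    [DecidablePred p] : restr (∑ i ∈ s, f i) p = ∑ i ∈ s, restr (f i) p := by
  classical
  induction s using Finset.induction_on with
  | empty =>
    simp only [Finset.sum_empty]
    apply AddMonoidAlgebra.coeff_injective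
    rw [restr_coeff]
    exact Finsupp.filter_zero _
  | insert a s ha ih => rw [Finset.sum_insert ha, Finset.sum_insert ha, restr_add, ih]

lemma restr_eq_self {f : Laurent k n} {p : (Fin n → ℤ) → Prop} [DecidablePred p]
    (h : ∀ m ∈ f.coeff.support, p m) : restr f p = f := by
  apply AddMonoidAlgebra.coeff_injective
  rw [restr_coeff, Finsupp.filter_eq_self_iff]
  intro m hm
  exact h m (Finsupp.mem_support_iff.2 hm)

lemma restr_eq_zero {f : Laurent k n} {p : (Fin n → ℤ) → Prop} [DecidablePred p]
    (h : ∀ m ∈ f.coeff.support, ¬ p m) : restr f p = 0 := by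
  apply AddMonoidAlgebra.coeff_injective
  rw [restr_coeff, AddMonoidAlgebra.coeff_zero, Finsupp.filter_eq_zero_iff]
  intro m hm
  by_contra h2
  exact h m (Finsupp.mem_support_iff.2 h2) hm

/-- the projection to degree zero is linear over degree zero -/
lemma restr_mul (w : Fin n → ℤ) (a g : Laurent k n) (hg : g ∈ degZero k w) :
    restr (a * g) (fun m => m ⬝ᵥ w = 0) = restr a (fun m => m ⬝ᵥ w = 0) * g := by
  classical
  have h1 := restr_add_restr_not a (fun m => m ⬝ᵥ w = 0)
  have e1 : restr (restr a (fun m => m ⬝ᵥ w = 0) * g) (fun m => m ⬝ᵥ w = 0) =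
      restr a (fun m => m ⬝ᵥ w = 0) * g :=
    restr_eq_self ((degZero k w).mul_mem (restr_zero_mem_degZero w a) hg)
  have e2 : restr (restr a (fun m => ¬ m ⬝ᵥ w = 0) * g) (fun m => m ⬝ᵥ w = 0) = 0 := by
    refine restr_eq_zero fun m hm => ?_
    have h2 := AddMonoidAlgebra.support_coeff_mul_subset _ _ hm
    obtain ⟨x, hx, y, hy, rfl⟩ := Finset.mem_add.1 h2
    rw [restr_support, Finset.mem_filter] at hx
    rw [add_dotProduct, hg y hy, add_zero]
    exact hx.2
  conv_lhs => rw [← h1, add_mul, restr_add, e1, e2, add_zero]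

lemma ord_nonneg_of_degZero (v : DVal k K) {f : Laurent k n}
    (hf : f ∈ degZero k (wt v)) : 0 ≤ v.ord (algebraMap (Laurent k n) K f) :=
  le_ord_laurent v f 0 fun m hm => (hf m hm).ge

/-- `x_i ∂/∂x_i` on Laurent polynomials -/
noncomputable def thetaL (i : Fin n) (f : Laurent k n) : Laurent k n :=
  ∑ m ∈ f.coeff.support, AddMonoidAlgebra.single m (f.coeff m * (m i : k))

lemma algebraMap_single (m : Fin n → ℤ) (c : k) :
    algebraMap (Laurent k n) K (AddMonoidAlgebra.single m c) =
      algebraMap k K c * mono k K m := by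
  unfold mono
  rw [IsScalarTower.algebraMap_apply k (Laurent k n) K, ← map_mul]
  congr 1
  rw [AddMonoidAlgebra.coe_algebraMap]
  simp [AddMonoidAlgebra.single_mul_single]

lemma algebraMap_thetaL (ω : Module.Basis (Fin n) K (Ω[K⁄k]))
    (i : Fin n) (f : Laurent k n) :
    algebraMap (Laurent k n) K (thetaL i f) =
      theta ω i (algebraMap (Laurent k n) K f) := by
  rw [theta_laurent]
  unfold thetaL
  rw [map_sum]
  refine Finset.sum_congr rfl fun m _ => ?_
  rw [algebraMap_single, map_mul, map_intCast]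

lemma evalHom_single (P : Fin n → kˣ) (m : Fin n → ℤ) (c : k) :
    evalHom P (AddMonoidAlgebra.single m c) = c * monoAt P m := by
  unfold evalHom
  rw [AddMonoidAlgebra.lift_single]
  rfl

lemma evalAt_thetaL (P : Fin n → kˣ) (i : Fin n) (f : Laurent k n) :
    evalHom P (thetaL i f) = logDerivAt P i f := by
  unfold thetaL logDerivAt
  rw [map_sum]
  refine Finset.sum_congr rfl fun m _ => ?_
  rw [evalHom_single]

lemma thetaL_support (i : Fin n) (f : Laurent k n) {m : Fin n → ℤ}
    (hm : m ∈ (thetaL i f).coeff.support) : m ∈ f.coeff.support := by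
  classical
  unfold thetaL at hm
  rw [AddMonoidAlgebra.coeff_sum] at hm
  obtain ⟨m', hm', h⟩ := Finset.mem_biUnion.1 (Finsupp.support_finsetSum hm)
  rw [AddMonoidAlgebra.coeff_single] at h
  have := Finsupp.support_single_subset h
  rw [Finset.mem_singleton] at this
  rw [this]; exact hm'

end

end Pool.Agent.H26
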