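import Mathlib
import Pool.Agent.H26.StepD
import Pool.Agent.H26.FormMono

/-! # The lower bound for nondegenerate systems, second part -/

open scoped BigOperators
open KaehlerDifferential

namespace Pool.Agent.H26

set_option linter.unusedSectionVars false

universe u v

section

variable {k : Type u} [Field k] {n : ℕ} {K : Type v} [Field K] [Algebra k K]
  [Algebra (Laurent k n) K] [IsScalarTower k (Laurent k n) K] [IsFractionRing (Laurent k n) K]

/-- `μ` is the minimal weight of the monomials of `f` -/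
def IsMinWt (w : Fin n → ℤ) (f : Laurent k n) (μ : ℤ) : Prop :=
  (∃ m ∈ f.coeff.support, m ⬝ᵥ w = μ) ∧ ∀ m ∈ f.coeff.support, μ ≤ m ⬝ᵥ w

lemma exists_isMinWt (w : Fin n → ℤ) (f : Laurent k n) (hf : f ≠ 0) : ∃ μ, IsMinWt w f μ := by
  have hsupp : f.coeff.support.Nonempty := by
    rw [Finsupp.support_nonempty_iff]
    intro h
    exact hf (AddMonoidAlgebra.coeff_injective h)
  obtain ⟨m, hm, hmin⟩ := f.coeff.support.exists_min_image (fun m => m ⬝ᵥ w) hsupp
  exact ⟨m ⬝ᵥ w, ⟨m, hm, rfl⟩, hmin⟩

lemma mem_inForm_support {w : Fin n → ℤ} {f : Laurent k n} {μ : ℤ} (h : IsMinWt w f μ)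
    {m : Fin n → ℤ} : m ∈ (inForm w f).coeff.support ↔ m ∈ f.coeff.support ∧ m ⬝ᵥ w = μ := by
  classical
  unfold inForm
  rw [restr_support, Finset.mem_filter]
  refine and_congr_right fun hm => ⟨fun h1 => ?_, fun h1 m' hm' => ?_⟩
  · obtain ⟨m', hm', hmu⟩ := h.1
    exact le_antisymm (hmu ▸ h1 m' hm') (h.2 m hm)
  · rw [h1]; exact h.2 m' hm'

lemma mem_sub_inForm_support {w : Fin n → ℤ} {f : Laurent k n} {μ : ℤ} (h : IsMinWt w f μ)
    {m : Fin n → ℤ} (hm : m ∈ (f - inForm w f).coeff.support) :
    m ∈ f.coeff.support ∧ μ < m ⬝ᵥ w := by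
  classical
  have h1 : f - inForm w f =
      restr f (fun m => ¬ ∀ m' ∈ f.coeff.support, m ⬝ᵥ w ≤ m' ⬝ᵥ w) := by
    have := restr_add_restr_not f (fun m => ∀ m' ∈ f.coeff.support, m ⬝ᵥ w ≤ m' ⬝ᵥ w)
    rw [sub_eq_iff_eq_add, add_comm]
    refine this.symm.trans ?_
    unfold inForm
    congr
  rw [h1, restr_support, Finset.mem_filter] at hm
  refine ⟨hm.1, lt_of_le_of_ne (h.2 m hm.1) fun heq => hm.2 fun m' hm' => ?_⟩
  rw [← heq]; exact h.2 m' hm'

lemma det_mem_subalgebra {R : Type*} [CommRing R] [Algebra k R] (S : Subalgebra k R)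
    (M : Matrix (Fin n) (Fin n) R) (h : ∀ i j, M i j ∈ S) : M.det ∈ S := by
  rw [Matrix.det_apply]
  refine S.sum_mem fun σ _ => ?_
  have h1 : ∏ i, M (σ i) i ∈ S := S.prod_mem fun i _ => h _ _
  rcases Int.units_eq_one_or (Equiv.Perm.sign σ) with h | h <;> rw [h]
  · simpa using h1
  · simpa using h1

lemma pos_of_not_le {a : WithTop ℤ} (h : ¬ a ≤ 0) : 0 < a := not_le.1 h

variable (ω : Module.Basis (Fin n) K (Ω[K⁄k]))

/-- **The main lower bound.** The logarithmic discrepancy of a divisorial valuation is at least the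
sum of the excesses of the members of a nondegenerate system. -/
theorem nondeg_bound [IsAlgClosed k] (v : DVal k K) (e : ℤ)
    (he : v.FormOrd (logBasis ω) e) {J : Type} [Fintype J] (f : J → Laurent k n)
    (hnd : NondegAt (wt v) f) (μ : J → ℤ) (hμ : ∀ j, IsMinWt (wt v) (f j) (μ j)) :
    ∑ j, (v.val (algebraMap (Laurent k n) K (f j)) - μ j) ≤ e + 1 := by
  classical
  set w : Fin n → ℤ := wt v with hw
  set ι := algebraMap (Laurent k n) K with hι
  have hιinj : Function.Injective ι := IsFractionRing.injective _ _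
  have hf0 : ∀ j, ι (f j) ≠ 0 := by
    intro j h
    have h1 := hιinj (h.trans (map_zero ι).symm)
    obtain ⟨m, hm, _⟩ := (hμ j).1
    rw [h1] at hm
    simp at hm
  have hge : ∀ j, μ j ≤ v.val (ι (f j)) := by
    intro j
    have h1 := le_ord_laurent v (f j) (μ j) (hμ j).2
    exact (v.le_ord_iff.1 h1).resolve_left (hf0 j)
  choose m hm hmw using fun j => (hμ j).1
  let J0 : Type := {j : J // μ j < v.val (ι (f j))}
  let Rw : J0 ⊕ Fin n → Fin n → Laurent k n :=
    Sum.elim (fun j i => AddMonoidAlgebra.single (-(m j.1)) 1 * thetaL i (inForm w (f j.1)))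
      (fun i0 => Pi.single i0 1)
  have hsingle : ∀ (j : J) (g : Laurent k n), (∀ x ∈ g.coeff.support, x ⬝ᵥ w = μ j) →
      AddMonoidAlgebra.single (-(m j)) 1 * g ∈ degZero k w := by
    intro j g hg x hx
    have h1 := AddMonoidAlgebra.support_coeff_single_mul_subset g (1 : k) (-(m j)) hx
    obtain ⟨y, hy, rfl⟩ := Finset.mem_image.1 h1
    rw [add_dotProduct, neg_dotProduct, hmw, hg y hy]
    ring
  have hRw : ∀ x i, Rw x i ∈ degZero k w := by
    rintro (j | i0) i
    · exact hsingle j.1 _ fun x hx => ((mem_inForm_support (hμ j.1)).1 (thetaL_support i _ hx)).2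
    · simp only [Rw, Sum.elim_inr, Pi.single_apply]
      split_ifs
      · exact (degZero k w).one_mem
      · exact (degZero k w).zero_mem
  let C : Type := {c : Fin n → J0 ⊕ Fin n // ∀ j, ∃ l, c l = Sum.inl j}
  let Dm : C → Laurent k n := fun c => (Matrix.of fun l => Rw (c.1 l)).det
  have hDm : ∀ c, Dm c ∈ degZero k w := fun c => det_mem_subalgebra _ _ fun l i => hRw _ _
  let G : J0 ⊕ C → Laurent k n :=
    Sum.elim (fun j => AddMonoidAlgebra.single (-(m j.1)) 1 * inForm w (f j.1)) Dm
  have hG : ∀ x, G x ∈ degZero k w := by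
    rintro (j | c)
    · exact hsingle j.1 _ fun x hx => ((mem_inForm_support (hμ j.1)).1 hx).2
    · exact hDm c
  -- the ideal generated is the unit ideal
  have htop : Ideal.span (Set.range G) = ⊤ := by
    by_contra hne
    obtain ⟨P, hP⟩ := exists_point _ hne
    have hP' : ∀ x, evalHom P (G x) = 0 := fun x => by
      rw [evalHom_apply]; exact hP _ (Ideal.subset_span ⟨x, rfl⟩)
    have hin : ∀ j : J0, evalAt P (inForm w (f j.1)) = 0 := by
      intro j
      have h1 := hP' (Sum.inl j)
      simp only [G, Sum.elim_inl] at h1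
      rw [map_mul, evalHom_single, one_mul, evalHom_apply] at h1
      exact (mul_eq_zero.1 h1).resolve_left (monoAt_ne_zero P _)
    have hli1 : LinearIndependent k (fun (j : J0) (i : Fin n) =>
        logDerivAt P i (inForm w (f j.1))) := by
      have h1 := (hnd P).comp (fun j : J0 => (⟨j.1, hin j⟩ : {j : J // evalAt P (inForm w (f j)) = 0}))
        (by
          intro a b hab
          have := congrArg Subtype.val hab
          exact Subtype.ext this)
      exact h1
    have hli2 : LinearIndependent k (fun (j : J0) (i : Fin n) =>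
        monoAt P (-(m j.1)) * logDerivAt P i (inForm w (f j.1))) := by
      have h1 := hli1.units_smul (fun j : J0 => Units.mk0 (monoAt P (-(m j.1))) (monoAt_ne_zero P _))
      exact h1
    obtain ⟨c, hc1, hc2⟩ := exists_completion _ hli2
    have h2 := hP' (Sum.inr ⟨c, hc1⟩)
    simp only [G, Sum.elim_inr, Dm] at h2
    rw [AlgHom.map_det] at h2
    apply hc2
    rw [← h2]
    congr 1
    ext l i
    simp only [Matrix.of_apply, AlgHom.mapMatrix_apply, Matrix.map_apply]
    rcases c l with j | i0
    · simp only [Rw, Sum.elim_inl]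
      rw [map_mul, evalHom_single, one_mul, evalAt_thetaL]
    · simp only [Rw, Sum.elim_inr, Pi.single_apply]
      split_ifs
      · rw [map_one]
      · rw [map_zero]
  have h1mem : (1 : Laurent k n) ∈ Ideal.span (Set.range G) := by rw [htop]; trivial
  obtain ⟨a, ha⟩ := Ideal.mem_span_range_iff_exists_fun.1 h1mem
  have hres : ∑ x, restr (a x) (fun m => m ⬝ᵥ w = 0) * G x = 1 := by
    have h1 := congrArg (fun f => restr f (fun m => m ⬝ᵥ w = 0)) ha
    simp only [restr_sum] at h1
    rw [restr_eq_self (f := (1 : Laurent k n))] at h1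
    · rw [← h1]
      exact Finset.sum_congr rfl fun x _ => (restr_mul w (a x) (G x) (hG x)).symm
    · exact (degZero k w).one_mem
  -- some determinant is a unit
  obtain ⟨c, hc⟩ : ∃ c : C, v.ord (ι (Dm c)) ≤ 0 := by
    by_contra hcon
    push Not at hcon
    have hall : ∀ x, 0 < v.ord (ι (restr (a x) (fun m => m ⬝ᵥ w = 0) * G x)) := by
      intro x
      rw [map_mul, v.ord.map_mul]
      have h1 : 0 ≤ v.ord (ι (restr (a x) (fun m => m ⬝ᵥ w = 0))) :=
        ord_nonneg_of_degZero v (restr_zero_mem_degZero w _)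
      refine lt_of_lt_of_le ?_ (le_add_of_nonneg_left h1)
      rcases x with j | c
      · simp only [G, Sum.elim_inl]
        rw [map_mul, v.ord.map_mul]
        have h2 : ((μ j.1 : ℤ) : WithTop ℤ) < v.ord (ι (inForm w (f j.1))) := by
          have h3 : inForm w (f j.1) = f j.1 + (-(f j.1 - inForm w (f j.1))) := by ring
          rw [h3, map_add, map_neg]
          refine v.ord.map_lt_add ?_ ?_
          · rw [v.lt_ord_iff]; exact Or.inr j.2
          · rw [v.ord.map_neg]
            exact lt_ord_laurent v _ _ fun m hm => (mem_sub_inForm_support (hμ j.1) hm).2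
        have h4 : v.ord (ι (AddMonoidAlgebra.single (-(m j.1)) 1)) = ((-(μ j.1) : ℤ) : WithTop ℤ) := by
          have : ι (AddMonoidAlgebra.single (-(m j.1)) 1) = mono k K (-(m j.1)) := rfl
          rw [this, ord_mono, ← hw, neg_dotProduct, hmw]
        rw [h4]
        calc (0 : WithTop ℤ) = ((-(μ j.1) : ℤ) : WithTop ℤ) + ((μ j.1 : ℤ) : WithTop ℤ) := by
              rw [← WithTop.coe_add, neg_add_cancel]; rfl
          _ < _ := WithTop.add_lt_add_left WithTop.coe_ne_top h2
      · exact hcon c
    have hsum : ((1 : ℤ) : WithTop ℤ) ≤ v.ord (ι (∑ x, restr (a x) (fun m => m ⬝ᵥ w = 0) * G x)) := by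
      rw [map_sum]
      exact v.ord.map_le_sum fun x _ => by
        have := one_le_of_pos (hall x)
        exact_mod_cast this
    rw [hres, map_one, v.ord.map_one] at hsum
    have : (1 : ℤ) ≤ 0 := by exact_mod_cast hsum
    omega
  have hDm0 : v.ord (ι (Dm c)) = 0 := le_antisymm hc (ord_nonneg_of_degZero v (hDm c))
  -- the logarithmic form
  let y : Fin n → K := fun l =>
    Sum.elim (fun j : J0 => ι (f j.1)) (fun i => coord k K i) (c.1 l)
  have hy : ∀ l, y l ≠ 0 := by
    intro l
    simp only [y]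
    rcases c.1 l with j | i0
    · exact hf0 _
    · exact coord_ne_zero _
  have hbound := log_form_bound v (logBasis ω) e he y hy
  let s : Fin n → K := fun l =>
    Sum.elim (fun j : J0 => mono k K (m j.1) / ι (f j.1)) (fun _ => 1) (c.1 l)
  let N : Matrix (Fin n) (Fin n) K := Matrix.of fun l i =>
    Sum.elim (fun (j : J0) i => mono k K (-(m j.1)) * theta ω i (ι (f j.1)))
      (fun i0 => Pi.single i0 1) (c.1 l) i
  have hdet : (logBasis ω).det (fun l => dlog k (y l)) = (∏ l, s l) * N.det := by
    rw [Module.Basis.det_apply, ← Matrix.det_transpose, ← Matrix.det_mul_column]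
    congr 1
    ext l i
    rw [Matrix.transpose_apply, Module.Basis.toMatrix_apply, Matrix.of_apply]
    unfold dlog
    rw [map_smul, Finsupp.smul_apply, smul_eq_mul]
    change (y l)⁻¹ * theta ω i (y l) = s l * N l i
    simp only [y, s, N, Matrix.of_apply]
    rcases c.1 l with j | i0
    · simp only [Sum.elim_inl]
      rw [mono_neg]
      have h1 := mono_ne_zero (k := k) (K := K) (m j.1)
      have h2 := hf0 j.1
      field_simp
    · simp only [Sum.elim_inr]
      unfold coord
      rw [theta_mono, one_mul]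
      have h1 := mono_ne_zero (k := k) (K := K) (Pi.single i0 1)
      by_cases h : i = i0
      · subst h
        simp only [Pi.single_eq_same, Int.cast_one, one_mul]
        exact inv_mul_cancel₀ h1
      · simp [Pi.single_eq_of_ne h]
  have hNentry : ∀ l i, 0 < v.ord (N l i - ι (Rw (c.1 l) i)) := by
    intro l i
    simp only [N, Matrix.of_apply]
    rcases c.1 l with j | i0
    · simp only [Rw, Sum.elim_inl]
      rw [map_mul]
      have h1 : ι (AddMonoidAlgebra.single (-(m j.1)) 1) = mono k K (-(m j.1)) := rfl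
      rw [h1, algebraMap_thetaL ω, ← mul_sub, ← theta_sub, ← map_sub, ← algebraMap_thetaL ω,
        v.ord.map_mul, ord_mono, ← hw, neg_dotProduct, hmw]
      have h2 : ((μ j.1 : ℤ) : WithTop ℤ) < v.ord (ι (thetaL i (f j.1 - inForm w (f j.1)))) :=
        lt_ord_laurent v _ _ fun m hm =>
          (mem_sub_inForm_support (hμ j.1) (thetaL_support i _ hm)).2
      calc (0 : WithTop ℤ) = ((-(μ j.1) : ℤ) : WithTop ℤ) + ((μ j.1 : ℤ) : WithTop ℤ) := by
            rw [← WithTop.coe_add, neg_add_cancel]; rfl
        _ < _ := WithTop.add_lt_add_left WithTop.coe_ne_top h2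
    · simp only [Rw, Sum.elim_inr, Pi.single_apply]
      have : (if i = i0 then (1 : K) else 0) - ι (if i = i0 then 1 else 0) = 0 := by
        split_ifs <;> simp
      rw [this, v.ord_zero]
      exact WithTop.coe_lt_top (0 : ℤ)
  have hRord : ∀ l i, 0 ≤ v.ord (ι (Rw (c.1 l) i)) := fun l i => ord_nonneg_of_degZero v (hRw _ _)
  have hNord : ∀ l i, 0 ≤ v.ord (N l i) := by
    intro l i
    have h1 : N l i = (N l i - ι (Rw (c.1 l) i)) + ι (Rw (c.1 l) i) := by ring
    rw [h1]
    exact v.ord.map_le_add (hNentry l i).le (hRord l i)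
  have hNdet : v.ord N.det = 0 := by
    let M' : Matrix (Fin n) (Fin n) K := Matrix.of fun l i => ι (Rw (c.1 l) i)
    have h1 := det_close v.ord N M' hNord hRord hNentry
    have h2 : M'.det = ι (Dm c) := by
      simp only [Dm, M']
      rw [RingHom.map_det]
      rfl
    rw [h2] at h1
    have h3 : N.det = ι (Dm c) + (N.det - ι (Dm c)) := by ring
    rw [h3]
    have h4 : v.ord (ι (Dm c)) < v.ord (N.det - ι (Dm c)) := by rw [hDm0]; exact h1
    exact (v.ord.map_add_eq_of_lt_left h4).trans hDm0
  -- computation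
  let h : J0 ⊕ Fin n → ℤ := Sum.elim (fun j => μ j.1 - v.val (ι (f j.1))) (fun _ => 0)
  have hs : ∀ l, v.ord (s l) = ((h (c.1 l) : ℤ) : WithTop ℤ) := by
    intro l
    simp only [s, h]
    rcases c.1 l with j | i0
    · simp only [Sum.elim_inl]
      rw [v.ord_eq_val (div_ne_zero (mono_ne_zero _) (hf0 _)), v.val_div (mono_ne_zero _) (hf0 _),
        val_mono, ← hw, hmw]
    · simp only [Sum.elim_inr]
      rw [v.ord.map_one]; rfl
  have hfin : -e - 1 ≤ ∑ l, h (c.1 l) := by
    rw [hdet, v.ord.map_mul, hNdet, add_zero, v.ord_prod] at hbound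
    have h1 : ∑ l, v.ord (s l) = ((∑ l, h (c.1 l) : ℤ) : WithTop ℤ) := by
      rw [WithTop.coe_sum]
      exact Finset.sum_congr rfl fun l _ => hs l
    rw [h1] at hbound
    exact_mod_cast hbound
  have hh0 : ∀ x, h x ≤ 0 := by
    rintro (j | i0)
    · have := j.2
      simp only [h, Sum.elim_inl]
      have h5 : μ j.1 < v.val (ι (f j.1)) := j.2
      omega
    · simp [h]
  choose L hL using c.2
  have hLinj : Function.Injective L := by
    intro a b hab
    have h1 := hL a
    rw [hab, hL b] at h1
    exact (Sum.inl_injective h1).symm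
  have hle : ∑ l, h (c.1 l) ≤ ∑ j : J0, h (Sum.inl j) := by
    calc ∑ l, h (c.1 l) ≤ ∑ l ∈ Finset.univ.map ⟨L, hLinj⟩, h (c.1 l) := by
          have h6 := Finset.sum_le_sum_of_subset_of_nonneg
            (Finset.subset_univ (Finset.univ.map ⟨L, hLinj⟩)) (f := fun l => -h (c.1 l))
            fun l _ _ => by have := hh0 (c.1 l); omega
          rw [Finset.sum_neg_distrib, Finset.sum_neg_distrib] at h6
          omega
      _ = ∑ j : J0, h (Sum.inl j) := by
          rw [Finset.sum_map]
          refine Finset.sum_congr rfl fun j _ => ?_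
          simp only [Function.Embedding.coeFn_mk]
          rw [hL j]
  have hJ : ∑ j, (v.val (ι (f j)) - μ j) = -∑ j : J0, h (Sum.inl j) := by
    have h1 : ∑ j, (v.val (ι (f j)) - μ j) =
        ∑ j ∈ Finset.univ.filter (fun j => μ j < v.val (ι (f j))), (v.val (ι (f j)) - μ j) := by
      rw [Finset.sum_filter]
      refine Finset.sum_congr rfl fun j _ => ?_
      split_ifs with h2
      · rfl
      · have := hge j
        omega
    rw [h1, ← Finset.sum_neg_distrib]
    rw [← Finset.sum_subtype_eq_sum_filter]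
    refine Finset.sum_bij (fun j _ => (⟨j.1, (by simpa using j.2)⟩ : J0)) ?_ ?_ ?_ ?_
    · intro j _; exact Finset.mem_univ _
    · intro a _ b _ hab
      exact Subtype.ext (congrArg Subtype.val hab)
    · intro j _
      exact ⟨⟨j.1, j.2⟩, by simp, rfl⟩
    · intro j _
      simp only [h, Sum.elim_inl]
      ring
  rw [hJ]
  omega

end

end Pool.Agent.H26
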