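import Mathlib
import Pool.Agent.H26.Basic

/-! # Height one localizations of normal noetherian domains -/

open scoped BigOperators nonZeroDivisors

namespace Pool.Agent.H26

section General

variable {A : Type*} {K : Type*} [CommRing A] [IsDomain A] [Field K] [Algebra A K]
  [IsFractionRing A K]

lemma primeCompl_le (P : Ideal A) [P.IsPrime] : P.primeCompl ≤ A⁰ :=
  P.primeCompl_le_nonZeroDivisors

variable (K) in
/-- the local ring of `A` at `P` inside the fraction field -/
noncomputable abbrev Loc (P : Ideal A) [P.IsPrime] : Subalgebra A K :=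
  Localization.subalgebra.ofField K P.primeCompl (primeCompl_le P)

instance (P : Ideal A) [P.IsPrime] : IsLocalization.AtPrime (Loc K P) P :=
  Localization.subalgebra.isLocalization_ofField K P.primeCompl (primeCompl_le P)

instance (P : Ideal A) [P.IsPrime] : IsLocalRing (Loc K P) :=
  IsLocalization.AtPrime.isLocalRing (Loc K P) P

instance (P : Ideal A) [P.IsPrime] [IsNoetherianRing A] : IsNoetherianRing (Loc K P) :=
  IsLocalization.isNoetherianRing P.primeCompl _ inferInstance

instance (P : Ideal A) [P.IsPrime] [IsIntegrallyClosed A] : IsIntegrallyClosed (Loc K P) :=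
  isIntegrallyClosed_of_isLocalization (Loc K P) P.primeCompl (primeCompl_le P)

lemma mem_Loc_iff (P : Ideal A) [P.IsPrime] (x : K) :
    x ∈ Loc K P ↔ ∃ a s : A, s ∉ P ∧ x * algebraMap A K s = algebraMap A K a := by
  constructor
  · rintro ⟨a, s, hs, rfl⟩
    refine ⟨a, s, hs, ?_⟩
    have hs0 : algebraMap A K s ≠ 0 := by
      intro h
      have := (IsFractionRing.injective A K) (h.trans (map_zero _).symm)
      exact hs (this ▸ P.zero_mem)
    field_simp
  · rintro ⟨a, s, hs, h⟩
    refine ⟨a, s, hs, ?_⟩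
    have hs0 : algebraMap A K s ≠ 0 := by
      intro h
      have := (IsFractionRing.injective A K) (h.trans (map_zero _).symm)
      exact hs (this ▸ P.zero_mem)
    field_simp
    exact h

/-- the local ring at a height one prime of a normal noetherian domain is a DVR -/
lemma isDVR_of_height_one [IsNoetherianRing A] [IsIntegrallyClosed A] (P : Ideal A) [P.IsPrime]
    (hP : P.height = 1) : IsDiscreteValuationRing (Loc K P) := by
  have hdim : ringKrullDim (Loc K P) = 1 := by
    rw [IsLocalization.AtPrime.ringKrullDim_eq_height P (Loc K P), hP]; rfl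
  have hnf : ¬ IsField (Loc K P) := by
    intro h
    have h0 := ringKrullDim_eq_zero_of_isField h
    rw [hdim] at h0
    exact one_ne_zero h0
  have hle : Ring.KrullDimLE 1 (Loc K P) := by
    rw [Ring.krullDimLE_iff, hdim]; rfl
  have h4 : IsIntegrallyClosed (Loc K P) ∧ ∃! Q : Ideal (Loc K P), Q ≠ ⊥ ∧ Q.IsPrime := by
    refine ⟨inferInstance, IsLocalRing.maximalIdeal (Loc K P), ⟨?_, inferInstance⟩, ?_⟩
    · intro h
      exact hnf ((IsLocalRing.isField_iff_maximalIdeal_eq).2 h)
    · rintro Q ⟨hQ0, hQ⟩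
      have := (Ring.krullDimLE_one_iff_of_noZeroDivisors.1 hle) Q hQ0 hQ
      exact IsLocalRing.eq_maximalIdeal this
  exact ((IsDiscreteValuationRing.TFAE (Loc K P) hnf).out 0 3).2 h4

/-- **Normality**: an element of the fraction field which is not in the local ring at `𝔪` is not in
the local ring at some prime of height one contained in `𝔪`. -/
theorem exists_height_one_not_mem [IsNoetherianRing A] [IsIntegrallyClosed A] (𝔪 : Ideal A)
    [𝔪.IsPrime] (f : K) (hf : f ∉ Loc K 𝔪) :
    ∃ (P : Ideal A) (_ : P.IsPrime), P.height = 1 ∧ P ≤ 𝔪 ∧ f ∉ Loc K P := by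
  classical
  obtain ⟨a, b, hb, hab⟩ := IsFractionRing.div_surjective A f
  have hb0 : b ≠ 0 := nonZeroDivisors.ne_zero hb
  have hbK : algebraMap A K b ≠ 0 := by
    intro h
    exact hb0 ((IsFractionRing.injective A K) (h.trans (map_zero _).symm))
  -- saturated colon ideals
  let I : A → Ideal A := fun c =>
    { carrier := {x | ∃ h : A, h ∉ 𝔪 ∧ ∃ y, h * (x * c) = b * y}
      zero_mem' := ⟨1, fun h => (Ideal.ne_top_iff_one 𝔪).1 (Ideal.IsPrime.ne_top inferInstance) h,
        0, by simp⟩
      add_mem' := by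
        rintro x y ⟨h, hh, z, hz⟩ ⟨h', hh', z', hz'⟩
        refine ⟨h * h', fun h1 => ((Ideal.IsPrime.mem_or_mem inferInstance h1).elim hh hh'),
          h' * z + h * z', ?_⟩
        linear_combination h' * hz + h * hz'
      smul_mem' := by
        rintro r x ⟨h, hh, z, hz⟩
        refine ⟨h, hh, r * z, ?_⟩
        simp only [smul_eq_mul]
        linear_combination r * hz }
  have hImem : ∀ c x, x ∈ I c ↔ ∃ h : A, h ∉ 𝔪 ∧ ∃ y, h * (x * c) = b * y := fun _ _ => Iff.rfl
  let S : Set (Ideal A) := {J | ∃ c, J = I (c * a) ∧ J ≠ ⊤}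
  have hS : S.Nonempty := by
    refine ⟨I (1 * a), 1, rfl, ?_⟩
    rw [Ideal.ne_top_iff_one]
    rintro ⟨h, hh, y, hy⟩
    apply hf
    rw [mem_Loc_iff]
    refine ⟨y, h, hh, ?_⟩
    rw [← hab]
    field_simp
    rw [← map_mul, ← map_mul]
    congr 1
    linear_combination hy
  obtain ⟨P, hPS, hmax⟩ : ∃ P : Ideal A, P ∈ S ∧ ∀ J ∈ S, ¬ P < J :=
    set_has_maximal_iff_noetherian.2 (inferInstance : IsNoetherian A A) S hS
  obtain ⟨c, hPc, hPtop⟩ := hPS
  have hone : ∀ x : A, x ∉ P → ∀ y, x * y ∈ P → y ∈ P := by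
    intro x hx y hxy
    have h1 : P ≤ I (x * c * a) := by
      intro p hp
      rw [hPc, hImem] at hp
      obtain ⟨h, hh, z, hz⟩ := hp
      exact ⟨h, hh, x * z, by linear_combination x * hz⟩
    have h2 : I (x * c * a) ≠ ⊤ := by
      rw [Ideal.ne_top_iff_one]
      rintro ⟨h, hh, z, hz⟩
      apply hx
      rw [hPc]
      exact ⟨h, hh, z, by linear_combination hz⟩
    have h3 : P = I (x * c * a) := by
      by_contra hne
      exact hmax (I (x * c * a)) ⟨x * c, rfl, h2⟩ (lt_of_le_of_ne h1 hne)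
    rw [h3]
    rw [hPc] at hxy
    obtain ⟨h, hh, z, hz⟩ := hxy
    exact ⟨h, hh, z, by linear_combination hz⟩
  have hPprime : P.IsPrime := by
    refine ⟨hPtop, fun {x y} hxy => ?_⟩
    by_cases hx : x ∈ P
    · exact Or.inl hx
    · exact Or.inr (hone x hx y hxy)
  have hPm : P ≤ 𝔪 := by
    intro x hx
    by_contra hxm
    rw [hPc] at hx
    obtain ⟨h, hh, z, hz⟩ := hx
    apply (Ideal.ne_top_iff_one P).1 hPtop
    rw [hPc]
    refine ⟨h * x, fun h1 => ((Ideal.IsPrime.mem_or_mem inferInstance h1).elim hh hxm), z, ?_⟩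
    linear_combination hz
  -- a uniform denominator
  obtain ⟨h₀, hh₀, hunif⟩ : ∃ h₀ : A, h₀ ∉ 𝔪 ∧ ∀ p ∈ P, ∃ y, h₀ * (p * (c * a)) = b * y := by
    obtain ⟨T, hT⟩ := (inferInstance : IsNoetherian A A).noetherian P
    have hTP : ∀ t ∈ T, ∃ h : A, h ∉ 𝔪 ∧ ∃ y, h * (t * (c * a)) = b * y := by
      intro t ht
      have : t ∈ P := by rw [← hT]; exact Submodule.subset_span ht
      rw [hPc] at this
      exact this
    choose! h hh1 hh2 using hTP
    refine ⟨∏ t ∈ T, h t, ?_, ?_⟩
    · intro hcon
      obtain ⟨t, ht, hmem⟩ := Ideal.IsPrime.prod_mem_iff.1 hcon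
      exact hh1 t ht hmem
    · intro p hp
      rw [← hT] at hp
      induction hp using Submodule.span_induction with
      | mem t ht =>
        obtain ⟨y, hy⟩ := hh2 t ht
        refine ⟨(∏ t ∈ T.erase t, h t) * y, ?_⟩
        rw [← Finset.mul_prod_erase T h ht]
        linear_combination (∏ t ∈ T.erase t, h t) * hy
      | zero => exact ⟨0, by simp⟩
      | add p q _ _ h1 h2 =>
        obtain ⟨y1, h1⟩ := h1
        obtain ⟨y2, h2⟩ := h2
        exact ⟨y1 + y2, by linear_combination h1 + h2⟩
      | smul r p _ h1 =>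
        obtain ⟨y1, h1⟩ := h1
        exact ⟨r * y1, by simp only [smul_eq_mul]; linear_combination r * h1⟩
  set φ : K := algebraMap A K (h₀ * (c * a)) / algebraMap A K b with hφ
  have hφP : ∀ x ∈ IsLocalRing.maximalIdeal (Loc K P), φ * (x : K) ∈ Loc K P := by
    intro x hx
    obtain ⟨p, s, hs, hps⟩ := (mem_Loc_iff P (x : K)).1 x.2
    have hsK : algebraMap A K s ≠ 0 := by
      intro h
      exact hs ((IsFractionRing.injective A K (h.trans (map_zero _).symm)) ▸ P.zero_mem)
    have hpP : p ∈ P := by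
      have h1 : algebraMap A (Loc K P) p = x * algebraMap A (Loc K P) s := by
        apply Subtype.ext
        exact hps.symm
      have h2 : algebraMap A (Loc K P) p ∈ IsLocalRing.maximalIdeal (Loc K P) := by
        rw [h1]; exact Ideal.mul_mem_right _ _ hx
      exact (IsLocalization.AtPrime.to_map_mem_maximal_iff (Loc K P) P p).1 h2
    obtain ⟨y, hy⟩ := hunif p hpP
    rw [mem_Loc_iff]
    refine ⟨y, s, hs, ?_⟩
    rw [mul_assoc, hps, hφ]
    field_simp
    rw [← map_mul, ← map_mul]
    congr 1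
    linear_combination hy
  have hφnot : φ ∉ Loc K P := by
    intro hmem
    obtain ⟨α, β, hβ, hαβ⟩ := (mem_Loc_iff P φ).1 hmem
    apply hβ
    rw [hPc]
    refine ⟨h₀, hh₀, α, ?_⟩
    apply IsFractionRing.injective A K
    rw [hφ] at hαβ
    field_simp at hαβ
    rw [← map_mul, ← map_mul] at hαβ
    have := (IsFractionRing.injective A K) hαβ
    rw [← this]
    congr 1
    ring
  have hfnot : f ∉ Loc K P := by
    intro hmem
    obtain ⟨α, β, hβ, hαβ⟩ := (mem_Loc_iff P f).1 hmem
    apply hβ
    rw [hPc]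
    refine ⟨1, fun h => (Ideal.ne_top_iff_one 𝔪).1 (Ideal.IsPrime.ne_top inferInstance) h,
      c * α, ?_⟩
    rw [← hab] at hαβ
    field_simp at hαβ
    rw [← map_mul, ← map_mul] at hαβ
    have := (IsFractionRing.injective A K) hαβ
    linear_combination c * this
  have hbP : b ∈ P := by
    rw [hPc]
    exact ⟨1, fun h => (Ideal.ne_top_iff_one 𝔪).1 (Ideal.IsPrime.ne_top inferInstance) h, c * a,
      by ring⟩
  have hmaxne : IsLocalRing.maximalIdeal (Loc K P) ≠ ⊥ := by
    intro h
    have h1 : algebraMap A (Loc K P) b ∈ IsLocalRing.maximalIdeal (Loc K P) :=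
      (IsLocalization.AtPrime.to_map_mem_maximal_iff (Loc K P) P b).2 hbP
    rw [h, Ideal.mem_bot] at h1
    have h2 := congrArg (algebraMap (Loc K P) K) h1
    rw [map_zero] at h2
    exact hbK h2
  -- some element of the maximal ideal is sent to a unit by `φ`
  have hunit : ∃ x ∈ IsLocalRing.maximalIdeal (Loc K P), ∃ u : Loc K P, IsUnit u ∧
      φ * (x : K) = u := by
    by_contra hcon
    push Not at hcon
    apply hφnot
    let Nsub : Submodule (Loc K P) K :=
      Submodule.map (Algebra.linearMap (Loc K P) K) (IsLocalRing.maximalIdeal (Loc K P))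
    have hN0 : Nsub ≠ ⊥ := by
      intro h
      apply hmaxne
      rw [eq_bot_iff]
      intro x hx
      have h1 : (x : K) ∈ Nsub := ⟨x, hx, rfl⟩
      rw [h, Submodule.mem_bot] at h1
      rw [Ideal.mem_bot]
      exact Subtype.ext h1
    have hNfg : Nsub.FG := Submodule.FG.map _ (IsNoetherian.noetherian _)
    have hint : IsIntegral (Loc K P) φ := by
      refine isIntegral_of_smul_mem_submodule Nsub hN0 hNfg φ ?_
      rintro _ ⟨x, hx, rfl⟩
      have h1 := hφP x hx
      refine ⟨⟨φ * (x : K), h1⟩, ?_, rfl⟩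
      by_contra h2
      have h3 : IsUnit (⟨φ * (x : K), h1⟩ : Loc K P) := by
        by_contra h4
        exact h2 ((IsLocalRing.mem_maximalIdeal _).2 h4)
      exact hcon x hx _ h3 rfl
    obtain ⟨y, hy⟩ := (isIntegrallyClosed_iff (R := Loc K P) K).1 inferInstance hint
    rw [← hy]
    exact y.2
  obtain ⟨x, hx, u, hu, hxu⟩ := hunit
  have hprinc : (IsLocalRing.maximalIdeal (Loc K P)).IsPrincipal := by
    refine ⟨⟨x, ?_⟩⟩
    apply le_antisymm
    · intro y hy
      rw [Ideal.submodule_span_eq, Ideal.mem_span_singleton]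
      obtain ⟨u', hu'⟩ := hu.exists_left_inv
      refine ⟨⟨φ * (y : K), hφP y hy⟩ * u', ?_⟩
      apply Subtype.ext
      have h5 : ((u' * u : Loc K P) : K) = 1 := by rw [hu']; rfl
      change (y : K) = x * ((φ * y) * u')
      have h6 : (u' : K) * (φ * x) = 1 := by
        rw [hxu]; exact h5
      linear_combination -(y : K) * h6
    · rw [Ideal.submodule_span_eq, Ideal.span_singleton_le_iff_mem]
      exact hx
  refine ⟨P, hPprime, ?_, hPm, hfnot⟩
  have hnf : ¬ IsField (Loc K P) := fun h => hmaxne ((IsLocalRing.isField_iff_maximalIdeal_eq).1 h)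
  have hdvr : IsDiscreteValuationRing (Loc K P) :=
    ((IsDiscreteValuationRing.TFAE (Loc K P) hnf).out 0 4).2 hprinc
  have hdim := IsPrincipalIdealRing.ringKrullDim_eq_one (Loc K P) hnf
  rw [IsLocalization.AtPrime.ringKrullDim_eq_height P (Loc K P)] at hdim
  exact_mod_cast hdim

end General

end Pool.Agent.H26
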