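import Mathlib
import Pool.Agent.H26.Normal

/-! # Prime divisors of normal affine varieties as discrete valuations -/

open scoped BigOperators nonZeroDivisors WithZero

namespace Pool.Agent.H26

universe u v

/-- the additive version of a `ℤᵐ⁰`-valued valuation on a field -/
noncomputable def addValOfVal {K : Type v} [Field K] (w : Valuation K ℤᵐ⁰) :
    AddValuation K (WithTop ℤ) := by
  classical
  refine AddValuation.of
    (fun x => if x = 0 then ⊤ else ((-(WithZero.log (w x)) : ℤ) : WithTop ℤ)) (by simp)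
    (by simp) ?_ ?_
  · intro x y
    by_cases hx : x = 0
    · simp [hx]
    by_cases hy : y = 0
    · simp [hy]
    by_cases hxy : x + y = 0
    · simp [hxy]
    simp only [hx, hy, hxy, if_false]
    have h := w.map_add x y
    have hx' : w x ≠ 0 := (Valuation.ne_zero_iff w).2 hx
    have hy' : w y ≠ 0 := (Valuation.ne_zero_iff w).2 hy
    have hxy' : w (x + y) ≠ 0 := (Valuation.ne_zero_iff w).2 hxy
    rcases le_max_iff.1 h with h | h
    · refine (min_le_left _ _).trans ?_
      have := (WithZero.log_le_log hxy' hx').2 h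
      exact_mod_cast neg_le_neg this
    · refine (min_le_right _ _).trans ?_
      have := (WithZero.log_le_log hxy' hy').2 h
      exact_mod_cast neg_le_neg this
  · intro x y
    by_cases hx : x = 0
    · simp [hx]
    by_cases hy : y = 0
    · simp [hy]
    have hxy : x * y ≠ 0 := mul_ne_zero hx hy
    simp only [hx, hy, hxy, if_false]
    have hx' : w x ≠ 0 := (Valuation.ne_zero_iff w).2 hx
    have hy' : w y ≠ 0 := (Valuation.ne_zero_iff w).2 hy
    rw [w.map_mul, WithZero.log_mul hx' hy', neg_add]
    norm_cast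

lemma addValOfVal_apply {K : Type v} [Field K] (w : Valuation K ℤᵐ⁰) {x : K} (hx : x ≠ 0) :
    addValOfVal w x = ((-(WithZero.log (w x)) : ℤ) : WithTop ℤ) := by
  classical
  change (if x = 0 then ⊤ else ((-(WithZero.log (w x)) : ℤ) : WithTop ℤ)) = _
  rw [if_neg hx]

section

variable {k : Type u} {K : Type v} [Field k] [Field K] [Algebra k K]
  {A : Subalgebra k K} [IsFractionRing A K] [IsNoetherianRing A] [IsIntegrallyClosed A]

open IsDiscreteValuationRing in
/-- the prime divisor attached to a prime of height one -/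
noncomputable def dvalOf (P : Ideal A) [P.IsPrime] (hP : P.height = 1) : DVal k K :=
  haveI := isDVR_of_height_one (K := K) P hP
  { ord := addValOfVal ((maximalIdeal (Loc K P)).valuation K)
    ord_algebraMap := by
      intro c hc
      have hc' : algebraMap k K c ≠ 0 := by simpa using hc
      rw [addValOfVal_apply _ hc']
      have h1 : ∀ d : k, (maximalIdeal (Loc K P)).valuation K (algebraMap k K d) ≤ 1 := by
        intro d
        have : algebraMap k K d ∈ Loc K P := by
          rw [mem_Loc_iff]
          refine ⟨algebraMap k A d, 1, (Ideal.ne_top_iff_one P).1 (Ideal.IsPrime.ne_top inferInstance),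
            ?_⟩
          rw [map_one, mul_one]
          rfl
        exact IsDedekindDomain.HeightOneSpectrum.valuation_le_one _ (⟨_, this⟩ : Loc K P)
      have h2 : (maximalIdeal (Loc K P)).valuation K (algebraMap k K c) = 1 := by
        refine le_antisymm (h1 c) ?_
        have h3 := h1 c⁻¹
        rw [map_inv₀, map_inv₀] at h3
        have hne : (maximalIdeal (Loc K P)).valuation K (algebraMap k K c) ≠ 0 :=
          (Valuation.ne_zero_iff _).2 hc'
        exact (inv_le_one₀ (zero_lt_iff.2 hne)).1 h3
      rw [h2]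
      simp
    exists_ord_eq_one := by
      obtain ⟨π, hπ⟩ := (maximalIdeal (Loc K P)).valuation_exists_uniformizer K
      have hπ0 : π ≠ 0 := by
        rintro rfl
        rw [map_zero] at hπ
        exact WithZero.exp_ne_zero hπ.symm
      refine ⟨π, ?_⟩
      rw [addValOfVal_apply _ hπ0, hπ]
      simp }

open IsDiscreteValuationRing in
/-- the valuation ring of a valuation with centre `P` of height one is the local ring at `P` and
two such valuations coincide -/
lemma dval_key (P : Ideal A) [P.IsPrime] (hP : P.height = 1) (w : DVal k K) (hw : w.HasCenter A P) :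
    w = dvalOf P hP ∧ ∀ x : K, 0 ≤ w.ord x ↔ x ∈ Loc K P := by
  have := isDVR_of_height_one (K := K) P hP
  have hLoc : ∀ x ∈ Loc K P, 0 ≤ w.ord x := by
    intro x hx
    obtain ⟨a, s, hs, h⟩ := (mem_Loc_iff P x).1 hx
    have h1 : w.ord (s : K) = 0 := by
      have h2 := hw.1 s
      have h3 := (hw.2 s).not.1 hs
      exact le_antisymm (not_lt.1 h3) h2
    have h4 : w.ord x + w.ord (s : K) = w.ord (a : K) := by
      rw [← w.ord.map_mul]; exact congrArg w.ord h
    rw [h1, add_zero] at h4
    rw [h4]; exact hw.1 a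
  set V := (maximalIdeal (Loc K P)).valuation K with hV
  have hunit : ∀ x : K, V x = 1 → w.ord x = 0 := by
    intro x hx
    have hx0 : x ≠ 0 := by
      rintro rfl
      simp at hx
    obtain ⟨a, ha⟩ := exists_lift_of_le_one (A := Loc K P) (K := K) hx.le
    have hx' : V x⁻¹ = 1 := by rw [map_inv₀, hx, inv_one]
    obtain ⟨b, hb⟩ := exists_lift_of_le_one (A := Loc K P) (K := K) hx'.le
    have h1 : 0 ≤ w.ord x := by rw [← ha]; exact hLoc _ a.2
    have h2 : 0 ≤ w.ord x⁻¹ := by rw [← hb]; exact hLoc _ b.2
    rw [w.nonneg_ord_iff] at h1 h2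
    rw [w.ord_eq_zero_iff]
    refine ⟨hx0, ?_⟩
    have h3 := h1.resolve_left hx0
    have h4 := h2.resolve_left (inv_ne_zero hx0)
    rw [w.val_inv hx0] at h4
    linarith
  obtain ⟨π, hπ⟩ := (maximalIdeal (Loc K P)).valuation_exists_uniformizer K
  have hπ0 : π ≠ 0 := by
    rintro rfl
    rw [map_zero] at hπ
    exact WithZero.exp_ne_zero hπ.symm
  have hπpos : 0 ≤ w.val π := by
    have h1 : V π ≤ 1 := by
      rw [hπ]
      rw [← WithZero.exp_zero, WithZero.exp_le_exp]
      norm_num
    obtain ⟨a, ha⟩ := exists_lift_of_le_one (A := Loc K P) (K := K) h1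
    have h2 : 0 ≤ w.ord π := by rw [← ha]; exact hLoc _ a.2
    rw [w.nonneg_ord_iff] at h2
    exact h2.resolve_left hπ0
  have hval : ∀ x : K, x ≠ 0 → w.val x = -(WithZero.log (V x)) * w.val π := by
    intro x hx
    have hVx : V x ≠ 0 := (Valuation.ne_zero_iff V).2 hx
    set m : ℤ := -(WithZero.log (V x)) with hm
    have h1 : V (x * π ^ (-m)) = 1 := by
      rw [map_mul, map_zpow₀, hπ, ← WithZero.exp_zsmul, hm]
      simp only [neg_neg, smul_eq_mul, mul_neg, mul_one]
      rw [WithZero.exp_neg, WithZero.exp_log hVx]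
      exact mul_inv_cancel₀ hVx
    have h2 := hunit _ h1
    rw [w.ord_eq_zero_iff] at h2
    have h3 := h2.2
    rw [w.val_mul hx (zpow_ne_zero _ hπ0), w.val_zpow hπ0] at h3
    linarith
  have hπ1 : w.val π = 1 := by
    obtain ⟨t, ht⟩ := w.exists_ord_eq_one
    have ht' := (w.ord_eq_iff (z := 1)).1 (by exact_mod_cast ht)
    have h1 := hval t ht'.1
    rw [ht'.2] at h1
    have h2 : IsUnit (w.val π) := IsUnit.of_mul_eq_one _ (by rw [mul_comm]; exact h1.symm)
    rcases Int.isUnit_iff.1 h2 with h | h
    · exact h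
    · omega
  have hordeq : ∀ x : K, w.ord x = (dvalOf P hP : DVal k K).ord x := by
    intro x
    by_cases hx : x = 0
    · rw [hx, w.ord_zero, (dvalOf P hP).ord_zero]
    · rw [w.ord_eq_val hx, hval x hx, hπ1, mul_one]
      exact (addValOfVal_apply _ hx).symm
  refine ⟨?_, fun x => ⟨fun h => ?_, hLoc x⟩⟩
  · have : w.ord = (dvalOf P hP : DVal k K).ord := AddValuation.ext hordeq
    cases w
    cases hd : (dvalOf P hP : DVal k K)
    rw [hd] at this
    simp only at this
    subst this
    rfl
  · by_cases hx : x = 0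
    · rw [hx]; exact (Loc K P).zero_mem
    · have h1 : V x ≤ 1 := by
        rw [w.nonneg_ord_iff] at h
        have h2 := h.resolve_left hx
        rw [hval x hx, hπ1, mul_one] at h2
        have hVx : V x ≠ 0 := (Valuation.ne_zero_iff V).2 hx
        have h3 : WithZero.log (V x) ≤ 0 := by linarith
        have := (WithZero.log_le_iff_le_exp hVx).1 h3
        simpa using this
      obtain ⟨a, ha⟩ := exists_lift_of_le_one (A := Loc K P) (K := K) h1
      rw [← ha]; exact a.2

/-- the valuation attached to a height one prime has this prime as its centre -/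
lemma dvalOf_hasCenter (P : Ideal A) [P.IsPrime] (hP : P.height = 1) :
    (dvalOf P hP : DVal k K).HasCenter A P := by
  have := isDVR_of_height_one (K := K) P hP
  set V := (IsDiscreteValuationRing.maximalIdeal (Loc K P)).valuation K with hV
  have hmem : ∀ a : A, (a : K) ∈ Loc K P := fun a => by
    rw [mem_Loc_iff]
    refine ⟨a, 1, (Ideal.ne_top_iff_one P).1 (Ideal.IsPrime.ne_top inferInstance), ?_⟩
    rw [map_one, mul_one]
    rfl
  have hle : ∀ a : A, V (a : K) ≤ 1 := fun a =>
    IsDedekindDomain.HeightOneSpectrum.valuation_le_one _ (⟨_, hmem a⟩ : Loc K P)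
  have hlt : ∀ a : A, a ∈ P ↔ V (a : K) < 1 := fun a => by
    have h1 := IsDedekindDomain.HeightOneSpectrum.valuation_lt_one_iff_mem (K := K)
      (IsDiscreteValuationRing.maximalIdeal (Loc K P)) (⟨_, hmem a⟩ : Loc K P)
    have h2 : (⟨_, hmem a⟩ : Loc K P) = algebraMap A (Loc K P) a := rfl
    have h3 := IsLocalization.AtPrime.to_map_mem_maximal_iff (Loc K P) P a
    rw [← h3, ← h2]
    exact h1.symm
  refine ⟨fun a => ?_, fun a => ?_⟩
  · by_cases ha : (a : K) = 0
    · rw [ha, (dvalOf P hP).ord_zero]; exact le_top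
    · have hVa : V (a : K) ≠ 0 := (Valuation.ne_zero_iff V).2 ha
      change 0 ≤ addValOfVal V (a : K)
      rw [addValOfVal_apply _ ha]
      have := (WithZero.log_le_iff_le_exp (a := 0) hVa).2 (by simpa using hle a)
      have h2 : (0 : ℤ) ≤ -(WithZero.log (V (a : K))) := by linarith
      exact_mod_cast h2
  · rw [hlt]
    by_cases ha : (a : K) = 0
    · rw [ha, (dvalOf P hP).ord_zero]
      simp
    · have hVa : V (a : K) ≠ 0 := (Valuation.ne_zero_iff V).2 ha
      change _ ↔ 0 < addValOfVal V (a : K)
      rw [addValOfVal_apply _ ha]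
      have h1 := (WithZero.log_lt_iff_lt_exp (a := 0) hVa)
      rw [WithZero.exp_zero] at h1
      rw [← h1]
      constructor
      · intro h
        have h2 : (0 : ℤ) < -(WithZero.log (V (a : K))) := by linarith
        exact_mod_cast h2
      · intro h
        have h2 : (0 : ℤ) < -(WithZero.log (V (a : K))) := by exact_mod_cast h
        linarith

/-- **Normality in terms of prime divisors.** -/
theorem mem_Loc_of_forall (𝔪 : Ideal A) [𝔪.IsPrime] (f : K)
    (h : ∀ w : DVal k K, w.IsPrimeDivisorThrough A 𝔪 → 0 ≤ w.ord f) : f ∈ Loc K 𝔪 := by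
  by_contra hf
  obtain ⟨P, hPp, hP, hPm, hfP⟩ := exists_height_one_not_mem 𝔪 f hf
  have hc := dvalOf_hasCenter (k := k) (K := K) P hP
  exact hfP (((dval_key P hP _ hc).2 f).1 (h _ ⟨P, hc, hP, hPm⟩))

omit [IsFractionRing A K] [IsNoetherianRing A] [IsIntegrallyClosed A] in
lemma HasCenter.isPrime {w : DVal k K} {P : Ideal A} (h : w.HasCenter A P) : P.IsPrime := by
  refine ⟨?_, fun {x y} hxy => ?_⟩
  · rw [Ideal.ne_top_iff_one, h.2]
    simp
  · rw [h.2] at hxy
    by_contra hcon
    push Not at hcon
    rw [h.2, h.2] at hcon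
    have h1 := le_antisymm (not_lt.1 hcon.1) (h.1 x)
    have h2 := le_antisymm (not_lt.1 hcon.2) (h.1 y)
    rw [MulMemClass.coe_mul, w.ord.map_mul, h1, h2] at hxy
    simp at hxy

/-- finitely many prime divisors occur in a principal divisor -/
theorem finite_primeDivisors (𝔪 : Ideal A) (s : K) (hs : s ≠ 0) :
    {w : DVal k K | w.IsPrimeDivisorThrough A 𝔪 ∧ w.val s ≠ 0}.Finite := by
  classical
  obtain ⟨a, b, hb, hab⟩ := IsFractionRing.div_surjective A s
  have hb0 : b ≠ 0 := nonZeroDivisors.ne_zero hb
  have ha0 : a ≠ 0 := by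
    rintro rfl
    rw [map_zero, zero_div] at hab
    exact hs hab.symm
  have haK : (a : K) ≠ 0 := fun h => ha0 (Subtype.ext h)
  have hbK : (b : K) ≠ 0 := fun h => hb0 (Subtype.ext h)
  set T : Set (Ideal A) := (Ideal.span {a}).minimalPrimes ∪ (Ideal.span {b}).minimalPrimes with hT
  have hTfin : T.Finite :=
    (Ideal.finite_minimalPrimes_of_isNoetherianRing A _).union
      (Ideal.finite_minimalPrimes_of_isNoetherianRing A _)
  have hmin : ∀ c : A, c ≠ 0 → ∀ P : Ideal A, P.IsPrime → P.height = 1 → c ∈ P →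
      P ∈ (Ideal.span {c}).minimalPrimes := by
    intro c hc P hPp hP hcP
    refine ⟨⟨hPp, by rwa [Ideal.span_singleton_le_iff_mem]⟩, ?_⟩
    rintro Q ⟨hQ, hcQ⟩ hQP
    rw [Ideal.span_singleton_le_iff_mem] at hcQ
    by_contra hne
    have hlt : Q < P := lt_of_le_not_ge hQP hne
    have h1 := Ideal.height_add_one_le_of_lt_of_isPrime hlt
    have h2 : Q.height ≠ 0 := by
      rw [Ne, Ideal.height_eq_zero_iff_eq_bot]
      rintro rfl
      exact hc (by simpa using hcQ)
    rw [hP] at h1
    have h3 : Q.height + 1 ≤ 0 + 1 := by simpa using h1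
    have h4 : Q.height ≤ 0 := (ENat.add_le_add_iff_right ENat.one_ne_top).1 h3
    exact h2 (le_antisymm h4 bot_le)
  -- the map to centres is injective on the set
  let cen : DVal k K → Ideal A := fun w =>
    if h : w.IsPrimeDivisorThrough A 𝔪 then h.choose else ⊥
  refine Set.Finite.of_finite_image (hTfin.subset ?_) (f := cen) ?_
  · rintro _ ⟨w, ⟨hw, hws⟩, rfl⟩
    have hcw : cen w = hw.choose := by simp only [cen, dif_pos hw]
    obtain ⟨hc, hP, hPm⟩ := hw.choose_spec
    rw [hcw]
    have hPp := HasCenter.isPrime hc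
    have hs' : s = (a : K) / (b : K) := hab.symm
    rw [hs', w.val_div haK hbK] at hws
    have ha1 := hc.1 a
    have hb1 := hc.1 b
    rw [w.nonneg_ord_iff] at ha1 hb1
    have ha2 := ha1.resolve_left haK
    have hb2 := hb1.resolve_left hbK
    by_cases h1 : 0 < w.val (a : K)
    · left
      refine hmin a ha0 _ hPp hP ((hc.2 a).2 ?_)
      rw [w.pos_ord_iff]; exact Or.inr h1
    · right
      have h2 : 0 < w.val (b : K) := by
        have : w.val (a : K) = 0 := by omega
        rw [this] at hws
        omega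
      refine hmin b hb0 _ hPp hP ((hc.2 b).2 ?_)
      rw [w.pos_ord_iff]; exact Or.inr h2
  · rintro w ⟨hw, _⟩ w' ⟨hw', _⟩ heq
    have hcw : cen w = hw.choose := by simp only [cen, dif_pos hw]
    have hcw' : cen w' = hw'.choose := by simp only [cen, dif_pos hw']
    rw [hcw, hcw'] at heq
    obtain ⟨hc, hP, hPm⟩ := hw.choose_spec
    obtain ⟨hc', hP', hPm'⟩ := hw'.choose_spec
    have := HasCenter.isPrime hc
    rw [← heq] at hc'
    rw [(dval_key _ hP w hc).1, (dval_key _ hP w' hc').1]

end

end Pool.Agent.H26
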