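import Mathlib
import Pool.Agent.H26.PrimeDiv

/-! # Homogeneous local equations

`A` is a normal noetherian domain with fraction field `K`, `H` is a group of nonzero homogeneous
elements of `K`, `Inv` a set of invariant prime divisors through `𝔪`.  A (real) principal divisor
which has no non-invariant component through `𝔪` is, near `𝔪`, the divisor of homogeneous elements.
-/

open scoped BigOperators nonZeroDivisors

namespace Pool.Agent.H26

universe u v

variable {k : Type u} {K : Type v} [Field k] [Field K] [Algebra k K]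
  {A : Subalgebra k K} [IsFractionRing A K] [IsNoetherianRing A] [IsIntegrallyClosed A]

omit [IsNoetherianRing A] [IsIntegrallyClosed A] in
lemma ord_nonneg_of_mem_Loc {𝔪 P : Ideal A} [𝔪.IsPrime] {w : DVal k K} (hw : w.HasCenter A P)
    (hP : P ≤ 𝔪) {x : K} (hx : x ∈ Loc K 𝔪) : 0 ≤ w.ord x := by
  obtain ⟨a, s, hs, h⟩ := (mem_Loc_iff 𝔪 x).1 hx
  have h1 : w.ord (s : K) = 0 := by
    have h2 := hw.1 s
    have h3 := (hw.2 s).not.1 (fun h => hs (hP h))
    exact le_antisymm (not_lt.1 h3) h2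
  have h4 : w.ord x + w.ord (s : K) = w.ord (a : K) := by
    rw [← w.ord.map_mul]; exact congrArg w.ord h
  rw [h1, add_zero] at h4
  rw [h4]; exact hw.1 a

/-- data of homogeneous elements and invariant divisors -/
structure HomData (k : Type u) (K : Type v) [Field k] [Field K] [Algebra k K]
    (A : Subalgebra k K) (𝔪 : Ideal A) where
  H : Set K
  Inv : Set (DVal k K)
  ne_zero : ∀ h ∈ H, h ≠ 0
  one_mem : (1 : K) ∈ H
  mul_mem : ∀ x ∈ H, ∀ y ∈ H, x * y ∈ H
  inv_mem : ∀ x ∈ H, x⁻¹ ∈ H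
  isPrimeDivisor : ∀ w ∈ Inv, w.IsPrimeDivisorThrough A 𝔪
  /-- decomposition into homogeneous components -/
  decomp : ∀ a : A, ∃ T : Finset K, (a : K) = ∑ x ∈ T, x ∧ ∀ x ∈ T, x ∈ H ∧
    ∀ w ∈ Inv, w.ord (a : K) ≤ w.ord x
  exists_pos : ∀ w ∈ Inv, ∃ h ∈ H, h ∈ A ∧ 0 < w.ord h
  val_eq_zero : ∀ w : DVal k K, w.IsPrimeDivisorThrough A 𝔪 → w ∉ Inv → ∀ h ∈ H, w.val h = 0

namespace HomData

variable {𝔪 : Ideal A} [𝔪.IsPrime]

omit [IsFractionRing A K] [IsNoetherianRing A] [IsIntegrallyClosed A] [𝔪.IsPrime] in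
lemma pow_mem (D : HomData k K A 𝔪) {x : K} (hx : x ∈ D.H) (m : ℕ) : x ^ m ∈ D.H := by
  induction m with
  | zero => simpa using D.one_mem
  | succ m ih => rw [pow_succ]; exact D.mul_mem _ ih _ hx

omit [IsFractionRing A K] [IsNoetherianRing A] [IsIntegrallyClosed A] [𝔪.IsPrime] in
lemma prod_mem (D : HomData k K A 𝔪) {ι : Type*} (s : Finset ι) (f : ι → K)
    (hf : ∀ i ∈ s, f i ∈ D.H) : ∏ i ∈ s, f i ∈ D.H := by
  classical
  induction s using Finset.induction_on with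
  | empty => simpa using D.one_mem
  | insert a s ha ih =>
    rw [Finset.prod_insert ha]
    exact D.mul_mem _ (hf a (Finset.mem_insert_self _ _)) _
      (ih fun i hi => hf i (Finset.mem_insert_of_mem hi))

/-- integral version -/
theorem exists_hom (D : HomData k K A 𝔪) (s : K) (hs : s ≠ 0)
    (hv : ∀ w : DVal k K, w.IsPrimeDivisorThrough A 𝔪 → w ∉ D.Inv → w.val s = 0) :
    ∃ h ∈ D.H, ∀ (w : DVal k K) (P : Ideal A), w.HasCenter A P → P ≤ 𝔪 → w.val h = w.val s := by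
  classical
  have claim1 : ∀ h ∈ D.H, (∀ w ∈ D.Inv, w.val s ≤ w.val h) → h / s ∈ Loc K 𝔪 := by
    intro h hh hle
    refine mem_Loc_of_forall 𝔪 _ fun w hw => ?_
    have hh0 := D.ne_zero h hh
    rw [w.nonneg_ord_iff, w.val_div hh0 hs]
    right
    by_cases hwI : w ∈ D.Inv
    · have := hle w hwI
      omega
    · rw [hv w hw hwI, D.val_eq_zero w hw hwI h hh]
      simp
  -- a homogeneous denominator
  obtain ⟨h₀, hh₀, hh₀A, hh₀v⟩ : ∃ h₀ ∈ D.H, h₀ ∈ A ∧ ∀ w ∈ D.Inv, -w.val s ≤ w.val h₀ := by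
    have hfin := finite_primeDivisors (A := A) 𝔪 s hs
    set T := hfin.toFinset with hT
    have hex : ∀ w : DVal k K, ∃ h : K, w ∈ D.Inv → h ∈ D.H ∧ h ∈ A ∧ 0 < w.ord h := by
      intro w
      by_cases hw : w ∈ D.Inv
      · obtain ⟨h, h1, h2, h3⟩ := D.exists_pos w hw
        exact ⟨h, fun _ => ⟨h1, h2, h3⟩⟩
      · exact ⟨0, fun h => absurd h hw⟩
    choose g hg using hex
    refine ⟨∏ w ∈ T.filter (· ∈ D.Inv), g w ^ (w.val s).natAbs, ?_, ?_, ?_⟩
    · refine D.prod_mem _ _ fun w hw => D.pow_mem ?_ _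
      exact (hg w (Finset.mem_filter.1 hw).2).1
    · refine A.prod_mem fun w hw => A.pow_mem ?_ _
      exact (hg w (Finset.mem_filter.1 hw).2).2.1
    · intro w hwI
      have hnn : ∀ w' ∈ T.filter (· ∈ D.Inv), 0 ≤ w.val (g w' ^ (w'.val s).natAbs) := by
        intro w' hw'
        have hw'I := (Finset.mem_filter.1 hw').2
        obtain ⟨h1, h2, h3⟩ := hg w' hw'I
        rw [w.val_pow (D.ne_zero _ h1)]
        obtain ⟨P, hP, _⟩ := D.isPrimeDivisor w hwI
        have h4 := hP.1 ⟨g w', h2⟩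
        rw [w.nonneg_ord_iff] at h4
        have h5 := h4.resolve_left (D.ne_zero _ h1)
        have h5' : 0 ≤ w.val (g w') := h5
        positivity
      rw [w.val_prod _ _ fun w' hw' =>
        pow_ne_zero _ (D.ne_zero _ (hg w' (Finset.mem_filter.1 hw').2).1)]
      by_cases hws : w.val s = 0
      · rw [hws, neg_zero]
        exact Finset.sum_nonneg hnn
      · have hwT : w ∈ T.filter (· ∈ D.Inv) := by
          rw [Finset.mem_filter]
          refine ⟨?_, hwI⟩
          rw [hT, Set.Finite.mem_toFinset]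
          exact ⟨D.isPrimeDivisor w hwI, hws⟩
        refine le_trans ?_ (Finset.single_le_sum hnn hwT)
        obtain ⟨h1, h2, h3⟩ := hg w hwI
        rw [w.val_pow (D.ne_zero _ h1)]
        rw [w.pos_ord_iff] at h3
        have h4 := h3.resolve_left (D.ne_zero _ h1)
        have h5 : -w.val s ≤ ((w.val s).natAbs : ℤ) := by omega
        have h6 : (0 : ℤ) ≤ ((w.val s).natAbs : ℤ) := by positivity
        nlinarith
  have hh₀0 := D.ne_zero _ hh₀
  have hmem : h₀ * s ∈ Loc K 𝔪 := by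
    refine mem_Loc_of_forall 𝔪 _ fun w hw => ?_
    rw [w.nonneg_ord_iff, w.val_mul hh₀0 hs]
    right
    by_cases hwI : w ∈ D.Inv
    · have := hh₀v w hwI
      omega
    · rw [hv w hw hwI, D.val_eq_zero w hw hwI h₀ hh₀]
      simp
  obtain ⟨a, b, hb, hab⟩ := (mem_Loc_iff 𝔪 _).1 hmem
  have hab' : h₀ * s * (b : K) = (a : K) := hab
  have hb0 : (b : K) ≠ 0 := by
    intro h
    have : b = 0 := Subtype.ext h
    exact hb (this ▸ 𝔪.zero_mem)
  have ha0 : (a : K) ≠ 0 := by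
    rw [← hab']; exact mul_ne_zero (mul_ne_zero hh₀0 hs) hb0
  obtain ⟨T, hTsum, hT⟩ := D.decomp a
  have hE : ∀ x ∈ T, x / h₀ ∈ D.H ∧ (x / h₀) / s ∈ Loc K 𝔪 := by
    intro x hx
    have hxH : x / h₀ ∈ D.H := by
      rw [div_eq_mul_inv]
      exact D.mul_mem _ (hT x hx).1 _ (D.inv_mem _ hh₀)
    refine ⟨hxH, claim1 _ hxH fun w hw => ?_⟩
    have hx0 := D.ne_zero _ (hT x hx).1
    have h1 := (hT x hx).2 w hw
    rw [w.ord_eq_val ha0, w.ord_eq_val hx0] at h1
    have h2 : w.val (a : K) ≤ w.val x := by exact_mod_cast h1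
    rw [← hab', w.val_mul (mul_ne_zero hh₀0 hs) hb0, w.val_mul hh₀0 hs] at h2
    rw [w.val_div hx0 hh₀0]
    obtain ⟨P, hP, _⟩ := D.isPrimeDivisor w hw
    have h4 := hP.1 b
    rw [w.nonneg_ord_iff] at h4
    have h5 := h4.resolve_left hb0
    omega
  -- some term is a unit
  have hbunit : IsUnit (algebraMap A (Loc K 𝔪) b) :=
    (IsLocalization.AtPrime.isUnit_to_map_iff (Loc K 𝔪) 𝔪 b).2 hb
  obtain ⟨x, hx, hxu⟩ : ∃ x, ∃ hx : x ∈ T, IsUnit (⟨(x / h₀) / s, (hE x hx).2⟩ : Loc K 𝔪) := by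
    by_contra hcon
    push Not at hcon
    have h1 : algebraMap A (Loc K 𝔪) b =
        ∑ x ∈ T.attach, (⟨(x.1 / h₀) / s, (hE x.1 x.2).2⟩ : Loc K 𝔪) := by
      apply Subtype.ext
      rw [AddSubmonoidClass.coe_finsetSum]
      have h2 : ∑ x ∈ T.attach, (x.1 / h₀) / s = ∑ x ∈ T, (x / h₀) / s :=
        Finset.sum_attach T (fun x => (x / h₀) / s)
      change (b : K) = ∑ x ∈ T.attach, (x.1 / h₀) / s
      rw [h2, ← Finset.sum_div, ← Finset.sum_div, ← hTsum, ← hab']
      field_simp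
    have h3 : algebraMap A (Loc K 𝔪) b ∈ IsLocalRing.maximalIdeal (Loc K 𝔪) := by
      rw [h1]
      refine Ideal.sum_mem _ fun x _ => ?_
      rw [IsLocalRing.mem_maximalIdeal]
      exact hcon x.1 x.2
    exact (IsLocalRing.mem_maximalIdeal _).1 h3 hbunit
  obtain ⟨y, hy⟩ := hxu.exists_right_inv
  have hxy : ((x / h₀) / s) * (y : K) = 1 := congrArg Subtype.val hy
  refine ⟨x / h₀, (hE x hx).1, fun w P hw hP => ?_⟩
  have hx0 := D.ne_zero _ (hE x hx).1
  have h1 := ord_nonneg_of_mem_Loc hw hP (hE x hx).2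
  have h2 := ord_nonneg_of_mem_Loc hw hP y.2
  have hy0 : (y : K) ≠ 0 := by
    intro h
    rw [h, mul_zero] at hxy
    exact zero_ne_one hxy
  have hxs0 : (x / h₀) / s ≠ 0 := div_ne_zero hx0 hs
  rw [w.nonneg_ord_iff] at h1 h2
  have h3 := h1.resolve_left hxs0
  have h4 := h2.resolve_left hy0
  have h5 : w.val ((x / h₀) / s) + w.val (y : K) = 0 := by
    rw [← w.val_mul hxs0 hy0, hxy, w.val_one]
  rw [w.val_div hx0 hs] at h3 h5
  omega

/-- real version -/
theorem exists_hom_real (D : HomData k K A 𝔪) {ι : Type*} [Fintype ι] (c : ι → ℝ) (s : ι → K)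
    (hs : ∀ i, s i ≠ 0)
    (hv : ∀ w : DVal k K, w.IsPrimeDivisorThrough A 𝔪 → w ∉ D.Inv →
      ∑ i, c i * (w.val (s i) : ℝ) = 0) :
    ∃ (m : ℕ) (c' : Fin m → ℝ) (h : Fin m → K), (∀ j, h j ∈ D.H) ∧
      ∀ (w : DVal k K) (P : Ideal A), w.HasCenter A P → P ≤ 𝔪 →
        ∑ i, c i * (w.val (s i) : ℝ) = ∑ j, c' j * (w.val (h j) : ℝ) := by
  classical
  set V : Submodule ℤ ℝ := Submodule.span ℤ (Set.range c) with hV
  have : Module.Finite ℤ V := Module.Finite.span_of_finite ℤ (Set.finite_range c)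
  have : Module.Free ℤ V := Module.free_of_finite_type_torsion_free'
  let β := Module.finBasis ℤ V
  have hcV : ∀ i, c i ∈ V := fun i => Submodule.subset_span ⟨i, rfl⟩
  let q : ι → Fin (Module.finrank ℤ V) → ℤ := fun i j => β.repr ⟨c i, hcV i⟩ j
  have hq : ∀ i, c i = ∑ j, (q i j : ℝ) * (β j : ℝ) := by
    intro i
    have h1 := β.sum_repr ⟨c i, hcV i⟩
    have h2 : ((∑ j, (β.repr ⟨c i, hcV i⟩) j • β j : V) : ℝ) = c i := congrArg Subtype.val h1
    rw [← h2, AddSubmonoidClass.coe_finsetSum]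
    refine Finset.sum_congr rfl fun j _ => ?_
    simp [q]
  let S : Fin (Module.finrank ℤ V) → K := fun j => ∏ i, s i ^ (q i j)
  have hS0 : ∀ j, S j ≠ 0 := fun j => Finset.prod_ne_zero_iff.2 fun i _ => zpow_ne_zero _ (hs i)
  have hSval : ∀ (w : DVal k K) j, w.val (S j) = ∑ i, q i j * w.val (s i) := by
    intro w j
    rw [w.val_prod _ _ fun i _ => zpow_ne_zero _ (hs i)]
    refine Finset.sum_congr rfl fun i _ => w.val_zpow (hs i) _
  have hsum : ∀ w : DVal k K, ∑ i, c i * (w.val (s i) : ℝ) =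
      ∑ j, (β j : ℝ) * (w.val (S j) : ℝ) := by
    intro w
    simp_rw [hSval]
    push_cast
    simp_rw [Finset.mul_sum]
    rw [Finset.sum_comm]
    refine Finset.sum_congr rfl fun i _ => ?_
    rw [hq i, Finset.sum_mul]
    refine Finset.sum_congr rfl fun j _ => ?_
    ring
  have hSv : ∀ j, ∀ w : DVal k K, w.IsPrimeDivisorThrough A 𝔪 → w ∉ D.Inv → w.val (S j) = 0 := by
    intro j w hw hwI
    have h1 := hv w hw hwI
    rw [hsum w] at h1
    have h2 : ∑ j, w.val (S j) • β j = 0 := by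
      apply Subtype.ext
      rw [AddSubmonoidClass.coe_finsetSum]
      simp only [SetLike.val_smul, zsmul_eq_mul, ZeroMemClass.coe_zero]
      rw [← h1]
      refine Finset.sum_congr rfl fun j _ => mul_comm _ _
    exact (Fintype.linearIndependent_iff.1 β.linearIndependent) _ h2 j
  choose h hh hhw using fun j => D.exists_hom (S j) (hS0 j) (hSv j)
  refine ⟨_, fun j => (β j : ℝ), h, hh, fun w P hw hP => ?_⟩
  rw [hsum w]
  refine Finset.sum_congr rfl fun j _ => ?_
  rw [hhw j w P hw hP]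

end HomData

end Pool.Agent.H26
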