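import Mathlib
import Pool.Agent.H26.FormMono
import Pool.Agent.H26.Cartier

/-! # Affine toric varieties -/

open scoped BigOperators
open KaehlerDifferential

namespace Pool.Agent.H26

set_option linter.unusedSectionVars false

universe u v

/-- The coordinate ring `k[S]` of an affine toric variety, inside the function field of the
torus. -/
noncomputable def toricAlg (k : Type u) [Field k] {n : ℕ} (K : Type v) [Field K] [Algebra k K]
    [Algebra (Laurent k n) K] [IsScalarTower k (Laurent k n) K] [IsFractionRing (Laurent k n) K] (S : AddSubmonoid (Fin n → ℤ)) :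
    Subalgebra k K :=
  Algebra.adjoin k ((fun m => mono k K m) '' (S : Set (Fin n → ℤ)))

section

variable {k : Type u} [Field k] {n : ℕ} {K : Type v} [Field K] [Algebra k K]
  [Algebra (Laurent k n) K] [IsScalarTower k (Laurent k n) K] [IsFractionRing (Laurent k n) K] {S : AddSubmonoid (Fin n → ℤ)}

lemma mono_mem_toricAlg {m : Fin n → ℤ} (hm : m ∈ S) : mono k K m ∈ toricAlg k K S :=
  Algebra.subset_adjoin ⟨m, hm, rfl⟩

lemma mem_toricAlg_of_laurent (f : Laurent k n) (hf : ∀ m ∈ f.coeff.support, m ∈ S) :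
    algebraMap (Laurent k n) K f ∈ toricAlg k K S := by
  rw [laurent_eq_sum]
  refine Subalgebra.sum_mem _ fun m hm => ?_
  exact (toricAlg k K S).mul_mem ((toricAlg k K S).algebraMap_mem _) (mono_mem_toricAlg (hf m hm))

lemma exists_laurent_of_mem {x : K} (hx : x ∈ toricAlg k K S) :
    ∃ f : Laurent k n, (∀ m ∈ f.coeff.support, m ∈ S) ∧
      algebraMap (Laurent k n) K f = x := by
  classical
  unfold toricAlg at hx
  rw [← Subalgebra.mem_toSubmodule, Algebra.adjoin_eq_span] at hx
  have hcl : (Submonoid.closure ((fun m => mono k K m) '' (S : Set (Fin n → ℤ))) : Set K) =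
      (fun m => mono k K m) '' (S : Set (Fin n → ℤ)) := by
    apply Set.Subset.antisymm
    · intro y hy
      rw [SetLike.mem_coe] at hy
      induction hy using Submonoid.closure_induction with
      | mem x hx => exact hx
      | one => exact ⟨0, S.zero_mem, mono_zero⟩
      | mul x y _ _ hx hy =>
        obtain ⟨m, hm, rfl⟩ := hx
        obtain ⟨m', hm', rfl⟩ := hy
        exact ⟨m + m', S.add_mem hm hm', mono_add _ _⟩
    · exact Submonoid.subset_closure
  rw [hcl] at hx
  induction hx using Submodule.span_induction with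
  | mem x h =>
    obtain ⟨m, hm, rfl⟩ := h
    refine ⟨AddMonoidAlgebra.single m 1, ?_, rfl⟩
    intro m' hm'
    rw [AddMonoidAlgebra.coeff_single] at hm'
    have := Finsupp.support_single_subset hm'
    rw [Finset.mem_singleton] at this
    rw [this]; exact hm
  | zero => exact ⟨0, by simp, by simp⟩
  | add x y _ _ hx hy =>
    obtain ⟨f, hf, rfl⟩ := hx
    obtain ⟨g, hg, rfl⟩ := hy
    refine ⟨f + g, ?_, map_add _ _ _⟩
    intro m hm
    rw [AddMonoidAlgebra.coeff_add] at hm
    rcases Finset.mem_union.1 (Finsupp.support_add hm) with h | h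
    · exact hf m h
    · exact hg m h
  | smul c x _ hx =>
    obtain ⟨f, hf, rfl⟩ := hx
    refine ⟨c • f, ?_, ?_⟩
    · intro m hm
      rw [AddMonoidAlgebra.coeff_smul] at hm
      exact hf m (Finsupp.support_smul hm)
    · rw [Algebra.smul_def, map_mul, ← IsScalarTower.algebraMap_apply, Algebra.smul_def]

variable (ω : Module.Basis (Fin n) K (Ω[K⁄k]))

lemma theta_mem_toricAlg (i : Fin n) {x : K} (hx : x ∈ toricAlg k K S) :
    theta ω i x ∈ toricAlg k K S := by
  obtain ⟨f, hf, rfl⟩ := exists_laurent_of_mem hx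
  rw [theta_laurent]
  refine Subalgebra.sum_mem _ fun m hm => ?_
  refine (toricAlg k K S).mul_mem ((toricAlg k K S).mul_mem ((toricAlg k K S).algebraMap_mem _) ?_)
    (mono_mem_toricAlg (hf m hm))
  exact intCast_mem _ _

variable [IsFractionRing (toricAlg k K S) K] [IsNoetherianRing (toricAlg k K S)]
  [IsIntegrallyClosed (toricAlg k K S)]

/-- logarithmic derivatives preserve the valuation ring of a prime divisor -/
lemma ord_theta_nonneg {v : DVal k K} {𝔪 : Ideal (toricAlg k K S)}
    (hv : v.IsPrimeDivisorThrough (toricAlg k K S) 𝔪) (i : Fin n) {x : K}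
    (hx : 0 ≤ v.ord x) : 0 ≤ v.ord (theta ω i x) := by
  obtain ⟨P, hc, hP, _⟩ := hv
  have := HasCenter.isPrime hc
  have hkey := (dval_key P hP v hc).2
  rw [hkey] at hx
  obtain ⟨a, s, hs, h⟩ := (mem_Loc_iff P x).1 hx
  have hs1 : v.ord (s : K) = 0 := by
    have h2 := hc.1 s
    have h3 := (hc.2 s).not.1 hs
    exact le_antisymm (not_lt.1 h3) h2
  have hs0 : (s : K) ≠ 0 := by
    intro h0
    rw [h0, v.ord_zero] at hs1
    exact WithTop.top_ne_zero hs1
  have hxa : x = (a : K) / (s : K) := by
    rw [eq_div_iff hs0]; exact h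
  rw [hxa, theta_div, v.ord.map_mul, v.ord.map_pow, v.ord.map_inv, hs1]
  have h1 : 0 ≤ v.ord ((s : K) * theta ω i (a : K) -
      (a : K) * theta ω i (s : K)) := by
    have hA : ∀ y ∈ toricAlg k K S, 0 ≤ v.ord y := fun y hy => hc.1 ⟨y, hy⟩
    apply hA
    exact (toricAlg k K S).sub_mem ((toricAlg k K S).mul_mem s.2 (theta_mem_toricAlg ω i a.2))
      ((toricAlg k K S).mul_mem a.2 (theta_mem_toricAlg ω i s.2))
  have h2 : (2 • -(0 : WithTop ℤ)) = 0 := by simp
  rw [h2, zero_add]
  exact h1

/-- the logarithmic top form has neither zero nor pole along non-invariant prime divisors -/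
lemma FormOrd_noninvariant {v : DVal k K} {𝔪 : Ideal (toricAlg k K S)}
    (hv : v.IsPrimeDivisorThrough (toricAlg k K S) 𝔪) (hinv : ∀ m : Fin n → ℤ, v.val (mono k K m) = 0) :
    v.FormOrd (logBasis ω) 0 := by
  constructor
  · intro y hy
    rw [logBasis_det, Matrix.det_apply]
    refine v.ord.map_le_sum fun σ _ => ?_
    have h2 : v.ord (Equiv.Perm.sign σ • ∏ i, (Matrix.of fun i j => theta ω i (y j)) (σ i) i) =
        v.ord (∏ i, (Matrix.of fun i j => theta ω i (y j)) (σ i) i) := by
      rcases Int.units_eq_one_or (Equiv.Perm.sign σ) with h | h <;> rw [h]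
      · simp
      · simp
    rw [h2, v.ord_prod]
    have h3 : ((-0 : ℤ) : WithTop ℤ) = 0 := rfl
    rw [h3]
    exact Finset.sum_nonneg fun i _ => ord_theta_nonneg ω hv _ (hy _)
  · refine ⟨fun j => coord k K j, fun i => ?_, ?_⟩
    · rw [v.ord_eq_val (coord_ne_zero i)]
      have : v.val (coord k K i) = 0 := hinv _
      rw [this]
      exact le_rfl
    · rw [logBasis_det]
      have h1 : (Matrix.of fun i j => theta ω i (coord k K (n := n) j)) =
          Matrix.diagonal (fun j => coord k K (n := n) j) := by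
        ext i j
        rw [Matrix.of_apply, Matrix.diagonal_apply]
        unfold coord
        rw [theta_mono]
        by_cases h : i = j
        · subst h; simp
        · rw [if_neg h, Pi.single_apply, if_neg h]; simp
      rw [h1, Matrix.det_diagonal, v.ord_prod]
      refine (Finset.sum_eq_zero fun i _ => ?_).trans rfl
      rw [v.ord_eq_val (coord_ne_zero i)]
      have : v.val (coord k K i) = 0 := hinv _
      rw [this]
      rfl

lemma exists_primitive (w : Fin n → ℤ) (hw : w ≠ 0) :
    ∃ (g : ℤ) (w' : Fin n → ℤ), 0 < g ∧ w = g • w' ∧ ∃ m : Fin n → ℤ, m ⬝ᵥ w' = 1 := by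
  obtain ⟨g, hg⟩ := (IsPrincipalIdealRing.principal (Ideal.span (Set.range w))).principal
  have hg' : Ideal.span (Set.range w) = Ideal.span {g} := hg
  have hdvd : ∀ i, g ∣ w i := by
    intro i
    rw [← Ideal.mem_span_singleton, ← hg']
    exact Ideal.subset_span ⟨i, rfl⟩
  have hg0 : g ≠ 0 := by
    rintro rfl
    apply hw
    funext i
    exact zero_dvd_iff.1 (hdvd i)
  have hmem : g ∈ Ideal.span (Set.range w) := by
    rw [hg']; exact Ideal.mem_span_singleton_self g
  obtain ⟨c, hc⟩ := (Ideal.mem_span_range_iff_exists_fun).1 hmem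
  choose w0 hw0 using hdvd
  refine ⟨|g|, fun i => g.sign * w0 i, abs_pos.2 hg0, ?_, fun i => g.sign * c i, ?_⟩
  · funext i
    rw [Pi.smul_apply, smul_eq_mul, ← mul_assoc, mul_comm |g|, Int.sign_mul_abs, hw0 i]
  · have h1 : ∑ i, c i * w0 i = 1 := by
      have h2 : g * ∑ i, c i * w0 i = g * 1 := by
        rw [mul_one, Finset.mul_sum]
        conv_rhs => rw [← hc]
        refine Finset.sum_congr rfl fun i _ => ?_
        rw [hw0 i]; ring
      exact mul_left_cancel₀ hg0 h2
    have h3 : g.sign * g.sign = 1 := by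
      rcases lt_trichotomy g 0 with h | h | h
      · rw [Int.sign_eq_neg_one_of_neg h]; norm_num
      · exact absurd h hg0
      · rw [Int.sign_eq_one_of_pos h]; norm_num
    unfold dotProduct
    calc ∑ i, g.sign * c i * (g.sign * w0 i) = (g.sign * g.sign) * ∑ i, c i * w0 i := by
          rw [Finset.mul_sum]
          refine Finset.sum_congr rfl fun i _ => ?_
          ring
      _ = 1 := by rw [h3, h1, one_mul]

end

end Pool.Agent.H26
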