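import Mathlib
import Pool.Agent.H26.ToricAlg

/-! # Invariant prime divisors on affine toric varieties -/

open scoped BigOperators
open KaehlerDifferential

namespace Pool.Agent.H26

set_option linter.unusedSectionVars false

universe u v

namespace DVal

variable {k : Type u} {K : Type v} [Field k] [Field K] [Algebra k K]

/-- the centre of a valuation which is nonnegative on `A` -/
def centerIdeal (w : DVal k K) (A : Subalgebra k K) (h : ∀ a : A, 0 ≤ w.ord (a : K)) : Ideal A where
  carrier := {a | 0 < w.ord (a : K)}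
  zero_mem' := by
    change 0 < w.ord ((0 : A) : K)
    rw [ZeroMemClass.coe_zero, w.ord_zero]
    exact WithTop.coe_lt_top (0 : ℤ)
  add_mem' := by
    intro a b ha hb
    change 0 < w.ord ((a + b : A) : K)
    exact w.ord.map_lt_add ha hb
  smul_mem' := by
    intro c a ha
    change 0 < w.ord ((c * a : A) : K)
    rw [MulMemClass.coe_mul, w.ord.map_mul]
    exact lt_of_lt_of_le ha (le_add_of_nonneg_left (h c))

lemma centerIdeal_hasCenter (w : DVal k K) (A : Subalgebra k K) (h : ∀ a : A, 0 ≤ w.ord (a : K)) :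
    w.HasCenter A (w.centerIdeal A h) := ⟨h, fun _ => Iff.rfl⟩

end DVal

section

variable {k : Type u} [Field k] {n : ℕ} {K : Type v} [Field K] [Algebra k K]
  [Algebra (Laurent k n) K] [IsScalarTower k (Laurent k n) K] [IsFractionRing (Laurent k n) K] {S : AddSubmonoid (Fin n → ℤ)}

lemma monoVal_nonneg_of_mem {w : Fin n → ℤ} (hw : ∀ m ∈ S, 0 ≤ m ⬝ᵥ w) {x : K}
    (hx : x ∈ toricAlg k K S) : 0 ≤ monoVal k K w x := by
  obtain ⟨f, hf, rfl⟩ := exists_laurent_of_mem hx
  by_cases hf0 : f = 0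
  · rw [hf0]; simp
  · obtain ⟨m, hm, _, hval⟩ := exists_monoVal_laurent (K := K) w f hf0
    rw [hval]
    exact_mod_cast hw m (hf m hm)

lemma exists_mem_dot_ne_zero (k : Type u) [Field k] {n : ℕ} (K : Type v) [Field K] [Algebra k K]
    [Algebra (Laurent k n) K] [IsScalarTower k (Laurent k n) K] [IsFractionRing (Laurent k n) K]
    {S : AddSubmonoid (Fin n → ℤ)}
    [IsFractionRing (toricAlg k K S) K] (w : Fin n → ℤ) (hw : ∃ m : Fin n → ℤ, m ⬝ᵥ w = 1) :
    ∃ m ∈ S, m ⬝ᵥ w ≠ 0 := by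
  by_contra hcon
  push Not at hcon
  have hA : ∀ x ∈ toricAlg k K S, x ≠ 0 → monoVal k K w x = 0 := by
    intro x hx hx0
    obtain ⟨f, hf, rfl⟩ := exists_laurent_of_mem hx
    have hf0 : f ≠ 0 := by
      rintro rfl
      simp at hx0
    obtain ⟨m, hm, _, hval⟩ := exists_monoVal_laurent (K := K) w f hf0
    rw [hval, hcon m (hf m hm)]
    rfl
  obtain ⟨m, hm⟩ := hw
  obtain ⟨a, b, hb, hab⟩ := IsFractionRing.div_surjective (toricAlg k K S) (mono k K m)
  have hb0 : b ≠ 0 := nonZeroDivisors.ne_zero hb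
  have ha0 : a ≠ 0 := by
    rintro rfl
    rw [map_zero, zero_div] at hab
    exact mono_ne_zero _ hab.symm
  have haK : (a : K) ≠ 0 := fun h => ha0 (Subtype.ext h)
  have hbK : (b : K) ≠ 0 := fun h => hb0 (Subtype.ext h)
  have h1 : monoVal k K w (mono k K m * (b : K)) = monoVal k K w (a : K) := by
    congr 1
    rw [← hab]
    exact div_mul_cancel₀ _ hbK
  rw [(monoVal k K w).map_mul, monoVal_mono, hm, hA _ b.2 hbK, hA _ a.2 haK] at h1
  rw [add_zero] at h1
  exact one_ne_zero (by exact_mod_cast h1 : (1 : ℤ) = 0)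

variable [IsFractionRing (toricAlg k K S) K]
variable [IsNoetherianRing (toricAlg k K S)] [IsIntegrallyClosed (toricAlg k K S)]

/-- torus-invariant prime divisors are given by primitive weights -/
lemma invariant_prime {𝔪 : Ideal (toricAlg k K S)} {v : DVal k K}
    (hv : v.IsPrimeDivisorThrough (toricAlg k K S) 𝔪) (hinv : ∃ m : Fin n → ℤ, v.val (mono k K m) ≠ 0) :
    ∃ hw : ∃ m : Fin n → ℤ, m ⬝ᵥ wt v = 1, v = monoDVal k K (wt v) hw := by
  have hwt : (wt v : Fin n → ℤ) ≠ 0 := by
    intro h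
    obtain ⟨m, hm⟩ := hinv
    rw [val_mono, h, dotProduct_zero] at hm
    exact hm rfl
  obtain ⟨g, w', hg, hgw, hprim⟩ := exists_primitive (wt v) hwt
  obtain ⟨P, hc, hP, hPm⟩ := hv
  have hPp := HasCenter.isPrime hc
  have hSv : ∀ m ∈ S, 0 ≤ m ⬝ᵥ wt v := by
    intro m hm
    have := hc.1 ⟨mono k K m, mono_mem_toricAlg hm⟩
    rw [v.nonneg_ord_iff] at this
    rw [← val_mono]
    exact this.resolve_left (mono_ne_zero m)
  have hdot : ∀ m : Fin n → ℤ, m ⬝ᵥ wt v = g * (m ⬝ᵥ w') := by
    intro m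
    rw [hgw, dotProduct_smul, smul_eq_mul]
  have hS' : ∀ m ∈ S, 0 ≤ m ⬝ᵥ w' := by
    intro m hm
    have := hSv m hm
    rw [hdot] at this
    exact nonneg_of_mul_nonneg_right this hg
  set v' := monoDVal k K w' hprim with hv'
  have hnn : ∀ a : toricAlg k K S, 0 ≤ v'.ord (a : K) := fun a => by
    rw [hv', monoDVal_ord]
    exact monoVal_nonneg_of_mem hS' a.2
  have hcent := v'.centerIdeal_hasCenter (toricAlg k K S) hnn
  set P' := v'.centerIdeal (toricAlg k K S) hnn with hP'
  have hP'p := HasCenter.isPrime hcent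
  have hle : P' ≤ P := by
    intro a ha
    rw [hcent.2] at ha
    rw [hc.2]
    obtain ⟨f, hf, hfa⟩ := exists_laurent_of_mem a.2
    rw [← hfa] at ha ⊢
    by_cases hf0 : f = 0
    · rw [hf0, map_zero, v.ord_zero]
      exact WithTop.coe_lt_top (0 : ℤ)
    · rw [hv', monoDVal_ord] at ha
      refine lt_ord_laurent v f 0 fun m hm => ?_
      have h1 := lt_of_lt_of_le ha (monoVal_laurent_le w' f m hm)
      have h2 : 0 < m ⬝ᵥ w' := by exact_mod_cast h1
      rw [hdot]
      exact mul_pos hg h2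
  have hne : P' ≠ ⊥ := by
    obtain ⟨m, hm, hm0⟩ := exists_mem_dot_ne_zero k K (S := S) w' hprim
    have hpos : 0 < m ⬝ᵥ w' := lt_of_le_of_ne (hS' m hm) (Ne.symm hm0)
    intro h
    have h1 : (⟨mono k K m, mono_mem_toricAlg hm⟩ : toricAlg k K S) ∈ P' := by
      rw [hcent.2, hv', monoDVal_ord]
      change 0 < monoVal k K w' (mono k K m)
      rw [monoVal_mono]
      exact_mod_cast hpos
    rw [h] at h1
    have h2 : (⟨mono k K m, mono_mem_toricAlg hm⟩ : toricAlg k K S) = 0 := by simpa using h1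
    exact mono_ne_zero m (congrArg Subtype.val h2)
  have hPP : P' = P := by
    by_contra hne'
    have hlt : P' < P := lt_of_le_of_ne hle hne'
    have h1 := Ideal.height_add_one_le_of_lt_of_isPrime hlt
    have h2 : P'.height ≠ 0 := by
      rw [Ne, Ideal.height_eq_zero_iff_eq_bot]
      exact hne
    rw [hP] at h1
    have h3 : P'.height + 1 ≤ 0 + 1 := by simpa using h1
    have h4 : P'.height ≤ 0 := (ENat.add_le_add_iff_right ENat.one_ne_top).1 h3
    exact h2 (le_antisymm h4 bot_le)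
  rw [hPP] at hcent
  have heq : v = v' := by
    rw [(dval_key P hP v hc).1, (dval_key P hP v' hcent).1]
  have hwt' : wt v = w' := by
    rw [heq, hv', wt_monoDVal]
  have hfin : ∃ hw : ∃ m : Fin n → ℤ, m ⬝ᵥ w' = 1, v = monoDVal k K w' hw := ⟨hprim, heq⟩
  rw [hwt']
  exact hfin

/-- homogeneous elements and invariant divisors on an affine toric variety -/
noncomputable def toricHomData (k : Type u) [Field k] {n : ℕ} (K : Type v) [Field K] [Algebra k K]
    [Algebra (Laurent k n) K] [IsScalarTower k (Laurent k n) K] [IsFractionRing (Laurent k n) K] (S : AddSubmonoid (Fin n → ℤ))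
    [IsFractionRing (toricAlg k K S) K]
    [IsNoetherianRing (toricAlg k K S)] [IsIntegrallyClosed (toricAlg k K S)]
    (𝔪 : Ideal (toricAlg k K S)) : HomData k K (toricAlg k K S) 𝔪 where
  H := {x | ∃ (c : k) (m : Fin n → ℤ), c ≠ 0 ∧ x = algebraMap k _ c * mono k K m}
  Inv := {v | v.IsPrimeDivisorThrough (toricAlg k K S) 𝔪 ∧ ∃ m : Fin n → ℤ, v.val (mono k K m) ≠ 0}
  ne_zero := by
    rintro _ ⟨c, m, hc, rfl⟩
    exact mul_ne_zero (by simpa using hc) (mono_ne_zero m)
  one_mem := ⟨1, 0, one_ne_zero, by rw [map_one, mono_zero, one_mul]⟩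
  mul_mem := by
    rintro _ ⟨c, m, hc, rfl⟩ _ ⟨c', m', hc', rfl⟩
    exact ⟨c * c', m + m', mul_ne_zero hc hc', by rw [map_mul, mono_add]; ring⟩
  inv_mem := by
    rintro _ ⟨c, m, hc, rfl⟩
    exact ⟨c⁻¹, -m, inv_ne_zero hc, by rw [mul_inv, map_inv₀, mono_neg]⟩
  isPrimeDivisor := fun w hw => hw.1
  decomp := by
    classical
    intro a
    obtain ⟨f, hf, hfa⟩ := exists_laurent_of_mem a.2
    let φ : (Fin n → ℤ) → K := fun m => algebraMap k _ (f.coeff m) * mono k K m
    have hφ : Set.InjOn φ (f.coeff.support : Set (Fin n → ℤ)) := by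
      intro m hm m' hm' h
      have h1 : ∀ m, φ m = algebraMap (Laurent k n) K
          (AddMonoidAlgebra.single m (f.coeff m)) := by
        intro m
        simp only [φ]
        unfold mono
        rw [IsScalarTower.algebraMap_apply k (Laurent k n) K, ← map_mul]
        congr 1
        rw [AddMonoidAlgebra.coe_algebraMap]
        simp [AddMonoidAlgebra.single_mul_single]
      rw [h1, h1] at h
      have h2 := IsFractionRing.injective (Laurent k n) K h
      have h3 : Finsupp.single m (f.coeff m) = Finsupp.single m' (f.coeff m') := by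
        have := congrArg AddMonoidAlgebra.coeff h2
        rwa [AddMonoidAlgebra.coeff_single, AddMonoidAlgebra.coeff_single] at this
      have hm0 := Finsupp.mem_support_iff.1 (Finset.mem_coe.1 hm)
      exact ((Finsupp.single_eq_single_iff _ _ _ _).1 h3).resolve_right (fun h => hm0 h.1) |>.1
    refine ⟨f.coeff.support.image φ, ?_, ?_⟩
    · rw [Finset.sum_image hφ, ← hfa, laurent_eq_sum]
    · intro x hx
      obtain ⟨m, hm, rfl⟩ := Finset.mem_image.1 hx
      have hm0 := Finsupp.mem_support_iff.1 hm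
      refine ⟨⟨f.coeff m, m, hm0, rfl⟩, ?_⟩
      rintro w ⟨hw, hinv⟩
      obtain ⟨hwt, heq⟩ := invariant_prime hw hinv
      simp only [φ]
      rw [w.ord.map_mul, w.ord_algebraMap _ hm0, zero_add, ord_mono, heq, monoDVal_ord, ← hfa,
        wt_monoDVal]
      exact monoVal_laurent_le _ f m hm
  exists_pos := by
    rintro w ⟨hw, hinv⟩
    obtain ⟨hwt, heq⟩ := invariant_prime hw hinv
    obtain ⟨m, hm, hm0⟩ := exists_mem_dot_ne_zero k K (S := S) (wt w) hwt
    refine ⟨mono k K m, ⟨1, m, one_ne_zero, by rw [map_one, one_mul]⟩, mono_mem_toricAlg hm, ?_⟩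
    rw [ord_mono]
    obtain ⟨P, hc, _⟩ := hw
    have h1 := hc.1 ⟨mono k K m, mono_mem_toricAlg hm⟩
    change 0 ≤ w.ord (mono k K m) at h1
    rw [ord_mono] at h1
    have h2 : 0 ≤ m ⬝ᵥ wt w := by exact_mod_cast h1
    exact_mod_cast lt_of_le_of_ne h2 (Ne.symm hm0)
  val_eq_zero := by
    rintro w hw hninv _ ⟨c, m, hc, rfl⟩
    rw [w.val_mul (by simpa using hc) (mono_ne_zero m), w.val_algebraMap, zero_add]
    by_contra h
    exact hninv ⟨hw, m, h⟩

end

end Pool.Agent.H26
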