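import Mathlib
import Pool.Agent.H26.ToricDiv
import Pool.Agent.H26.StepD2
import Pool.Agent.H26.Defs

/-! # Toric germs with nondegenerate boundary: the log discrepancies -/

open scoped BigOperators
open KaehlerDifferential

namespace Pool.Agent.H26

set_option linter.unusedSectionVars false

universe u v

section

variable {k : Type u} [Field k] {n : ℕ} {K : Type v} [Field K] [Algebra k K]
  [Algebra (Laurent k n) K] [IsScalarTower k (Laurent k n) K] [IsFractionRing (Laurent k n) K]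

/-- The germ `G` is the germ of the affine toric variety `Spec k[S]` at its torus-fixed point: the
point at which all nontrivial characters in `S` vanish. -/
structure LogGerm.IsToricI (G : LogGerm k K n) (S : AddSubmonoid (Fin n → ℤ)) :
    Prop where
  A_eq : G.A = toricAlg k K S
  mono_mem : ∀ m ∈ S, m ≠ 0 → ∀ a : G.A, (a : K) = mono k K m → a ∈ G.pt

/-- The boundary of the toric germ `G` is `Δ = Δ_inv + ∑ j, d j • H j`, where `Δ_inv` is torus
invariant with coefficients in `Γ`, the `d j` are in `Γ`, `H j` is the closure of the hypersurface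
`f j = 0` of the torus, and the system `f` is (Newton) nondegenerate at the fixed point. -/
structure LogGerm.HasNondegBoundaryI (G : LogGerm k K n)
    (S : AddSubmonoid (Fin n → ℤ)) (Γ : Set ℝ) {J : Type} [Fintype J] (f : J → Laurent k n)
    (d : J → ℝ) : Prop where
  f_ne_zero : ∀ j, f j ≠ 0
  d_mem : ∀ j, d j ∈ Γ
  invariant : ∀ v : DVal k K, v.IsPrimeDivisorThrough G.A G.pt →
    (∃ m : Fin n → ℤ, v.val (mono k K m) ≠ 0) → G.bdry v = 0 ∨ G.bdry v ∈ Γ
  noninvariant : ∀ v : DVal k K, v.IsPrimeDivisorThrough G.A G.pt →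
    (∀ m : Fin n → ℤ, v.val (mono k K m) = 0) →
    G.bdry v = ∑ j, d j * (v.val (algebraMap (Laurent k n) K (f j)) : ℝ)
  nondeg : ∀ w : Fin n → ℤ, (∀ m ∈ S, m ≠ 0 → 0 < m ⬝ᵥ w) → NondegAt w f

open Classical in
/-- the minimal weight of the monomials of `f` -/
noncomputable def minWt (w : Fin n → ℤ) (f : Laurent k n) : ℤ :=
  if h : ∃ μ, IsMinWt w f μ then h.choose else 0

lemma minWt_spec (w : Fin n → ℤ) {f : Laurent k n} (hf : f ≠ 0) : IsMinWt w f (minWt w f) := by
  unfold minWt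
  rw [dif_pos (exists_isMinWt w f hf)]
  exact (exists_isMinWt w f hf).choose_spec

lemma IsMinWt.eq {w : Fin n → ℤ} {f : Laurent k n} {μ μ' : ℤ} (h : IsMinWt w f μ)
    (h' : IsMinWt w f μ') : μ = μ' := by
  obtain ⟨m, hm, hmu⟩ := h.1
  obtain ⟨m', hm', hmu'⟩ := h'.1
  refine le_antisymm ?_ ?_
  · rw [← hmu']; exact h.2 _ hm'
  · rw [← hmu]; exact h'.2 _ hm

lemma monoVal_eq_minWt (w : Fin n → ℤ) {f : Laurent k n} (hf : f ≠ 0) :
    monoVal k K w (algebraMap (Laurent k n) K f) = ((minWt w f : ℤ) : WithTop ℤ) := by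
  obtain ⟨m, hm, hmin, hval⟩ := exists_monoVal_laurent (K := K) w f hf
  rw [hval]
  have h1 : IsMinWt w f (m ⬝ᵥ w) := ⟨⟨m, hm, rfl⟩, hmin⟩
  rw [(minWt_spec w hf).eq h1]

/-- the log discrepancy function of a toric germ with nondegenerate boundary -/
noncomputable def Fun (u : Fin n → ℝ) {J : Type} [Fintype J] (f : J → Laurent k n) (d : J → ℝ)
    (w : Fin n → ℤ) : ℝ := ∑ i, u i * (w i : ℝ) - ∑ j, d j * (minWt w (f j) : ℝ)

/-- `w` is in the interior of the cone dual to `S` -/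
def InInt (S : AddSubmonoid (Fin n → ℤ)) (w : Fin n → ℤ) : Prop := ∀ m ∈ S, m ≠ 0 → 0 < m ⬝ᵥ w

lemma const_of_toric {S : AddSubmonoid (Fin n → ℤ)} {pt : Ideal (toricAlg k K S)}
    (hpt : ∀ m ∈ S, m ≠ 0 → ∀ a : toricAlg k K S, (a : K) = mono k K m → a ∈ pt)
    (a : toricAlg k K S) (f : Laurent k n) (hf : ∀ m ∈ f.coeff.support, m ∈ S)
    (hfa : algebraMap (Laurent k n) K f = a) (h0 : f.coeff 0 = 0) : a ∈ pt := by
  classical
  have h1 : a = ∑ m ∈ f.coeff.support.attach, algebraMap k (toricAlg k K S) (f.coeff m.1) *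
      (⟨mono k K m.1, mono_mem_toricAlg (hf m.1 m.2)⟩ : toricAlg k K S) := by
    apply Subtype.ext
    rw [← hfa, laurent_eq_sum, AddSubmonoidClass.coe_finsetSum]
    rw [← Finset.sum_attach]
    rfl
  rw [h1]
  refine Ideal.sum_mem _ fun m _ => Ideal.mul_mem_left _ _ ?_
  refine hpt m.1 (hf m.1 m.2) ?_ _ rfl
  intro h
  have := Finsupp.mem_support_iff.1 m.2
  rw [h, h0] at this
  exact this rfl

lemma hasCenter_monoDVal {S : AddSubmonoid (Fin n → ℤ)} {pt : Ideal (toricAlg k K S)}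
    (hmax : pt.IsMaximal)
    (hpt : ∀ m ∈ S, m ≠ 0 → ∀ a : toricAlg k K S, (a : K) = mono k K m → a ∈ pt)
    (w : Fin n → ℤ) (hw : ∃ m : Fin n → ℤ, m ⬝ᵥ w = 1) (hint : InInt S w) :
    (monoDVal k K w hw).HasCenter (toricAlg k K S) pt := by
  classical
  have hnn : ∀ a : toricAlg k K S, 0 ≤ (monoDVal k K w hw).ord (a : K) := fun a => by
    rw [monoDVal_ord]
    refine monoVal_nonneg_of_mem (fun m hm => ?_) a.2
    by_cases h : m = 0
    · rw [h, zero_dotProduct]
    · exact (hint m hm h).le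
  have hpos : ∀ (f : Laurent k n), (∀ m ∈ f.coeff.support, m ∈ S) → f.coeff 0 = 0 →
      0 < monoVal k K w (algebraMap (Laurent k n) K f) := by
    intro f hf h0
    by_cases hf0 : f = 0
    · rw [hf0, map_zero, AddValuation.map_zero]
      exact WithTop.coe_lt_top (0 : ℤ)
    · obtain ⟨m, hm, _, hval⟩ := exists_monoVal_laurent (K := K) w f hf0
      rw [hval]
      have hm0 : m ≠ 0 := by
        rintro rfl
        exact Finsupp.mem_support_iff.1 hm h0
      exact_mod_cast hint m (hf m hm) hm0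
  refine ⟨hnn, fun a => ⟨fun ha => ?_, fun ha => ?_⟩⟩
  · obtain ⟨f, hf, hfa⟩ := exists_laurent_of_mem a.2
    have h0 : f.coeff 0 = 0 := by
      by_contra hne
      -- subtract the constant term
      let g : Laurent k n := restr f (fun m => ¬ m = 0)
      have hg : ∀ m ∈ g.coeff.support, m ∈ S := by
        intro m hm
        rw [restr_support, Finset.mem_filter] at hm
        exact hf m hm.1
      have hg0 : g.coeff 0 = 0 := by
        rw [restr_coeff, Finsupp.filter_apply_neg]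
        simp
      have hgmem := const_of_toric hpt ⟨algebraMap _ _ g, mem_toricAlg_of_laurent g hg⟩ g hg rfl hg0
      have hfg : f = algebraMap k _ (f.coeff 0) + g := by
        apply AddMonoidAlgebra.coeff_injective
        rw [AddMonoidAlgebra.coeff_add, AddMonoidAlgebra.coe_algebraMap]
        ext m
        rw [Finsupp.add_apply, Function.comp_apply, AddMonoidAlgebra.coeff_single,
          Finsupp.single_apply]
        simp only [g, restr_coeff, Finsupp.filter_apply]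
        by_cases hm : m = 0
        · subst hm; simp
        · simp [hm, Ne.symm hm]
      have hc : algebraMap k (toricAlg k K S) (f.coeff 0) ∈ pt := by
        have h1 : algebraMap k (toricAlg k K S) (f.coeff 0) =
            a - ⟨algebraMap _ _ g, mem_toricAlg_of_laurent g hg⟩ := by
          apply Subtype.ext
          change algebraMap k K (f.coeff 0) = (a : K) - algebraMap _ _ g
          rw [← hfa]
          conv_rhs => rw [hfg]
          rw [map_add, ← IsScalarTower.algebraMap_apply]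
          ring
        rw [h1]
        exact Ideal.sub_mem _ ha hgmem
      refine hmax.ne_top (Ideal.eq_top_of_isUnit_mem _ hc ?_)
      exact (IsUnit.mk0 _ hne).map (algebraMap k (toricAlg k K S))
    rw [monoDVal_ord, ← hfa]
    exact hpos f hf h0
  · obtain ⟨f, hf, hfa⟩ := exists_laurent_of_mem a.2
    refine const_of_toric hpt a f hf hfa ?_
    by_contra hne
    rw [monoDVal_ord, ← hfa] at ha
    have h1 := lt_of_lt_of_le ha (monoVal_laurent_le w f 0 (Finsupp.mem_support_iff.2 hne))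
    rw [zero_dotProduct] at h1
    exact lt_irrefl _ h1

lemma int_of_hasCenter {S : AddSubmonoid (Fin n → ℤ)} {pt : Ideal (toricAlg k K S)}
    (hpt : ∀ m ∈ S, m ≠ 0 → ∀ a : toricAlg k K S, (a : K) = mono k K m → a ∈ pt)
    {v : DVal k K} (hv : v.HasCenter (toricAlg k K S) pt) : InInt S (wt v) := by
  intro m hmS hm0
  have h0 : (⟨mono k K m, mono_mem_toricAlg hmS⟩ : toricAlg k K S) ∈ pt :=
    hpt m hmS hm0 ⟨mono k K m, mono_mem_toricAlg hmS⟩ rfl
  have h1 := (hv.2 _).1 h0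
  change 0 < v.ord (mono k K m) at h1
  rw [ord_mono] at h1
  exact_mod_cast h1

lemma exists_ne_of_dval (S : AddSubmonoid (Fin n → ℤ))
    [IsFractionRing (toricAlg k K S) K] (v : DVal k K) :
    ∃ m ∈ S, m ≠ 0 := by
  by_contra hcon
  push Not at hcon
  have hA : ∀ x ∈ toricAlg k K S, x ≠ 0 → v.ord x = 0 := by
    intro x hx hx0
    obtain ⟨f, hf, rfl⟩ := exists_laurent_of_mem hx
    have hsupp : f.coeff.support ⊆ {0} := fun m hm => by
      rw [Finset.mem_singleton]; exact hcon m (hf m hm)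
    have h1 : algebraMap (Laurent k n) K f =
        algebraMap k K (f.coeff 0) := by
      rw [laurent_eq_sum, Finset.sum_subset hsupp, Finset.sum_singleton, mono_zero, mul_one]
      intro m _ hm
      rw [Finsupp.notMem_support_iff.1 hm, map_zero, zero_mul]
    rw [h1] at hx0 ⊢
    exact v.ord_algebraMap _ fun h => hx0 (by rw [h, map_zero])
  obtain ⟨t, ht⟩ := v.exists_ord_eq_one
  have ht0 : t ≠ 0 := by
    rintro rfl
    rw [v.ord_zero] at ht
    exact WithTop.top_ne_one ht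
  obtain ⟨a, b, hb, hab⟩ := IsFractionRing.div_surjective (toricAlg k K S) t
  have hb0 : b ≠ 0 := nonZeroDivisors.ne_zero hb
  have ha0 : a ≠ 0 := by
    rintro rfl
    rw [map_zero, zero_div] at hab
    exact ht0 hab.symm
  have haK : (a : K) ≠ 0 := fun h => ha0 (Subtype.ext h)
  have hbK : (b : K) ≠ 0 := fun h => hb0 (Subtype.ext h)
  have h1 : v.ord (t * (b : K)) = v.ord (a : K) := by
    congr 1
    rw [← hab]
    exact div_mul_cancel₀ _ hbK
  rw [v.ord.map_mul, ht, hA _ b.2 hbK, hA _ a.2 haK, add_zero] at h1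
  exact one_ne_zero (by exact_mod_cast h1 : (1 : ℤ) = 0)

/-- all combinatorial information on a toric germ with nondegenerate boundary -/
structure ToricData (G : LogGerm k K n) (S : AddSubmonoid (Fin n → ℤ)) (Γ : Set ℝ)
    {J : Type} [Fintype J] (f : J → Laurent k n) (d : J → ℝ) where
  u : Fin n → ℝ
  R : Finset (Fin n → ℤ)
  b : (Fin n → ℤ) → ℝ
  b_mem : ∀ ρ ∈ R, b ρ = 0 ∨ b ρ ∈ Γ
  u_eq : ∀ ρ ∈ R, Fun u f d ρ = 1 - b ρ
  nonneg : ∀ ρ ∈ R, ∀ m ∈ S, 0 ≤ m ⬝ᵥ ρ
  mem : ∀ m : Fin n → ℤ, (∀ ρ ∈ R, 0 ≤ m ⬝ᵥ ρ) → m ∈ S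
  exists_ne : ∀ v : DVal k K, v.HasCenter G.A G.pt → ∃ m ∈ S, m ≠ 0
  int : ∀ v : DVal k K, v.HasCenter G.A G.pt → InInt S (wt v)
  le : ∀ v : DVal k K, v.HasCenter G.A G.pt → ∀ a, G.IsLogDiscrepancy v a →
    Fun u f d (wt v) ≤ a
  eq : ∀ w : Fin n → ℤ, (∃ m : Fin n → ℤ, m ⬝ᵥ w = 1) → InInt S w →
    ∃ v : DVal k K, v.IsDivisorial n ∧ v.HasCenter G.A G.pt ∧
      G.IsLogDiscrepancy v (Fun u f d w)

section core

variable {S : AddSubmonoid (Fin n → ℤ)}
  [IsFractionRing (toricAlg k K S) K] [IsNoetherianRing (toricAlg k K S)]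
  [IsIntegrallyClosed (toricAlg k K S)] {pt : Ideal (toricAlg k K S)}
  (ω : Module.Basis (Fin n) K (Ω[K⁄k]))
  {J : Type} [Fintype J] {f : J → Laurent k n} {d : J → ℝ}

lemma val_monoDVal_laurent (w : Fin n → ℤ) (hw : ∃ m : Fin n → ℤ, m ⬝ᵥ w = 1) {f : Laurent k n}
    (hf : f ≠ 0) : (monoDVal k K w hw).val (algebraMap (Laurent k n) K f) =
      minWt w f := by
  have h1 := monoVal_eq_minWt (K := K) w hf
  exact (((monoDVal k K w hw).ord_eq_iff (x := algebraMap (Laurent k n) K f)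
    (z := minWt w f)).1 h1).2

lemma algebraMap_laurent_ne_zero {f : Laurent k n} (hf : f ≠ 0) :
    algebraMap (Laurent k n) K f ≠ 0 := fun h =>
  hf ((IsFractionRing.injective (Laurent k n) K) (h.trans (map_zero _).symm))

/-- the local equation of `K_X + Δ` -/
lemma exists_u [pt.IsPrime] (f_ne : ∀ j, f j ≠ 0) {bdry : DVal k K → ℝ}
    {ι : Type} [Fintype ι] {r : ι → ℝ} {s : ι → K} (s_ne : ∀ i, s i ≠ 0)
    (cartier : ∀ v : DVal k K, v.IsPrimeDivisorThrough (toricAlg k K S) pt →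
      ∃ e : ℤ, v.FormOrd ω e ∧ (e : ℝ) + bdry v = ∑ i, r i * (v.val (s i) : ℝ))
    (noninv : ∀ v : DVal k K, v.IsPrimeDivisorThrough (toricAlg k K S) pt →
      (∀ m : Fin n → ℤ, v.val (mono k K m) = 0) →
      bdry v = ∑ j, d j * (v.val (algebraMap (Laurent k n) K (f j)) : ℝ)) :
    ∃ u : Fin n → ℝ, ∀ (v : DVal k K) (P : Ideal (toricAlg k K S)),
      v.HasCenter (toricAlg k K S) P → P ≤ pt →
      ∑ i, r i * (v.val (s i) : ℝ) + v.val (ω.det (logBasis ω)) -
        ∑ j, d j * (v.val (algebraMap (Laurent k n) K (f j)) : ℝ) =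
        -∑ i, u i * (wt v i : ℝ) := by
  classical
  have hg0 : ω.det (logBasis ω) ≠ 0 := det_ne_zero ω (logBasis ω)
  have hchange : ∀ (v : DVal k K) (e : ℤ), v.FormOrd ω e →
      v.FormOrd (logBasis ω) (e + v.val (ω.det (logBasis ω))) :=
    fun v e he => FormOrd_change v ω (logBasis ω) he
  revert hg0 hchange
  generalize (ω.det (logBasis ω) : K) = g
  intro hg0 hchange
  obtain ⟨φ, hφ⟩ : ∃ φ, φ = algebraMap (Laurent k n) K := ⟨_, rfl⟩
  have hφf : ∀ j, φ (f j) ≠ 0 := fun j => by rw [hφ]; exact algebraMap_laurent_ne_zero (f_ne j)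
  rw [← hφ] at noninv ⊢
  let D := toricHomData k K S pt
  have hInvNot : ∀ v : DVal k K, v.IsPrimeDivisorThrough (toricAlg k K S) pt →
      v ∉ D.Inv → ∀ m : Fin n → ℤ, v.val (mono k K m) = 0 := by
    intro v hv hvI m
    by_contra h
    exact hvI ⟨hv, m, h⟩
  -- the local equation
  let c : ι ⊕ (Unit ⊕ J) → ℝ := Sum.elim r (Sum.elim (fun _ => 1) (fun j => -d j))
  let s' : ι ⊕ (Unit ⊕ J) → K := Sum.elim s (Sum.elim (fun _ => g) (fun j => φ (f j)))
  have hs' : ∀ i, s' i ≠ 0 := by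
    rintro (i | i | j)
    · exact s_ne i
    · exact hg0
    · exact hφf j
  have hsum : ∀ v : DVal k K, ∑ i, c i * (v.val (s' i) : ℝ) =
      ∑ i, r i * (v.val (s i) : ℝ) + v.val g - ∑ j, d j * (v.val (φ (f j)) : ℝ) := by
    intro v
    rw [Fintype.sum_sum_type, Fintype.sum_sum_type]
    simp only [c, s', Sum.elim_inl, Sum.elim_inr, Finset.univ_unique, Finset.sum_singleton, one_mul,
      neg_mul, Finset.sum_neg_distrib]
    ring
  have hv0 : ∀ v : DVal k K, v.IsPrimeDivisorThrough (toricAlg k K S) pt →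
      v ∉ D.Inv → ∑ i, c i * (v.val (s' i) : ℝ) = 0 := by
    intro v hv hvI
    have hm := hInvNot v hv hvI
    obtain ⟨e, he, hcar⟩ := cartier v hv
    have h1 := hchange v e he
    have h2 := FormOrd_unique v (logBasis ω) h1 (FormOrd_noninvariant ω hv hm)
    rw [hsum, ← hcar, noninv v hv hm]
    have h3 : (e : ℝ) + v.val g = 0 := by exact_mod_cast h2
    linarith
  obtain ⟨N, c', h, hh, hval⟩ := D.exists_hom_real c s' hs' hv0
  choose hc hm hc0 hheq using hh
  refine ⟨fun i => -∑ j, c' j * (hm j i : ℝ), ?_⟩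
  intro v P hP hPpt
  rw [← hsum, hval v P hP hPpt]
  have h1 : ∀ j, (v.val (h j) : ℝ) = ∑ i, (hm j i : ℝ) * (wt v i : ℝ) := by
    intro j
    rw [hheq j, v.val_mul (by simpa using hc0 j) (mono_ne_zero _), v.val_algebraMap, zero_add,
      val_mono]
    unfold dotProduct
    push_cast
    rfl
  simp_rw [h1, Finset.mul_sum]
  rw [Finset.sum_comm, ← Finset.sum_neg_distrib]
  refine Finset.sum_congr rfl fun i _ => ?_
  rw [neg_mul, neg_neg, Finset.sum_mul]
  refine Finset.sum_congr rfl fun j _ => ?_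
  ring

/-- the finite set of primitive generators of the rays -/
lemma exists_rays [pt.IsPrime]
    (hpt : ∀ m ∈ S, m ≠ 0 → ∀ a : toricAlg k K S, (a : K) = mono k K m → a ∈ pt) :
    ∃ R : Finset (Fin n → ℤ),
      (∀ ρ ∈ R, ∃ (hρ : ∃ m : Fin n → ℤ, m ⬝ᵥ ρ = 1),
        (monoDVal k K ρ hρ).IsPrimeDivisorThrough (toricAlg k K S) pt ∧
        ∃ m : Fin n → ℤ, (monoDVal k K ρ hρ).val (mono k K m) ≠ 0) ∧
      (∀ ρ ∈ R, ∀ m ∈ S, 0 ≤ m ⬝ᵥ ρ) ∧
      (∀ m : Fin n → ℤ, (∀ ρ ∈ R, 0 ≤ m ⬝ᵥ ρ) → m ∈ S) := by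
  classical
  have hfinInv : {v : DVal k K | v.IsPrimeDivisorThrough (toricAlg k K S) pt ∧
      ∃ m : Fin n → ℤ, v.val (mono k K m) ≠ 0}.Finite := by
    refine (Set.finite_iUnion fun i : Fin n =>
      finite_primeDivisors (A := toricAlg k K S) pt (coord k K i) (coord_ne_zero i)).subset ?_
    rintro v ⟨hv, m, hm⟩
    rw [val_mono] at hm
    have : ∃ i : Fin n, wt v i ≠ 0 := by
      by_contra hcon
      push Not at hcon
      have : (wt v : Fin n → ℤ) = 0 := funext hcon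
      rw [this, dotProduct_zero] at hm
      exact hm rfl
    obtain ⟨i, hi⟩ := this
    exact Set.mem_iUnion.2 ⟨i, hv, hi⟩
  have hR : ∀ ρ ∈ hfinInv.toFinset.image wt, ∃ (hρ : ∃ m : Fin n → ℤ, m ⬝ᵥ ρ = 1),
      (monoDVal k K ρ hρ).IsPrimeDivisorThrough (toricAlg k K S) pt ∧
      ∃ m : Fin n → ℤ, (monoDVal k K ρ hρ).val (mono k K m) ≠ 0 := by
    intro ρ hρ
    obtain ⟨v, hv, rfl⟩ := Finset.mem_image.1 hρ
    have hv' := hfinInv.mem_toFinset.1 hv
    obtain ⟨h1, h2⟩ := invariant_prime hv'.1 hv'.2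
    refine ⟨h1, ?_⟩
    rw [← h2]
    exact hv'
  refine ⟨hfinInv.toFinset.image wt, hR, ?_, ?_⟩
  · intro ρ hρ m hmS
    obtain ⟨h1, h2, h3⟩ := hR ρ hρ
    obtain ⟨P, hP, _, _⟩ := h2
    have h4 := hP.1 ⟨mono k K m, mono_mem_toricAlg hmS⟩
    change 0 ≤ (monoDVal k K ρ h1).ord (mono k K m) at h4
    rw [ord_mono, wt_monoDVal] at h4
    exact_mod_cast h4
  · intro m hmR
    have h1 : mono k K m ∈ Loc K pt := by
      refine mem_Loc_of_forall (k := k) pt _ fun v hv => ?_
      rw [ord_mono]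
      by_cases hvI : ∃ m : Fin n → ℤ, v.val (mono k K m) ≠ 0
      · have h2 : (wt v : Fin n → ℤ) ∈ hfinInv.toFinset.image wt :=
          Finset.mem_image.2 ⟨v, hfinInv.mem_toFinset.2 ⟨hv, hvI⟩, rfl⟩
        exact_mod_cast hmR _ h2
      · push Not at hvI
        have h2 := hvI m
        rw [val_mono] at h2
        rw [h2]
        exact le_rfl
    obtain ⟨a, t, ht, hat⟩ := (mem_Loc_iff pt _).1 h1
    obtain ⟨ft, hft, hfta⟩ := exists_laurent_of_mem t.2
    obtain ⟨fa, hfa, hfaa⟩ := exists_laurent_of_mem a.2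
    have h0 : ft.coeff 0 ≠ 0 := by
      intro h0
      exact ht (const_of_toric hpt t ft hft hfta h0)
    have heq : AddMonoidAlgebra.single m 1 * ft = fa := by
      apply IsFractionRing.injective (Laurent k n) K
      rw [map_mul, hfaa, hfta]
      exact hat
    have hmem : m ∈ fa.coeff.support := by
      rw [← heq, Finsupp.mem_support_iff]
      have h2 := AddMonoidAlgebra.coeff_single_mul_add ft (1 : k) m 0
      rw [add_zero] at h2
      rw [h2, one_mul]
      exact h0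
    exact hfa m hmem

/-- lower bound for all log discrepancies -/
lemma log_discrepancy_ge [IsAlgClosed k] (f_ne : ∀ j, f j ≠ 0) (d_le : ∀ j, d j ≤ 1)
    {ι : Type} [Fintype ι] {r : ι → ℝ} {s : ι → K} {u : Fin n → ℝ}
    (v : DVal k K) (hnd : NondegAt (wt v) f)
    (hL : ∑ i, r i * (v.val (s i) : ℝ) + v.val (ω.det (logBasis ω)) -
        ∑ j, d j * (v.val (algebraMap (Laurent k n) K (f j)) : ℝ) =
        -∑ i, u i * (wt v i : ℝ)) (e : ℤ) (he : v.FormOrd ω e) :
    Fun u f d (wt v) ≤ 1 + (e : ℝ) - ∑ i, r i * (v.val (s i) : ℝ) := by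
  have h4 := FormOrd_change v ω (logBasis ω) he
  have h5 := nondeg_bound ω v _ h4 f hnd (fun j => minWt (wt v) (f j))
    (fun j => minWt_spec _ (f_ne j))
  revert h5 hL
  clear h4 he
  generalize (v.val (ω.det (logBasis ω)) : ℤ) = vg
  intro hL h5
  have h7 : ∀ j, 0 ≤ (1 - d j) * ((v.val (algebraMap (Laurent k n) K (f j)) : ℝ) -
      minWt (wt v) (f j)) := by
    intro j
    have h8 := le_ord_laurent v (f j) (minWt (wt v) (f j)) (minWt_spec _ (f_ne j)).2
    have h9 := (v.le_ord_iff.1 h8).resolve_left (algebraMap_laurent_ne_zero (f_ne j))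
    have h10 : ((minWt (wt v) (f j) : ℤ) : ℝ) ≤
        (v.val (algebraMap (Laurent k n) K (f j)) : ℝ) := by exact_mod_cast h9
    have h11 := d_le j
    exact mul_nonneg (by linarith) (by linarith)
  have h12 := Finset.sum_nonneg fun j (_ : j ∈ Finset.univ) => h7 j
  have h13 : ∑ j, (1 - d j) * ((v.val (algebraMap (Laurent k n) K (f j)) : ℝ) -
      minWt (wt v) (f j)) =
      ∑ j, ((v.val (algebraMap (Laurent k n) K (f j)) : ℝ) - minWt (wt v) (f j)) -
      ∑ j, d j * (v.val (algebraMap (Laurent k n) K (f j)) : ℝ) +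
      ∑ j, d j * (minWt (wt v) (f j) : ℝ) := by
    rw [← Finset.sum_sub_distrib, ← Finset.sum_add_distrib]
    refine Finset.sum_congr rfl fun j _ => ?_
    ring
  have h14 : ∑ j, ((v.val (algebraMap (Laurent k n) K (f j)) : ℝ) -
      minWt (wt v) (f j)) ≤ (e : ℝ) + vg + 1 := by
    exact_mod_cast h5
  unfold Fun
  linarith

/-- equality for monomial valuations -/
lemma log_discrepancy_eq [CharZero k] (f_ne : ∀ j, f j ≠ 0)
    {ι : Type} [Fintype ι] {r : ι → ℝ} {s : ι → K} {u : Fin n → ℝ}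
    (w : Fin n → ℤ) (hw : ∃ m : Fin n → ℤ, m ⬝ᵥ w = 1)
    (hL : ∑ i, r i * ((monoDVal k K w hw).val (s i) : ℝ) +
        (monoDVal k K w hw).val (ω.det (logBasis ω)) -
        ∑ j, d j * ((monoDVal k K w hw).val (algebraMap (Laurent k n) K (f j)) : ℝ) =
        -∑ i, u i * (wt (monoDVal k K w hw) i : ℝ)) :
    ∃ e : ℤ, (monoDVal k K w hw).FormOrd ω e ∧
      Fun u f d w = 1 + (e : ℝ) - ∑ i, r i * ((monoDVal k K w hw).val (s i) : ℝ) := by
  have h1 := FormOrd_change (monoDVal k K w hw) (logBasis ω) ω (FormOrd_monoDVal ω w hw)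
  refine ⟨_, h1, ?_⟩
  rw [wt_monoDVal] at hL
  simp_rw [val_monoDVal_laurent w hw (f_ne _)] at hL
  have hg0 : ω.det (logBasis ω) ≠ 0 := det_ne_zero ω (logBasis ω)
  have h2 : ω.det (logBasis ω) * (logBasis ω).det ω = 1 := by
    have := det_change ω (logBasis ω) ω
    rw [ω.det_self] at this
    exact this.symm
  have h3 : (logBasis ω).det ω = (ω.det (logBasis ω))⁻¹ := eq_inv_of_mul_eq_one_right h2
  have h4 : (monoDVal k K w hw).val ((logBasis ω).det ω) =
      -(monoDVal k K w hw).val (ω.det (logBasis ω)) := by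
    rw [h3, DVal.val_inv _ hg0]
  rw [h4]
  revert hL
  generalize ((monoDVal k K w hw).val (ω.det (logBasis ω)) : ℤ) = vg
  intro hL
  unfold Fun
  push_cast
  linarith

end core

theorem exists_toricData [IsAlgClosed k] [CharZero k] (G : LogGerm k K n)
    (S : AddSubmonoid (Fin n → ℤ)) (Γ : Set ℝ) (hΓ : Γ ⊆ Set.Icc 0 1)
    {J : Type} [Fintype J] (f : J → Laurent k n) (d : J → ℝ) (hG : G.IsToricI S)
    (hB : G.HasNondegBoundaryI S Γ f d) : Nonempty (ToricData G S Γ f d) := by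
  classical
  obtain ⟨A, fg, hfrac, hnorm, pt, hmax, bdry, ω, ι, hfin, r, s, s_ne, cartier⟩ := G
  obtain ⟨hA, hpt⟩ := hG
  obtain ⟨f_ne, d_mem, inv, noninv, nondeg⟩ := hB
  simp only at hA hpt inv noninv cartier
  subst hA
  have hnoeth : IsNoetherianRing (toricAlg k K S) := by
    have : Algebra.FiniteType k (toricAlg k K S) := (toricAlg k K S).fg_iff_finiteType.1 fg
    exact Algebra.FiniteType.isNoetherianRing k _
  have hprime := hmax.isPrime
  obtain ⟨u, hu⟩ := exists_u (S := S) (pt := pt) ω f_ne s_ne cartier noninv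
  obtain ⟨R, hR, hnn, hmem⟩ := exists_rays (k := k) (S := S) (pt := pt) hpt
  let b : (Fin n → ℤ) → ℝ := fun ρ =>
    if hρ : ∃ m : Fin n → ℤ, m ⬝ᵥ ρ = 1 then bdry (monoDVal k K ρ hρ) else 0
  refine ⟨⟨u, R, b, ?_, ?_, hnn, hmem, fun v _ => exists_ne_of_dval S v, ?_, ?_, ?_⟩⟩
  · intro ρ hρ
    obtain ⟨h1, h2, h3⟩ := hR ρ hρ
    simp only [b, dif_pos h1]
    exact inv _ h2 h3
  · intro ρ hρ
    obtain ⟨h1, h2, h3⟩ := hR ρ hρ
    simp only [b, dif_pos h1]
    obtain ⟨e, he, hcar⟩ := cartier _ h2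
    obtain ⟨P, hP, _, hPpt⟩ := h2
    obtain ⟨e', he', hF⟩ := log_discrepancy_eq (ω := ω) f_ne ρ h1 (hu _ P hP hPpt)
    rw [FormOrd_unique _ ω he he'] at hcar
    rw [hF]
    linarith
  · intro v hv
    exact int_of_hasCenter hpt hv
  · rintro v hv a ⟨e, he, rfl⟩
    exact log_discrepancy_ge ω f_ne (fun j => (hΓ (d_mem j)).2) v
      (nondeg _ (int_of_hasCenter hpt hv)) (hu v pt hv le_rfl) e he
  · intro w hw hint
    have hcent := hasCenter_monoDVal (k := k) hmax hpt w hw hint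
    obtain ⟨e, he, hF⟩ := log_discrepancy_eq (ω := ω) f_ne w hw (hu _ pt hcent le_rfl)
    exact ⟨monoDVal k K w hw, monoDVal_isDivisorial w hw, hcent, e, he, hF⟩

end

end Pool.Agent.H26
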