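import Mathlib
import Pool.Agent.H26.ToricGerm
import Pool.Agent.H26.Farkas
import Pool.Agent.H26.Engine
import Pool.Agent.H26.Chains

/-! # Toric germs with nondegenerate boundary: combinatorics -/

open scoped BigOperators
open KaehlerDifferential

namespace Pool.Agent.H26

set_option linter.unusedSectionVars false

universe u v

section

variable {k : Type u} [Field k] {n : ℕ} {K : Type v} [Field K] [Algebra k K]
  [Algebra (Laurent k n) K] [IsScalarTower k (Laurent k n) K] [IsFractionRing (Laurent k n) K]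

/-- a choice of a monomial in each member of the system -/
def IsSel {J : Type} (f : J → Laurent k n) (m : J → Fin n → ℤ) : Prop :=
  ∀ j, m j ∈ (f j).coeff.support

/-- the linear function attached to a choice of monomials, at a real point -/
def lin (u : Fin n → ℝ) {J : Type} [Fintype J] (d : J → ℝ) (m : J → Fin n → ℤ)
    (w : Fin n → ℝ) : ℝ := ∑ i, u i * w i - ∑ j, d j * ∑ i, (m j i : ℝ) * w i

variable {J : Type} [Fintype J] {f : J → Laurent k n} {d : J → ℝ} {u : Fin n → ℝ}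

lemma lin_add (m : J → Fin n → ℤ) (w w' : Fin n → ℝ) :
    lin u d m (w + w') = lin u d m w + lin u d m w' := by
  unfold lin
  simp only [Pi.add_apply, mul_add, Finset.sum_add_distrib]
  ring

lemma lin_smul (m : J → Fin n → ℤ) (a : ℝ) (w : Fin n → ℝ) :
    lin u d m (a • w) = a * lin u d m w := by
  unfold lin
  simp only [Pi.smul_apply, smul_eq_mul]
  rw [mul_sub, Finset.mul_sum, Finset.mul_sum]
  congr 1
  · exact Finset.sum_congr rfl fun i _ => by ring
  · refine Finset.sum_congr rfl fun j _ => ?_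
    rw [Finset.mul_sum, Finset.mul_sum, Finset.mul_sum]
    exact Finset.sum_congr rfl fun i _ => by ring

lemma lin_zero (m : J → Fin n → ℤ) : lin u d m 0 = 0 := by
  unfold lin; simp

lemma lin_sum (m : J → Fin n → ℤ) {ι : Type*} (s : Finset ι) (a : ι → ℝ) (w : ι → Fin n → ℝ) :
    lin u d m (∑ l ∈ s, a l • w l) = ∑ l ∈ s, a l * lin u d m (w l) := by
  classical
  induction s using Finset.induction_on with
  | empty => simp [lin_zero]
  | insert x s hx ih => rw [Finset.sum_insert hx, Finset.sum_insert hx, lin_add, lin_smul, ih]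

/-- integral vectors as real vectors -/
def toReal (w : Fin n → ℤ) : Fin n → ℝ := fun i => (w i : ℝ)

lemma toReal_add (w w' : Fin n → ℤ) : toReal (w + w') = toReal w + toReal w' := by
  funext i; simp [toReal]

lemma toReal_smul (a : ℤ) (w : Fin n → ℤ) : toReal (a • w) = (a : ℝ) • toReal w := by
  funext i; simp [toReal]

lemma lin_toReal (m : J → Fin n → ℤ) (w : Fin n → ℤ) :
    lin u d m (toReal w) = ∑ i, u i * (w i : ℝ) - ∑ j, d j * ((m j ⬝ᵥ w : ℤ) : ℝ) := by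
  unfold lin toReal dotProduct
  push_cast
  rfl

lemma lin_le_Fun (hf : ∀ j, f j ≠ 0) (hd : ∀ j, 0 ≤ d j) {m : J → Fin n → ℤ} (hm : IsSel f m)
    (w : Fin n → ℤ) : lin u d m (toReal w) ≤ Fun u f d w := by
  rw [lin_toReal]
  unfold Fun
  have h1 : ∑ j, d j * (minWt w (f j) : ℝ) ≤ ∑ j, d j * ((m j ⬝ᵥ w : ℤ) : ℝ) := by
    refine Finset.sum_le_sum fun j _ => mul_le_mul_of_nonneg_left ?_ (hd j)
    exact_mod_cast (minWt_spec w (hf j)).2 _ (hm j)
  linarith

lemma exists_sel (hf : ∀ j, f j ≠ 0) (w : Fin n → ℤ) :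
    ∃ m, IsSel f m ∧ lin u d m (toReal w) = Fun u f d w := by
  choose m hm hmw using fun j => (minWt_spec w (hf j)).1
  refine ⟨m, hm, ?_⟩
  rw [lin_toReal]
  unfold Fun
  congr 1
  refine Finset.sum_congr rfl fun j _ => ?_
  rw [hmw]

lemma Fun_smul_ge (hf : ∀ j, f j ≠ 0) (hd : ∀ j, 0 ≤ d j) (a : ℤ) (w : Fin n → ℤ) :
    a * Fun u f d w ≤ Fun u f d (a • w) := by
  obtain ⟨m, hm, hmw⟩ := exists_sel (u := u) (d := d) hf w
  rw [← hmw, ← lin_smul, ← toReal_smul]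
  exact lin_le_Fun hf hd hm _

lemma Fun_add_le (hf : ∀ j, f j ≠ 0) (hd : ∀ j, 0 ≤ d j) (a : ℕ) (w w' : Fin n → ℤ) :
    Fun u f d ((a : ℤ) • w + w') ≤ a * Fun u f d w + Fun u f d w' := by
  obtain ⟨m, hm, hmw⟩ := exists_sel (u := u) (d := d) hf ((a : ℤ) • w + w')
  rw [← hmw, toReal_add, lin_add, toReal_smul, lin_smul]
  have h1 := lin_le_Fun (u := u) hf hd hm w
  have h2 := lin_le_Fun (u := u) hf hd hm w'
  have h3 : ((a : ℤ) : ℝ) * lin u d m (toReal w) ≤ a * Fun u f d w := by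
    push_cast
    exact mul_le_mul_of_nonneg_left h1 (Nat.cast_nonneg a)
  linarith

/-- cone generated by the rays: other positive combinations -/
lemma InInt.of_combination {S : AddSubmonoid (Fin n → ℤ)} {R : Finset (Fin n → ℤ)}
    (hnn : ∀ ρ ∈ R, ∀ m ∈ S, 0 ≤ m ⬝ᵥ ρ)
    {w : Fin n → ℤ} (hw : InInt S w) {N : ℕ} {c : Fin N → (Fin n → ℤ)} (hc : ∀ l, c l ∈ R)
    {x : Fin N → ℚ} (hwx : ∀ i, (w i : ℚ) = ∑ l, x l * (c l i : ℚ))
    {w' : Fin n → ℤ} {y : Fin N → ℝ} (hy : ∀ l, 0 < y l)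
    (hw' : ∀ i, (w' i : ℝ) = ∑ l, y l * (c l i : ℝ)) : InInt S w' := by
  intro m hm hm0
  have h1 : ((m ⬝ᵥ w : ℤ) : ℚ) = ∑ l, x l * ((m ⬝ᵥ c l : ℤ) : ℚ) := by
    unfold dotProduct
    push_cast
    simp_rw [hwx, Finset.mul_sum]
    rw [Finset.sum_comm]
    exact Finset.sum_congr rfl fun l _ => Finset.sum_congr rfl fun i _ => by ring
  have h2 : ((m ⬝ᵥ w' : ℤ) : ℝ) = ∑ l, y l * ((m ⬝ᵥ c l : ℤ) : ℝ) := by
    unfold dotProduct
    push_cast
    simp_rw [hw', Finset.mul_sum]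
    rw [Finset.sum_comm]
    exact Finset.sum_congr rfl fun l _ => Finset.sum_congr rfl fun i _ => by ring
  have h3 : ∃ l, 0 < m ⬝ᵥ c l := by
    by_contra hcon
    push Not at hcon
    have h4 : ∀ l, m ⬝ᵥ c l = 0 := fun l => le_antisymm (hcon l) (hnn _ (hc l) m hm)
    have h5 : ((m ⬝ᵥ w : ℤ) : ℚ) = 0 := by
      rw [h1]
      exact Finset.sum_eq_zero fun l _ => by rw [h4]; simp
    have h6 := hw m hm hm0
    have h7 : m ⬝ᵥ w = 0 := by exact_mod_cast h5
    omega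
  obtain ⟨l0, hl0⟩ := h3
  have h8 : (0 : ℝ) < ((m ⬝ᵥ w' : ℤ) : ℝ) := by
    rw [h2]
    refine Finset.sum_pos' (fun l _ => mul_nonneg (hy l).le ?_) ⟨l0, Finset.mem_univ _, ?_⟩
    · exact_mod_cast hnn _ (hc l) m hm
    · exact mul_pos (hy l0) (by exact_mod_cast hl0)
  exact_mod_cast h8

/-- large multiples of an interior point absorb any vector -/
lemma InInt.exists_large {S : AddSubmonoid (Fin n → ℤ)} {R : Finset (Fin n → ℤ)}
    (hnn : ∀ ρ ∈ R, ∀ m ∈ S, 0 ≤ m ⬝ᵥ ρ) (hmem : ∀ m : Fin n → ℤ, (∀ ρ ∈ R, 0 ≤ m ⬝ᵥ ρ) → m ∈ S)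
    {p : Fin n → ℤ} (hp : InInt S p) (q : Fin n → ℤ) (hq : q ≠ 0) :
    ∃ K : ℕ, ∀ a : ℕ, K ≤ a → InInt S ((a : ℤ) • p + q) := by
  classical
  obtain ⟨c, x, hc, hx, hqx⟩ := exists_positive_combination (insert (-p) R) q hq (by
    intro m hm
    have h1 : m ∈ S := hmem m fun ρ hρ => hm ρ (Finset.mem_insert_of_mem hρ)
    have h2 := hm (-p) (Finset.mem_insert_self _ _)
    rw [dotProduct_neg] at h2
    by_cases h0 : m = 0
    · rw [h0, zero_dotProduct]
    · have := hp m h1 h0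
      omega)
  obtain ⟨K, hK⟩ := exists_nat_gt (∑ l, x l)
  refine ⟨K, fun a ha m hm hm0 => ?_⟩
  have h1 : ((m ⬝ᵥ q : ℤ) : ℚ) = ∑ l, x l * ((m ⬝ᵥ c l : ℤ) : ℚ) := by
    unfold dotProduct
    push_cast
    simp_rw [hqx, Finset.mul_sum]
    rw [Finset.sum_comm]
    exact Finset.sum_congr rfl fun l _ => Finset.sum_congr rfl fun i _ => by ring
  have hmp := hp m hm hm0
  have hmpq : (0 : ℚ) < ((m ⬝ᵥ p : ℤ) : ℚ) := by exact_mod_cast hmp
  have h2 : ∀ l, -((m ⬝ᵥ p : ℤ) : ℚ) ≤ ((m ⬝ᵥ c l : ℤ) : ℚ) := by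
    intro l
    rcases Finset.mem_insert.1 (hc l) with h | h
    · rw [h, dotProduct_neg]; push_cast; exact le_rfl
    · have := hnn _ h m hm
      have h3 : (0 : ℚ) ≤ ((m ⬝ᵥ c l : ℤ) : ℚ) := by exact_mod_cast this
      linarith
  have h3 : -(∑ l, x l) * ((m ⬝ᵥ p : ℤ) : ℚ) ≤ ((m ⬝ᵥ q : ℤ) : ℚ) := by
    rw [h1, neg_mul, Finset.sum_mul, ← Finset.sum_neg_distrib]
    refine Finset.sum_le_sum fun l _ => ?_
    have := mul_le_mul_of_nonneg_left (h2 l) (hx l).le
    linarith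
  have h4 : (0 : ℚ) < ((m ⬝ᵥ ((a : ℤ) • p + q) : ℤ) : ℚ) := by
    rw [dotProduct_add, dotProduct_smul, smul_eq_mul]
    push_cast
    have h5 : (K : ℚ) ≤ a := by exact_mod_cast ha
    have h6 : 0 < ((a : ℚ) - ∑ l, x l) * ((m ⬝ᵥ p : ℤ) : ℚ) := mul_pos (by linarith) hmpq
    linarith
  exact_mod_cast h4

/-- a primitive vector in rank at least two is complemented -/
lemma exists_complement (p : Fin n → ℤ) (hn : 2 ≤ n) :
    ∃ m q : Fin n → ℤ, m ⬝ᵥ p = 0 ∧ m ⬝ᵥ q = 1 := by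
  classical
  let i : Fin n := ⟨0, by omega⟩
  let j : Fin n := ⟨1, by omega⟩
  have hij : i ≠ j := by
    intro h
    have := congrArg Fin.val h
    simp [i, j] at this
  obtain ⟨m', hm'0, hm'p⟩ : ∃ m' : Fin n → ℤ, m' ≠ 0 ∧ m' ⬝ᵥ p = 0 := by
    by_cases h : p i = 0
    · refine ⟨Pi.single i 1, ?_, ?_⟩
      · intro h1
        have := congrFun h1 i
        simp at this
      · rw [single_one_dotProduct, h]
    · refine ⟨p j • Pi.single i 1 - p i • Pi.single j 1, ?_, ?_⟩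
      · intro h1
        have := congrFun h1 j
        simp [hij.symm] at this
        exact h this
      · rw [sub_dotProduct, smul_dotProduct, smul_dotProduct, single_one_dotProduct,
          single_one_dotProduct]
        simp only [smul_eq_mul]
        ring
  obtain ⟨g, m, hg, hgm, q, hq⟩ := exists_primitive m' hm'0
  refine ⟨m, q, ?_, ?_⟩
  · rw [hgm, smul_dotProduct, smul_eq_mul] at hm'p
    rcases mul_eq_zero.1 hm'p with h | h
    · omega
    · exact h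
  · rw [dotProduct_comm]; exact hq

/-- if the log discrepancies of the invariant divisors are bounded below, they are nonnegative -/
lemma Fun_nonneg_prim (hf : ∀ j, f j ≠ 0) (hd : ∀ j, 0 ≤ d j) {S : AddSubmonoid (Fin n → ℤ)}
    {R : Finset (Fin n → ℤ)}
    (hnn : ∀ ρ ∈ R, ∀ m ∈ S, 0 ≤ m ⬝ᵥ ρ) (hmem : ∀ m : Fin n → ℤ, (∀ ρ ∈ R, 0 ≤ m ⬝ᵥ ρ) → m ∈ S)
    (hR : ∀ ρ ∈ R, 0 ≤ Fun u f d ρ) (t : ℝ)
    (ht : ∀ w : Fin n → ℤ, (∃ m : Fin n → ℤ, m ⬝ᵥ w = 1) → InInt S w → t ≤ Fun u f d w)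
    {p : Fin n → ℤ} (hp : InInt S p) (hprim : ∃ m : Fin n → ℤ, m ⬝ᵥ p = 1) :
    0 ≤ Fun u f d p := by
  classical
  by_cases hn : 2 ≤ n
  · obtain ⟨m, q, hmp, hmq⟩ := exists_complement p hn
    have hq0 : q ≠ 0 := by
      rintro rfl
      rw [dotProduct_zero] at hmq
      exact zero_ne_one hmq
    obtain ⟨K, hK⟩ := hp.exists_large hnn hmem q hq0
    by_contra hcon
    push Not at hcon
    have h1 : ∀ a : ℕ, K ≤ a → t ≤ a * Fun u f d p + Fun u f d q := by
      intro a ha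
      refine (ht _ ⟨m, ?_⟩ (hK a ha)).trans (Fun_add_le hf hd a p q)
      rw [dotProduct_add, dotProduct_smul, hmp, hmq, smul_zero, zero_add]
    obtain ⟨a, ha⟩ := exists_nat_gt ((t - Fun u f d q) / Fun u f d p)
    have h2 := h1 (max a K) (le_max_right _ _)
    have h3 : (t - Fun u f d q) / Fun u f d p < (max a K : ℕ) :=
      lt_of_lt_of_le ha (by exact_mod_cast le_max_left a K)
    rw [div_lt_iff_of_neg hcon] at h3
    linarith
  · -- rank at most one
    have hp0 : p ≠ 0 := by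
      rintro rfl
      obtain ⟨m, hm⟩ := hprim
      rw [dotProduct_zero] at hm
      exact zero_ne_one hm
    obtain ⟨c, x, hc, hx, hpx⟩ := exists_positive_combination R p hp0 (by
      intro m hm
      have h1 := hmem m hm
      by_cases h0 : m = 0
      · rw [h0, zero_dotProduct]
      · exact (hp m h1 h0).le)
    have hn1 : n = 1 := by
      rcases Nat.lt_or_ge n 1 with h | h
      · exfalso
        have : n = 0 := by omega
        subst this
        exact hp0 (funext fun i => i.elim0)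
      · omega
    subst hn1
    obtain ⟨m, hm, hmF⟩ := exists_sel (u := u) (d := d) hf (c 0)
    have h1 : toReal p = (x 0 : ℝ) • toReal (c 0) := by
      funext i
      have := hpx i
      rw [Fin.sum_univ_one] at this
      simp only [toReal, Pi.smul_apply, smul_eq_mul]
      exact_mod_cast this
    have h2 := lin_le_Fun (u := u) hf hd hm p
    rw [h1, lin_smul, hmF] at h2
    have h3 : (0 : ℝ) < (x 0 : ℝ) := by exact_mod_cast hx 0
    exact (mul_nonneg h3.le (hR _ (hc 0))).trans h2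

/-- all lattice points of the interior satisfy the bound -/
lemma le_Fun_of_prim (hf : ∀ j, f j ≠ 0) (hd : ∀ j, 0 ≤ d j) {S : AddSubmonoid (Fin n → ℤ)}
    {R : Finset (Fin n → ℤ)}
    (hnn : ∀ ρ ∈ R, ∀ m ∈ S, 0 ≤ m ⬝ᵥ ρ) (hmem : ∀ m : Fin n → ℤ, (∀ ρ ∈ R, 0 ≤ m ⬝ᵥ ρ) → m ∈ S)
    (hR : ∀ ρ ∈ R, 0 ≤ Fun u f d ρ) (t : ℝ)
    (ht : ∀ w : Fin n → ℤ, (∃ m : Fin n → ℤ, m ⬝ᵥ w = 1) → InInt S w → t ≤ Fun u f d w)
    {w : Fin n → ℤ} (hw : InInt S w) (hw0 : w ≠ 0) : t ≤ Fun u f d w := by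
  obtain ⟨g, p, hg, hgp, hprim⟩ := exists_primitive w hw0
  have hp : InInt S p := by
    intro m hm hm0
    have h1 := hw m hm hm0
    rw [hgp, dotProduct_smul, smul_eq_mul] at h1
    exact pos_of_mul_pos_right h1 hg.le
  have h1 := Fun_nonneg_prim hf hd hnn hmem hR t ht hp hprim
  have h2 := Fun_smul_ge (u := u) hf hd g p
  rw [← hgp] at h2
  have h3 : (1 : ℝ) ≤ (g : ℝ) := by exact_mod_cast hg
  have h4 : Fun u f d p ≤ g * Fun u f d p := by nlinarith
  exact (ht p hprim hp).trans (h4.trans h2)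

end

end Pool.Agent.H26
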