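import Mathlib
import Pool.Agent.H26.Defs

/-!
# Toric germs and Newton nondegenerate boundaries: definitions

`K` is the function field of the variety and `x : Fin n → K` are the coordinates of the torus.
Laurent polynomials are given by their coefficients, `f : (Fin n → ℤ) →₀ k`.
-/

open scoped BigOperators

namespace Pool.Agent.H26

universe u v

section

variable {k : Type u} {K : Type v} [Field k] [Field K] [Algebra k K] {n : ℕ}

/-- The Laurent monomial `x^m = ∏ i, x_i ^ m_i`. -/
def monom (x : Fin n → K) (m : Fin n → ℤ) : K := ∏ i, x i ^ m i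

/-- The value `∑ m, f_m x^m` of the Laurent polynomial `f` at `x`. -/
def laurentPoly (x : Fin n → K) (f : (Fin n → ℤ) →₀ k) : K :=
  ∑ m ∈ f.support, algebraMap k K (f m) * monom x m

/-- `K` is the function field of the torus `(𝔾_m)^n` with coordinates `x`: these are algebraically
independent over `k` and generate the field `K` over `k`. -/
def IsTorusCoord (k : Type u) [Field k] [Algebra k K] (x : Fin n → K) : Prop :=
  AlgebraicIndependent k x ∧ IntermediateField.adjoin k (Set.range x) = ⊤

open Classical in
/-- The initial form `in_w(f)` of a Laurent polynomial: the sum of those terms `c x^m` of `f` for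
which `⟨m, w⟩` is minimal. -/
noncomputable def initialForm (w : Fin n → ℤ) (f : (Fin n → ℤ) →₀ k) : (Fin n → ℤ) →₀ k :=
  f.filter fun m => ∀ m' ∈ f.support, m ⬝ᵥ w ≤ m' ⬝ᵥ w

/-- The logarithmic derivative `x_i ∂f/∂x_i` of a Laurent polynomial. -/
noncomputable def logDeriv (i : Fin n) (f : (Fin n → ℤ) →₀ k) : (Fin n → ℤ) →₀ k :=
  ∑ m ∈ f.support, Finsupp.single m (f m * (m i : k))

/-- The system of Laurent polynomials `f` is nondegenerate at the weight `w`: at each closed point
`P` of the torus, those hypersurfaces `in_w(f_j) = 0` which contain `P` are smooth at `P` and meet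
transversally there. -/
def IsNondegenerateAt {J : Type} (w : Fin n → ℤ) (f : J → (Fin n → ℤ) →₀ k) : Prop :=
  ∀ P : Fin n → k, (∀ i, P i ≠ 0) → LinearIndependent k
    fun (j : {j : J // laurentPoly P (initialForm w (f j)) = 0}) (i : Fin n) =>
      laurentPoly P (logDeriv i (initialForm w (f j)))

namespace LogGerm

/-- `G` is the germ of an affine toric variety at its torus-fixed point: its coordinate ring is
`k[S]`, spanned by the monomials `x^m` with `m` in the monoid `S`, and all the monomials `x^m` with
`m ∈ S` different from `0` vanish at the point. -/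
structure IsToric (G : LogGerm k K n) (x : Fin n → K) (S : AddSubmonoid (Fin n → ℤ)) : Prop where
  coordinates : IsTorusCoord k x
  coordinate_ring : G.A = Algebra.adjoin k (monom x '' S)
  fixed_point : ∀ m ∈ S, m ≠ 0 → ∃ a ∈ G.pt, (a : K) = monom x m

/-- The boundary of the toric germ `G` is `Δ = Δ_inv + ∑ j, d j • H j`, where `Δ_inv` is torus
invariant with coefficients in `Γ`, the `d j` are in `Γ`, `H j` is the closure of the hypersurface
`f j = 0` of the torus, and the system `f` is nondegenerate at all the weights `w` which are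
positive on `S ∖ 0` (these are the weights with centre the fixed point). A prime divisor is torus
invariant if it is contained in the complement of the torus, that is, if some monomial has a zero
or a pole along it. -/
structure HasNondegenerateBoundary (G : LogGerm k K n) (x : Fin n → K)
    (S : AddSubmonoid (Fin n → ℤ)) (Γ : Set ℝ) {p : ℕ} (f : Fin p → (Fin n → ℤ) →₀ k)
    (d : Fin p → ℝ) : Prop where
  ne_zero : ∀ j, f j ≠ 0
  coeff_mem : ∀ j, d j ∈ Γ
  invariant : ∀ v : DVal k K, v.IsPrimeDivisorThrough G.A G.pt →
    (∃ m, v.val (monom x m) ≠ 0) → G.bdry v = 0 ∨ G.bdry v ∈ Γ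
  noninvariant : ∀ v : DVal k K, v.IsPrimeDivisorThrough G.A G.pt →
    (∀ m, v.val (monom x m) = 0) → G.bdry v = ∑ j, d j * (v.val (laurentPoly x (f j)) : ℝ)
  nondegenerate : ∀ w : Fin n → ℤ, (∀ m ∈ S, m ≠ 0 → 0 < m ⬝ᵥ w) → IsNondegenerateAt w f

end LogGerm

end

/-- The set of the minimal log discrepancies `mld (x, X, Δ)` of the `n`-dimensional affine toric log
pairs over `k` at torus-fixed points, where `Δ` is the sum of a torus-invariant divisor and of a
Newton nondegenerate divisor, with coefficients in `Γ`. -/
def toricMlds (k : Type u) [Field k] (n : ℕ) (Γ : Set ℝ) : Set EReal :=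
  {a | ∃ (K : Type u) (_ : Field K) (_ : Algebra k K) (G : LogGerm k K n) (x : Fin n → K)
    (S : AddSubmonoid (Fin n → ℤ)) (p : ℕ) (f : Fin p → (Fin n → ℤ) →₀ k) (d : Fin p → ℝ),
    G.IsToric x S ∧ G.HasNondegenerateBoundary x S Γ f d ∧ a = G.mld}

end Pool.Agent.H26
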