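import Mathlib
import Pool.Agent.H26.ToricDefs
import Pool.Agent.H26.ToricACC

/-! # From coordinates to the Laurent polynomial ring -/

open scoped BigOperators
open KaehlerDifferential

namespace Pool.Agent.H26

universe u v

variable {k : Type u} {K : Type v} [Field k] [Field K] [Algebra k K] {n : ℕ}

lemma monom_add {x : Fin n → K} (hx : ∀ i, x i ≠ 0) (m m' : Fin n → ℤ) :
    monom x (m + m') = monom x m * monom x m' := by
  unfold monom
  rw [← Finset.prod_mul_distrib]
  exact Finset.prod_congr rfl fun i _ => by rw [Pi.add_apply, zpow_add₀ (hx i)]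

lemma monom_zero (x : Fin n → K) : monom x (0 : Fin n → ℤ) = 1 := by
  unfold monom; simp

lemma monom_ne_zero {x : Fin n → K} (hx : ∀ i, x i ≠ 0) (m : Fin n → ℤ) : monom x m ≠ 0 :=
  Finset.prod_ne_zero_iff.2 fun i _ => zpow_ne_zero _ (hx i)

/-- `monom` as a homomorphism -/
def monomHom {x : Fin n → K} (hx : ∀ i, x i ≠ 0) : Multiplicative (Fin n → ℤ) →* K where
  toFun m := monom x (Multiplicative.toAdd m)
  map_one' := monom_zero x
  map_mul' _ _ := monom_add hx _ _

/-- evaluation of Laurent polynomials at the coordinates -/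
noncomputable def coordHom (k : Type u) [Field k] [Algebra k K] {x : Fin n → K}
    (hx : ∀ i, x i ≠ 0) : Laurent k n →ₐ[k] K :=
  AddMonoidAlgebra.lift k K (Fin n → ℤ) (monomHom hx)

lemma coordHom_single {x : Fin n → K} (hx : ∀ i, x i ≠ 0) (m : Fin n → ℤ) (c : k) :
    coordHom k hx (AddMonoidAlgebra.single m c) = algebraMap k K c * monom x m := by
  unfold coordHom
  rw [AddMonoidAlgebra.lift_single, Algebra.smul_def]
  rfl

lemma coordHom_apply {x : Fin n → K} (hx : ∀ i, x i ≠ 0) (f : Laurent k n) :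
    coordHom k hx f = laurentPoly x f.coeff := by
  unfold coordHom laurentPoly
  rw [AddMonoidAlgebra.lift_apply, Finsupp.sum]
  refine Finset.sum_congr rfl fun m _ => ?_
  rw [Algebra.smul_def]
  rfl

lemma coordHom_injective {x : Fin n → K} (hx : ∀ i, x i ≠ 0) (hind : AlgebraicIndependent k x) :
    Function.Injective (coordHom k hx) := by
  classical
  rw [injective_iff_map_eq_zero]
  intro f hf
  rw [coordHom_apply] at hf
  let N : ℕ := ∑ m ∈ f.coeff.support, ∑ i, (m i).natAbs
  have hN : ∀ m ∈ f.coeff.support, ∀ i, 0 ≤ m i + N := by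
    intro m hm i
    have h1 : (m i).natAbs ≤ ∑ i, (m i).natAbs :=
      Finset.single_le_sum (f := fun i => (m i).natAbs) (fun _ _ => Nat.zero_le _) (Finset.mem_univ i)
    have h2 : ∑ i, (m i).natAbs ≤ N :=
      Finset.single_le_sum (f := fun m : Fin n → ℤ => ∑ i, (m i).natAbs)
        (fun _ _ => Nat.zero_le _) hm
    have h3 : (m i).natAbs ≤ N := h1.trans h2
    omega
  let e : (Fin n → ℤ) → (Fin n →₀ ℕ) := fun m =>
    Finsupp.equivFunOnFinite.symm fun i => (m i + N).toNat
  have he : ∀ m m', m ∈ f.coeff.support → m' ∈ f.coeff.support → e m = e m' → m = m' := by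
    intro m m' hm hm' h
    funext i
    have h1 := DFunLike.congr_fun h i
    simp only [e, Finsupp.equivFunOnFinite_symm_apply_apply] at h1
    have h2 := hN m hm i
    have h3 := hN m' hm' i
    omega
  let p : MvPolynomial (Fin n) k := ∑ m ∈ f.coeff.support, MvPolynomial.monomial (e m) (f.coeff m)
  have hp : MvPolynomial.aeval x p = 0 := by
    have h1 : MvPolynomial.aeval x p = (∏ i, x i ^ N) * laurentPoly x f.coeff := by
      simp only [p]
      rw [map_sum]
      unfold laurentPoly
      rw [Finset.mul_sum]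
      refine Finset.sum_congr rfl fun m hm => ?_
      rw [MvPolynomial.aeval_monomial, Finsupp.prod_fintype _ _ fun i => pow_zero _]
      have h2 : ∏ i, x i ^ (e m) i = (∏ i, x i ^ N) * monom x m := by
        unfold monom
        rw [← Finset.prod_mul_distrib]
        refine Finset.prod_congr rfl fun i _ => ?_
        simp only [e, Finsupp.equivFunOnFinite_symm_apply_apply]
        rw [← zpow_natCast, ← zpow_natCast, ← zpow_add₀ (hx i), Int.toNat_of_nonneg (hN m hm i),
          add_comm]
      rw [h2]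
      ring
    rw [h1, hf, mul_zero]
  have hp0 : p = 0 := hind (by rw [hp, map_zero])
  apply AddMonoidAlgebra.coeff_injective
  ext m
  by_contra hne
  have hm : m ∈ f.coeff.support := Finsupp.mem_support_iff.2 (by simpa using hne)
  have h1 : MvPolynomial.coeff (e m) p = f.coeff m := by
    simp only [p]
    rw [MvPolynomial.coeff_sum, Finset.sum_eq_single m]
    · rw [MvPolynomial.coeff_monomial, if_pos rfl]
    · intro m' hm' hne'
      rw [MvPolynomial.coeff_monomial, if_neg]
      intro h
      exact hne' (he m' m hm' hm h)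
    · intro h; exact absurd hm h
  rw [hp0, MvPolynomial.coeff_zero] at h1
  exact Finsupp.mem_support_iff.1 hm h1.symm

/-- the structure of a field of fractions of the ring of Laurent polynomials -/
theorem exists_laurent_structure {x : Fin n → K} (hx : IsTorusCoord k x) :
    ∃ _ : Algebra (Laurent k n) K, IsScalarTower k (Laurent k n) K ∧
      IsFractionRing (Laurent k n) K ∧ (∀ m : Fin n → ℤ, mono k K m = monom x m) := by
  obtain ⟨hind, hgen⟩ := hx
  have hx0 : ∀ i, x i ≠ 0 := fun i => hind.ne_zero i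
  let φ := coordHom k hx0
  let inst : Algebra (Laurent k n) K := φ.toRingHom.toAlgebra
  have hmap : ∀ f, algebraMap (Laurent k n) K f = φ f := fun f => rfl
  refine ⟨inst, IsScalarTower.of_algebraMap_eq fun c => (φ.commutes c).symm, ?_, ?_⟩
  · have hinj : Function.Injective (algebraMap (Laurent k n) K) := coordHom_injective hx0 hind
    have : FaithfulSMul (Laurent k n) K := (faithfulSMul_iff_algebraMap_injective _ _).2 hinj
    refine IsFractionRing.of_field _ _ fun z => ?_
    have hz : z ∈ IntermediateField.adjoin k (Set.range x) := by rw [hgen]; trivial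
    obtain ⟨r, s, hrs⟩ := (IntermediateField.mem_adjoin_range_iff k x z).1 hz
    let y : Fin n → Laurent k n := fun i => AddMonoidAlgebra.single (Pi.single i 1) 1
    have hy : ∀ r : MvPolynomial (Fin n) k, φ (MvPolynomial.aeval y r) = MvPolynomial.aeval x r := by
      intro r
      rw [MvPolynomial.comp_aeval_apply]
      congr 2
      funext i
      change coordHom k hx0 (AddMonoidAlgebra.single (Pi.single i 1) 1) = x i
      rw [coordHom_single, map_one, one_mul]
      unfold monom
      rw [Finset.prod_eq_single i]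
      · simp
      · intro j _ hj
        rw [Pi.single_eq_of_ne hj, zpow_zero]
      · simp
    refine ⟨MvPolynomial.aeval y r, MvPolynomial.aeval y s, ?_⟩
    rw [hmap, hmap, hy, hy]
    exact hrs
  · intro m
    change coordHom k hx0 (AddMonoidAlgebra.single m 1) = _
    rw [coordHom_single, map_one, one_mul]

lemma laurentPoly_eq [Algebra (Laurent k n) K] [IsScalarTower k (Laurent k n) K]
    [IsFractionRing (Laurent k n) K] {x : Fin n → K}
    (hx : ∀ m : Fin n → ℤ, mono k K m = monom x m) (f : (Fin n → ℤ) →₀ k) :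
    laurentPoly x f = algebraMap (Laurent k n) K (AddMonoidAlgebra.ofCoeff f) := by
  rw [laurent_eq_sum]
  unfold laurentPoly
  refine Finset.sum_congr rfl fun m _ => ?_
  rw [hx]

lemma laurentPoly_point (P : Fin n → kˣ) (f : (Fin n → ℤ) →₀ k) :
    laurentPoly (fun i => (P i : k)) f = evalAt P (AddMonoidAlgebra.ofCoeff f) := by
  unfold laurentPoly evalAt
  refine Finset.sum_congr rfl fun m _ => ?_
  have h1 : monom (fun i => (P i : k)) m = monoAt P m := by
    unfold monom monoAt
    rw [Units.coe_prod]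
    exact Finset.prod_congr rfl fun i _ => (Units.val_zpow_eq_zpow_val _ _).symm
  rw [h1]
  rfl

lemma inForm_ofCoeff (w : Fin n → ℤ) (f : (Fin n → ℤ) →₀ k) :
    inForm w (AddMonoidAlgebra.ofCoeff f : Laurent k n) =
      AddMonoidAlgebra.ofCoeff (initialForm w f) := rfl

lemma laurentPoly_logDeriv (P : Fin n → kˣ) (i : Fin n) (f : (Fin n → ℤ) →₀ k) :
    laurentPoly (fun i => (P i : k)) (logDeriv i f) =
      logDerivAt P i (AddMonoidAlgebra.ofCoeff f) := by
  rw [laurentPoly_point, ← evalAt_thetaL, ← evalHom_apply]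
  congr 1
  unfold logDeriv thetaL
  apply AddMonoidAlgebra.coeff_injective
  rw [AddMonoidAlgebra.coeff_sum]
  rfl

lemma linInd_transfer {J : Type} {V : Type*} [AddCommGroup V] [Module k V] {A B : J → Prop}
    {f g : J → V} (hAB : ∀ j, A j → B j) (hfg : ∀ j, f j = g j)
    (h : LinearIndependent k (fun j : {j // B j} => g j)) :
    LinearIndependent k (fun j : {j // A j} => f j) := by
  have h1 := h.comp (fun j : {j // A j} => (⟨j.1, hAB j.1 j.2⟩ : {j // B j})) (by
    intro a b hab
    have hab' : (⟨a.1, hAB a.1 a.2⟩ : {j // B j}) = ⟨b.1, hAB b.1 b.2⟩ := hab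
    have h3 : a.1 = b.1 := congrArg (fun z : {j // B j} => z.1) hab'
    exact Subtype.ext h3)
  have h2 : (fun j : {j // A j} => f j) =
      (fun j : {j // B j} => g j) ∘ (fun j : {j // A j} => (⟨j.1, hAB j.1 j.2⟩ : {j // B j})) := by
    funext j
    exact hfg j
  rw [h2]
  exact h1

lemma nondegAt_of {J : Type} {w : Fin n → ℤ} {f : J → (Fin n → ℤ) →₀ k}
    (h : IsNondegenerateAt w f) :
    NondegAt w (fun j => (AddMonoidAlgebra.ofCoeff (f j) : Laurent k n)) := by
  intro P
  refine linInd_transfer (k := k)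
    (A := fun j => evalAt P (inForm w (AddMonoidAlgebra.ofCoeff (f j) : Laurent k n)) = 0)
    (B := fun j => laurentPoly (fun i => (P i : k)) (initialForm w (f j)) = 0)
    (f := fun j i => logDerivAt P i (inForm w (AddMonoidAlgebra.ofCoeff (f j) : Laurent k n)))
    (g := fun j i => laurentPoly (fun i => (P i : k)) (logDeriv i (initialForm w (f j))))
    (fun j hj => ?_) (fun j => ?_) (h (fun i => (P i : k)) (fun i => (P i).ne_zero))
  · rw [laurentPoly_point, ← inForm_ofCoeff]
    exact hj
  · funext i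
    rw [laurentPoly_logDeriv, inForm_ofCoeff]

/-- the combinatorial content of a toric germ with nondegenerate boundary -/
theorem toric_output [IsAlgClosed k] [CharZero k] (G : LogGerm k K n) (x : Fin n → K)
    (S : AddSubmonoid (Fin n → ℤ)) (Γ : Set ℝ) (hΓ : Γ ⊆ Set.Icc 0 1) {p : ℕ}
    (f : Fin p → (Fin n → ℤ) →₀ k) (d : Fin p → ℝ)
    (hG : G.IsToric x S) (hB : G.HasNondegenerateBoundary x S Γ f d) (t t' : ℝ) (ht : G.mld = t)
    (htt' : t < t') :
    ∃ (U : Set (Fin n → ℝ)) (x : Fin n → ℝ),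
      (∀ u ∈ U, ∀ l, u l ∈ (AddSubmonoid.closure Γ : Set ℝ)) ∧
      (∃ Q : ℕ, 0 < Q ∧ ∀ l, ∃ z : ℤ, Q * x l = z) ∧ (∀ l, 0 < x l) ∧
      (∀ (q : ℕ) (z : Fin n → ℤ), (∀ l, 0 < q * x l + z l) →
        ∃ u ∈ U, t ≤ ∑ l, (1 - u l) * (q * x l + z l)) ∧
      (∀ u ∈ U, ∑ l, (1 - u l) * x l < t') := by
  obtain ⟨inst, h1, h2, h3⟩ := exists_laurent_structure hG.coordinates
  have hA : G.A = toricAlg k K S := by
    rw [hG.coordinate_ring]
    unfold toricAlg
    congr 1
    ext y
    constructor
    · rintro ⟨m, hm, rfl⟩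
      exact ⟨m, hm, h3 m⟩
    · rintro ⟨m, hm, rfl⟩
      exact ⟨m, hm, (h3 m).symm⟩
  have hGI : G.IsToricI S := by
    refine ⟨hA, fun m hm hm0 a ha => ?_⟩
    obtain ⟨b, hb, hbm⟩ := hG.fixed_point m hm hm0
    have : a = b := Subtype.ext (by rw [ha, hbm, h3])
    rw [this]; exact hb
  have hBI : G.HasNondegBoundaryI S Γ
      (fun j => (AddMonoidAlgebra.ofCoeff (f j) : Laurent k n)) d := by
    refine ⟨fun j hj => hB.ne_zero j ?_, hB.coeff_mem, fun v hv hm => ?_, fun v hv hm => ?_,
      fun w hw => nondegAt_of (hB.nondegenerate w hw)⟩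
    · have := congrArg AddMonoidAlgebra.coeff hj
      exact this
    · obtain ⟨m, hm⟩ := hm
      exact hB.invariant v hv ⟨m, by rwa [h3] at hm⟩
    · have h4 := hB.noninvariant v hv fun m => by
        have := hm m
        rwa [h3] at this
      rw [h4]
      exact Finset.sum_congr rfl fun j _ => by rw [laurentPoly_eq h3]
  exact germ_output G S Γ hΓ hGI hBI t t' ht htt'

theorem toric_acc (k : Type u) [Field k] [IsAlgClosed k] [CharZero k] (n : ℕ) (Γ : Set ℝ)
    (hΓ : Γ ⊆ Set.Icc 0 1) (hDCC : DCC Γ) : ACC (toricMlds k n Γ) := by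
  refine ACC_of_real fun t ht hmono => ?_
  have hout : ∀ j, ∃ (U : Set (Fin n → ℝ)) (x : Fin n → ℝ),
      (∀ u ∈ U, ∀ l, u l ∈ (AddSubmonoid.closure Γ : Set ℝ)) ∧
      (∃ Q : ℕ, 0 < Q ∧ ∀ l, ∃ z : ℤ, Q * x l = z) ∧ (∀ l, 0 < x l) ∧
      (∀ (q : ℕ) (z : Fin n → ℤ), (∀ l, 0 < q * x l + z l) →
        ∃ u ∈ U, t j ≤ ∑ l, (1 - u l) * (q * x l + z l)) ∧
      (∀ u ∈ U, ∑ l, (1 - u l) * x l < t (j + 1)) := by
    intro j
    obtain ⟨K, _, _, G, x, S, p, f, d, hG, hB, hmld⟩ := ht j
    exact toric_output G x S Γ hΓ f d hG hB (t j) (t (j + 1)) hmld.symm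
      (hmono (Nat.lt_succ_self j))
  choose U x hU hx hpos E1 E2 using hout
  exact engine n (hDCC.isPWO_closure hΓ) (closure_nonneg hΓ) U hU x hx hpos t E1 E2 hmono

end Pool.Agent.H26
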