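import Mathlib
import Pool.Agent.H26.ToricTransfer

/-! # Torus coordinates: monomial valuations and forms, in plain terms -/

open scoped BigOperators
open KaehlerDifferential

namespace Pool.Agent.H26

universe u v

variable {k : Type u} {K : Type v} [Field k] [Field K] [Algebra k K] {N : ℕ}

/-- the rational function `dlog y_1 ∧ ⋯ ∧ dlog y_N / ω` -/
noncomputable def dlogDet (ω : Module.Basis (Fin N) K (Ω[K⁄k])) (y : Fin N → K) : K :=
  ω.det fun i => dlog k (y i)

lemma monom_single {y : Fin N → K} (i : Fin N) : monom y (Pi.single i 1) = y i := by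
  unfold monom
  rw [Finset.prod_eq_single i]
  · simp
  · intro j _ hj
    rw [Pi.single_eq_of_ne hj, zpow_zero]
  · simp

lemma val_monom (v : DVal k K) {y : Fin N → K} (hy : ∀ i, y i ≠ 0) (m : Fin N → ℤ) :
    v.val (monom y m) = ∑ i, m i * v.val (y i) := by
  unfold monom
  rw [v.val_prod _ _ fun i _ => zpow_ne_zero _ (hy i)]
  exact Finset.sum_congr rfl fun i _ => v.val_zpow (hy i) _

theorem dlogDet_ne_zero {y : Fin N → K} (hy : IsTorusCoord k y)
    (ω : Module.Basis (Fin N) K (Ω[K⁄k])) : dlogDet ω y ≠ 0 := by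
  obtain ⟨inst, h1, h2, h3⟩ := exists_laurent_structure hy
  have h4 : (fun i => dlog k (y i)) = (logBasis ω : Fin N → Ω[K⁄k]) := by
    funext i
    rw [logBasis_apply]
    unfold coord
    rw [h3, monom_single]
  unfold dlogDet
  rw [h4]
  exact det_ne_zero ω (logBasis ω)

/-- monomial valuations -/
theorem exists_mono_dval [CharZero k] {y : Fin N → K} (hy : IsTorusCoord k y) (w : Fin N → ℤ)
    (hw : ∃ m : Fin N → ℤ, m ⬝ᵥ w = 1) :
    ∃ v : DVal k K, v.IsDivisorial N ∧ (∀ m : Fin N → ℤ, v.val (monom y m) = m ⬝ᵥ w) ∧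
      (∀ f : (Fin N → ℤ) →₀ k, ∀ m ∈ f.support,
        v.ord (laurentPoly y f) ≤ ((m ⬝ᵥ w : ℤ) : WithTop ℤ)) ∧
      (∀ f : (Fin N → ℤ) →₀ k, f ≠ 0 → ∃ m ∈ f.support,
        v.ord (laurentPoly y f) = ((m ⬝ᵥ w : ℤ) : WithTop ℤ)) ∧
      ∀ ω : Module.Basis (Fin N) K (Ω[K⁄k]), v.FormOrd ω (-1 - v.val (dlogDet ω y)) := by
  obtain ⟨inst, h1, h2, h3⟩ := exists_laurent_structure hy
  refine ⟨monoDVal k K w hw, monoDVal_isDivisorial w hw, fun m => ?_, fun f m hm => ?_,
    fun f hf => ?_, fun ω => ?_⟩
  · rw [← h3 m, val_mono, wt_monoDVal]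
  · rw [laurentPoly_eq h3, monoDVal_ord]
    exact monoVal_laurent_le w _ m hm
  · have hf' : (AddMonoidAlgebra.ofCoeff f : Laurent k N) ≠ 0 := fun h =>
      hf (congrArg AddMonoidAlgebra.coeff h)
    obtain ⟨m, hm, _, hval⟩ := exists_monoVal_laurent (K := K) w _ hf'
    exact ⟨m, hm, by rw [laurentPoly_eq h3, monoDVal_ord]; exact hval⟩
  · have h4 : (fun i => dlog k (y i)) = (logBasis ω : Fin N → Ω[K⁄k]) := by
      funext i
      rw [logBasis_apply]
      unfold coord
      rw [h3, monom_single]
    have h5 := FormOrd_change (monoDVal k K w hw) (logBasis ω) ω (FormOrd_monoDVal ω w hw)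
    have hg0 : ω.det (logBasis ω) ≠ 0 := det_ne_zero ω (logBasis ω)
    have h6 : ω.det (logBasis ω) * (logBasis ω).det ω = 1 := by
      have := det_change ω (logBasis ω) ω
      rw [ω.det_self] at this
      exact this.symm
    have h7 : (logBasis ω).det ω = (ω.det (logBasis ω))⁻¹ := eq_inv_of_mul_eq_one_right h6
    rw [h7, DVal.val_inv _ hg0] at h5
    unfold dlogDet
    rw [h4]
    exact h5

/-- lower bound for the order of a form along a divisor -/
theorem FormOrd_ge {y : Fin N → K} (hy : IsTorusCoord k y)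
    (ω : Module.Basis (Fin N) K (Ω[K⁄k])) (v : DVal k K) {e : ℤ} (he : v.FormOrd ω e) :
    -1 - v.val (dlogDet ω y) ≤ e := by
  have h1 := log_form_bound v ω e he y fun i => hy.1.ne_zero i
  have h2 := (v.le_ord_iff.1 h1).resolve_left (dlogDet_ne_zero hy ω)
  change -e - 1 ≤ v.val (dlogDet ω y) at h2
  omega

/-- the logarithmic form along a divisor whose valuation ring is stable under the logarithmic
derivations -/
theorem FormOrd_noninv {y : Fin N → K} (hy : IsTorusCoord k y)
    (ω : Module.Basis (Fin N) K (Ω[K⁄k])) (v : DVal k K) (hv0 : ∀ i, v.ord (y i) = 0)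
    (hgen : ∀ R : Subring K, (∀ c : k, algebraMap k K c ∈ R) → (∀ i, y i ∈ R) →
      (∀ x ∈ R, v.ord x = 0 → x⁻¹ ∈ R) → ∀ x, 0 ≤ v.ord x → x ∈ R) :
    v.FormOrd ω (-v.val (dlogDet ω y)) := by
  obtain ⟨inst, h1, h2, h3⟩ := exists_laurent_structure hy
  have hco : ∀ i, coord k K i = y i := fun i => by
    unfold coord
    rw [h3, monom_single]
  have h4 : (fun i => dlog k (y i)) = (logBasis ω : Fin N → Ω[K⁄k]) := by
    funext i
    rw [logBasis_apply, hco]
  have hconst : ∀ (i : Fin N) (c : k), theta ω i (algebraMap k K c) = 0 := by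
    intro i c
    unfold theta
    rw [Derivation.map_algebraMap, map_zero]
    rfl
  have hone : ∀ i : Fin N, theta ω i (1 : K) = 0 := by
    intro i
    have := hconst i 1
    rwa [map_one] at this
  let R : Subring K :=
    { carrier := {x | 0 ≤ v.ord x ∧ ∀ i, 0 ≤ v.ord (theta ω i x)}
      mul_mem' := by
        rintro a b ⟨ha, ha'⟩ ⟨hb, hb'⟩
        refine ⟨?_, fun i => ?_⟩
        · rw [v.ord.map_mul]; exact add_nonneg ha hb
        · rw [theta_mul]
          refine v.ord.map_le_add ?_ ?_
          · rw [v.ord.map_mul]; exact add_nonneg ha (hb' i)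
          · rw [v.ord.map_mul]; exact add_nonneg hb (ha' i)
      one_mem' := by
        refine ⟨by rw [v.ord.map_one], fun i => ?_⟩
        rw [hone, v.ord_zero]; exact le_top
      add_mem' := by
        rintro a b ⟨ha, ha'⟩ ⟨hb, hb'⟩
        refine ⟨v.ord.map_le_add ha hb, fun i => ?_⟩
        rw [theta_add]
        exact v.ord.map_le_add (ha' i) (hb' i)
      zero_mem' := by
        refine ⟨by rw [v.ord_zero]; exact le_top, fun i => ?_⟩
        have := hconst i 0
        rw [map_zero] at this
        rw [this, v.ord_zero]; exact le_top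
      neg_mem' := by
        rintro a ⟨ha, ha'⟩
        refine ⟨by rw [v.ord.map_neg]; exact ha, fun i => ?_⟩
        have : theta ω i (-a) = -theta ω i a := by
          have := theta_sub ω i 0 a
          have h0 := hconst i 0
          rw [map_zero] at h0
          rw [zero_sub, h0, zero_sub] at this
          exact this
        rw [this, v.ord.map_neg]
        exact ha' i }
  have hR := hgen R (fun c => ⟨v.ord_algebraMap_nonneg c, fun i => by
      rw [hconst, v.ord_zero]; exact le_top⟩)
    (fun i => ⟨(hv0 i).ge, fun j => by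
      rw [← hco i]
      unfold coord
      rw [theta_mono, v.ord.map_mul]
      have h5 : v.ord (mono k K (Pi.single i (1 : ℤ))) = 0 := by
        have := hv0 i
        rw [← hco i] at this
        exact this
      rw [h5, add_zero]
      have : (((Pi.single i (1 : ℤ) : Fin N → ℤ) j : ℤ) : K) =
          algebraMap k K (((Pi.single i (1 : ℤ) : Fin N → ℤ) j : ℤ) : k) := by simp
      rw [this]
      exact v.ord_algebraMap_nonneg _⟩)
    (fun x hx hx0 => by
      obtain ⟨_, hx'⟩ := hx
      have hinv : v.ord x⁻¹ = 0 := by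
        rw [v.ord.map_inv, hx0]; simp
      refine ⟨hinv.ge, fun i => ?_⟩
      have h5 : theta ω i x⁻¹ = x⁻¹ ^ 2 * (-theta ω i x) := by
        have := theta_div ω i 1 x
        rw [one_div, hone, mul_zero, one_mul, zero_sub] at this
        exact this
      rw [h5, v.ord.map_mul, v.ord.map_pow, hinv, v.ord.map_neg]
      simpa using hx' i)
  have hlog : v.FormOrd (logBasis ω) 0 := by
    constructor
    · intro z hz
      rw [logBasis_det, Matrix.det_apply]
      refine v.ord.map_le_sum fun σ _ => ?_
      have h5 : v.ord (Equiv.Perm.sign σ • ∏ i, (Matrix.of fun i j => theta ω i (z j)) (σ i) i) =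
          v.ord (∏ i, (Matrix.of fun i j => theta ω i (z j)) (σ i) i) := by
        rcases Int.units_eq_one_or (Equiv.Perm.sign σ) with h | h <;> rw [h]
        · simp
        · simp
      rw [h5, v.ord_prod]
      have h6 : ((-0 : ℤ) : WithTop ℤ) = 0 := rfl
      rw [h6]
      exact Finset.sum_nonneg fun i _ => (hR _ (hz _)).2 _
    · refine ⟨fun j => coord k K j, fun i => by
        change 0 ≤ v.ord (coord k K i)
        rw [hco, hv0], ?_⟩
      rw [logBasis_det]
      have h5 : (Matrix.of fun i j => theta ω i (coord k K (n := N) j)) =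
          Matrix.diagonal (fun j => coord k K (n := N) j) := by
        ext i j
        rw [Matrix.of_apply, Matrix.diagonal_apply]
        unfold coord
        rw [theta_mono]
        by_cases h : i = j
        · subst h; simp
        · rw [if_neg h, Pi.single_apply, if_neg h]; simp
      rw [h5, Matrix.det_diagonal, v.ord_prod]
      refine (Finset.sum_eq_zero fun i _ => ?_).trans rfl
      rw [hco, hv0]
  have h5 := FormOrd_change v (logBasis ω) ω hlog
  have hg0 : ω.det (logBasis ω) ≠ 0 := det_ne_zero ω (logBasis ω)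
  have h6 : ω.det (logBasis ω) * (logBasis ω).det ω = 1 := by
    have := det_change ω (logBasis ω) ω
    rw [ω.det_self] at this
    exact this.symm
  have h7 : (logBasis ω).det ω = (ω.det (logBasis ω))⁻¹ := eq_inv_of_mul_eq_one_right h6
  rw [h7, DVal.val_inv _ hg0, zero_add] at h5
  unfold dlogDet
  rw [h4]
  exact h5

end Pool.Agent.H26
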