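import Mathlib
import Pool.Agent.H26.C1Coord

/-! # Pages: valuations of `k(s)(x_1, …, x_n)` over the points of the projective line -/

open scoped BigOperators
open KaehlerDifferential

namespace Pool.Agent.H26

set_option linter.unusedSectionVars false

universe u v

variable {k : Type u} {K : Type v} [Field k] [Field K] [Algebra k K] {n : ℕ}

/-- local coordinate of the projective line at the point `z`, with `none` the point at infinity -/
def pageT (s : K) : Option k → K
  | none => s⁻¹
  | some a => s - algebraMap k K a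

/-- torus coordinates on the page `z` -/
def pageY (s : K) (x : Fin n → K) (z : Option k) : Fin (n + 1) → K :=
  Fin.cons (pageT s z) x

open Classical in
/-- order at the point `z` of the function `s - a` -/
noncomputable def oz (z : Option k) (a : k) : ℤ :=
  match z with
  | none => -1
  | some b => if b = a then 1 else 0

/-- order at `z` of the function `∏ (s - a) ^ n a` -/
noncomputable def ordz (z : Option k) (nu : k →₀ ℤ) : ℤ := nu.sum fun a e => e * oz z a

/-- the function `∏ (s - a) ^ n a` -/
noncomputable def pw (s : K) (nu : k →₀ ℤ) : K := nu.prod fun a e => (s - algebraMap k K a) ^ e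

lemma pageY_zero (s : K) (x : Fin n → K) (z : Option k) : pageY s x z 0 = pageT s z := rfl

lemma pageY_succ (s : K) (x : Fin n → K) (z : Option k) (i : Fin n) :
    pageY s x z i.succ = x i := rfl

lemma ordz_none (nu : k →₀ ℤ) : ordz none nu = -∑ a ∈ nu.support, nu a := by
  unfold ordz Finsupp.sum
  rw [← Finset.sum_neg_distrib]
  refine Finset.sum_congr rfl fun a _ => ?_
  simp [oz]

lemma ordz_some (b : k) (nu : k →₀ ℤ) : ordz (some b) nu = nu b := by
  classical
  unfold ordz Finsupp.sum
  rw [Finset.sum_eq_single b]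
  · simp [oz]
  · intro a _ ha
    have : oz (some b) a = 0 := by
      simp only [oz]
      rw [if_neg (Ne.symm ha)]
    simp only [this, mul_zero]
  · intro h
    simp only [Finsupp.notMem_support_iff.1 h, zero_mul]

section

variable {s : K} {x : Fin n → K}

lemma s_ne_const (hsx : IsTorusCoord k (Fin.cons s x : Fin (n + 1) → K)) (a : k) :
    s ≠ algebraMap k K a := by
  intro h
  have h1 := hsx.1.transcendental 0
  apply h1
  rw [Fin.cons_zero, h]
  exact isAlgebraic_algebraMap a

lemma s_sub_ne_zero (hsx : IsTorusCoord k (Fin.cons s x : Fin (n + 1) → K)) (a : k) :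
    s - algebraMap k K a ≠ 0 := sub_ne_zero.2 (s_ne_const hsx a)

lemma x_ne_zero (hsx : IsTorusCoord k (Fin.cons s x : Fin (n + 1) → K)) (i : Fin n) : x i ≠ 0 := by
  have := hsx.1.ne_zero i.succ
  rwa [Fin.cons_succ] at this

lemma s_ne_zero (hsx : IsTorusCoord k (Fin.cons s x : Fin (n + 1) → K)) : s ≠ 0 := by
  have := s_ne_const hsx 0
  rwa [map_zero] at this

lemma pageT_ne_zero (hsx : IsTorusCoord k (Fin.cons s x : Fin (n + 1) → K)) (z : Option k) :
    pageT s z ≠ 0 := by
  rcases z with _ | a
  · exact inv_ne_zero (s_ne_zero hsx)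
  · exact s_sub_ne_zero hsx a

lemma pw_ne_zero (hsx : IsTorusCoord k (Fin.cons s x : Fin (n + 1) → K)) (nu : k →₀ ℤ) :
    pw s nu ≠ 0 := Finset.prod_ne_zero_iff.2 fun a _ => zpow_ne_zero _ (s_sub_ne_zero hsx a)

/-- the coordinates on each page are torus coordinates -/
theorem pageY_isTorusCoord (hsx : IsTorusCoord k (Fin.cons s x : Fin (n + 1) → K))
    (z : Option k) : IsTorusCoord k (pageY s x z) := by
  have hgen : IntermediateField.adjoin k (Set.range (pageY s x z)) = ⊤ := by
    rw [eq_top_iff, ← hsx.2, IntermediateField.adjoin_le_iff]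
    rintro _ ⟨i, rfl⟩
    have hT : pageT s z ∈ IntermediateField.adjoin k (Set.range (pageY s x z)) :=
      IntermediateField.subset_adjoin _ _ ⟨0, rfl⟩
    refine Fin.cases ?_ (fun i => ?_) i
    · rw [Fin.cons_zero]
      rcases z with _ | a
      · have := inv_mem hT
        simpa [pageT] using this
      · have := add_mem hT (IntermediateField.algebraMap_mem _ a)
        simpa [pageT] using this
    · rw [Fin.cons_succ]
      exact IntermediateField.subset_adjoin _ _ ⟨i.succ, rfl⟩
  refine ⟨?_, hgen⟩
  have halg : Algebra.IsAlgebraic (Algebra.adjoin k (Set.range (pageY s x z))) K := by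
    constructor
    intro w
    have hw : w ∈ IntermediateField.adjoin k (Set.range (pageY s x z)) := by rw [hgen]; trivial
    rw [IntermediateField.mem_adjoin_iff_div] at hw
    obtain ⟨r, hr, t, ht, rfl⟩ := hw
    have h1 : IsAlgebraic (Algebra.adjoin k (Set.range (pageY s x z))) r :=
      isAlgebraic_algebraMap (⟨r, hr⟩ : Algebra.adjoin k (Set.range (pageY s x z)))
    have h2 : IsAlgebraic (Algebra.adjoin k (Set.range (pageY s x z))) t :=
      isAlgebraic_algebraMap (⟨t, ht⟩ : Algebra.adjoin k (Set.range (pageY s x z)))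
    rw [div_eq_mul_inv]
    exact h1.mul h2.inv
  have hle : Cardinal.lift.{v} (Cardinal.mk (Fin (n + 1))) ≤ Cardinal.lift.{0} (Algebra.trdeg k K) := by
    have := hsx.1.lift_cardinalMk_le_trdeg
    simpa using this
  exact (Algebra.IsAlgebraic.isTranscendenceBasis_of_lift_le_trdeg_of_finite k
    (pageY s x z) hle).1

/-- each valuation lives on a page -/
theorem exists_page (v : DVal k K) (hs : ∀ a : k, s - algebraMap k K a ≠ 0) :
    ∃ (z : Option k) (l : ℕ), ∀ a, v.val (s - algebraMap k K a) = l * oz z a := by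
  by_cases hneg : v.ord s < 0
  · refine ⟨none, (-v.val s).toNat, fun a => ?_⟩
    have hs0 : s ≠ 0 := by
      rintro rfl
      rw [v.ord_zero] at hneg
      exact not_top_lt hneg
    rw [v.ord_eq_val hs0] at hneg
    have hneg' : v.val s < 0 := by exact_mod_cast hneg
    have h1 : v.ord (s - algebraMap k K a) = v.ord s := by
      have h2 : v.ord s < v.ord (algebraMap k K a) := by
        rw [v.ord_eq_val hs0]
        refine lt_of_lt_of_le ?_ (v.ord_algebraMap_nonneg a)
        exact_mod_cast hneg'
      exact v.ord.map_sub_eq_of_lt_left h2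
    rw [v.ord_eq_val hs0, v.ord_eq_iff] at h1
    rw [h1.2]
    simp only [oz]
    have : (((-v.val s).toNat : ℕ) : ℤ) = -v.val s := Int.toNat_of_nonneg (by omega)
    rw [this]; ring
  · push Not at hneg
    by_cases hpos : ∃ b : k, 0 < v.ord (s - algebraMap k K b)
    · obtain ⟨b, hb⟩ := hpos
      refine ⟨some b, (v.val (s - algebraMap k K b)).toNat, fun a => ?_⟩
      have hb' : 0 < v.val (s - algebraMap k K b) := (v.pos_ord_iff.1 hb).resolve_left (hs b)
      have hbn : (((v.val (s - algebraMap k K b)).toNat : ℕ) : ℤ) =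
          v.val (s - algebraMap k K b) := Int.toNat_of_nonneg hb'.le
      rw [hbn]
      by_cases hab : b = a
      · subst hab; simp [oz]
      · simp only [oz]
        rw [if_neg hab, mul_zero]
        have h1 : s - algebraMap k K a = (s - algebraMap k K b) + algebraMap k K (b - a) := by
          rw [map_sub]; ring
        have h2 : v.ord (algebraMap k K (b - a)) = 0 :=
          v.ord_algebraMap _ (sub_ne_zero.2 hab)
        have h3 : v.ord (s - algebraMap k K a) = 0 := by
          rw [h1, v.ord.map_add_eq_of_lt_right (by rw [h2]; exact hb), h2]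
        exact (v.ord_eq_zero_iff.1 h3).2
    · push Not at hpos
      refine ⟨none, 0, fun a => ?_⟩
      have h1 : 0 ≤ v.ord (s - algebraMap k K a) :=
        v.ord.map_le_sub hneg (v.ord_algebraMap_nonneg a)
      have h2 : v.ord (s - algebraMap k K a) = 0 := le_antisymm (hpos a) h1
      rw [(v.ord_eq_zero_iff.1 h2).2]; simp

/-- value of a homogeneous element of `k(s)` -/
lemma val_pw (v : DVal k K) (hs : ∀ a : k, s - algebraMap k K a ≠ 0) {z : Option k} {l : ℕ}
    (hv : ∀ a, v.val (s - algebraMap k K a) = l * oz z a) (nu : k →₀ ℤ) :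
    v.val (pw s nu) = l * ordz z nu := by
  unfold pw ordz Finsupp.prod Finsupp.sum
  rw [v.val_prod _ _ fun a _ => zpow_ne_zero _ (hs a), Finset.mul_sum]
  refine Finset.sum_congr rfl fun a _ => ?_
  rw [v.val_zpow (hs a), hv]; ring

lemma pw_add (hs : ∀ a : k, s - algebraMap k K a ≠ 0) (nu nu' : k →₀ ℤ) :
    pw s (nu + nu') = pw s nu * pw s nu' := by
  classical
  unfold pw
  exact Finsupp.prod_add_index' (fun a => zpow_zero _) (fun a e e' => zpow_add₀ (hs a) e e')

lemma pw_zero : pw s (0 : k →₀ ℤ) = 1 := by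
  unfold pw
  exact Finsupp.prod_zero_index

lemma pw_neg (hs : ∀ a : k, s - algebraMap k K a ≠ 0) (nu : k →₀ ℤ) :
    pw s (-nu) = (pw s nu)⁻¹ := by
  refine eq_inv_of_mul_eq_one_right ?_
  rw [← pw_add hs, add_neg_cancel, pw_zero]

lemma pw_single (a : k) : pw s (Finsupp.single a 1) = s - algebraMap k K a := by
  unfold pw
  rw [Finsupp.prod_single_index (zpow_zero _), zpow_one]

/-- elements of `k(s)` -/
theorem exists_pw [IsAlgClosed k] {g : K} (hg : g ∈ IntermediateField.adjoin k {s})
    (hs : ∀ a : k, s - algebraMap k K a ≠ 0) (hg0 : g ≠ 0) :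
    ∃ (c : k) (nu : k →₀ ℤ), c ≠ 0 ∧ g = algebraMap k K c * pw s nu := by
  classical
  have hmul : ∀ m : Multiset k, ∃ nu : k →₀ ℤ,
      (m.map fun a => s - algebraMap k K a).prod = pw s nu := by
    intro m
    induction m using Multiset.induction_on with
    | empty => exact ⟨0, by rw [pw_zero]; simp⟩
    | cons a m ih =>
      obtain ⟨nu, hnu⟩ := ih
      refine ⟨Finsupp.single a 1 + nu, ?_⟩
      rw [Multiset.map_cons, Multiset.prod_cons, hnu, pw_add hs, pw_single]
  have hpoly : ∀ p : Polynomial k, p ≠ 0 → ∃ (c : k) (nu : k →₀ ℤ), c ≠ 0 ∧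
      Polynomial.aeval s p = algebraMap k K c * pw s nu := by
    intro p hp
    obtain ⟨nu, hnu⟩ := hmul p.roots
    refine ⟨p.leadingCoeff, nu, Polynomial.leadingCoeff_ne_zero.2 hp, ?_⟩
    have h1 := (IsAlgClosed.splits p).eq_prod_roots
    conv_lhs => rw [h1]
    rw [map_mul, Polynomial.aeval_C, map_multiset_prod, Multiset.map_map, ← hnu]
    congr 2
    refine Multiset.map_congr rfl fun a _ => ?_
    simp
  obtain ⟨r, t, rfl⟩ := (IntermediateField.mem_adjoin_simple_iff k g).1 hg
  have hr : r ≠ 0 := by
    rintro rfl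
    simp at hg0
  have ht : t ≠ 0 := by
    rintro rfl
    simp at hg0
  obtain ⟨c, nu, hc, hcr⟩ := hpoly r hr
  obtain ⟨c', nu', hc', hct⟩ := hpoly t ht
  refine ⟨c / c', nu + -nu', div_ne_zero hc hc', ?_⟩
  rw [hcr, hct, pw_add hs, pw_neg hs, map_div₀]
  rw [div_eq_mul_inv, div_eq_mul_inv, mul_inv]
  ring

end

end Pool.Agent.H26
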