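import Mathlib
import Pool.Agent.H26.C1Page

/-! # Invariant valuations on a page -/

open scoped BigOperators
open KaehlerDifferential

namespace Pool.Agent.H26

set_option linter.unusedSectionVars false

universe u v

variable {k : Type u} {K : Type v} [Field k] [Field K] [Algebra k K] {n : ℕ}

lemma laurentPoly_add {N : ℕ} (y : Fin N → K) (f g : (Fin N → ℤ) →₀ k) :
    laurentPoly y (f + g) = laurentPoly y f + laurentPoly y g := by
  classical
  change (f + g).sum (fun m c => algebraMap k K c * monom y m) =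
    f.sum (fun m c => algebraMap k K c * monom y m) +
    g.sum (fun m c => algebraMap k K c * monom y m)
  refine Finsupp.sum_add_index' (fun m => ?_) (fun m c c' => ?_)
  · rw [map_zero, zero_mul]
  · rw [map_add, add_mul]

lemma laurentPoly_zero {N : ℕ} (y : Fin N → K) : laurentPoly y (0 : (Fin N → ℤ) →₀ k) = 0 := by
  simp [laurentPoly]

lemma laurentPoly_sum {N : ℕ} (y : Fin N → K) {ι : Type*} (t : Finset ι)
    (f : ι → (Fin N → ℤ) →₀ k) :
    laurentPoly y (∑ i ∈ t, f i) = ∑ i ∈ t, laurentPoly y (f i) := by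
  classical
  induction t using Finset.induction_on with
  | empty => simp [laurentPoly_zero]
  | insert a t ha ih => rw [Finset.sum_insert ha, Finset.sum_insert ha, laurentPoly_add, ih]

lemma laurentPoly_single {N : ℕ} (y : Fin N → K) (m : Fin N → ℤ) (c : k) :
    laurentPoly y (Finsupp.single m c) = algebraMap k K c * monom y m := by
  classical
  change (Finsupp.single m c).sum (fun m c => algebraMap k K c * monom y m) = _
  rw [Finsupp.sum_single_index]
  rw [map_zero, zero_mul]

lemma monom_cons (s : K) (x : Fin n → K) (z : Option k) (j : ℤ) (m : Fin n → ℤ) :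
    monom (pageY s x z) (Fin.cons j m) = pageT s z ^ j * monom x m := by
  unfold monom
  rw [Fin.prod_univ_succ]
  rfl

/-- sign of the exponents on a page -/
def pgE : Option k → ℤ
  | none => -1
  | some _ => 1

lemma exists_expand (s : K) (z : Option k) (P : Polynomial k) : ∃ Q : Polynomial k, (P ≠ 0 → Q ≠ 0) ∧
    Polynomial.aeval s P =
      ∑ j ∈ Q.support, algebraMap k K (Q.coeff j) * pageT s z ^ (pgE z * (j : ℤ)) := by
  rcases z with _ | b
  · refine ⟨P, id, ?_⟩
    rw [Polynomial.aeval_def, Polynomial.eval₂_eq_sum, Polynomial.sum_def]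
    refine Finset.sum_congr rfl fun j _ => ?_
    congr 1
    simp only [pageT, pgE]
    rw [neg_one_mul, zpow_neg, inv_zpow, inv_inv, zpow_natCast]
  · refine ⟨Polynomial.taylor b P, fun h h' => h ?_, ?_⟩
    · exact (Polynomial.taylor_eq_zero b P).1 h'
    · have h1 : Polynomial.aeval s P = Polynomial.aeval (pageT s (some b)) (Polynomial.taylor b P) := by
        rw [Polynomial.taylor_apply, Polynomial.aeval_comp]
        congr 1
        simp [pageT]
      rw [h1, Polynomial.aeval_def, Polynomial.eval₂_eq_sum, Polynomial.sum_def]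
      refine Finset.sum_congr rfl fun j _ => ?_
      congr 1
      simp only [pgE]
      rw [one_mul, zpow_natCast]

section

variable {s : K} {x : Fin n → K}

/-- the Laurent polynomial of `P(s) x^m` on a page -/
noncomputable def pgPoly (z : Option k) (Q : Polynomial k) (m : Fin n → ℤ) :
    (Fin (n + 1) → ℤ) →₀ k :=
  ∑ j ∈ Q.support, Finsupp.single (Fin.cons (pgE z * (j : ℤ)) m) (Q.coeff j)

lemma pgPoly_apply (z : Option k) (Q : Polynomial k) (m : Fin n → ℤ) (μ : Fin (n + 1) → ℤ)
    (h : Fin.tail μ ≠ m) : pgPoly z Q m μ = 0 := by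
  unfold pgPoly
  rw [Finsupp.finsetSum_apply]
  refine Finset.sum_eq_zero fun j _ => ?_
  rw [Finsupp.single_apply, if_neg]
  rintro rfl
  exact h rfl

lemma pgPoly_ne_zero (z : Option k) {Q : Polynomial k} (hQ : Q ≠ 0) (m : Fin n → ℤ) :
    pgPoly z Q m ≠ 0 := by
  intro h
  obtain ⟨j, hj⟩ := Polynomial.support_nonempty.2 hQ
  have h1 := DFunLike.congr_fun h (Fin.cons (pgE z * (j : ℤ)) m : Fin (n + 1) → ℤ)
  unfold pgPoly at h1
  rw [Finsupp.finsetSum_apply, Finset.sum_eq_single j] at h1
  · rw [Finsupp.single_eq_same] at h1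
    exact (Polynomial.mem_support_iff.1 hj) h1
  · intro j' _ hj'
    rw [Finsupp.single_apply, if_neg]
    intro h2
    have h3 := congrFun h2 0
    rw [Fin.cons_zero, Fin.cons_zero] at h3
    rcases z with _ | b
    · simp only [pgE] at h3
      exact hj' (by omega)
    · simp only [pgE] at h3
      exact hj' (by omega)
  · intro h; exact absurd hj h

lemma laurentPoly_pgPoly (z : Option k) (Q : Polynomial k) (m : Fin n → ℤ) :
    laurentPoly (pageY s x z) (pgPoly z Q m) =
      (∑ j ∈ Q.support, algebraMap k K (Q.coeff j) * pageT s z ^ (pgE z * (j : ℤ))) *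
        monom x m := by
  unfold pgPoly
  rw [laurentPoly_sum, Finset.sum_mul]
  refine Finset.sum_congr rfl fun j _ => ?_
  rw [laurentPoly_single, monom_cons]
  ring

/-- the homogeneous components for polynomial coefficients -/
lemma ord_le_poly {v : DVal k K} {z : Option k} {W : Fin (n + 1) → ℤ}
    (h1 : ∀ f : (Fin (n + 1) → ℤ) →₀ k, ∀ m ∈ f.support,
        v.ord (laurentPoly (pageY s x z) f) ≤ ((m ⬝ᵥ W : ℤ) : WithTop ℤ))
    (h2 : ∀ f : (Fin (n + 1) → ℤ) →₀ k, f ≠ 0 → ∃ m ∈ f.support,
        v.ord (laurentPoly (pageY s x z) f) = ((m ⬝ᵥ W : ℤ) : WithTop ℤ))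
    (M : Finset (Fin n → ℤ)) (P : (Fin n → ℤ) → Polynomial k) (m0 : Fin n → ℤ) (hm0 : m0 ∈ M)
    (hP : P m0 ≠ 0) :
    v.ord (∑ m ∈ M, Polynomial.aeval s (P m) * monom x m) ≤
      v.ord (Polynomial.aeval s (P m0) * monom x m0) := by
  classical
  choose Q hQ0 hQ using fun m => exists_expand s z (P m)
  have h3 : ∀ m, Polynomial.aeval s (P m) * monom x m =
      laurentPoly (pageY s x z) (pgPoly z (Q m) m) := by
    intro m
    rw [laurentPoly_pgPoly, hQ]
  simp_rw [h3]
  rw [← laurentPoly_sum]
  obtain ⟨μ, hμ, hval⟩ := h2 (pgPoly z (Q m0) m0) (pgPoly_ne_zero z (hQ0 m0 hP) m0)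
  rw [hval]
  refine h1 _ μ ?_
  rw [Finsupp.mem_support_iff] at hμ ⊢
  rw [Finsupp.finsetSum_apply, Finset.sum_eq_single m0]
  · exact hμ
  · intro m _ hm
    apply pgPoly_apply
    intro h4
    apply hμ
    apply pgPoly_apply
    intro h5
    exact hm (h4.symm.trans h5)
  · intro h; exact absurd hm0 h

/-- the homogeneous components -/
lemma ord_le_components {v : DVal k K} {z : Option k} {W : Fin (n + 1) → ℤ}
    (h1 : ∀ f : (Fin (n + 1) → ℤ) →₀ k, ∀ m ∈ f.support,
        v.ord (laurentPoly (pageY s x z) f) ≤ ((m ⬝ᵥ W : ℤ) : WithTop ℤ))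
    (h2 : ∀ f : (Fin (n + 1) → ℤ) →₀ k, f ≠ 0 → ∃ m ∈ f.support,
        v.ord (laurentPoly (pageY s x z) f) = ((m ⬝ᵥ W : ℤ) : WithTop ℤ))
    (g : (Fin n → ℤ) →₀ K) (hg : ∀ m, g m ∈ IntermediateField.adjoin k {s}) (m0 : Fin n → ℤ)
    (hm0 : m0 ∈ g.support) :
    v.ord (∑ m ∈ g.support, g m * monom x m) ≤ v.ord (g m0 * monom x m0) := by
  classical
  choose r t hrt using fun m => (IntermediateField.mem_adjoin_simple_iff k (g m)).1 (hg m)
  have hne : ∀ m ∈ g.support, Polynomial.aeval s (t m) ≠ 0 := by
    intro m hm h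
    have h3 := hrt m
    rw [h, div_zero] at h3
    exact (Finsupp.mem_support_iff.1 hm) h3
  let D : Polynomial k := ∏ m ∈ g.support, t m
  let P : (Fin n → ℤ) → Polynomial k := fun m => r m * ∏ m' ∈ g.support.erase m, t m'
  have hD : ∀ m ∈ g.support, Polynomial.aeval s D * g m = Polynomial.aeval s (P m) := by
    intro m hm
    simp only [D, P]
    rw [map_prod, map_mul, map_prod, ← Finset.mul_prod_erase _ _ hm, hrt m]
    have := hne m hm
    field_simp
  have hD0 : Polynomial.aeval s D ≠ 0 := by
    simp only [D]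
    rw [map_prod]
    exact Finset.prod_ne_zero_iff.2 hne
  have hP0 : P m0 ≠ 0 := by
    intro h
    have h3 := hD m0 hm0
    rw [h, map_zero] at h3
    rcases mul_eq_zero.1 h3 with h4 | h4
    · exact hD0 h4
    · exact (Finsupp.mem_support_iff.1 hm0) h4
  have h3 := ord_le_poly h1 h2 g.support P m0 hm0 hP0
  have h4 : ∑ m ∈ g.support, Polynomial.aeval s (P m) * monom x m =
      Polynomial.aeval s D * ∑ m ∈ g.support, g m * monom x m := by
    rw [Finset.mul_sum]
    refine Finset.sum_congr rfl fun m hm => ?_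
    rw [← hD m hm]; ring
  rw [h4, ← hD m0 hm0, mul_assoc, v.ord.map_mul, v.ord.map_mul, v.ord_eq_val hD0] at h3
  exact (WithTop.add_le_add_iff_left (WithTop.coe_ne_top)).1 h3

lemma monom_pageY_single (z : Option k) (j : ℤ) :
    monom (pageY s x z) (Pi.single 0 j) = pageT s z ^ j := by
  unfold monom
  rw [Finset.prod_eq_single 0]
  · simp [pageY_zero]
  · intro i _ hi
    rw [Pi.single_eq_of_ne hi, zpow_zero]
  · simp

/-- invariant valuations on the page `z` -/
theorem exists_pageVal [CharZero k] (hsx : IsTorusCoord k (Fin.cons s x : Fin (n + 1) → K))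
    (z : Option k) (l : ℕ) (w : Fin n → ℤ)
    (hprim : ∃ m : Fin (n + 1) → ℤ, m ⬝ᵥ (Fin.cons (l : ℤ) w : Fin (n + 1) → ℤ) = 1) :
    ∃ v : DVal k K, v.IsDivisorial (n + 1) ∧
      (∀ a, v.val (s - algebraMap k K a) = l * oz z a) ∧ (∀ i, v.val (x i) = w i) ∧
      (∀ g : (Fin n → ℤ) →₀ K, (∀ m, g m ∈ IntermediateField.adjoin k {s}) →
        ∀ m ∈ g.support, v.ord (∑ m' ∈ g.support, g m' * monom x m') ≤
          v.ord (g m * monom x m)) ∧
      ∀ ω : Module.Basis (Fin (n + 1)) K (Ω[K⁄k]),
        v.FormOrd ω (-1 - v.val (dlogDet ω (pageY s x z))) := by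
  classical
  obtain ⟨v, hv1, hv2, hv3, hv4, hv5⟩ := exists_mono_dval (pageY_isTorusCoord hsx z)
    (Fin.cons (l : ℤ) w) hprim
  have hT : v.val (pageT s z) = l := by
    have h1 := hv2 (Pi.single 0 1)
    rw [monom_single, single_one_dotProduct] at h1
    exact h1
  have hT0 := pageT_ne_zero hsx z
  have hX : ∀ i, v.val (x i) = w i := by
    intro i
    have h1 := hv2 (Pi.single i.succ 1)
    rw [monom_single, single_one_dotProduct] at h1
    exact h1
  refine ⟨v, hv1, fun a => ?_, hX, fun g hg m hm => ord_le_components hv3 hv4 g hg m hm, hv5⟩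
  rcases z with _ | b
  · -- infinity
    simp only [oz]
    have hs : v.val s = -(l : ℤ) := by
      simp only [pageT] at hT
      rw [v.val_inv (s_ne_zero hsx)] at hT
      linarith
    have hle : v.ord (s - algebraMap k K a) ≤ ((-(l : ℤ) : ℤ) : WithTop ℤ) := by
      have h1 : s - algebraMap k K a = laurentPoly (pageY s x (none : Option k))
          (Finsupp.single (Pi.single 0 (-1)) (1 : k) + Finsupp.single 0 (-a)) := by
        rw [laurentPoly_add, laurentPoly_single, laurentPoly_single, monom_pageY_single,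
          monom_zero, zpow_neg, zpow_one, map_one, map_neg, one_mul, mul_one, ← sub_eq_add_neg]
        simp only [pageT, inv_inv]
      rw [h1]
      have h2 := hv3 (Finsupp.single (Pi.single 0 (-1)) 1 + Finsupp.single 0 (-a))
        (Pi.single 0 (-1)) (by
          rw [Finsupp.mem_support_iff, Finsupp.add_apply, Finsupp.single_eq_same,
            Finsupp.single_apply, if_neg]
          · simp
          · intro h
            have := congrFun h 0
            simp at this)
      refine h2.trans (le_of_eq ?_)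
      congr 1
      rw [single_dotProduct]
      simp
    have hge : ((-(l : ℤ) : ℤ) : WithTop ℤ) ≤ v.ord (s - algebraMap k K a) := by
      refine v.ord.map_le_sub ?_ ?_
      · rw [v.ord_eq_val (s_ne_zero hsx), hs]
      · refine le_trans ?_ (v.ord_algebraMap_nonneg a)
        have : (-(l : ℤ) : ℤ) ≤ 0 := by omega
        exact_mod_cast this
    have := (v.ord_eq_iff.1 (le_antisymm hle hge)).2
    rw [this]; ring
  · simp only [oz]
    by_cases hab : b = a
    · subst hab
      rw [if_pos rfl, mul_one]
      exact hT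
    · rw [if_neg hab, mul_zero]
      have h1 : s - algebraMap k K a = laurentPoly (pageY s x (some b))
          (Finsupp.single (Pi.single 0 1) 1 + Finsupp.single 0 (b - a)) := by
        rw [laurentPoly_add, laurentPoly_single, laurentPoly_single, monom_pageY_single,
          monom_zero]
        simp [pageT]
      have hle : v.ord (s - algebraMap k K a) ≤ ((0 : ℤ) : WithTop ℤ) := by
        rw [h1]
        have h2 := hv3 (Finsupp.single (Pi.single 0 1) 1 + Finsupp.single 0 (b - a))
          0 (by
            rw [Finsupp.mem_support_iff, Finsupp.add_apply, Finsupp.single_eq_same,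
              Finsupp.single_apply, if_neg]
            · rw [zero_add]; exact sub_ne_zero.2 hab
            · intro h
              have := congrFun h 0
              simp at this)
        rw [zero_dotProduct] at h2
        exact h2
      have hge : ((0 : ℤ) : WithTop ℤ) ≤ v.ord (s - algebraMap k K a) := by
        have h3 : s - algebraMap k K a = pageT s (some b) + algebraMap k K (b - a) := by
          simp [pageT]
        rw [h3]
        refine v.ord.map_le_add ?_ (v.ord_algebraMap_nonneg _)
        rw [v.ord_eq_val hT0, hT]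
        exact_mod_cast Int.natCast_nonneg l
      exact (v.ord_eq_iff.1 (le_antisymm hle hge)).2

end

end Pool.Agent.H26
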