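import Mathlib
import Pool.Agent.H26.C1Val

/-! # Normal algebras with a torus action of complexity one -/

open scoped BigOperators
open KaehlerDifferential

namespace Pool.Agent.H26

set_option linter.unusedSectionVars false

universe u v

variable {k : Type u} {K : Type v} [Field k] [Field K] [Algebra k K] {n : ℕ}

/-- the coordinate ring `A` of an affine variety with torus action of complexity one, and a
torus-fixed point -/
structure C1Alg (A : Subalgebra k K) (pt : Ideal A) (s : K) (x : Fin n → K) : Prop where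
  coord : IsTorusCoord k (Fin.cons s x : Fin (n + 1) → K)
  graded : ∀ a ∈ A, ∃ g : (Fin n → ℤ) →₀ K, (∀ m, g m ∈ IntermediateField.adjoin k {s} ∧
    g m * monom x m ∈ A) ∧ a = ∑ m ∈ g.support, g m * monom x m
  fixed : ∀ (a : A) (g : K) (m : Fin n → ℤ), g ∈ IntermediateField.adjoin k {s} → m ≠ 0 →
    (a : K) = g * monom x m → a ∈ pt

/-- homogeneous rational functions -/
def HomEl (k : Type u) {K : Type v} [Field k] [Field K] [Algebra k K] {n : ℕ} (s : K)
    (x : Fin n → K) (h : K) : Prop :=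
  ∃ (c : k) (nu : k →₀ ℤ) (m : Fin n → ℤ), c ≠ 0 ∧ h = algebraMap k K c * pw s nu * monom x m

/-- weights of the coordinates `x` -/
def wx (v : DVal k K) (x : Fin n → K) : Fin n → ℤ := fun i => v.val (x i)

section

variable {s : K} {x : Fin n → K}

lemma HomEl.ne_zero (hsx : IsTorusCoord k (Fin.cons s x : Fin (n + 1) → K)) {h : K}
    (hh : HomEl k s x h) : h ≠ 0 := by
  obtain ⟨c, nu, m, hc, rfl⟩ := hh
  exact mul_ne_zero (mul_ne_zero (by simpa using hc) (pw_ne_zero hsx nu))
    (monom_ne_zero (x_ne_zero hsx) m)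

lemma HomEl.one : HomEl k s x (1 : K) :=
  ⟨1, 0, 0, one_ne_zero, by rw [map_one, pw_zero, monom_zero]; simp⟩

lemma monom_neg {x : Fin n → K} (hx : ∀ i, x i ≠ 0) (m : Fin n → ℤ) :
    monom x (-m) = (monom x m)⁻¹ := by
  refine eq_inv_of_mul_eq_one_right ?_
  rw [← monom_add hx, add_neg_cancel, monom_zero]

lemma HomEl.mul (hsx : IsTorusCoord k (Fin.cons s x : Fin (n + 1) → K)) {h h' : K}
    (hh : HomEl k s x h) (hh' : HomEl k s x h') : HomEl k s x (h * h') := by
  obtain ⟨c, nu, m, hc, rfl⟩ := hh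
  obtain ⟨c', nu', m', hc', rfl⟩ := hh'
  refine ⟨c * c', nu + nu', m + m', mul_ne_zero hc hc', ?_⟩
  rw [map_mul, pw_add (s_sub_ne_zero hsx), monom_add (x_ne_zero hsx)]
  ring

lemma HomEl.inv (hsx : IsTorusCoord k (Fin.cons s x : Fin (n + 1) → K)) {h : K}
    (hh : HomEl k s x h) : HomEl k s x h⁻¹ := by
  obtain ⟨c, nu, m, hc, rfl⟩ := hh
  refine ⟨c⁻¹, -nu, -m, inv_ne_zero hc, ?_⟩
  rw [map_inv₀, pw_neg (s_sub_ne_zero hsx), monom_neg (x_ne_zero hsx), mul_inv, mul_inv]

lemma homEl_of [IsAlgClosed k] (hsx : IsTorusCoord k (Fin.cons s x : Fin (n + 1) → K)) {g : K}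
    (hg : g ∈ IntermediateField.adjoin k {s}) (hg0 : g ≠ 0) (m : Fin n → ℤ) :
    HomEl k s x (g * monom x m) := by
  obtain ⟨c, nu, hc, rfl⟩ := exists_pw hg (s_sub_ne_zero hsx) hg0
  exact ⟨c, nu, m, hc, rfl⟩

lemma homEl_s (hsx : IsTorusCoord k (Fin.cons s x : Fin (n + 1) → K)) (a : k) :
    HomEl k s x (s - algebraMap k K a) :=
  ⟨1, Finsupp.single a 1, 0, one_ne_zero, by rw [map_one, pw_single, monom_zero]; simp⟩

lemma homEl_x (hsx : IsTorusCoord k (Fin.cons s x : Fin (n + 1) → K)) (i : Fin n) :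
    HomEl k s x (x i) :=
  ⟨1, 0, Pi.single i 1, one_ne_zero, by rw [map_one, pw_zero, monom_single]; simp⟩

/-- the value of a homogeneous element -/
lemma val_homEl (hsx : IsTorusCoord k (Fin.cons s x : Fin (n + 1) → K)) (v : DVal k K)
    {z : Option k} {l : ℕ} (hv : ∀ a, v.val (s - algebraMap k K a) = l * oz z a) {c : k}
    (hc : c ≠ 0) (nu : k →₀ ℤ) (m : Fin n → ℤ) :
    v.val (algebraMap k K c * pw s nu * monom x m) = l * ordz z nu + m ⬝ᵥ wx v x := by
  rw [v.val_mul (mul_ne_zero (by simpa using hc) (pw_ne_zero hsx nu))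
    (monom_ne_zero (x_ne_zero hsx) m), v.val_mul (by simpa using hc) (pw_ne_zero hsx nu),
    v.val_algebraMap, zero_add, val_pw v (s_sub_ne_zero hsx) hv, val_monom v (x_ne_zero hsx)]
  rfl

end

section

variable [IsAlgClosed k] [CharZero k] {A : Subalgebra k K} [IsFractionRing A K]
  [IsNoetherianRing A] [IsIntegrallyClosed A] {pt : Ideal A} {s : K} {x : Fin n → K}

/-- nontrivial elements of the coordinate ring -/
lemma exists_mem_ord_ne_zero {A : Subalgebra k K} [IsFractionRing A K] (v : DVal k K) :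
    ∃ a : A, (a : K) ≠ 0 ∧ v.ord (a : K) ≠ 0 := by
  by_contra hcon
  push Not at hcon
  obtain ⟨t, ht⟩ := v.exists_ord_eq_one
  have ht0 : t ≠ 0 := by
    rintro rfl
    rw [v.ord_zero] at ht
    exact WithTop.top_ne_one ht
  obtain ⟨a, b, hb, hab⟩ := IsFractionRing.div_surjective A t
  have hb0 : b ≠ 0 := nonZeroDivisors.ne_zero hb
  have ha0 : a ≠ 0 := by
    rintro rfl
    rw [map_zero, zero_div] at hab
    exact ht0 hab.symm
  have haK : (a : K) ≠ 0 := fun h => ha0 (Subtype.ext h)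
  have hbK : (b : K) ≠ 0 := fun h => hb0 (Subtype.ext h)
  have h1 : v.ord (t * (b : K)) = v.ord (a : K) := by
    congr 1
    rw [← hab]
    exact div_mul_cancel₀ _ hbK
  rw [v.ord.map_mul, ht, hcon b hbK, hcon a haK, add_zero] at h1
  exact one_ne_zero (by exact_mod_cast h1 : (1 : ℤ) = 0)

/-- the set of invariant prime divisors through the point -/
def InvSet (A : Subalgebra k K) (pt : Ideal A) (s : K) (x : Fin n → K) : Set (DVal k K) :=
  {v | v.IsPrimeDivisorThrough A pt ∧ ∃ h, HomEl k s x h ∧ v.val h ≠ 0}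

/-- properties of invariant valuations -/
structure IsPageVal (k : Type u) {K : Type v} [Field k] [Field K] [Algebra k K] {n : ℕ} (s : K)
    (x : Fin n → K) (v : DVal k K) (z : Option k) (l : ℕ) : Prop where
  page : ∀ a, v.val (s - algebraMap k K a) = l * oz z a
  divisorial : v.IsDivisorial (n + 1)
  comp : ∀ g : (Fin n → ℤ) →₀ K, (∀ m, g m ∈ IntermediateField.adjoin k {s}) →
    ∀ m ∈ g.support, v.ord (∑ m' ∈ g.support, g m' * monom x m') ≤ v.ord (g m * monom x m)
  form : ∀ ω : Module.Basis (Fin (n + 1)) K (Ω[K⁄k]),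
    v.FormOrd ω (-1 - v.val (dlogDet ω (pageY s x z)))

omit [IsAlgClosed k] in
lemma exists_isPageVal (hsx : IsTorusCoord k (Fin.cons s x : Fin (n + 1) → K))
    (z : Option k) (l : ℕ) (w : Fin n → ℤ)
    (hprim : ∃ m : Fin (n + 1) → ℤ, m ⬝ᵥ (Fin.cons (l : ℤ) w : Fin (n + 1) → ℤ) = 1) :
    ∃ v : DVal k K, IsPageVal k s x v z l ∧ wx v x = w := by
  obtain ⟨v, h1, h2, h3, h4, h5⟩ := exists_pageVal hsx z l w hprim
  exact ⟨v, ⟨h2, h1, h4, h5⟩, funext h3⟩

/-- a page valuation which is nonnegative on the homogeneous elements of `A` is nonnegative on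
`A` -/
lemma C1Alg.nonneg_of_hom (C : C1Alg A pt s x) (v : DVal k K)
    (h : ∀ g, HomEl k s x g → g ∈ A → 0 ≤ v.val g) (a : A) : 0 ≤ v.ord (a : K) := by
  obtain ⟨g, hg, ha⟩ := C.graded a a.2
  rw [ha]
  refine v.ord.map_le_sum fun m hm => ?_
  have hg0 := Finsupp.mem_support_iff.1 hm
  have h1 := homEl_of C.coord (hg m).1 hg0 m
  rw [v.nonneg_ord_iff]
  exact Or.inr (h _ h1 (hg m).2)

/-- invariant prime divisors are page valuations -/
theorem C1Alg.inv_props (C : C1Alg A pt s x) {v : DVal k K} (hv : v ∈ InvSet A pt s x) :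
    ∃ (z : Option k) (l : ℕ), IsPageVal k s x v z l ∧
      ∃ m : Fin (n + 1) → ℤ, m ⬝ᵥ (Fin.cons (l : ℤ) (wx v x) : Fin (n + 1) → ℤ) = 1 := by
  obtain ⟨hv, hinv⟩ := hv
  obtain ⟨z, l, hzl⟩ := exists_page v (s_sub_ne_zero C.coord)
  set W : Fin (n + 1) → ℤ := Fin.cons (l : ℤ) (wx v x) with hW
  have hW0 : W ≠ 0 := by
    intro h
    obtain ⟨h', ⟨c, nu, m, hc, rfl⟩, hne⟩ := hinv
    apply hne
    have hl : (l : ℤ) = 0 := by
      have := congrFun h 0
      rwa [hW, Fin.cons_zero] at this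
    have hw : wx v x = 0 := by
      funext i
      have := congrFun h i.succ
      rwa [hW, Fin.cons_succ] at this
    rw [val_homEl C.coord v hzl hc, hl, hw, zero_mul, dotProduct_zero, add_zero]
  obtain ⟨g, W', hg, hgW, hprim⟩ := exists_primitive W hW0
  have hl' : 0 ≤ W' 0 := by
    have h1 := congrFun hgW 0
    rw [hW, Fin.cons_zero, Pi.smul_apply, smul_eq_mul] at h1
    have h2 : (0 : ℤ) ≤ l := Int.natCast_nonneg l
    rw [h1] at h2
    exact nonneg_of_mul_nonneg_right h2 hg
  obtain ⟨l', hl'e⟩ := Int.eq_ofNat_of_zero_le hl'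
  have hW'e : W' = (Fin.cons (l' : ℤ) (Fin.tail W') : Fin (n + 1) → ℤ) := by
    rw [← hl'e]
    exact (Fin.cons_self_tail W').symm
  have hlg : (l : ℤ) = g * l' := by
    have h1 := congrFun hgW 0
    rwa [hW, Fin.cons_zero, Pi.smul_apply, smul_eq_mul, hl'e] at h1
  have hwg : wx v x = g • Fin.tail W' := by
    funext i
    have h1 := congrFun hgW i.succ
    rwa [hW, Fin.cons_succ] at h1
  obtain ⟨v', hpv, hwx⟩ := exists_isPageVal C.coord z l' (Fin.tail W') (by rw [← hW'e]; exact hprim)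
  have hcmp : ∀ h, HomEl k s x h → v.val h = g * v'.val h := by
    rintro _ ⟨c, nu, m, hc, rfl⟩
    rw [val_homEl C.coord v hzl hc, val_homEl C.coord v' hpv.page hc, hwx, hwg, hlg,
      dotProduct_smul, smul_eq_mul]
    ring
  obtain ⟨P, hc, hP, hPm⟩ := hv
  have hPp := HasCenter.isPrime hc
  have hnnv : ∀ h, HomEl k s x h → h ∈ A → 0 ≤ v.val h := by
    intro h hh hA
    have := hc.1 ⟨h, hA⟩
    rw [v.nonneg_ord_iff] at this
    exact this.resolve_left (hh.ne_zero C.coord)
  have hnn : ∀ a : A, 0 ≤ v'.ord (a : K) := by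
    refine C.nonneg_of_hom v' fun h hh hA => ?_
    have h1 := hnnv h hh hA
    rw [hcmp h hh] at h1
    exact nonneg_of_mul_nonneg_right h1 hg
  have hcent := v'.centerIdeal_hasCenter A hnn
  set P' := v'.centerIdeal A hnn with hP'
  have hP'p := HasCenter.isPrime hcent
  have hle : P' ≤ P := by
    intro a ha
    rw [hcent.2] at ha
    rw [hc.2]
    obtain ⟨gg, hgg, hga⟩ := C.graded a a.2
    rw [hga] at ha ⊢
    refine v.ord.map_lt_sum (by exact WithTop.coe_ne_top (a := (0 : ℤ))) fun m hm => ?_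
    have hg0 := Finsupp.mem_support_iff.1 hm
    have h1 := homEl_of C.coord (hgg m).1 hg0 m
    have h2 := lt_of_lt_of_le ha (hpv.comp gg (fun m => (hgg m).1) m hm)
    rw [v'.pos_ord_iff] at h2
    have h3 := h2.resolve_left (h1.ne_zero C.coord)
    rw [v.pos_ord_iff, hcmp _ h1]
    exact Or.inr (mul_pos hg h3)
  have hne : P' ≠ ⊥ := by
    intro h
    obtain ⟨a, ha0, ha⟩ := exists_mem_ord_ne_zero (A := A) v'
    have h1 : a ∈ P' := by
      rw [hcent.2]
      exact lt_of_le_of_ne (hnn a) (Ne.symm ha)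
    rw [h] at h1
    exact ha0 (congrArg Subtype.val (by simpa using h1 : a = 0))
  have hPP : P' = P := by
    by_contra hne'
    have hlt : P' < P := lt_of_le_of_ne hle hne'
    have h1 := Ideal.height_add_one_le_of_lt_of_isPrime hlt
    have h2 : P'.height ≠ 0 := by
      rw [Ne, Ideal.height_eq_zero_iff_eq_bot]
      exact hne
    rw [hP] at h1
    have h3 : P'.height + 1 ≤ 0 + 1 := by simpa using h1
    have h4 : P'.height ≤ 0 := (ENat.add_le_add_iff_right ENat.one_ne_top).1 h3
    exact h2 (le_antisymm h4 bot_le)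
  rw [hPP] at hcent
  have heq : v = v' := by
    rw [(dval_key P hP v hc).1, (dval_key P hP v' hcent).1]
  refine ⟨z, l', heq ▸ hpv, ?_⟩
  have h5 : wx v x = Fin.tail W' := by rw [heq, hwx]
  rw [h5, ← hW'e]
  exact hprim

/-- homogeneous elements of positive value -/
lemma C1Alg.exists_pos (C : C1Alg A pt s x) {v : DVal k K} (hv : v ∈ InvSet A pt s x) :
    ∃ h, HomEl k s x h ∧ h ∈ A ∧ 0 < v.ord h := by
  obtain ⟨z, l, hpv, _⟩ := C.inv_props hv
  obtain ⟨a, ha0, ha⟩ := exists_mem_ord_ne_zero (A := A) v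
  obtain ⟨P, hc, _⟩ := hv.1
  have hpos : 0 < v.ord (a : K) := lt_of_le_of_ne (hc.1 a) (Ne.symm ha)
  obtain ⟨g, hg, hga⟩ := C.graded a a.2
  have hsupp : g.support.Nonempty := by
    by_contra hcon
    rw [Finset.not_nonempty_iff_eq_empty] at hcon
    rw [hcon, Finset.sum_empty] at hga
    exact ha0 hga
  obtain ⟨m, hm⟩ := hsupp
  have hg0 := Finsupp.mem_support_iff.1 hm
  refine ⟨g m * monom x m, homEl_of C.coord (hg m).1 hg0 m, (hg m).2, ?_⟩
  rw [hga] at hpos
  exact lt_of_lt_of_le hpos (hpv.comp g (fun m => (hg m).1) m hm)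

/-- homogeneous data -/
theorem C1Alg.exists_homData (C : C1Alg A pt s x) :
    ∃ D : HomData k K A pt, D.H = {h | HomEl k s x h} ∧ D.Inv = InvSet A pt s x := by
  classical
  refine ⟨{ H := {h | HomEl k s x h}
            Inv := InvSet A pt s x
            ne_zero := fun h hh => HomEl.ne_zero C.coord hh
            one_mem := HomEl.one
            mul_mem := fun h hh h' hh' => HomEl.mul C.coord hh hh'
            inv_mem := fun h hh => HomEl.inv C.coord hh
            isPrimeDivisor := fun v hv => hv.1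
            decomp := ?_
            exists_pos := ?_
            val_eq_zero := ?_ }, rfl, rfl⟩
  · intro a
    obtain ⟨g, hg, hga⟩ := C.graded a a.2
    have hinj : Set.InjOn (fun m => g m * monom x m) (g.support : Set (Fin n → ℤ)) := by
      intro m hm m' hm' h
      by_contra hne
      obtain ⟨i, hi⟩ := Function.ne_iff.1 hne
      obtain ⟨v, hpv, hwx⟩ := exists_isPageVal C.coord none 0 (Pi.single i 1)
        ⟨Pi.single i.succ 1, by rw [single_one_dotProduct, Fin.cons_succ, Pi.single_eq_same]⟩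
      have hval : ∀ m ∈ g.support, v.val (g m * monom x m) = m i := by
        intro m hm
        obtain ⟨c, nu, hc, hgc⟩ := exists_pw (hg m).1 (s_sub_ne_zero C.coord)
          (Finsupp.mem_support_iff.1 hm)
        rw [hgc, val_homEl C.coord v hpv.page hc, hwx, dotProduct_single]
        simp
      have h1 := congrArg v.val h
      simp only at h1
      rw [hval m hm, hval m' hm'] at h1
      exact hi h1
    refine ⟨g.support.image fun m => g m * monom x m, ?_, ?_⟩
    · rw [Finset.sum_image hinj, hga]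
    · intro y hy
      obtain ⟨m, hm, rfl⟩ := Finset.mem_image.1 hy
      refine ⟨homEl_of C.coord (hg m).1 (Finsupp.mem_support_iff.1 hm) m, fun v hv => ?_⟩
      obtain ⟨z, l, hpv, _⟩ := C.inv_props hv
      rw [hga]
      exact hpv.comp g (fun m => (hg m).1) m hm
  · intro v hv
    exact C.exists_pos hv
  · intro v hv hvI h hh
    by_contra hne
    exact hvI ⟨hv, h, hh, hne⟩

/-- the order of the top form along a non-invariant prime divisor -/
theorem C1Alg.formOrd_noninv (C : C1Alg A pt s x)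
    (ω : Module.Basis (Fin (n + 1)) K (Ω[K⁄k])) {v : DVal k K}
    (hv : v.IsPrimeDivisorThrough A pt) (hvI : v ∉ InvSet A pt s x) :
    v.FormOrd ω (-v.val (dlogDet ω (pageY s x (some (0 : k))))) := by
  have hzero : ∀ h, HomEl k s x h → v.ord h = 0 := by
    intro h hh
    rw [v.ord_eq_zero_iff]
    refine ⟨hh.ne_zero C.coord, ?_⟩
    by_contra hne
    exact hvI ⟨hv, h, hh, hne⟩
  refine FormOrd_noninv (pageY_isTorusCoord C.coord (some (0 : k))) ω v ?_ ?_
  · intro i
    refine Fin.cases ?_ (fun i => ?_) i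
    · exact hzero _ (homEl_s C.coord 0)
    · exact hzero _ (homEl_x C.coord i)
  · intro R hRk hRy hRinv y hy
    have hRs : ∀ a : k, s - algebraMap k K a ∈ R := by
      intro a
      have h1 := hRy 0
      rw [pageY_zero] at h1
      simp only [pageT, map_zero, sub_zero] at h1
      exact R.sub_mem h1 (hRk a)
    have hRx : ∀ i, x i ∈ R := fun i => hRy i.succ
    have hzp : ∀ y ∈ R, v.ord y = 0 → ∀ e : ℤ, y ^ e ∈ R := by
      intro y hy hy0 e
      rcases e with e | e
      · rw [Int.ofNat_eq_natCast, zpow_natCast]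
        exact R.pow_mem hy e
      · rw [zpow_negSucc, ← inv_pow]
        exact R.pow_mem (hRinv y hy hy0) _
    have hRh : ∀ h, HomEl k s x h → h ∈ R := by
      rintro _ ⟨c, nu, m, hc, rfl⟩
      refine R.mul_mem (R.mul_mem (hRk c) ?_) ?_
      · exact R.prod_mem fun a _ => hzp _ (hRs a) (hzero _ (homEl_s C.coord a)) _
      · exact R.prod_mem fun i _ => hzp _ (hRx i) (hzero _ (homEl_x C.coord i)) _
    have hRA : ∀ a : A, (a : K) ∈ R := by
      intro a
      obtain ⟨g, hg, hga⟩ := C.graded a a.2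
      rw [hga]
      exact R.sum_mem fun m hm => hRh _ (homEl_of C.coord (hg m).1 (Finsupp.mem_support_iff.1 hm) m)
    obtain ⟨P, hc, hP, _⟩ := hv
    have := HasCenter.isPrime hc
    have hkey := (dval_key P hP v hc).2
    rw [hkey] at hy
    obtain ⟨a, b, hb, hab⟩ := (mem_Loc_iff P y).1 hy
    have hb1 : v.ord (b : K) = 0 := by
      have h2 := hc.1 b
      have h3 := (hc.2 b).not.1 hb
      exact le_antisymm (not_lt.1 h3) h2
    have hb0 : (b : K) ≠ 0 := by
      intro h0
      rw [h0, v.ord_zero] at hb1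
      exact WithTop.top_ne_zero hb1
    have hya : y = (a : K) * (b : K)⁻¹ := by
      rw [eq_mul_inv_iff_mul_eq₀ hb0]; exact hab
    rw [hya]
    exact R.mul_mem (hRA a) (hRinv _ (hRA b) hb1)

/-- homogeneous elements of the local ring -/
lemma C1Alg.mem_Loc (C : C1Alg A pt s x) [pt.IsPrime] {h : K} (hh : HomEl k s x h)
    (hv : ∀ v ∈ InvSet A pt s x, 0 ≤ v.val h) : h ∈ Loc K pt := by
  refine mem_Loc_of_forall (k := k) pt h fun v hvp => ?_
  rw [v.nonneg_ord_iff]
  right
  by_cases hvI : v ∈ InvSet A pt s x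
  · exact hv v hvI
  · have : v.val h = 0 := by
      by_contra hne
      exact hvI ⟨hvp, h, hh, hne⟩
    rw [this]

end

end Pool.Agent.H26
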