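import Mathlib
import Pool.Agent.H26.C1Alg

/-! # Log discrepancies on affine varieties with torus action of complexity one -/

open scoped BigOperators
open KaehlerDifferential

namespace Pool.Agent.H26

set_option linter.unusedSectionVars false
set_option linter.unusedVariables false

universe u v

variable {k : Type u} {K : Type v} [Field k] [Field K] [Algebra k K] {n : ℕ}

/-- orders over a finite set of points of a function on the projective line -/
lemma sum_ordz [DecidableEq k] (P : Finset (Option k)) (hP : none ∈ P) (nu : k →₀ ℤ) :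
    ∑ z ∈ P, ordz z nu = -∑ a ∈ nu.support.filter (fun a => some a ∉ P), nu a := by
  classical
  have h1 : ∀ a : k, ∑ z ∈ P, oz z a = -1 + if some a ∈ P then 1 else 0 := by
    intro a
    have h2 : ∀ z ∈ P, oz z a = (if z = none then (-1 : ℤ) else 0) +
        if z = some a then 1 else 0 := by
      intro z _
      rcases z with _ | b
      · simp [oz]
      · simp only [oz]
        by_cases h : b = a
        · subst h; simp
        · rw [if_neg h]; simp [h]
    rw [Finset.sum_congr rfl h2, Finset.sum_add_distrib, Finset.sum_ite_eq', if_pos hP,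
      Finset.sum_ite_eq']
  unfold ordz Finsupp.sum
  rw [Finset.sum_comm]
  simp_rw [← Finset.mul_sum, h1]
  rw [Finset.sum_filter, ← Finset.sum_neg_distrib]
  refine Finset.sum_congr rfl fun a _ => ?_
  by_cases h : some a ∈ P
  · rw [if_pos h, if_neg (not_not.2 h)]; ring
  · rw [if_neg h, if_pos h]; ring

lemma sum_pgE [DecidableEq k] (P : Finset (Option k)) (hP : none ∈ P) :
    ∑ z ∈ P, (pgE z : ℤ) = P.card - 2 := by
  have h1 : ∀ z ∈ P, (pgE z : ℤ) = 1 + if z = none then (-2 : ℤ) else 0 := by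
    intro z _
    rcases z with _ | b
    · simp [pgE]
    · simp [pgE]
  rw [Finset.sum_congr rfl h1, Finset.sum_add_distrib, Finset.sum_ite_eq', if_pos hP]
  simp
  ring

section

variable {s : K} {x : Fin n → K}

lemma dlog_pageT_some (a : k) : dlog k (pageT s (some a)) =
    (s - algebraMap k K a)⁻¹ • D k K s := by
  unfold dlog
  simp only [pageT]
  rw [map_sub, Derivation.map_algebraMap, sub_zero]

lemma dlog_pageT_none (hs : s ≠ 0) : dlog k (pageT s (none : Option k)) = (-s⁻¹) • D k K s := by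
  unfold dlog
  simp only [pageT]
  rw [Derivation.leibniz_inv, smul_smul, inv_inv]
  congr 1
  field_simp

lemma dlogDet_eq (ω : Module.Basis (Fin (n + 1)) K (Ω[K⁄k])) (z : Option k) {c : K}
    (hc : dlog k (pageT s z) = c • D k K s) :
    dlogDet ω (pageY s x z) = c * ω.det (Fin.cons (D k K s) fun i => dlog k (x i)) := by
  have h1 : (fun i => dlog k (pageY s x z i)) =
      Function.update (Fin.cons (D k K s) fun i => dlog k (x i) : Fin (n + 1) → Ω[K⁄k]) 0
        (c • D k K s) := by
    rw [Fin.update_cons_zero]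
    funext i
    refine Fin.cases ?_ (fun i => ?_) i
    · rw [Fin.cons_zero, pageY_zero, hc]
    · rw [Fin.cons_succ, pageY_succ]
  unfold dlogDet
  rw [h1]
  have h2 := (ω.det : AlternatingMap K (Ω[K⁄k]) K (Fin (n + 1))).map_update_smul
    (Fin.cons (D k K s) fun i => dlog k (x i)) 0 c (D k K s)
  rw [h2, smul_eq_mul, Fin.update_cons_zero]

/-- orders of the logarithmic forms of the pages -/
lemma exists_g0 (hsx : IsTorusCoord k (Fin.cons s x : Fin (n + 1) → K))
    (ω : Module.Basis (Fin (n + 1)) K (Ω[K⁄k])) :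
    ∃ g0 : K, g0 ≠ 0 ∧ (∀ (v : DVal k K) (z : Option k) (l : ℕ),
      (∀ a, v.val (s - algebraMap k K a) = l * oz z a) →
      v.val (dlogDet ω (pageY s x z)) = v.val g0 - pgE z * l) ∧
      ∀ v : DVal k K, v.val (dlogDet ω (pageY s x (some (0 : k)))) =
        v.val g0 - v.val (s - algebraMap k K 0) := by
  have hs0 := s_ne_zero hsx
  have hg0 : ω.det (Fin.cons (D k K s) fun i => dlog k (x i)) ≠ 0 := by
    intro h
    have h1 := dlogDet_ne_zero (pageY_isTorusCoord hsx (some (0 : k))) ω
    rw [dlogDet_eq ω (some (0 : k)) (dlog_pageT_some 0), h, mul_zero] at h1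
    exact h1 rfl
  refine ⟨_, hg0, fun v z l hv => ?_, fun v => ?_⟩
  · rcases z with _ | a
    · rw [dlogDet_eq ω none (dlog_pageT_none hs0),
        v.val_mul (neg_ne_zero.2 (inv_ne_zero hs0)) hg0, v.val_neg, v.val_inv hs0]
      have h1 := hv 0
      rw [map_zero, sub_zero] at h1
      rw [h1]
      simp only [oz, pgE]
      ring
    · rw [dlogDet_eq ω (some a) (dlog_pageT_some a),
        v.val_mul (inv_ne_zero (s_sub_ne_zero hsx a)) hg0, v.val_inv (s_sub_ne_zero hsx a), hv a]
      simp only [oz, pgE, if_true]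
      ring
  · rw [dlogDet_eq ω (some (0 : k)) (dlog_pageT_some 0),
      v.val_mul (inv_ne_zero (s_sub_ne_zero hsx 0)) hg0, v.val_inv (s_sub_ne_zero hsx 0)]
    ring

end

section

variable [IsAlgClosed k] [CharZero k] {A : Subalgebra k K} [IsFractionRing A K]
  [IsNoetherianRing A] [IsIntegrallyClosed A] {pt : Ideal A} {s : K} {x : Fin n → K}

/-- the piecewise linear log discrepancy function -/
theorem C1Alg.exists_F (C : C1Alg A pt s x) [pt.IsPrime]
    (ω : Module.Basis (Fin (n + 1)) K (Ω[K⁄k])) {bdry : DVal k K → ℝ}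
    {ι : Type} [Fintype ι] {r : ι → ℝ} {sf : ι → K} (sf_ne : ∀ i, sf i ≠ 0)
    (cartier : ∀ v : DVal k K, v.IsPrimeDivisorThrough A pt →
      ∃ e : ℤ, v.FormOrd ω e ∧ (e : ℝ) + bdry v = ∑ i, r i * (v.val (sf i) : ℝ))
    (noninv : ∀ v : DVal k K, v.IsPrimeDivisorThrough A pt → v ∉ InvSet A pt s x → bdry v = 0) :
    ∃ (u : Fin n → ℝ) (c : Option k → ℝ) (P0 : Finset (Option k)), none ∈ P0 ∧
      (∀ z, z ∉ P0 → c z = 1) ∧
      (∀ P : Finset (Option k), P0 ⊆ P → ∑ z ∈ P, c z = (P.card : ℝ) - 2) ∧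
      (∀ (v : DVal k K) (P : Ideal A), v.HasCenter A P → P ≤ pt → ∀ (z : Option k) (l : ℕ),
        (∀ a, v.val (s - algebraMap k K a) = l * oz z a) → ∀ e : ℤ, v.FormOrd ω e →
        ∑ i, u i * (wx v x i : ℝ) + c z * (l : ℝ) ≤
          1 + (e : ℝ) - ∑ i, r i * (v.val (sf i) : ℝ)) ∧
      (∀ (v : DVal k K) (P : Ideal A), v.HasCenter A P → P ≤ pt → ∀ (z : Option k) (l : ℕ),
        IsPageVal k s x v z l → ∃ e : ℤ, v.FormOrd ω e ∧
        ∑ i, u i * (wx v x i : ℝ) + c z * (l : ℝ) =
          1 + (e : ℝ) - ∑ i, r i * (v.val (sf i) : ℝ)) := by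
  classical
  obtain ⟨g0, hg0, hg1, hg2⟩ := exists_g0 C.coord ω
  obtain ⟨D, hDH, hDI⟩ := C.exists_homData
  -- the local equation
  let cc : ι ⊕ Unit → ℝ := Sum.elim r (fun _ => 1)
  let ss : ι ⊕ Unit → K := Sum.elim sf (fun _ => g0)
  have hss : ∀ i, ss i ≠ 0 := by
    rintro (i | i)
    · exact sf_ne i
    · exact hg0
  have hsum : ∀ v : DVal k K, ∑ i, cc i * (v.val (ss i) : ℝ) =
      ∑ i, r i * (v.val (sf i) : ℝ) + v.val g0 := by
    intro v
    rw [Fintype.sum_sum_type]
    simp [cc, ss]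
  have hzero : ∀ v : DVal k K, v.IsPrimeDivisorThrough A pt → v ∉ D.Inv →
      ∑ i, cc i * (v.val (ss i) : ℝ) = 0 := by
    intro v hv hvI
    rw [hDI] at hvI
    obtain ⟨e, he, hcar⟩ := cartier v hv
    have h1 := C.formOrd_noninv ω hv hvI
    have h2 := FormOrd_unique v ω he h1
    rw [hg2] at h2
    have h3 : v.val (s - algebraMap k K 0) = 0 := by
      by_contra hne
      exact hvI ⟨hv, _, homEl_s C.coord 0, hne⟩
    rw [h3, sub_zero] at h2
    rw [noninv v hv hvI, add_zero] at hcar
    rw [hsum, ← hcar, h2]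
    push_cast
    ring
  obtain ⟨N, c', h, hh, hval⟩ := D.exists_hom_real cc ss hss hzero
  have hh' : ∀ j, HomEl k s x (h j) := by
    intro j
    have := hh j
    rw [hDH] at this
    exact this
  choose hc nu m hc0 hheq using hh'
  let u : Fin n → ℝ := fun i => -∑ j, c' j * (m j i : ℝ)
  let c : Option k → ℝ := fun z => (pgE z : ℝ) - ∑ j, c' j * (ordz z (nu j) : ℝ)
  let P0 : Finset (Option k) := insert none (Finset.univ.biUnion fun j =>
    (nu j).support.image some)
  -- the main formula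
  have hmain : ∀ (v : DVal k K) (P : Ideal A), v.HasCenter A P → P ≤ pt → ∀ (z : Option k) (l : ℕ),
      (∀ a, v.val (s - algebraMap k K a) = l * oz z a) →
      ∑ i, u i * (wx v x i : ℝ) + c z * (l : ℝ) =
        pgE z * l - v.val g0 - ∑ i, r i * (v.val (sf i) : ℝ) := by
    intro v P hP hPpt z l hzl
    have h1 := hval v P hP hPpt
    rw [hsum] at h1
    have h2 : ∀ j, (v.val (h j) : ℝ) =
        l * (ordz z (nu j) : ℝ) + ∑ i, (m j i : ℝ) * (wx v x i : ℝ) := by
      intro j
      rw [hheq j, val_homEl C.coord v hzl (hc0 j)]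
      unfold dotProduct
      push_cast
      rfl
    simp_rw [h2] at h1
    have h3 : ∑ j, c' j * (l * (ordz z (nu j) : ℝ) + ∑ i, (m j i : ℝ) * (wx v x i : ℝ)) =
        l * ∑ j, c' j * (ordz z (nu j) : ℝ) - ∑ i, u i * (wx v x i : ℝ) := by
      simp only [u]
      simp_rw [mul_add]
      rw [Finset.sum_add_distrib, Finset.mul_sum]
      have h4 : ∑ j, c' j * ∑ i, (m j i : ℝ) * (wx v x i : ℝ) =
          -∑ i, (-∑ j, c' j * (m j i : ℝ)) * (wx v x i : ℝ) := by
        rw [← Finset.sum_neg_distrib]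
        simp_rw [neg_mul, neg_neg, Finset.sum_mul, Finset.mul_sum]
        rw [Finset.sum_comm]
        refine Finset.sum_congr rfl fun i _ => Finset.sum_congr rfl fun j _ => ?_
        ring
      rw [h4, sub_eq_add_neg]
      congr 1
      refine Finset.sum_congr rfl fun j _ => ?_
      ring
    rw [h3] at h1
    simp only [c]
    linarith
  refine ⟨u, c, P0, Finset.mem_insert_self _ _, ?_, ?_, ?_, ?_⟩
  · intro z hz
    rcases z with _ | b
    · exact absurd (Finset.mem_insert_self _ _) hz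
    · simp only [c]
      have h1 : ∀ j, ordz (some b) (nu j) = 0 := by
        intro j
        rw [ordz_some]
        by_contra hne
        apply hz
        refine Finset.mem_insert_of_mem (Finset.mem_biUnion.2 ⟨j, Finset.mem_univ _, ?_⟩)
        exact Finset.mem_image.2 ⟨b, Finsupp.mem_support_iff.2 hne, rfl⟩
      simp [h1, pgE]
  · intro P hP
    have hnone : none ∈ P := hP (Finset.mem_insert_self _ _)
    simp only [c]
    rw [Finset.sum_sub_distrib, Finset.sum_comm]
    have h1 : ∀ j, ∑ z ∈ P, c' j * (ordz z (nu j) : ℝ) = 0 := by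
      intro j
      rw [← Finset.mul_sum]
      have h2 := sum_ordz P hnone (nu j)
      have h3 : (nu j).support.filter (fun a => some a ∉ P) = ∅ := by
        rw [Finset.filter_eq_empty_iff]
        intro a ha
        rw [not_not]
        refine hP (Finset.mem_insert_of_mem (Finset.mem_biUnion.2 ⟨j, Finset.mem_univ _, ?_⟩))
        exact Finset.mem_image.2 ⟨a, ha, rfl⟩
      rw [h3, Finset.sum_empty, neg_zero] at h2
      have h4 : ∑ z ∈ P, (ordz z (nu j) : ℝ) = 0 := by exact_mod_cast h2
      rw [h4, mul_zero]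
    rw [Finset.sum_eq_zero (fun j _ => h1 j), sub_zero]
    have h5 := sum_pgE P hnone
    exact_mod_cast h5
  · intro v P hP hPpt z l hzl e he
    rw [hmain v P hP hPpt z l hzl]
    have h1 := FormOrd_ge (pageY_isTorusCoord C.coord z) ω v he
    rw [hg1 v z l hzl] at h1
    have h2 : (-1 - ((v.val g0 : ℝ) - pgE z * l) : ℝ) ≤ e := by exact_mod_cast h1
    linarith
  · intro v P hP hPpt z l hpv
    refine ⟨_, hpv.form ω, ?_⟩
    rw [hmain v P hP hPpt z l hpv.page, hg1 v z l hpv.page]
    push_cast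
    ring

/-- the centre of a page valuation contains the fixed point -/
lemma C1Alg.center_le (C : C1Alg A pt s x) {v : DVal k K} {z : Option k} {l : ℕ}
    (hpv : IsPageVal k s x v z l)
    (hnn : ∀ h, HomEl k s x h → h ∈ A → 0 ≤ v.val h)
    (hpos : ∀ a : A, HomEl k s x (a : K) → 0 < v.val (a : K) → a ∈ pt) :
    ∃ P : Ideal A, v.HasCenter A P ∧ P ≤ pt := by
  have hnn' := C.nonneg_of_hom v hnn
  refine ⟨v.centerIdeal A hnn', v.centerIdeal_hasCenter A hnn', fun a ha => ?_⟩
  rw [(v.centerIdeal_hasCenter A hnn').2] at ha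
  obtain ⟨g, hg, hga⟩ := C.graded a a.2
  have h1 : a = ∑ m ∈ g.support, (⟨g m * monom x m, (hg m).2⟩ : A) := by
    apply Subtype.ext
    rw [AddSubmonoidClass.coe_finsetSum]
    exact hga
  rw [h1]
  refine Ideal.sum_mem _ fun m hm => ?_
  have hH := homEl_of C.coord (hg m).1 (Finsupp.mem_support_iff.1 hm) m
  refine hpos _ hH ?_
  rw [hga] at ha
  have h2 := lt_of_lt_of_le ha (hpv.comp g (fun m => (hg m).1) m hm)
  rw [v.pos_ord_iff] at h2
  exact h2.resolve_left (hH.ne_zero C.coord)

/-- page valuations centred at the fixed point -/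
lemma C1Alg.center_eq (C : C1Alg A pt s x) {v : DVal k K} {z : Option k} {l : ℕ}
    (hpv : IsPageVal k s x v z l)
    (hnn : ∀ h, HomEl k s x h → h ∈ A → 0 ≤ v.val h)
    (hpos : ∀ a : A, HomEl k s x (a : K) → (0 < v.val (a : K) ↔ a ∈ pt)) :
    v.HasCenter A pt := by
  classical
  have hnn' := C.nonneg_of_hom v hnn
  refine ⟨hnn', fun a => ⟨fun ha => ?_, fun ha => ?_⟩⟩
  · obtain ⟨g, hg, hga⟩ := C.graded a a.2
    have h1 : a = ∑ m ∈ g.support, (⟨g m * monom x m, (hg m).2⟩ : A) := by
      apply Subtype.ext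
      rw [AddSubmonoidClass.coe_finsetSum]
      exact hga
    have h2 : ∀ m ∈ g.support, (⟨g m * monom x m, (hg m).2⟩ : A) ∈ pt := by
      intro m hm
      by_cases hm0 : m = 0
      · have h3 : (⟨g m * monom x m, (hg m).2⟩ : A) = a - ∑ m' ∈ g.support.erase m,
            (⟨g m' * monom x m', (hg m').2⟩ : A) := by
          rw [eq_sub_iff_add_eq]
          exact (Finset.add_sum_erase _
            (fun m' => (⟨g m' * monom x m', (hg m').2⟩ : A)) hm).trans h1.symm
        rw [h3]
        refine Ideal.sub_mem _ ha (Ideal.sum_mem _ fun m' hm' => ?_)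
        exact C.fixed _ (g m') m' (hg m').1 (by
          rw [← hm0]
          exact (Finset.mem_erase.1 hm').1) rfl
      · exact C.fixed _ (g m) m (hg m).1 hm0 rfl
    rw [hga]
    refine v.ord.map_lt_sum (by exact WithTop.coe_ne_top (a := (0 : ℤ))) fun m hm => ?_
    have hH := homEl_of C.coord (hg m).1 (Finsupp.mem_support_iff.1 hm) m
    rw [v.pos_ord_iff]
    exact Or.inr ((hpos ⟨g m * monom x m, (hg m).2⟩ hH).2 (h2 m hm))
  · obtain ⟨P, hP, hPpt⟩ := C.center_le hpv hnn (fun a ha h => (hpos a ha).1 h)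
    exact hPpt ((hP.2 a).2 ha)

end

end Pool.Agent.H26
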