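import Mathlib
import Pool.Agent.H26.Farkas
import Pool.Agent.H26.Chains
import Pool.Agent.H26.Engine

/-! # Combinatorics of germs with a torus action of complexity one -/

open scoped BigOperators

namespace Pool.Agent.H26

universe u v

/-- input for one index of the limiting argument -/
def EngineOut (W : Set ℝ) (N : ℕ) (τ τ' : ℝ) : Prop :=
  ∃ (U : Set (Fin N → ℝ)) (x : Fin N → ℝ),
    (∀ u ∈ U, ∀ l, u l ∈ W) ∧
    (∃ Q : ℕ, 0 < Q ∧ ∀ l, ∃ z : ℤ, Q * x l = z) ∧ (∀ l, 0 < x l) ∧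
    (∀ (q : ℕ) (z : Fin N → ℤ), (∀ l, 0 < q * x l + z l) →
      ∃ u ∈ U, τ ≤ ∑ l, (1 - u l) * (q * x l + z l)) ∧
    (∀ u ∈ U, ∑ l, (1 - u l) * x l < τ')

theorem not_strictMono_of_engineOut {W : Set ℝ} (hW : W.IsPWO) (hW0 : ∀ w ∈ W, 0 ≤ w) (N : ℕ)
    (t : ℕ → ℝ) (h : ∀ j, t j < t (j + 1) → EngineOut W N (t j) (t (j + 1))) :
    ¬ StrictMono t := by
  intro hmono
  choose U x h1 h2 h3 h4 h5 using fun j => h j (hmono (Nat.lt_succ_self j))
  exact engine N hW hW0 U h1 x h2 h3 t h4 h5 hmono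

/-- spreading a positive combination over a larger index set -/
lemma exists_padding {ι : Type v} [DecidableEq ι] (T : Finset ι) (hT : T.Nonempty) (N : ℕ)
    (hN : T.card ≤ N) (x : ι → ℚ) (hx : ∀ r ∈ T, 0 < x r) :
    ∃ (f : Fin N → ι) (y : Fin N → ℚ), (∀ l, f l ∈ T) ∧ (∀ r ∈ T, ∃ l, f l = r) ∧
      (∀ l, 0 < y l) ∧ ∀ r ∈ T, ∑ l, (if f l = r then y l else 0) = x r := by
  classical
  obtain ⟨r0, hr0⟩ := hT
  let e : Fin T.card ≃ T := T.equivFin.symm
  let f : Fin N → ι := fun l => if h : l.1 < T.card then (e ⟨l.1, h⟩ : ι) else r0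
  have hf : ∀ l, f l ∈ T := by
    intro l
    simp only [f]
    split_ifs with h
    · exact (e ⟨l.1, h⟩).2
    · exact hr0
  have hsurj : ∀ r ∈ T, ∃ l, f l = r := by
    intro r hr
    refine ⟨⟨(e.symm ⟨r, hr⟩).1, lt_of_lt_of_le (e.symm ⟨r, hr⟩).2 hN⟩, ?_⟩
    simp only [f]
    rw [dif_pos (e.symm ⟨r, hr⟩).2]
    simp
  let cnt : ι → ℕ := fun r => (Finset.univ.filter fun l => f l = r).card
  have hcnt : ∀ r ∈ T, 0 < cnt r := by
    intro r hr
    obtain ⟨l, hl⟩ := hsurj r hr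
    exact Finset.card_pos.2 ⟨l, by simp [hl]⟩
  refine ⟨f, fun l => x (f l) / cnt (f l), hf, hsurj, fun l => ?_, fun r hr => ?_⟩
  · exact div_pos (hx _ (hf l)) (by exact_mod_cast hcnt _ (hf l))
  · have h1 : ∀ l, (if f l = r then x (f l) / (cnt (f l) : ℚ) else 0) =
        if f l = r then x r / cnt r else 0 := by
      intro l
      by_cases h : f l = r
      · simp [h]
      · simp [h]
    simp_rw [h1]
    rw [← Finset.sum_filter, Finset.sum_const, nsmul_eq_mul]
    have h2 : (cnt r : ℚ) ≠ 0 := by exact_mod_cast (hcnt r hr).ne'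
    change (cnt r : ℚ) * _ = _
    field_simp

lemma sum_pad {ι : Type v} [DecidableEq ι] {T : Finset ι} {N : ℕ} {f : Fin N → ι}
    (hf : ∀ l, f l ∈ T) (Y : Fin N → ℝ) (φ : ι → ℝ) :
    ∑ r ∈ T, (∑ l, if f l = r then Y l else 0) * φ r = ∑ l, Y l * φ (f l) := by
  simp_rw [Finset.sum_mul]
  rw [Finset.sum_comm]
  refine Finset.sum_congr rfl fun l _ => ?_
  rw [Finset.sum_eq_single (f l)]
  · simp
  · intro r _ hr
    rw [if_neg (Ne.symm hr), zero_mul]
  · intro h
    exact absurd (hf l) h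

lemma sum_pad_rat {ι : Type v} [DecidableEq ι] {T : Finset ι} {N : ℕ} {f : Fin N → ι}
    (hf : ∀ l, f l ∈ T) (y : Fin N → ℚ) (x : ι → ℚ)
    (hyx : ∀ r ∈ T, ∑ l, (if f l = r then y l else 0) = x r) (φ : ι → ℝ) :
    ∑ l, (y l : ℝ) * φ (f l) = ∑ r ∈ T, (x r : ℝ) * φ r := by
  rw [← sum_pad hf]
  refine Finset.sum_congr rfl fun r hr => ?_
  congr 1
  rw [← hyx r hr, Rat.cast_sum]
  refine Finset.sum_congr rfl fun l _ => ?_
  split_ifs <;> simp

lemma exists_common_den {N : ℕ} (x : Fin N → ℚ) :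
    ∃ Q : ℕ, 0 < Q ∧ ∀ l, ∃ z : ℤ, (Q : ℝ) * (x l : ℝ) = z := by
  refine ⟨∏ l, (x l).den, Finset.prod_pos fun l _ => (x l).pos, fun l => ?_⟩
  refine ⟨(∏ j ∈ Finset.univ.erase l, ((x j).den : ℤ)) * (x l).num, ?_⟩
  have h1 : (∏ j, ((x j).den : ℤ)) = ((x l).den : ℤ) * ∏ j ∈ Finset.univ.erase l, ((x j).den : ℤ) :=
    (Finset.mul_prod_erase _ _ (Finset.mem_univ l)).symm
  have h2 : ((x l).den : ℚ) * x l = (x l).num := by
    rw [mul_comm]; exact Rat.mul_den_eq_num _
  have h3 : ((∏ j, (x j).den : ℕ) : ℚ) * x l =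
      (((∏ j ∈ Finset.univ.erase l, ((x j).den : ℤ)) * (x l).num : ℤ) : ℚ) := by
    have h4 : ((∏ j, (x j).den : ℕ) : ℚ) = ((∏ j, ((x j).den : ℤ) : ℤ) : ℚ) := by push_cast; rfl
    rw [h4, h1]
    push_cast
    calc ((x l).den : ℚ) * (∏ j ∈ Finset.univ.erase l, ((x j).den : ℚ)) * x l =
        (∏ j ∈ Finset.univ.erase l, ((x j).den : ℚ)) * (((x l).den : ℚ) * x l) := by ring
      _ = _ := by rw [h2]
  have h5 := congrArg (fun a : ℚ => (a : ℝ)) h3
  push_cast at h5
  push_cast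
  exact h5

/-- combinatorial data of a germ with a torus action of complexity one: `Pg` is the set of pages,
`ι` the set of rays, `pg r` the page of the ray `r`, and `(w r, l r)` its primitive generator. -/
structure PageData (Γ : Set ℝ) (n : ℕ) (Pg : Type u) (ι : Type v) where
  pg : ι → Pg
  l : ι → ℕ
  w : ι → Fin n → ℤ
  b : ι → ℝ
  u : Fin n → ℝ
  c : Pg → ℝ
  F_eq : ∀ r, ∑ i, u i * (w r i : ℝ) + c (pg r) * (l r : ℝ) = 1 - b r
  b_mem : ∀ r, b r = 0 ∨ b r ∈ Γ

namespace PageData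

variable {Γ : Set ℝ} {n : ℕ} {Pg : Type u} {ι : Type v}

/-- the log discrepancy function on the page `z` -/
def F (D : PageData Γ n Pg ι) (z : Pg) (w : Fin n → ℤ) (l : ℕ) : ℝ :=
  ∑ i, D.u i * (w i : ℝ) + D.c z * (l : ℝ)

/-- level zero: everything happens on one page -/
theorem core0 (D : PageData Γ n Pg ι) {z0 : Pg} {w0 : Fin n → ℤ} {l0 : ℕ} (T : Finset ι)
    (hTne : T.Nonempty) (x : ι → ℚ) (hx : ∀ r ∈ T, 0 < x r) (N : ℕ) (hN : T.card ≤ N)
    (hpage : ∀ r ∈ T, D.pg r = z0 ∨ D.l r = 0)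
    (hw : ∀ i, (w0 i : ℚ) = ∑ r ∈ T, x r * (D.w r i : ℚ))
    (hl : (l0 : ℚ) = ∑ r ∈ T, x r * (D.l r : ℚ)) (τ τ' : ℝ)
    (hb : ∀ (lam : ι → ℝ) (l1 : ℕ) (w1 : Fin n → ℤ), (∀ r ∈ T, 0 < lam r) →
      (∀ i, (w1 i : ℝ) = ∑ r ∈ T, lam r * (D.w r i : ℝ)) →
      ((l1 : ℝ) = ∑ r ∈ T, lam r * (D.l r : ℝ)) → τ ≤ D.F z0 w1 l1)
    (hF : D.F z0 w0 l0 < τ') :
    EngineOut (AddSubmonoid.closure (insert 1 Γ) : Set ℝ) N τ τ' := by
  classical
  obtain ⟨f, y, hf, hsurj, hy, hyx⟩ := exists_padding T hTne N hN x hx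
  have hFr : ∀ r ∈ T, ∑ i, D.u i * (D.w r i : ℝ) + D.c z0 * (D.l r : ℝ) = 1 - D.b r := by
    intro r hr
    rw [← D.F_eq r]
    rcases hpage r hr with h | h
    · rw [h]
    · rw [h]; simp
  -- value of the linear function on a combination
  have hval : ∀ (lam : ι → ℝ) (l1 : ℕ) (w1 : Fin n → ℤ),
      (∀ i, (w1 i : ℝ) = ∑ r ∈ T, lam r * (D.w r i : ℝ)) →
      ((l1 : ℝ) = ∑ r ∈ T, lam r * (D.l r : ℝ)) →
      D.F z0 w1 l1 = ∑ r ∈ T, lam r * (1 - D.b r) := by
    intro lam l1 w1 h1 h2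
    unfold F
    simp_rw [h1, h2, Finset.mul_sum]
    rw [Finset.sum_comm, ← Finset.sum_add_distrib]
    refine Finset.sum_congr rfl fun r hr => ?_
    rw [← hFr r hr, mul_add, Finset.mul_sum]
    congr 1
    · exact Finset.sum_congr rfl fun i _ => by ring
    · ring
  have hyR : ∀ φ : ι → ℝ, ∑ l, (y l : ℝ) * φ (f l) = ∑ r ∈ T, (x r : ℝ) * φ r :=
    sum_pad_rat hf y x hyx
  refine ⟨{fun l => D.b (f l)}, fun l => (y l : ℝ), ?_, exists_common_den y, fun l => by
    have := hy l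
    change (0 : ℝ) < (y l : ℝ)
    exact_mod_cast this, ?_, ?_⟩
  · rintro _ rfl l
    change D.b (f l) ∈ AddSubmonoid.closure (insert 1 Γ)
    rcases D.b_mem (f l) with h | h
    · rw [h]; exact AddSubmonoid.zero_mem _
    · exact AddSubmonoid.subset_closure (Set.mem_insert_of_mem _ h)
  · intro q z hqz
    refine ⟨_, rfl, ?_⟩
    let Y : Fin N → ℝ := fun l => (q : ℝ) * y l + z l
    let lam : ι → ℝ := fun r => ∑ l, if f l = r then Y l else 0
    have hsumY : ∀ φ : ι → ℝ, ∑ r ∈ T, lam r * φ r =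
        q * (∑ r ∈ T, (x r : ℝ) * φ r) + ∑ l, (z l : ℝ) * φ (f l) := by
      intro φ
      rw [sum_pad hf Y φ, ← hyR, Finset.mul_sum, ← Finset.sum_add_distrib]
      refine Finset.sum_congr rfl fun l _ => ?_
      simp only [Y]
      ring
    have hlampos : ∀ r ∈ T, 0 < lam r := by
      intro r hr
      obtain ⟨l, hl⟩ := hsurj r hr
      refine Finset.sum_pos' (fun l' _ => ?_) ⟨l, Finset.mem_univ _, ?_⟩
      · split_ifs
        · exact (hqz l').le
        · exact le_rfl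
      · rw [if_pos hl]; exact hqz l
    have hl1 : 0 ≤ (q : ℤ) * l0 + ∑ l, z l * (D.l (f l) : ℤ) := by
      have h1 := hsumY (fun r => (D.l r : ℝ))
      have h2 : 0 ≤ ∑ r ∈ T, lam r * (D.l r : ℝ) :=
        Finset.sum_nonneg fun r hr => mul_nonneg (hlampos r hr).le (Nat.cast_nonneg _)
      have h3 : (l0 : ℝ) = ∑ r ∈ T, (x r : ℝ) * (D.l r : ℝ) := by
        have := congrArg (fun a : ℚ => (a : ℝ)) hl
        push_cast at this
        exact this
      rw [h1, ← h3] at h2
      exact_mod_cast h2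
    obtain ⟨l1, hl1'⟩ := Int.eq_ofNat_of_zero_le hl1
    have hl1R : (l1 : ℝ) = ∑ r ∈ T, lam r * (D.l r : ℝ) := by
      have h3 : (l0 : ℝ) = ∑ r ∈ T, (x r : ℝ) * (D.l r : ℝ) := by
        have := congrArg (fun a : ℚ => (a : ℝ)) hl
        push_cast at this
        exact this
      rw [hsumY (fun r => (D.l r : ℝ)), ← h3]
      have := congrArg (fun a : ℤ => (a : ℝ)) hl1'
      push_cast at this
      exact this.symm
    let w1 : Fin n → ℤ := fun i => q * w0 i + ∑ l, z l * D.w (f l) i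
    have hw1R : ∀ i, (w1 i : ℝ) = ∑ r ∈ T, lam r * (D.w r i : ℝ) := by
      intro i
      have h3 : (w0 i : ℝ) = ∑ r ∈ T, (x r : ℝ) * (D.w r i : ℝ) := by
        have := congrArg (fun a : ℚ => (a : ℝ)) (hw i)
        push_cast at this
        exact this
      rw [hsumY (fun r => (D.w r i : ℝ)), ← h3]
      simp only [w1]
      push_cast
      rfl
    have h1 := hb lam l1 w1 hlampos hw1R hl1R
    rw [hval lam l1 w1 hw1R hl1R] at h1
    refine h1.trans (le_of_eq ?_)
    rw [sum_pad hf Y (fun r => 1 - D.b r)]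
    exact Finset.sum_congr rfl fun l _ => mul_comm _ _
  · rintro _ rfl
    have h1 : D.F z0 w0 l0 = ∑ r ∈ T, (x r : ℝ) * (1 - D.b r) := by
      refine hval (fun r => (x r : ℝ)) l0 w0 (fun i => ?_) ?_
      · have := congrArg (fun a : ℚ => (a : ℝ)) (hw i)
        push_cast at this
        exact this
      · have := congrArg (fun a : ℚ => (a : ℝ)) hl
        push_cast at this
        exact this
    rw [h1, ← hyR] at hF
    refine lt_of_eq_of_lt ?_ hF
    exact Finset.sum_congr rfl fun l _ => mul_comm _ _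

section pages

variable [Fintype Pg] [DecidableEq Pg]

/-- the total level on a page of a combination of rays -/
def lev (D : PageData Γ n Pg ι) (T : Finset ι) (lam : ι → ℝ) (z : Pg) : ℝ :=
  ∑ r ∈ T, if D.pg r = z then lam r * (D.l r : ℝ) else 0

omit [Fintype Pg] in
lemma lev_add (D : PageData Γ n Pg ι) (T : Finset ι) (lam lam' : ι → ℝ) (z : Pg) :
    D.lev T (lam + lam') z = D.lev T lam z + D.lev T lam' z := by
  unfold lev
  rw [← Finset.sum_add_distrib]
  refine Finset.sum_congr rfl fun r _ => ?_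
  split_ifs
  · simp only [Pi.add_apply]; ring
  · simp

lemma sum_F_eq_aux (D : PageData Γ n Pg ι) {b' : ι → ℝ} {u' : Fin n → ℝ} {c' : Pg → ℝ}
    (hF' : ∀ r, ∑ i, u' i * (D.w r i : ℝ) + c' (D.pg r) * (D.l r : ℝ) = 1 - b' r)
    (T : Finset ι) (lam : ι → ℝ) :
    ∑ r ∈ T, lam r * (1 - b' r) =
      ∑ i, u' i * (∑ r ∈ T, lam r * (D.w r i : ℝ)) + ∑ z, c' z * D.lev T lam z := by
  have h1 : ∑ z, c' z * D.lev T lam z = ∑ r ∈ T, lam r * (c' (D.pg r) * (D.l r : ℝ)) := by
    unfold lev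
    simp_rw [Finset.mul_sum]
    rw [Finset.sum_comm]
    refine Finset.sum_congr rfl fun r _ => ?_
    rw [Finset.sum_eq_single (D.pg r)]
    · rw [if_pos rfl]; ring
    · intro z _ hz
      rw [if_neg (Ne.symm hz), mul_zero]
    · intro h; exact absurd (Finset.mem_univ _) h
  rw [h1]
  simp_rw [Finset.mul_sum]
  rw [Finset.sum_comm, ← Finset.sum_add_distrib]
  refine Finset.sum_congr rfl fun r _ => ?_
  rw [← hF' r, mul_add, Finset.mul_sum]
  congr 1
  exact Finset.sum_congr rfl fun i _ => by ring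

lemma sum_F_eq (D : PageData Γ n Pg ι) (T : Finset ι) (lam : ι → ℝ) :
    ∑ r ∈ T, lam r * (1 - D.b r) =
      ∑ i, D.u i * (∑ r ∈ T, lam r * (D.w r i : ℝ)) + ∑ z, D.c z * D.lev T lam z :=
  D.sum_F_eq_aux D.F_eq T lam

/-- the value of the log discrepancy function at a point of a page -/
lemma F_of_rep (D : PageData Γ n Pg ι) (hc : ∑ z, D.c z = (Fintype.card Pg : ℝ) - 2)
    (T : Finset ι) (lam : ι → ℝ) {z1 : Pg} {w1 : Fin n → ℤ} {l1 : ℕ} {t : ℝ}
    (hw : ∀ i, (w1 i : ℝ) = ∑ r ∈ T, lam r * (D.w r i : ℝ))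
    (hl : ∀ z, D.lev T lam z = t + if z = z1 then (l1 : ℝ) else 0) :
    D.F z1 w1 l1 = ∑ r ∈ T, lam r * (1 - D.b r) - ((Fintype.card Pg : ℝ) - 2) * t := by
  rw [D.sum_F_eq T lam]
  unfold F
  simp_rw [← hw, hl, mul_add]
  rw [Finset.sum_add_distrib, ← Finset.sum_mul, hc]
  simp only [mul_ite, mul_zero]
  rw [Finset.sum_ite_eq' Finset.univ z1]
  simp only [Finset.mem_univ, if_true]
  ring

/-- moving a lattice point onto a page without increasing the log discrepancy -/
theorem pia (D : PageData Γ n Pg ι) (hcard : 3 ≤ Fintype.card Pg)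
    (hc : ∑ z, D.c z = (Fintype.card Pg : ℝ) - 2) (T : Finset ι)
    (hb0 : ∀ r, 0 ≤ D.b r) (hb1 : ∀ r, D.b r < 1)
    (ρ : Pg → ι) (hρT : ∀ z, ρ z ∈ T) (hρ : ∀ z, D.pg (ρ z) = z) (hρl : ∀ z, 0 < D.l (ρ z))
    (hG0 : (Fintype.card Pg : ℝ) - 2 < ∑ z, (1 - D.b (ρ z)) / (D.l (ρ z) : ℝ)) (τ : ℝ)
    (hbound : ∀ (lam : ι → ℝ) (z1 : Pg) (l1 : ℕ) (w1 : Fin n → ℤ) (t : ℝ),
      (∀ r ∈ T, 0 < lam r) → 0 < t →
      (∀ i, (w1 i : ℝ) = ∑ r ∈ T, lam r * (D.w r i : ℝ)) →
      (∀ z, D.lev T lam z = t + if z = z1 then (l1 : ℝ) else 0) → τ ≤ D.F z1 w1 l1)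
    (lam : ι → ℝ) (hlam : ∀ r ∈ T, 0 < lam r) (W : Fin n → ℤ) (L : Pg → ℕ) (t : ℝ) (ht : 0 < t)
    (hW : ∀ i, (W i : ℝ) = ∑ r ∈ T, lam r * (D.w r i : ℝ))
    (hL : ∀ z, D.lev T lam z = t + (L z : ℝ)) (hmin : ∃ z, L z = 0) :
    τ ≤ ∑ r ∈ T, lam r * (1 - D.b r) - ((Fintype.card Pg : ℝ) - 2) * t := by
  classical
  have hPne : (Finset.univ : Finset Pg).Nonempty := by
    obtain ⟨z, _⟩ := hmin
    exact ⟨z, Finset.mem_univ z⟩
  have hp2 : (0 : ℝ) ≤ (Fintype.card Pg : ℝ) - 2 := by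
    have : (3 : ℝ) ≤ (Fintype.card Pg : ℝ) := by exact_mod_cast hcard
    linarith
  have hρinj : Function.Injective ρ := fun z z' h => by rw [← hρ z, ← hρ z', h]
  by_contra hcon
  push Not at hcon
  set G0 : ℝ := ∑ r ∈ T, lam r * (1 - D.b r) - ((Fintype.card Pg : ℝ) - 2) * t with hG0def
  -- levels
  let le : (Pg → ℕ) → Pg → ℕ := fun κ z => L z + κ z * D.l (ρ z)
  let m : (Pg → ℕ) → ℕ := fun κ => Finset.univ.inf' hPne (le κ)
  have hmle : ∀ κ z, m κ ≤ le κ z := fun κ z => Finset.inf'_le _ (Finset.mem_univ z)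
  have hmex : ∀ κ, ∃ z, m κ = le κ z := by
    intro κ
    obtain ⟨z, _, hz⟩ := Finset.exists_mem_eq_inf' hPne (le κ)
    exact ⟨z, hz⟩
  have hm0 : m 0 = 0 := by
    obtain ⟨z, hz⟩ := hmin
    have := hmle 0 z
    simp only [le, Pi.zero_apply, zero_mul, add_zero, hz] at this
    omega
  let G : (Pg → ℕ) → ℝ := fun κ => G0 + ∑ z, (κ z : ℝ) * (1 - D.b (ρ z)) -
    ((Fintype.card Pg : ℝ) - 2) * (m κ : ℝ)
  have hGzero : G 0 = G0 := by
    simp only [G, hm0]
    simp
  -- the bound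
  obtain ⟨B, hB⟩ : ∃ B : ℕ, ∀ κ, G κ ≤ G0 → ∑ z, κ z ≤ B := by
    set C : ℝ := ∑ z, (L z : ℝ) * ((1 - D.b (ρ z)) / (D.l (ρ z) : ℝ)) with hC
    set g : ℝ := ∑ z, (1 - D.b (ρ z)) / (D.l (ρ z) : ℝ) - ((Fintype.card Pg : ℝ) - 2) with hg
    have hgpos : 0 < g := by rw [hg]; linarith
    have hcoef : ∀ z, 0 < (1 - D.b (ρ z)) / (D.l (ρ z) : ℝ) := by
      intro z
      exact div_pos (by linarith [hb1 (ρ z)]) (by exact_mod_cast hρl z)
    have hC0 : 0 ≤ C := Finset.sum_nonneg fun z _ => mul_nonneg (Nat.cast_nonneg _) (hcoef z).le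
    have hkey : ∀ κ, G κ ≤ G0 → (m κ : ℝ) * g +
        ∑ z, ((le κ z : ℝ) - m κ) * ((1 - D.b (ρ z)) / (D.l (ρ z) : ℝ)) ≤ C := by
      intro κ hκ
      have h1 : ∀ z, (κ z : ℝ) * (1 - D.b (ρ z)) =
          ((le κ z : ℝ) - L z) * ((1 - D.b (ρ z)) / (D.l (ρ z) : ℝ)) := by
        intro z
        have h2 : (D.l (ρ z) : ℝ) ≠ 0 := by exact_mod_cast (hρl z).ne'
        simp only [le]
        push_cast
        field_simp
        ring
      have h2 : ∑ z, (κ z : ℝ) * (1 - D.b (ρ z)) ≤ ((Fintype.card Pg : ℝ) - 2) * (m κ : ℝ) := by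
        simp only [G] at hκ
        linarith
      have h3 : ∑ z, ((le κ z : ℝ) - m κ) * ((1 - D.b (ρ z)) / (D.l (ρ z) : ℝ)) =
          ∑ z, (κ z : ℝ) * (1 - D.b (ρ z)) + C -
          m κ * ∑ z, (1 - D.b (ρ z)) / (D.l (ρ z) : ℝ) := by
        rw [hC, Finset.mul_sum, ← Finset.sum_add_distrib, ← Finset.sum_sub_distrib]
        refine Finset.sum_congr rfl fun z _ => ?_
        rw [h1 z]
        ring
      rw [h3, hg]
      linarith
    have hnn : ∀ κ, 0 ≤ ∑ z, ((le κ z : ℝ) - m κ) * ((1 - D.b (ρ z)) / (D.l (ρ z) : ℝ)) := by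
      intro κ
      refine Finset.sum_nonneg fun z _ => mul_nonneg ?_ (hcoef z).le
      have : (m κ : ℝ) ≤ le κ z := by exact_mod_cast hmle κ z
      linarith
    have hmb : ∀ κ, G κ ≤ G0 → (m κ : ℝ) ≤ C / g := by
      intro κ hκ
      rw [le_div_iff₀ hgpos]
      have := hkey κ hκ
      have := hnn κ
      linarith
    have hleb : ∀ κ, G κ ≤ G0 → ∀ z, (κ z : ℝ) ≤
        C / ((1 - D.b (ρ z)) / (D.l (ρ z) : ℝ)) + C / g := by
      intro κ hκ z
      have h1 : ((le κ z : ℝ) - m κ) * ((1 - D.b (ρ z)) / (D.l (ρ z) : ℝ)) ≤ C := by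
        have h2 := hkey κ hκ
        have h3 : ((le κ z : ℝ) - m κ) * ((1 - D.b (ρ z)) / (D.l (ρ z) : ℝ)) ≤
            ∑ z, ((le κ z : ℝ) - m κ) * ((1 - D.b (ρ z)) / (D.l (ρ z) : ℝ)) :=
          Finset.single_le_sum (f := fun z => ((le κ z : ℝ) - m κ) *
            ((1 - D.b (ρ z)) / (D.l (ρ z) : ℝ))) (fun z _ => mul_nonneg (by
              have : (m κ : ℝ) ≤ le κ z := by exact_mod_cast hmle κ z
              linarith) (hcoef z).le) (Finset.mem_univ z)
        have h4 : 0 ≤ (m κ : ℝ) * g := mul_nonneg (Nat.cast_nonneg _) hgpos.le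
        linarith
      rw [← le_div_iff₀ (hcoef z)] at h1
      have h5 : (κ z : ℝ) ≤ le κ z := by
        have : κ z ≤ le κ z := by
          simp only [le]
          have := Nat.le_mul_of_pos_right (κ z) (hρl z)
          omega
        exact_mod_cast this
      have h6 := hmb κ hκ
      linarith
    obtain ⟨B, hB⟩ := exists_nat_ge (∑ z, (C / ((1 - D.b (ρ z)) / (D.l (ρ z) : ℝ)) + C / g))
    refine ⟨B, fun κ hκ => ?_⟩
    have h1 : ((∑ z, κ z : ℕ) : ℝ) ≤ B := by
      push_cast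
      exact (Finset.sum_le_sum fun z _ => hleb κ hκ z).trans hB
    exact_mod_cast h1
  -- the modified combination
  let lamκ : (Pg → ℕ) → ι → ℝ := fun κ => lam + fun r => ∑ z, if ρ z = r then (κ z : ℝ) else 0
  have hlamκ : ∀ κ, ∀ r ∈ T, 0 < lamκ κ r := by
    intro κ r hr
    have h1 : 0 ≤ ∑ z, if ρ z = r then (κ z : ℝ) else 0 :=
      Finset.sum_nonneg fun z _ => by split_ifs; exacts [Nat.cast_nonneg _, le_rfl]
    have h2 := hlam r hr
    change 0 < lam r + _
    linarith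
  have hsumκ : ∀ κ (φ : ι → ℝ), ∑ r ∈ T, lamκ κ r * φ r =
      ∑ r ∈ T, lam r * φ r + ∑ z, (κ z : ℝ) * φ (ρ z) := by
    intro κ φ
    have h1 : ∑ z, (κ z : ℝ) * φ (ρ z) =
        ∑ r ∈ T, (∑ z, if ρ z = r then (κ z : ℝ) else 0) * φ r := by
      simp_rw [Finset.sum_mul]
      rw [Finset.sum_comm]
      refine Finset.sum_congr rfl fun z _ => ?_
      rw [Finset.sum_eq_single (ρ z)]
      · simp
      · intro r _ hr
        rw [if_neg (Ne.symm hr), zero_mul]
      · intro h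
        exact absurd (hρT z) h
    rw [h1, ← Finset.sum_add_distrib]
    refine Finset.sum_congr rfl fun r _ => ?_
    simp only [lamκ, Pi.add_apply]
    ring
  have hlevκ : ∀ κ z, D.lev T (lamκ κ) z = t + (le κ z : ℝ) := by
    intro κ z
    have h1 : ∀ lam' : ι → ℝ, D.lev T lam' z =
        ∑ r ∈ T, lam' r * (if D.pg r = z then (D.l r : ℝ) else 0) := by
      intro lam'
      unfold lev
      refine Finset.sum_congr rfl fun r _ => ?_
      split_ifs <;> simp
    rw [h1, hsumκ, ← h1, hL]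
    have h2 : ∑ z', (κ z' : ℝ) * (if D.pg (ρ z') = z then (D.l (ρ z') : ℝ) else 0) =
        (κ z : ℝ) * D.l (ρ z) := by
      rw [Finset.sum_eq_single z]
      · rw [hρ z, if_pos rfl]
      · intro z' _ hz'
        rw [hρ z', if_neg hz', mul_zero]
      · intro h; exact absurd (Finset.mem_univ _) h
    rw [h2]
    simp only [le]
    push_cast
    ring
  have hGκ : ∀ κ, G κ = ∑ r ∈ T, lamκ κ r * (1 - D.b r) -
      ((Fintype.card Pg : ℝ) - 2) * (t + m κ) := by
    intro κ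
    rw [hsumκ κ (fun r => 1 - D.b r)]
    simp only [G, hG0def]
    ring
  -- the induction
  have hind : ∀ N : ℕ, ∃ κ, G κ ≤ G0 ∧ N ≤ ∑ z, κ z := by
    intro N
    induction N with
    | zero => exact ⟨0, hGzero.le, Nat.zero_le _⟩
    | succ N ih =>
      obtain ⟨κ, hκ, hN⟩ := ih
      -- not on a page
      have hoff : ∀ z1, ∃ z, z ≠ z1 ∧ m κ < le κ z := by
        intro z1
        by_contra hcon2
        push Not at hcon2
        have hle1 : ∀ z, z ≠ z1 → le κ z = m κ := fun z hz => le_antisymm (hcon2 z hz) (hmle κ z)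
        let w1 : Fin n → ℤ := fun i => W i + ∑ z, (κ z : ℤ) * D.w (ρ z) i
        have hw1 : ∀ i, (w1 i : ℝ) = ∑ r ∈ T, lamκ κ r * (D.w r i : ℝ) := by
          intro i
          rw [hsumκ κ (fun r => (D.w r i : ℝ)), ← hW]
          simp only [w1]
          push_cast
          rfl
        have hl1 : ∀ z, D.lev T (lamκ κ) z =
            (t + m κ) + if z = z1 then ((le κ z1 - m κ : ℕ) : ℝ) else 0 := by
          intro z
          rw [hlevκ]
          by_cases hz : z = z1
          · rw [if_pos hz, hz, Nat.cast_sub (hmle κ z1)]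
            ring
          · rw [if_neg hz, hle1 z hz]
            ring
        have h1 := hbound (lamκ κ) z1 (le κ z1 - m κ) w1 (t + m κ) (hlamκ κ) (by positivity) hw1 hl1
        rw [D.F_of_rep hc T (lamκ κ) hw1 hl1, ← hGκ] at h1
        linarith
      -- add one ray on each minimal page
      let Z : Finset Pg := Finset.univ.filter fun z => le κ z = m κ
      have hZne : Z.Nonempty := by
        obtain ⟨z, hz⟩ := hmex κ
        exact ⟨z, by simp [Z, hz]⟩
      have hZcard : Z.card + 2 ≤ Fintype.card Pg := by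
        obtain ⟨za, hza⟩ := hZne
        obtain ⟨z1, hz1a, hz1⟩ := hoff za
        obtain ⟨z2, hz21, hz2⟩ := hoff z1
        have h1 : Z ⊆ Finset.univ \ {z1, z2} := by
          intro z hz
          rw [Finset.mem_sdiff, Finset.mem_insert, Finset.mem_singleton]
          refine ⟨Finset.mem_univ _, ?_⟩
          have h2 : le κ z = m κ := (Finset.mem_filter.1 hz).2
          rintro (rfl | rfl) <;> omega
        have h2 := Finset.card_le_card h1
        rw [Finset.card_sdiff_of_subset (Finset.subset_univ _), Finset.card_univ,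
          Finset.card_pair (Ne.symm hz21)] at h2
        omega
      let κ' : Pg → ℕ := fun z => κ z + if z ∈ Z then 1 else 0
      have hm' : m κ + 1 ≤ m κ' := by
        obtain ⟨z, hz⟩ := hmex κ'
        rw [hz]
        simp only [le, κ']
        by_cases hzZ : z ∈ Z
        · rw [if_pos hzZ]
          have h1 : le κ z = m κ := (Finset.mem_filter.1 hzZ).2
          simp only [le] at h1
          have h2 := hρl z
          nlinarith
        · rw [if_neg hzZ, add_zero]
          have h1 : le κ z ≠ m κ := fun h => hzZ (by simp [Z, h])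
          have h2 := hmle κ z
          simp only [le] at h1 h2
          omega
      refine ⟨κ', ?_, ?_⟩
      · refine le_trans ?_ hκ
        have h1 : ∑ z, (κ' z : ℝ) * (1 - D.b (ρ z)) ≤
            ∑ z, (κ z : ℝ) * (1 - D.b (ρ z)) + Z.card := by
          have h2 : ∀ z, (κ' z : ℝ) * (1 - D.b (ρ z)) ≤
              (κ z : ℝ) * (1 - D.b (ρ z)) + if z ∈ Z then (1 : ℝ) else 0 := by
            intro z
            simp only [κ']
            push_cast
            split_ifs
            · have := hb0 (ρ z)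
              nlinarith
            · simp
          refine (Finset.sum_le_sum fun z _ => h2 z).trans ?_
          rw [Finset.sum_add_distrib]
          simp
        have h3 : ((Fintype.card Pg : ℝ) - 2) * ((m κ : ℝ) + 1) ≤
            ((Fintype.card Pg : ℝ) - 2) * (m κ' : ℝ) := by
          refine mul_le_mul_of_nonneg_left ?_ hp2
          exact_mod_cast hm'
        have h4 : (Z.card : ℝ) + 2 ≤ (Fintype.card Pg : ℝ) := by exact_mod_cast hZcard
        simp only [G]
        linarith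
      · have h1 : ∑ z, κ' z = ∑ z, κ z + Z.card := by
          simp only [κ']
          rw [Finset.sum_add_distrib]
          simp
        have h2 := hZne.card_pos
        omega
  obtain ⟨κ, hκ, hN⟩ := hind (B + 1)
  have := hB κ hκ
  omega

/-- moving a lattice point onto a page, for log canonical pairs on a germ of klt type -/
theorem pia_lc (D : PageData Γ n Pg ι) (hcard : 3 ≤ Fintype.card Pg)
    (hc : ∑ z, D.c z = (Fintype.card Pg : ℝ) - 2) (T : Finset ι)
    (hb0 : ∀ r, 0 ≤ D.b r) (hb1 : ∀ r, D.b r ≤ 1)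
    {b' : ι → ℝ} {u' : Fin n → ℝ} {c' : Pg → ℝ}
    (hF' : ∀ r, ∑ i, u' i * (D.w r i : ℝ) + c' (D.pg r) * (D.l r : ℝ) = 1 - b' r)
    (hc' : ∑ z, c' z = (Fintype.card Pg : ℝ) - 2) (hb0' : ∀ r, 0 ≤ b' r) (hb1' : ∀ r, b' r < 1)
    (ρ : Pg → ι) (hρT : ∀ z, ρ z ∈ T) (hρ : ∀ z, D.pg (ρ z) = z) (hρl : ∀ z, 0 < D.l (ρ z))
    (hG0 : (Fintype.card Pg : ℝ) - 2 ≤ ∑ z, (1 - D.b (ρ z)) / (D.l (ρ z) : ℝ))
    (hG0' : (Fintype.card Pg : ℝ) - 2 < ∑ z, (1 - b' (ρ z)) / (D.l (ρ z) : ℝ)) (τ : ℝ)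
    (hbound : ∀ (lam : ι → ℝ) (z1 : Pg) (l1 : ℕ) (w1 : Fin n → ℤ) (t : ℝ),
      (∀ r ∈ T, 0 < lam r) → 0 < t →
      (∀ i, (w1 i : ℝ) = ∑ r ∈ T, lam r * (D.w r i : ℝ)) →
      (∀ z, D.lev T lam z = t + if z = z1 then (l1 : ℝ) else 0) → τ ≤ D.F z1 w1 l1 ∧
      0 ≤ ∑ i, u' i * (w1 i : ℝ) + c' z1 * (l1 : ℝ))
    (lam : ι → ℝ) (hlam : ∀ r ∈ T, 0 < lam r) (W : Fin n → ℤ) (L : Pg → ℕ) (t : ℝ) (ht : 0 < t)
    (hW : ∀ i, (W i : ℝ) = ∑ r ∈ T, lam r * (D.w r i : ℝ))
    (hL : ∀ z, D.lev T lam z = t + (L z : ℝ)) (hmin : ∃ z, L z = 0) :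
    τ ≤ ∑ r ∈ T, lam r * (1 - D.b r) - ((Fintype.card Pg : ℝ) - 2) * t := by
  set X : ℝ := ∑ r ∈ T, lam r * (1 - D.b r) - ((Fintype.card Pg : ℝ) - 2) * t with hX
  set X' : ℝ := ∑ r ∈ T, lam r * (1 - b' r) - ((Fintype.card Pg : ℝ) - 2) * t with hX'
  have key : ∀ ε : ℝ, 0 < ε → ε < 1 → (1 - ε) * τ ≤ (1 - ε) * X + ε * X' := by
    intro ε hε0 hε1
    have h1ε : 0 < 1 - ε := by linarith
    let Dε : PageData (Set.univ : Set ℝ) n Pg ι :=
      { pg := D.pg
        l := D.l
        w := D.w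
        b := fun r => (1 - ε) * D.b r + ε * b' r
        u := fun i => (1 - ε) * D.u i + ε * u' i
        c := fun z => (1 - ε) * D.c z + ε * c' z
        F_eq := by
          intro r
          have h1 := D.F_eq r
          have h2 := hF' r
          have h3 : ∑ i, ((1 - ε) * D.u i + ε * u' i) * (D.w r i : ℝ) =
              (1 - ε) * ∑ i, D.u i * (D.w r i : ℝ) + ε * ∑ i, u' i * (D.w r i : ℝ) := by
            rw [Finset.mul_sum, Finset.mul_sum, ← Finset.sum_add_distrib]
            exact Finset.sum_congr rfl fun i _ => by ring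
          rw [h3]
          linear_combination (1 - ε) * h1 + ε * h2
        b_mem := fun r => Or.inr (Set.mem_univ _) }
    have h1 := Dε.pia hcard (by
        change ∑ z, ((1 - ε) * D.c z + ε * c' z) = _
        rw [Finset.sum_add_distrib, ← Finset.mul_sum, ← Finset.mul_sum, hc, hc']
        ring) T (fun r => add_nonneg (mul_nonneg h1ε.le (hb0 r)) (mul_nonneg hε0.le (hb0' r)))
      (fun r => by
        change (1 - ε) * D.b r + ε * b' r < 1
        have h2 := hb1 r
        have h3 := hb1' r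
        nlinarith) ρ hρT hρ hρl (by
        have h2 : ∑ z, (1 - Dε.b (ρ z)) / (Dε.l (ρ z) : ℝ) =
            (1 - ε) * ∑ z, (1 - D.b (ρ z)) / (D.l (ρ z) : ℝ) +
            ε * ∑ z, (1 - b' (ρ z)) / (D.l (ρ z) : ℝ) := by
          rw [Finset.mul_sum, Finset.mul_sum, ← Finset.sum_add_distrib]
          refine Finset.sum_congr rfl fun z _ => ?_
          change (1 - ((1 - ε) * D.b (ρ z) + ε * b' (ρ z))) / (D.l (ρ z) : ℝ) = _
          ring
        rw [h2]
        nlinarith [mul_le_mul_of_nonneg_left hG0 h1ε.le, mul_lt_mul_of_pos_left hG0' hε0])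
      ((1 - ε) * τ) (by
        intro lam z1 l1 w1 t hlam ht hw hl
        obtain ⟨h2, h3⟩ := hbound lam z1 l1 w1 t hlam ht hw hl
        have h4 : Dε.F z1 w1 l1 = (1 - ε) * D.F z1 w1 l1 +
            ε * (∑ i, u' i * (w1 i : ℝ) + c' z1 * (l1 : ℝ)) := by
          have h5 : ∑ i, ((1 - ε) * D.u i + ε * u' i) * (w1 i : ℝ) =
              (1 - ε) * ∑ i, D.u i * (w1 i : ℝ) + ε * ∑ i, u' i * (w1 i : ℝ) := by
            rw [Finset.mul_sum, Finset.mul_sum, ← Finset.sum_add_distrib]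
            exact Finset.sum_congr rfl fun i _ => by ring
          unfold F
          change ∑ i, ((1 - ε) * D.u i + ε * u' i) * (w1 i : ℝ) +
            ((1 - ε) * D.c z1 + ε * c' z1) * (l1 : ℝ) = _
          rw [h5]
          ring
        rw [h4]
        nlinarith [mul_le_mul_of_nonneg_left h2 h1ε.le, mul_nonneg hε0.le h3])
      lam hlam W L t ht hW hL hmin
    have h2 : ∑ r ∈ T, lam r * (1 - Dε.b r) =
        (1 - ε) * ∑ r ∈ T, lam r * (1 - D.b r) + ε * ∑ r ∈ T, lam r * (1 - b' r) := by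
      rw [Finset.mul_sum, Finset.mul_sum, ← Finset.sum_add_distrib]
      refine Finset.sum_congr rfl fun r _ => ?_
      change lam r * (1 - ((1 - ε) * D.b r + ε * b' r)) = _
      ring
    rw [h2] at h1
    rw [hX, hX']
    linarith
  -- let `ε` tend to zero
  by_contra hcon
  push Not at hcon
  have hd : 0 < τ - X := by linarith
  rcases le_or_gt X' 0 with hX'0 | hX'0
  · have h1 := key (1 / 2) (by norm_num) (by norm_num)
    linarith
  · -- `(1 - ε) (τ - X) ≤ ε X'`
    set ε : ℝ := (τ - X) / (2 * (τ - X + X')) with hε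
    have hpos : 0 < τ - X + X' := by linarith
    have h1 : 0 < ε := by rw [hε]; positivity
    have h2 : ε < 1 := by
      rw [hε, div_lt_one (by positivity)]
      linarith
    have h3 := key ε h1 h2
    have h4 : ε * (τ - X + X') = (τ - X) / 2 := by
      rw [hε]
      field_simp
    nlinarith

/-- regrouping a sum along a map -/
lemma sum_transfer {R : Type*} [CommSemiring R] {κ : Type*} [Fintype κ] [DecidableEq ι]
    {T : Finset ι} {g : κ → ι} (hg : ∀ j, g j ∈ T) (Y : κ → R) (φ : ι → R) :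
    ∑ r ∈ T, (∑ j, if g j = r then Y j else 0) * φ r = ∑ j, Y j * φ (g j) := by
  simp_rw [Finset.sum_mul]
  rw [Finset.sum_comm]
  refine Finset.sum_congr rfl fun j _ => ?_
  rw [Finset.sum_eq_single (g j)]
  · simp
  · intro r _ hr
    rw [if_neg (Ne.symm hr), zero_mul]
  · intro h
    exact absurd (hg j) h

/-- the vector of a ray -/
def vec (D : PageData Γ n Pg ι) (r : ι) : Fin n ⊕ Pg → ℚ :=
  Sum.elim (fun i => (D.w r i : ℚ)) (fun z => if D.pg r = z then (D.l r : ℚ) else 0)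

/-- the combination of one ray on each page -/
lemma sum_rays (D : PageData Γ n Pg ι) (T : Finset ι)
    (ρ : Pg → ι) (hρT : ∀ z, ρ z ∈ T) (hρ : ∀ z, D.pg (ρ z) = z) (hρl : ∀ z, 0 < D.l (ρ z)) :
    ∃ a : ι → ℚ, (∀ r, 0 ≤ a r) ∧
      (∀ z, ∑ r ∈ T, (if D.pg r = z then a r * (D.l r : ℚ) else 0) = 1) ∧
      ∀ b' : ι → ℝ, ∑ r ∈ T, (a r : ℝ) * (1 - b' r) =
        ∑ z, (1 - b' (ρ z)) / (D.l (ρ z) : ℝ) := by
  classical
  have hρlQ : ∀ z, (0 : ℚ) < D.l (ρ z) := fun z => by exact_mod_cast hρl z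
  have hlev : ∀ (a : ι → ℚ) z, ∑ r ∈ T, (if D.pg r = z then a r * (D.l r : ℚ) else 0) =
      ∑ r ∈ T, a r * (if D.pg r = z then (D.l r : ℚ) else 0) := by
    intro a z
    refine Finset.sum_congr rfl fun r _ => ?_
    split_ifs <;> simp
  refine ⟨fun r => ∑ z, if ρ z = r then 1 / (D.l (ρ z) : ℚ) else 0,
    fun r => Finset.sum_nonneg fun z _ => by
      split_ifs
      · exact (one_div_pos.2 (hρlQ z)).le
      · exact le_rfl, fun z => ?_, fun b' => ?_⟩
  · rw [hlev, sum_transfer hρT, Finset.sum_eq_single z]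
    · rw [hρ z, if_pos rfl]
      have := (hρlQ z).ne'
      field_simp
    · intro z' _ hz'
      rw [hρ z', if_neg hz', mul_zero]
    · intro h; exact absurd (Finset.mem_univ _) h
  · have h2 : ∀ r, (((∑ z, if ρ z = r then 1 / (D.l (ρ z) : ℚ) else 0 : ℚ)) : ℝ) =
        ∑ z, if ρ z = r then 1 / (D.l (ρ z) : ℝ) else 0 := by
      intro r
      rw [Rat.cast_sum]
      refine Finset.sum_congr rfl fun z _ => ?_
      split_ifs <;> simp
    simp_rw [h2]
    rw [sum_transfer hρT]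
    refine Finset.sum_congr rfl fun z _ => ?_
    ring

/-- positive level -/
theorem core1 (D : PageData Γ n Pg ι) (hcard : 3 ≤ Fintype.card Pg)
    (hc : ∑ z, D.c z = (Fintype.card Pg : ℝ) - 2) (hb0 : ∀ r, 0 ≤ D.b r) (hb1 : ∀ r, D.b r ≤ 1)
    (δ : ℝ) (hδ : 0 < δ) (hδ2 : δ ≤ 1 / 2) (hδb : ∀ r, D.b r ≠ 0 → δ ≤ D.b r)
    (T : Finset ι) (x : ι → ℚ) (hx : ∀ r ∈ T, 0 < x r)
    (hli : LinearIndependent ℚ (fun r : T => D.vec r)) {t : ℚ} (ht : 0 < t) {z0 : Pg}
    {w0 : Fin n → ℤ} {l0 : ℕ} (hw : ∀ i, (w0 i : ℚ) = ∑ r ∈ T, x r * (D.w r i : ℚ))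
    (hl : ∀ z, ∑ r ∈ T, (if D.pg r = z then x r * (D.l r : ℚ) else 0) =
      t + if z = z0 then (l0 : ℚ) else 0)
    (hklt : ∀ a : ι → ℚ, (∀ r, 0 ≤ a r) → (∀ r, r ∉ T → a r = 0) →
      (∀ z, ∑ r ∈ T, (if D.pg r = z then a r * (D.l r : ℚ) else 0) = 1) →
      (Fintype.card Pg : ℝ) - 2 ≤ ∑ r ∈ T, (a r : ℝ) * (1 - D.b r)) (τ τ' : ℝ)
    (hpia : ∀ ρ : Pg → ι, (∀ z, ρ z ∈ T) → (∀ z, D.pg (ρ z) = z) → (∀ z, 0 < D.l (ρ z)) →
      ∀ lam : ι → ℝ, (∀ r ∈ T, 0 < lam r) → ∀ (W : Fin n → ℤ) (L : Pg → ℕ) (t : ℝ), 0 < t →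
      (∀ i, (W i : ℝ) = ∑ r ∈ T, lam r * (D.w r i : ℝ)) →
      (∀ z, D.lev T lam z = t + (L z : ℝ)) → (∃ z, L z = 0) →
      τ ≤ ∑ r ∈ T, lam r * (1 - D.b r) - ((Fintype.card Pg : ℝ) - 2) * t)
    (hF : D.F z0 w0 l0 < τ') (N : ℕ) (hN : 2 * n + ⌊2 / δ⌋₊ + 2 ≤ N) :
    EngineOut (AddSubmonoid.closure (insert 1 Γ) : Set ℝ) N τ τ' := by
  classical
  -- the levels
  have hLpos : ∀ z, 0 < t + if z = z0 then (l0 : ℚ) else 0 := by
    intro z
    split_ifs
    · positivity
    · simpa using ht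
  have hρex : ∀ z, ∃ r ∈ T, D.pg r = z ∧ 0 < D.l r := by
    intro z
    by_contra hcon
    push Not at hcon
    have h1 := hLpos z
    rw [← hl z] at h1
    refine absurd h1 (not_lt.2 (le_of_eq (Finset.sum_eq_zero fun r hr => ?_)))
    by_cases hrz : D.pg r = z
    · have h2 := hcon r hr hrz
      have h3 : D.l r = 0 := by omega
      rw [if_pos hrz, h3]; simp
    · rw [if_neg hrz]
  choose ρ hρT hρ hρl using hρex
  have hρinj : Function.Injective ρ := fun z z' h => by rw [← hρ z, ← hρ z', h]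
  have hρlQ : ∀ z, (0 : ℚ) < D.l (ρ z) := fun z => by exact_mod_cast hρl z
  have hlev : ∀ (a : ι → ℚ) z, ∑ r ∈ T, (if D.pg r = z then a r * (D.l r : ℚ) else 0) =
      ∑ r ∈ T, a r * (if D.pg r = z then (D.l r : ℚ) else 0) := by
    intro a z
    refine Finset.sum_congr rfl fun r _ => ?_
    split_ifs <;> simp
  have hlevR : ∀ (a : ι → ℝ) z, D.lev T a z =
      ∑ r ∈ T, a r * (if D.pg r = z then (D.l r : ℝ) else 0) := by
    intro a z
    unfold lev
    refine Finset.sum_congr rfl fun r _ => ?_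
    split_ifs <;> simp
  -- good and bad pages
  obtain ⟨z1, hz1⟩ : ∃ z1 : Pg, z1 ≠ z0 := by
    have : Nontrivial Pg := Fintype.one_lt_card_iff_nontrivial.1 (by omega)
    exact exists_ne z0
  let S : Pg → Finset ι := fun z => T.filter fun r => D.pg r = z ∧ 0 < D.l r
  have hρS : ∀ z, ρ z ∈ S z := fun z => Finset.mem_filter.2 ⟨hρT z, hρ z, hρl z⟩
  let B1 : Finset Pg := Finset.univ.filter fun z => 2 ≤ (S z).card
  let B2 : Finset Pg := Finset.univ.filter fun z => (S z).card = 1 ∧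
    (D.l (ρ z) ≠ 1 ∨ D.b (ρ z) ≠ 0)
  let B : Finset Pg := {z0, z1} ∪ (B1 ∪ B2)
  have hSone : ∀ z, (S z).card = 1 → S z = {ρ z} := by
    intro z hz
    obtain ⟨r, hr⟩ := Finset.card_eq_one.1 hz
    have := hρS z
    rw [hr, Finset.mem_singleton] at this
    rw [hr, this]
  have hgood : ∀ z, z ∉ B → S z = {ρ z} ∧ D.l (ρ z) = 1 ∧ D.b (ρ z) = 0 ∧ z ≠ z0 := by
    intro z hz
    simp only [B, B1, B2, Finset.mem_union, Finset.mem_insert, Finset.mem_singleton,
      Finset.mem_filter, Finset.mem_univ, true_and, not_or, not_and, not_le] at hz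
    obtain ⟨⟨h1, h2⟩, h3, h4⟩ := hz
    have h5 : 0 < (S z).card := Finset.card_pos.2 ⟨_, hρS z⟩
    have h6 : (S z).card = 1 := by omega
    have h7 := h4 h6
    push Not at h7
    exact ⟨hSone z h6, h7.1, h7.2, h1⟩
  have hz0B : z0 ∈ B := by simp [B]
  have hz1B : z1 ∈ B := by simp [B]
  have hB2le : 2 ≤ B.card := by
    have h1 : ({z0, z1} : Finset Pg) ⊆ B := Finset.subset_union_left
    have h2 := Finset.card_le_card h1
    rwa [Finset.card_pair (Ne.symm hz1)] at h2
  have hTcard : T.card ≤ n + Fintype.card Pg := by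
    have h1 := hli.fintype_card_le_finrank
    rw [Module.finrank_fintype_fun_eq_card, Fintype.card_sum, Fintype.card_fin] at h1
    simpa using h1
  have hSdisj : ∀ z ∈ (Finset.univ : Finset Pg), ∀ z' ∈ (Finset.univ : Finset Pg), z ≠ z' →
      Disjoint (S z) (S z') := by
    intro z _ z' _ hzz'
    rw [Finset.disjoint_left]
    intro r hr hr'
    exact hzz' ((Finset.mem_filter.1 hr).2.1.symm.trans (Finset.mem_filter.1 hr').2.1)
  have hB1card : B1.card ≤ n := by
    have h1 : ∑ z, (S z).card ≤ T.card := by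
      rw [← Finset.card_biUnion hSdisj]
      refine Finset.card_le_card fun r hr => ?_
      obtain ⟨z, _, hz⟩ := Finset.mem_biUnion.1 hr
      exact (Finset.mem_filter.1 hz).1
    have h2 : Fintype.card Pg + B1.card ≤ ∑ z, (S z).card := by
      have h3 : Fintype.card Pg + B1.card = ∑ z : Pg, (1 + if z ∈ B1 then 1 else 0) := by
        rw [Finset.sum_add_distrib]
        simp
      rw [h3]
      refine Finset.sum_le_sum fun z _ => ?_
      have h5 : 0 < (S z).card := Finset.card_pos.2 ⟨_, hρS z⟩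
      split_ifs with h
      · exact (Finset.mem_filter.1 h).2
      · omega
    omega
  have hB2card : B2.card ≤ ⌊2 / δ⌋₊ := by
    let L : Pg → ℚ := fun z => t + if z = z0 then (l0 : ℚ) else 0
    let a : ι → ℚ := fun r => if r ∈ T ∧ 0 < D.l r then x r / L (D.pg r) else 0
    have ha0 : ∀ r, 0 ≤ a r := by
      intro r
      simp only [a]
      split_ifs with h
      · exact (div_pos (hx r h.1) (hLpos _)).le
      · exact le_rfl
    have hlev1 : ∀ z, ∑ r ∈ T, (if D.pg r = z then a r * (D.l r : ℚ) else 0) = 1 := by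
      intro z
      have h1 : ∀ r ∈ T, (if D.pg r = z then a r * (D.l r : ℚ) else 0) =
          (if D.pg r = z then x r * (D.l r : ℚ) else 0) / L z := by
        intro r hr
        by_cases hrz : D.pg r = z
        · rw [if_pos hrz, if_pos hrz]
          simp only [a]
          by_cases hlr : 0 < D.l r
          · rw [if_pos ⟨hr, hlr⟩, hrz]
            ring
          · have : D.l r = 0 := by omega
            rw [this]; simp
        · rw [if_neg hrz, if_neg hrz, zero_div]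
      rw [Finset.sum_congr rfl h1, ← Finset.sum_div, hl z]
      exact div_self (hLpos z).ne'
    have h1 := hklt a ha0 (fun r hr => by simp [a, hr]) hlev1
    have hsplit : ∑ r ∈ T, (a r : ℝ) * (1 - D.b r) = ∑ z, ∑ r ∈ S z, (a r : ℝ) * (1 - D.b r) := by
      rw [← Finset.sum_biUnion hSdisj]
      symm
      refine Finset.sum_subset (fun r hr => ?_) fun r hr hr' => ?_
      · obtain ⟨z, _, hz⟩ := Finset.mem_biUnion.1 hr
        exact (Finset.mem_filter.1 hz).1
      · have h2 : ¬ (0 < D.l r) := by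
          intro h
          exact hr' (Finset.mem_biUnion.2 ⟨D.pg r, Finset.mem_univ _,
            Finset.mem_filter.2 ⟨hr, rfl, h⟩⟩)
        have h3 : a r = 0 := by
          simp only [a]
          rw [if_neg]
          exact fun h => h2 h.2
        rw [h3]; simp
    have hone : ∀ z, ∑ r ∈ S z, (a r : ℝ) * (D.l r : ℝ) = 1 := by
      intro z
      have h2 := congrArg (fun y : ℚ => (y : ℝ)) (hlev1 z)
      simp only [Rat.cast_sum, Rat.cast_one] at h2
      rw [← h2]
      simp only [S]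
      rw [Finset.sum_filter]
      refine Finset.sum_congr rfl fun r hr => ?_
      by_cases hrz : D.pg r = z
      · by_cases hlr : 0 < D.l r
        · rw [if_pos ⟨hrz, hlr⟩, if_pos hrz]; push_cast; rfl
        · have h3 : D.l r = 0 := by omega
          rw [if_neg (fun h => hlr h.2), if_pos hrz, h3]; simp
      · rw [if_neg (fun h => hrz h.1), if_neg hrz]; simp
    have hbd : ∀ z, ∑ r ∈ S z, (a r : ℝ) * (1 - D.b r) ≤ 1 - if z ∈ B2 then δ else 0 := by
      intro z
      by_cases hz : z ∈ B2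
      · rw [if_pos hz]
        obtain ⟨h3, h4⟩ := (Finset.mem_filter.1 hz).2
        have h5 := hone z
        rw [hSone z h3, Finset.sum_singleton] at h5 ⊢
        have hl1 : (1 : ℝ) ≤ D.l (ρ z) := by exact_mod_cast hρl z
        have hb' := hb1 (ρ z)
        have hb'' := hb0 (ρ z)
        have ha' : (a (ρ z) : ℝ) = 1 / (D.l (ρ z) : ℝ) := by
          field_simp
          linarith
        rw [ha']
        rw [div_mul_eq_mul_div, one_mul, div_le_iff₀ (by linarith)]
        by_cases h6 : D.l (ρ z) = 1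
        · have h7 := hδb _ (h4.resolve_left (not_not.2 h6))
          rw [h6]; push_cast; linarith
        · have h7 : 2 ≤ D.l (ρ z) := by have := hρl z; omega
          have h8 : (2 : ℝ) ≤ D.l (ρ z) := by exact_mod_cast h7
          nlinarith
      · rw [if_neg hz, sub_zero]
        refine le_trans (Finset.sum_le_sum fun r hr =>
          mul_le_mul_of_nonneg_left (b := 1 - D.b r) (c := (D.l r : ℝ)) ?_
            (by exact_mod_cast ha0 r)) (hone z).le
        have h3 : (1 : ℝ) ≤ D.l r := by exact_mod_cast (Finset.mem_filter.1 hr).2.2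
        linarith [hb0 r]
    have h2 : ∑ r ∈ T, (a r : ℝ) * (1 - D.b r) ≤ (Fintype.card Pg : ℝ) - B2.card * δ := by
      rw [hsplit]
      refine (Finset.sum_le_sum fun z _ => hbd z).trans (le_of_eq ?_)
      rw [Finset.sum_sub_distrib]
      simp [Finset.sum_ite_mem]
    have h3 : (B2.card : ℝ) * δ ≤ 2 := by linarith
    have h4 : (B2.card : ℝ) ≤ 2 / δ := by rw [le_div_iff₀ hδ]; exact h3
    exact Nat.le_floor h4
  have hBcard : B.card ≤ n + ⌊2 / δ⌋₊ + 2 := by
    have h1 : B.card ≤ ({z0, z1} : Finset Pg).card + (B1 ∪ B2).card := Finset.card_union_le _ _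
    have h2 : (B1 ∪ B2).card ≤ B1.card + B2.card := Finset.card_union_le _ _
    have h3 : ({z0, z1} : Finset Pg).card = 2 := Finset.card_pair (Ne.symm hz1)
    omega
  -- the rays kept
  let TB : Finset ι := T.filter fun r => D.l r = 0 ∨ D.pg r ∈ B
  have hTBT : TB ⊆ T := Finset.filter_subset _ _
  have hnotTB : ∀ r ∈ T, r ∉ TB → D.pg r ∉ B ∧ r = ρ (D.pg r) := by
    intro r hr hr'
    have h1 : ¬ (D.l r = 0 ∨ D.pg r ∈ B) := fun h => hr' (Finset.mem_filter.2 ⟨hr, h⟩)
    rw [not_or] at h1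
    refine ⟨h1.2, ?_⟩
    have h2 : r ∈ S (D.pg r) := Finset.mem_filter.2 ⟨hr, rfl, by omega⟩
    rw [(hgood _ h1.2).1, Finset.mem_singleton] at h2
    exact h2
  have hρnotTB : ∀ z, z ∉ B → ρ z ∉ TB := by
    intro z hz h
    have h1 := (Finset.mem_filter.1 h).2
    rw [hρ z] at h1
    rcases h1 with h1 | h1
    · exact (hρl z).ne' h1
    · exact hz h1
  have hTsplit : T = TB ∪ (Bᶜ).image ρ := by
    ext r
    rw [Finset.mem_union, Finset.mem_image]
    constructor
    · intro hr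
      by_cases h : r ∈ TB
      · exact Or.inl h
      · obtain ⟨h1, h2⟩ := hnotTB r hr h
        exact Or.inr ⟨D.pg r, Finset.mem_compl.2 h1, h2.symm⟩
    · rintro (h | ⟨z, _, rfl⟩)
      · exact hTBT h
      · exact hρT z
  have hdisj : Disjoint TB ((Bᶜ).image ρ) := by
    rw [Finset.disjoint_right]
    intro r hr
    obtain ⟨z, hz, rfl⟩ := Finset.mem_image.1 hr
    exact hρnotTB z (Finset.mem_compl.1 hz)
  have hTBcard : TB.card ≤ N := by
    have h1 : T.card = TB.card + (Bᶜ).card := by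
      conv_lhs => rw [hTsplit]
      rw [Finset.card_union_of_disjoint hdisj, Finset.card_image_of_injective _ hρinj]
    rw [Finset.card_compl] at h1
    have h2 : B.card ≤ Fintype.card Pg := Finset.card_le_univ _
    omega
  have hTBne : TB.Nonempty := ⟨ρ z0, Finset.mem_filter.2 ⟨hρT z0, Or.inr (by rw [hρ]; exact hz0B)⟩⟩
  obtain ⟨f, y, hf, hsurj, hy, hyx⟩ := exists_padding TB hTBne N hTBcard x
    fun r hr => hx r (hTBT hr)
  have hfT : ∀ l, f l ∈ T := fun l => hTBT (hf l)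
  -- sums
  let lam : (Fin N → ℝ) → ℝ → ι → ℝ := fun Y m r =>
    if r ∈ TB then ∑ l, (if f l = r then Y l else 0) else m
  have hsum : ∀ (Y : Fin N → ℝ) (m : ℝ) (φ : ι → ℝ), ∑ r ∈ T, lam Y m r * φ r =
      ∑ l, Y l * φ (f l) + m * ∑ z ∈ Bᶜ, φ (ρ z) := by
    intro Y m φ
    conv_lhs => rw [hTsplit]
    rw [Finset.sum_union hdisj, Finset.sum_image hρinj.injOn]
    congr 1
    · rw [← sum_transfer hf]
      refine Finset.sum_congr rfl fun r hr => ?_
      simp only [lam]
      rw [if_pos hr]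
    · rw [Finset.mul_sum]
      refine Finset.sum_congr rfl fun z hz => ?_
      simp only [lam]
      rw [if_neg (hρnotTB z (Finset.mem_compl.1 hz))]
  have hxgood : ∀ z, z ∉ B → x (ρ z) = t := by
    intro z hz
    obtain ⟨h1, h2, h3, h4⟩ := hgood z hz
    have h5 := hl z
    rw [if_neg h4, add_zero] at h5
    rw [← h5, Finset.sum_eq_single (ρ z)]
    · rw [if_pos (hρ z), h2]; simp
    · intro r hr hrne
      by_cases hrz : D.pg r = z
      · rw [if_pos hrz]
        have h6 : D.l r = 0 := by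
          by_contra h7
          have h8 : r ∈ S z := Finset.mem_filter.2 ⟨hr, hrz, by omega⟩
          rw [h1, Finset.mem_singleton] at h8
          exact hrne h8
        rw [h6]; simp
      · rw [if_neg hrz]
    · intro h; exact absurd (hρT z) h
  have hsumx : ∀ φ : ι → ℝ, ∑ r ∈ T, (x r : ℝ) * φ r =
      ∑ l, (y l : ℝ) * φ (f l) + (t : ℝ) * ∑ z ∈ Bᶜ, φ (ρ z) := by
    intro φ
    rw [← hsum (fun l => (y l : ℝ)) t φ]
    refine Finset.sum_congr rfl fun r hr => ?_
    congr 1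
    simp only [lam]
    by_cases h : r ∈ TB
    · rw [if_pos h, ← hyx r h, Rat.cast_sum]
      refine Finset.sum_congr rfl fun l _ => ?_
      split_ifs <;> simp
    · rw [if_neg h]
      obtain ⟨h1, h2⟩ := hnotTB r hr h
      rw [h2, hxgood _ h1]
  have hwR : ∀ i, (w0 i : ℝ) = ∑ r ∈ T, (x r : ℝ) * (D.w r i : ℝ) := by
    intro i
    have := congrArg (fun a : ℚ => (a : ℝ)) (hw i)
    push_cast at this
    exact this
  have hlR : ∀ z, D.lev T (fun r => (x r : ℝ)) z =
      (t : ℝ) + if z = z0 then (l0 : ℝ) else 0 := by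
    intro z
    have h1 := congrArg (fun a : ℚ => (a : ℝ)) (hl z)
    simp only [Rat.cast_sum, Rat.cast_add] at h1
    have h2 : ((if z = z0 then (l0 : ℚ) else 0 : ℚ) : ℝ) = if z = z0 then (l0 : ℝ) else 0 := by
      split_ifs <;> simp
    rw [h2] at h1
    rw [← h1]
    unfold lev
    refine Finset.sum_congr rfl fun r _ => ?_
    split_ifs <;> simp
  have hFx := D.F_of_rep hc T (fun r => (x r : ℝ)) hwR hlR
  -- levels on pages of `B`
  let lB : (Fin N → ℝ) → Pg → ℝ := fun Y z =>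
    ∑ l, Y l * (if D.pg (f l) = z then (D.l (f l) : ℝ) else 0)
  have hρB0 : ∀ z ∈ B, ∑ z' ∈ Bᶜ, (if D.pg (ρ z') = z then (D.l (ρ z') : ℝ) else 0) = 0 := by
    intro z hz
    refine Finset.sum_eq_zero fun z' hz' => ?_
    rw [hρ z', if_neg]
    rintro rfl
    exact (Finset.mem_compl.1 hz') hz
  have hlBx : ∀ z ∈ B, lB (fun l => (y l : ℝ)) z = (t : ℝ) + if z = z0 then (l0 : ℝ) else 0 := by
    intro z hz
    rw [← hlR z, hlevR, hsumx (fun r => if D.pg r = z then (D.l r : ℝ) else 0), hρB0 z hz,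
      mul_zero, add_zero]
  have hcompl : ((Bᶜ).card : ℝ) = (Fintype.card Pg : ℝ) - B.card := by
    rw [Finset.card_compl, Nat.cast_sub (Finset.card_le_univ _)]
  have hcoef : ((B.card - 2 : ℕ) : ℝ) = (B.card : ℝ) - 2 := by
    rw [Nat.cast_sub hB2le]; norm_num
  have hsumb : ∑ z ∈ Bᶜ, (1 - D.b (ρ z)) = (Fintype.card Pg : ℝ) - B.card := by
    rw [← hcompl, Finset.sum_congr rfl (fun z hz => by
      rw [(hgood z (Finset.mem_compl.1 hz)).2.2.1, sub_zero] : ∀ z ∈ Bᶜ, 1 - D.b (ρ z) = 1)]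
    simp
  let uu : Pg → Fin N → ℝ := fun z l => D.b (f l) + ((B.card - 2 : ℕ) : ℝ) *
    (if D.pg (f l) = z then (D.l (f l) : ℝ) else 0)
  have huu : ∀ z (Y : Fin N → ℝ), ∑ l, (1 - uu z l) * Y l =
      ∑ l, Y l * (1 - D.b (f l)) - ((B.card : ℝ) - 2) * lB Y z := by
    intro z Y
    simp only [lB]
    rw [Finset.mul_sum, ← Finset.sum_sub_distrib]
    refine Finset.sum_congr rfl fun l _ => ?_
    simp only [uu]
    rw [hcoef]
    ring
  refine ⟨{u | ∃ z ∈ B, u = uu z}, fun l => (y l : ℝ), ?_, exists_common_den y, fun l => by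
    have := hy l
    change (0 : ℝ) < (y l : ℝ)
    exact_mod_cast this, ?_, ?_⟩
  · rintro _ ⟨z, hz, rfl⟩ l
    change uu z l ∈ AddSubmonoid.closure (insert 1 Γ)
    refine AddSubmonoid.add_mem _ ?_ ?_
    · rcases D.b_mem (f l) with h | h
      · rw [h]; exact AddSubmonoid.zero_mem _
      · exact AddSubmonoid.subset_closure (Set.mem_insert_of_mem _ h)
    · have h1 : ((B.card - 2 : ℕ) : ℝ) * (if D.pg (f l) = z then (D.l (f l) : ℝ) else 0) =
          ((B.card - 2) * (if D.pg (f l) = z then D.l (f l) else 0)) • (1 : ℝ) := by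
        rw [nsmul_eq_mul, mul_one]
        push_cast
        split_ifs <;> simp
      rw [h1]
      exact AddSubmonoid.nsmul_mem _ (AddSubmonoid.subset_closure (Set.mem_insert _ _)) _
  · intro q z' hqz
    let Y : Fin N → ℝ := fun l => (q : ℝ) * y l + z' l
    have hYpos : ∀ l, 0 < Y l := hqz
    obtain ⟨zm, hzm, hzmin⟩ := Finset.exists_min_image B (lB Y) ⟨z0, hz0B⟩
    set m : ℝ := lB Y zm with hm
    refine ⟨uu zm, ⟨zm, hzm, rfl⟩, ?_⟩
    change τ ≤ ∑ l, (1 - uu zm l) * Y l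
    rw [huu, ← hm]
    let e : Pg → ℤ := fun z => q * (if z = z0 then (l0 : ℤ) else 0) +
      ∑ l, z' l * (if D.pg (f l) = z then (D.l (f l) : ℤ) else 0)
    have hlBY : ∀ z ∈ B, lB Y z = q * t + (e z : ℝ) := by
      intro z hz
      have h1 : lB Y z = q * lB (fun l => (y l : ℝ)) z +
          ∑ l, (z' l : ℝ) * (if D.pg (f l) = z then (D.l (f l) : ℝ) else 0) := by
        simp only [lB, Y]
        rw [Finset.mul_sum, ← Finset.sum_add_distrib]
        refine Finset.sum_congr rfl fun l _ => ?_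
        ring
      rw [h1, hlBx z hz]
      simp only [e]
      push_cast
      ring
    have hmpos : 0 < m := by
      rw [hm]
      obtain ⟨l, hl'⟩ := hsurj (ρ zm) (Finset.mem_filter.2 ⟨hρT zm, Or.inr (by rw [hρ]; exact hzm)⟩)
      refine Finset.sum_pos' (fun l' _ => mul_nonneg (hYpos l').le ?_) ⟨l, Finset.mem_univ _, ?_⟩
      · split_ifs
        · exact Nat.cast_nonneg _
        · exact le_rfl
      · rw [hl', hρ, if_pos rfl]
        exact mul_pos (hYpos l) (by exact_mod_cast hρl zm)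
    have hmq : m = q * t + (e zm : ℝ) := hlBY zm hzm
    have hele : ∀ z ∈ B, e zm ≤ e z := by
      intro z hz
      have h1 := hzmin z hz
      rw [hlBY z hz, hmq] at h1
      have h2 : (e zm : ℝ) ≤ e z := by linarith
      exact_mod_cast h2
    let L : Pg → ℕ := fun z => if z ∈ B then (e z - e zm).toNat else 0
    let W : Fin n → ℤ := fun i => q * w0 i + ∑ l, z' l * D.w (f l) i +
      e zm * ∑ z ∈ Bᶜ, D.w (ρ z) i
    have hlampos : ∀ r ∈ T, 0 < lam Y m r := by
      intro r hr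
      simp only [lam]
      split_ifs with h
      · obtain ⟨l, hl'⟩ := hsurj r h
        refine Finset.sum_pos' (fun l' _ => ?_) ⟨l, Finset.mem_univ _, ?_⟩
        · split_ifs
          · exact (hYpos l').le
          · exact le_rfl
        · rw [if_pos hl']; exact hYpos l
      · exact hmpos
    have hW : ∀ i, (W i : ℝ) = ∑ r ∈ T, lam Y m r * (D.w r i : ℝ) := by
      intro i
      rw [hsum Y m (fun r => (D.w r i : ℝ))]
      have h1 := hwR i
      rw [hsumx (fun r => (D.w r i : ℝ))] at h1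
      have h2 : ∑ l, Y l * (D.w (f l) i : ℝ) = q * ∑ l, (y l : ℝ) * (D.w (f l) i : ℝ) +
          ∑ l, (z' l : ℝ) * (D.w (f l) i : ℝ) := by
        simp only [Y]
        rw [Finset.mul_sum, ← Finset.sum_add_distrib]
        refine Finset.sum_congr rfl fun l _ => ?_
        ring
      rw [h2, hmq]
      simp only [W]
      push_cast
      rw [h1]
      ring
    have hL : ∀ z, D.lev T (lam Y m) z = m + (L z : ℝ) := by
      intro z
      rw [hlevR, hsum Y m (fun r => if D.pg r = z then (D.l r : ℝ) else 0)]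
      by_cases hz : z ∈ B
      · rw [hρB0 z hz, mul_zero, add_zero]
        change lB Y z = _
        simp only [L]
        rw [if_pos hz, hlBY z hz, hmq]
        have h1 : (((e z - e zm).toNat : ℕ) : ℤ) = e z - e zm :=
          Int.toNat_of_nonneg (by linarith [hele z hz])
        have h2 : (((e z - e zm).toNat : ℕ) : ℝ) = (e z : ℝ) - e zm := by
          have := congrArg (fun a : ℤ => (a : ℝ)) h1
          push_cast at this
          exact this
        rw [h2]; ring
      · simp only [L]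
        rw [if_neg hz]
        have h1 : ∑ l, Y l * (if D.pg (f l) = z then (D.l (f l) : ℝ) else 0) = 0 := by
          refine Finset.sum_eq_zero fun l _ => ?_
          by_cases h2 : D.pg (f l) = z
          · have h3 := (Finset.mem_filter.1 (hf l)).2
            rcases h3 with h3 | h3
            · rw [h3]; simp
            · exact absurd (h2 ▸ h3) hz
          · rw [if_neg h2, mul_zero]
        have h2 : ∑ z' ∈ Bᶜ, (if D.pg (ρ z') = z then (D.l (ρ z') : ℝ) else 0) = 1 := by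
          rw [Finset.sum_eq_single z]
          · rw [hρ z, if_pos rfl, (hgood z hz).2.1]; simp
          · intro z' _ hz'
            rw [hρ z', if_neg hz']
          · intro h; exact absurd (Finset.mem_compl.2 hz) h
        rw [h1, h2]; simp
    have h1 := hpia ρ hρT hρ hρl (lam Y m) hlampos W L m hmpos hW hL ⟨zm, by simp [L]⟩
    rw [hsum Y m (fun r => 1 - D.b r), hsumb] at h1
    linarith
  · rintro _ ⟨z, hz, rfl⟩
    rw [huu z (fun l => (y l : ℝ)), hlBx z hz]
    rw [hFx, hsumx (fun r => 1 - D.b r), hsumb] at hF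
    have h1 : (0 : ℝ) ≤ (B.card : ℝ) - 2 := by
      have : (2 : ℝ) ≤ B.card := by exact_mod_cast hB2le
      linarith
    have h2 : (0 : ℝ) ≤ if z = z0 then (l0 : ℝ) else 0 := by
      split_ifs
      · exact Nat.cast_nonneg _
      · exact le_rfl
    nlinarith [mul_nonneg h1 h2]

/-- the combinatorial output of a germ with torus action of complexity one -/
theorem core (D : PageData Γ n Pg ι) (hcard : 3 ≤ Fintype.card Pg)
    (hc : ∑ z, D.c z = (Fintype.card Pg : ℝ) - 2) (hb0 : ∀ r, 0 ≤ D.b r) (hb1 : ∀ r, D.b r ≤ 1)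
    {b' : ι → ℝ} {u' : Fin n → ℝ} {c' : Pg → ℝ}
    (hF' : ∀ r, ∑ i, u' i * (D.w r i : ℝ) + c' (D.pg r) * (D.l r : ℝ) = 1 - b' r)
    (hc' : ∑ z, c' z = (Fintype.card Pg : ℝ) - 2) (hb0' : ∀ r, 0 ≤ b' r) (hb1' : ∀ r, b' r < 1)
    (δ : ℝ) (hδ : 0 < δ) (hδ2 : δ ≤ 1 / 2) (hδb : ∀ r, D.b r ≠ 0 → δ ≤ D.b r)
    (T : Finset ι) (x : ι → ℚ) (hx : ∀ r ∈ T, 0 < x r) {t : ℚ} (ht : 0 ≤ t) {z0 : Pg}
    {w0 : Fin n → ℤ} {l0 : ℕ} (h0 : w0 ≠ 0 ∨ l0 ≠ 0)
    (hw : ∀ i, (w0 i : ℚ) = ∑ r ∈ T, x r * (D.w r i : ℚ))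
    (hl : ∀ z, ∑ r ∈ T, (if D.pg r = z then x r * (D.l r : ℚ) else 0) =
      t + if z = z0 then (l0 : ℚ) else 0)
    (hklt : ∀ (T : Finset ι) (a : ι → ℚ), (∀ r, 0 ≤ a r) →
      (∀ z, ∑ r ∈ T, (if D.pg r = z then a r * (D.l r : ℚ) else 0) = 1) →
      (Fintype.card Pg : ℝ) - 2 ≤ ∑ r ∈ T, (a r : ℝ) * (1 - D.b r) ∧
      (Fintype.card Pg : ℝ) - 2 < ∑ r ∈ T, (a r : ℝ) * (1 - b' r)) (τ τ' : ℝ)
    (hbound : ∀ (T : Finset ι) (x : ι → ℝ) (t : ℝ) (lam : ι → ℝ) (z1 : Pg) (l1 : ℕ)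
      (w1 : Fin n → ℤ) (t1 : ℝ), (∀ r ∈ T, 0 < x r) → 0 ≤ t →
      (∀ i, (w0 i : ℝ) = ∑ r ∈ T, x r * (D.w r i : ℝ)) →
      (∀ z, D.lev T x z = t + if z = z0 then (l0 : ℝ) else 0) →
      (∀ r ∈ T, 0 < lam r) → 0 ≤ t1 → (0 < t → 0 < t1) →
      (∀ i, (w1 i : ℝ) = ∑ r ∈ T, lam r * (D.w r i : ℝ)) →
      (∀ z, D.lev T lam z = t1 + if z = z1 then (l1 : ℝ) else 0) → τ ≤ D.F z1 w1 l1 ∧
      0 ≤ ∑ i, u' i * (w1 i : ℝ) + c' z1 * (l1 : ℝ))
    (hF : D.F z0 w0 l0 < τ') (N : ℕ) (hN : 2 * n + ⌊2 / δ⌋₊ + 2 ≤ N) :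
    EngineOut (AddSubmonoid.closure (insert 1 Γ) : Set ℝ) N τ τ' := by
  classical
  obtain ⟨T', x', hT', hx', hsum, hli⟩ := caratheodory D.vec T.card T x rfl hx
  have hw' : ∀ i, (w0 i : ℚ) = ∑ r ∈ T', x' r * (D.w r i : ℚ) := by
    intro i
    have h1 := congrFun hsum (Sum.inl i)
    simp only [Finset.sum_apply, Pi.smul_apply, smul_eq_mul, vec, Sum.elim_inl] at h1
    rw [h1, ← hw i]
  have hl' : ∀ z, ∑ r ∈ T', (if D.pg r = z then x' r * (D.l r : ℚ) else 0) =
      t + if z = z0 then (l0 : ℚ) else 0 := by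
    intro z
    have h1 := congrFun hsum (Sum.inr z)
    simp only [Finset.sum_apply, Pi.smul_apply, smul_eq_mul, vec, Sum.elim_inr, mul_ite,
      mul_zero] at h1
    rw [h1, ← hl z]
  have hwR : ∀ i, (w0 i : ℝ) = ∑ r ∈ T', (x' r : ℝ) * (D.w r i : ℝ) := by
    intro i
    have := congrArg (fun a : ℚ => (a : ℝ)) (hw' i)
    push_cast at this
    exact this
  have hlR : ∀ z, D.lev T' (fun r => (x' r : ℝ)) z =
      (t : ℝ) + if z = z0 then (l0 : ℝ) else 0 := by
    intro z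
    have h1 := congrArg (fun a : ℚ => (a : ℝ)) (hl' z)
    simp only [Rat.cast_sum, Rat.cast_add] at h1
    have h2 : ((if z = z0 then (l0 : ℚ) else 0 : ℚ) : ℝ) = if z = z0 then (l0 : ℝ) else 0 := by
      split_ifs <;> simp
    rw [h2] at h1
    rw [← h1]
    unfold lev
    refine Finset.sum_congr rfl fun r _ => ?_
    split_ifs <;> simp
  have hxR : ∀ r ∈ T', (0 : ℝ) < (x' r : ℝ) := fun r hr => by exact_mod_cast hx' r hr
  rcases ht.eq_or_lt with ht0 | ht0
  · -- level zero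
    have hpage : ∀ r ∈ T', D.pg r = z0 ∨ D.l r = 0 := by
      intro r hr
      by_cases hrz : D.pg r = z0
      · exact Or.inl hrz
      · right
        have h1 := hl' (D.pg r)
        rw [← ht0, if_neg hrz, add_zero] at h1
        have h2 := (Finset.sum_eq_zero_iff_of_nonneg (fun r' hr' => by
          split_ifs
          · exact mul_nonneg (hx' r' hr').le (Nat.cast_nonneg _)
          · exact le_rfl)).1 h1 r hr
        rw [if_pos rfl] at h2
        rcases mul_eq_zero.1 h2 with h3 | h3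
        · exact absurd h3 (hx' r hr).ne'
        · exact_mod_cast h3
    have hTne : T'.Nonempty := by
      by_contra hcon
      rw [Finset.not_nonempty_iff_eq_empty] at hcon
      rcases h0 with h0 | h0
      · apply h0
        funext i
        have := hw' i
        rw [hcon, Finset.sum_empty] at this
        exact_mod_cast this
      · have := hl' z0
        rw [hcon, Finset.sum_empty, ← ht0, if_pos rfl, zero_add] at this
        exact h0 (by exact_mod_cast this.symm)
    have hcardT : T'.card ≤ n + 1 := by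
      -- the vectors live in a space of dimension `n + 1`
      let ev : (Fin n ⊕ Pg → ℚ) →ₗ[ℚ] (Fin n ⊕ Unit → ℚ) :=
        { toFun := fun v => Sum.elim (fun i => v (Sum.inl i)) (fun _ => v (Sum.inr z0))
          map_add' := fun v v' => by
            funext i; rcases i with i | i <;> rfl
          map_smul' := fun a v => by
            funext i; rcases i with i | i <;> rfl }
      have hli2 : LinearIndependent ℚ (fun r : T' => ev (D.vec r)) := by
        rw [Fintype.linearIndependent_iff] at hli ⊢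
        intro g hg
        refine hli g ?_
        funext i
        rcases i with i | z
        · have := congrFun hg (Sum.inl i)
          simpa [ev, Finset.sum_apply] using this
        · by_cases hz : z = z0
          · subst hz
            have := congrFun hg (Sum.inr ())
            simpa [ev, Finset.sum_apply] using this
          · simp only [Finset.sum_apply, Pi.smul_apply, smul_eq_mul, vec, Sum.elim_inr,
              Pi.zero_apply]
            refine Finset.sum_eq_zero fun r _ => ?_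
            by_cases hrz : D.pg r = z
            · rcases hpage r r.2 with h | h
              · exact absurd (hrz.symm.trans h) hz
              · rw [h]; simp
            · rw [if_neg hrz, mul_zero]
      have h1 := hli2.fintype_card_le_finrank
      rw [Module.finrank_fintype_fun_eq_card, Fintype.card_sum, Fintype.card_fin] at h1
      simpa using h1
    have hlsum : ∀ lam : ι → ℝ, ∀ z, D.lev T' lam z =
        0 + if z = z0 then ∑ r ∈ T', lam r * (D.l r : ℝ) else 0 := by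
      intro lam z
      unfold lev
      rw [zero_add]
      by_cases hz : z = z0
      · rw [if_pos hz]
        refine Finset.sum_congr rfl fun r hr => ?_
        rcases hpage r hr with h | h
        · rw [h, if_pos hz.symm]
        · rw [h]; simp
      · rw [if_neg hz]
        refine Finset.sum_eq_zero fun r hr => ?_
        by_cases hrz : D.pg r = z
        · rcases hpage r hr with h | h
          · exact absurd (hrz.symm.trans h) hz
          · rw [h]; simp
        · rw [if_neg hrz]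
    refine D.core0 T' hTne x' hx' N (by omega) hpage hw' ?_ τ τ' ?_ hF
    · have h1 := hl' z0
      rw [← ht0, if_pos rfl, zero_add] at h1
      rw [← h1]
      refine Finset.sum_congr rfl fun r hr => ?_
      rcases hpage r hr with h | h
      · rw [if_pos h]
      · rw [h]; simp
    · intro lam l1 w1 hlam hw1 hl1
      refine (hbound T' (fun r => (x' r : ℝ)) t lam z0 l1 w1 0 hxR (by exact_mod_cast ht) hwR hlR
        hlam le_rfl (fun h => ?_) hw1 fun z => ?_).1
      · rw [← ht0] at h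
        simp at h
      · rw [hlsum, ← hl1]
  · refine D.core1 hcard hc hb0 hb1 δ hδ hδ2 hδb T' x' hx' hli ht0 hw' hl'
      (fun a ha _ hal => (hklt T' a ha hal).1) τ τ' ?_ hF N hN
    intro ρ hρT hρ hρl lam hlam W L t hpos hW hL hmin
    obtain ⟨a, ha, hal, hab⟩ := D.sum_rays T' ρ hρT hρ hρl
    obtain ⟨h1, h2⟩ := hklt T' a ha hal
    rw [hab] at h1 h2
    refine D.pia_lc hcard hc T' hb0 hb1 hF' hc' hb0' hb1' ρ hρT hρ hρl h1 h2 τ ?_ lam hlam W L t
      hpos hW hL hmin
    intro lam z1 l1 w1 t1 hlam ht1 hw1 hl1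
    exact hbound T' (fun r => (x' r : ℝ)) _ lam z1 l1 w1 t1 hxR (by exact_mod_cast ht) hwR hlR
      hlam ht1.le (fun _ => ht1) hw1 hl1

end pages

end PageData

end Pool.Agent.H26
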