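import Mathlib
import Pool.Agent.H26.C1Germ
import Pool.Agent.H26.PageCore
import Pool.Agent.H32.Farkas

/-! # Combinatorial data of a germ with torus action of complexity one -/

open scoped BigOperators
open KaehlerDifferential

namespace Pool.Agent.H26

set_option linter.unusedSectionVars false
set_option linter.unusedVariables false

universe u v

variable {k : Type u} {K : Type v} [Field k] [Field K] [Algebra k K] {n : ℕ}

/-- Farkas' lemma with arbitrary finite index sets -/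
theorem farkas_gen {J κ : Type*} [Fintype J] [Fintype κ] (a : κ → J → ℤ) (b : J → ℤ)
    (h : ∀ m : J → ℤ, (∀ i, 0 ≤ ∑ j, m j * a i j) → 0 ≤ ∑ j, m j * b j) :
    ∃ lam : κ → ℚ, (∀ i, 0 ≤ lam i) ∧ ∀ j, (b j : ℚ) = ∑ i, lam i * (a i j : ℚ) := by
  classical
  let e := Fintype.equivFin J
  obtain ⟨lam, h1, h2⟩ := Pool.H32.farkas_int (fun i j => a i (e.symm j)) (fun j => b (e.symm j))
    (by
      intro m hm
      have h3 := h (fun j => m (e j)) (fun i => by
        have := hm i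
        rw [← e.sum_comp] at this
        simpa using this)
      rw [← e.sum_comp]
      simpa using h3)
  refine ⟨lam, h1, fun j => ?_⟩
  have := h2 (e j)
  simpa using this

lemma ordz_add (z : Option k) (nu nu' : k →₀ ℤ) : ordz z (nu + nu') = ordz z nu + ordz z nu' := by
  classical
  unfold ordz
  exact Finsupp.sum_add_index' (fun a => zero_mul _) (fun a e e' => add_mul _ _ _)

lemma ordz_zero (z : Option k) : ordz z (0 : k →₀ ℤ) = 0 := by
  unfold ordz
  exact Finsupp.sum_zero_index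

lemma ordz_sum {ι : Type*} (t : Finset ι) (z : Option k) (f : ι → k →₀ ℤ) :
    ordz z (∑ i ∈ t, f i) = ∑ i ∈ t, ordz z (f i) := by
  classical
  induction t using Finset.induction_on with
  | empty => simp [ordz_zero]
  | insert a t ha ih => rw [Finset.sum_insert ha, Finset.sum_insert ha, ordz_add, ih]

lemma ordz_single (z : Option k) (a : k) (e : ℤ) : ordz z (Finsupp.single a e) = e * oz z a := by
  unfold ordz
  rw [Finsupp.sum_single_index (zero_mul _)]

/-- the finitely supported function with order `e` at `z` -/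
noncomputable def nuOf (z : Option k) (e : ℤ) : k →₀ ℤ := z.elim 0 fun a => Finsupp.single a e

lemma ordz_nuOf [DecidableEq k] (y z : Option k) (e : ℤ) :
    ordz y (nuOf z e) = e * ((if y = z then 1 else 0) - if y = none then 1 else 0) := by
  rcases z with _ | a
  · simp only [nuOf, Option.elim_none, ordz_zero]
    rcases y with _ | b <;> simp
  · simp only [nuOf, Option.elim_some, ordz_single]
    rcases y with _ | b
    · simp [oz]
    · simp only [oz]
      by_cases h : b = a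
      · subst h; simp
      · rw [if_neg h]; simp [h]

/-- a function with given orders at the points of `P` and no zeros or poles elsewhere -/
lemma ordz_prescribed [DecidableEq k] (P : Finset (Option k)) (hP : none ∈ P) (γ : Option k → ℤ)
    (hγ : ∑ z ∈ P, γ z = 0) (y : Option k) :
    ordz y (∑ z ∈ P, nuOf z (γ z)) = if y ∈ P then γ y else 0 := by
  rw [ordz_sum]
  simp_rw [ordz_nuOf, mul_sub, mul_ite, mul_one, mul_zero]
  rw [Finset.sum_sub_distrib, Finset.sum_ite_eq]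
  by_cases hy : y = none
  · subst hy
    simp [hγ]
  · simp [hy]

section

variable {A : Subalgebra k K}

/-- the functional of the vector `(w, l)` on the page `z` is nonnegative on homogeneous elements of
`A`, and positive exactly on those which vanish at the point -/
def InCone (A : Subalgebra k K) (pt : Ideal A) (s : K) (x : Fin n → K) (z : Option k) (l : ℕ)
    (w : Fin n → ℤ) : Prop :=
  ∀ (nu : k →₀ ℤ) (m : Fin n → ℤ) (hA : pw s nu * monom x m ∈ A),
    0 ≤ l * ordz z nu + m ⬝ᵥ w ∧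
    (0 < l * ordz z nu + m ⬝ᵥ w ↔ (⟨pw s nu * monom x m, hA⟩ : A) ∈ pt)

/-- combinatorial data of a germ; the primed data are those of a klt pair on the same variety -/
structure C1Data (Γ : Set ℝ) (A : Subalgebra k K) (pt : Ideal A) (s : K) (x : Fin n → K)
    (τ : ℝ) where
  b : DVal k K → ℝ
  u : Fin n → ℝ
  c : Option k → ℝ
  b' : DVal k K → ℝ
  u' : Fin n → ℝ
  c' : Option k → ℝ
  P0 : Finset (Option k)
  c_sum : ∀ P : Finset (Option k), P0 ⊆ P → ∑ z ∈ P, c z = (P.card : ℝ) - 2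
  c_sum' : ∀ P : Finset (Option k), P0 ⊆ P → ∑ z ∈ P, c' z = (P.card : ℝ) - 2
  pg : DVal k K → Option k
  lv : DVal k K → ℕ
  page : ∀ v ∈ InvSet A pt s x, ∀ a, v.val (s - algebraMap k K a) = lv v * oz (pg v) a
  prim : ∀ v ∈ InvSet A pt s x,
    ∃ m : Fin (n + 1) → ℤ, m ⬝ᵥ (Fin.cons (lv v : ℤ) (wx v x) : Fin (n + 1) → ℤ) = 1
  F_eq : ∀ v ∈ InvSet A pt s x, ∑ i, u i * (wx v x i : ℝ) + c (pg v) * (lv v : ℝ) = 1 - b v
  F_eq' : ∀ v ∈ InvSet A pt s x,
    ∑ i, u' i * (wx v x i : ℝ) + c' (pg v) * (lv v : ℝ) = 1 - b' v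
  b_mem : ∀ v ∈ InvSet A pt s x, b v = 0 ∨ b v ∈ Γ
  b_le : ∀ v ∈ InvSet A pt s x, b v ≤ 1
  b'_nonneg : ∀ v ∈ InvSet A pt s x, 0 ≤ b' v
  b'_lt : ∀ v ∈ InvSet A pt s x, b' v < 1
  klt : ∀ w : Fin n → ℤ, w ≠ 0 → (∀ (nu : k →₀ ℤ) (m : Fin n → ℤ)
    (hA : pw s nu * monom x m ∈ A), 0 ≤ m ⬝ᵥ w ∧
      (0 < m ⬝ᵥ w → (⟨pw s nu * monom x m, hA⟩ : A) ∈ pt)) →
      0 ≤ ∑ i, u i * (w i : ℝ) ∧ 0 < ∑ i, u' i * (w i : ℝ)
  bound : ∀ (z : Option k) (l : ℕ) (w : Fin n → ℤ), InCone A pt s x z l w →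
    τ ≤ ∑ i, u i * (w i : ℝ) + c z * (l : ℝ) ∧ 0 ≤ ∑ i, u' i * (w i : ℝ) + c' z * (l : ℝ)

end

section

variable [IsAlgClosed k] [CharZero k] {A : Subalgebra k K} [IsFractionRing A K]
  [IsNoetherianRing A] [IsIntegrallyClosed A] {pt : Ideal A} {s : K} {x : Fin n → K}

/-- passing from `c * h` to `h` -/
lemma mem_scale {h : K} {c : k} (hc : c ≠ 0) (hA : algebraMap k K c * h ∈ A) : h ∈ A := by
  have h1 := A.mul_mem (A.algebraMap_mem c⁻¹) hA
  rwa [map_inv₀, ← mul_assoc, inv_mul_cancel₀ (by simpa using hc), one_mul] at h1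

lemma mem_pt_scale {h : K} {c : k} (hc : c ≠ 0) (hA : algebraMap k K c * h ∈ A) (hA' : h ∈ A) :
    (⟨algebraMap k K c * h, hA⟩ : A) ∈ pt ↔ (⟨h, hA'⟩ : A) ∈ pt := by
  have h1 : (⟨algebraMap k K c * h, hA⟩ : A) = algebraMap k A c * ⟨h, hA'⟩ := rfl
  rw [h1]
  constructor
  · intro h2
    have h3 := pt.mul_mem_left (algebraMap k A c⁻¹) h2
    rwa [← mul_assoc, ← map_mul, inv_mul_cancel₀ hc, map_one, one_mul] at h3
  · intro h2
    exact pt.mul_mem_left _ h2

/-- homogeneous components of elements of the ideal of the point -/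
lemma C1Alg.comp_mem (C : C1Alg A pt s x) {a : A} (ha : a ∈ pt) {g : (Fin n → ℤ) →₀ K}
    (hg : ∀ m, g m ∈ IntermediateField.adjoin k {s} ∧ g m * monom x m ∈ A)
    (hga : (a : K) = ∑ m ∈ g.support, g m * monom x m) (m : Fin n → ℤ) (hm : m ∈ g.support) :
    (⟨g m * monom x m, (hg m).2⟩ : A) ∈ pt := by
  classical
  have h1 : a = ∑ m ∈ g.support, (⟨g m * monom x m, (hg m).2⟩ : A) := by
    apply Subtype.ext
    rw [AddSubmonoidClass.coe_finsetSum]
    exact hga
  by_cases hm0 : m = 0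
  · have h3 : (⟨g m * monom x m, (hg m).2⟩ : A) = a - ∑ m' ∈ g.support.erase m,
        (⟨g m' * monom x m', (hg m').2⟩ : A) := by
      rw [eq_sub_iff_add_eq]
      exact (Finset.add_sum_erase _
        (fun m' => (⟨g m' * monom x m', (hg m').2⟩ : A)) hm).trans h1.symm
    rw [h3]
    refine Ideal.sub_mem _ ha (Ideal.sum_mem _ fun m' hm' => ?_)
    exact C.fixed _ (g m') m' (hg m').1 (by
      rw [← hm0]
      exact (Finset.mem_erase.1 hm').1) rfl
  · exact C.fixed _ (g m) m (hg m).1 hm0 rfl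

/-- a homogeneous element vanishing at the point -/
lemma C1Alg.exists_hom_pt (C : C1Alg A pt s x) {v : DVal k K} (hv : v.HasCenter A pt) :
    ∃ (nu : k →₀ ℤ) (m : Fin n → ℤ) (hA : pw s nu * monom x m ∈ A),
      (⟨pw s nu * monom x m, hA⟩ : A) ∈ pt := by
  obtain ⟨a, ha0, ha⟩ := exists_mem_ord_ne_zero (A := A) v
  have hpos : 0 < v.ord (a : K) := lt_of_le_of_ne (hv.1 a) (Ne.symm ha)
  have hapt : a ∈ pt := (hv.2 a).2 hpos
  obtain ⟨g, hg, hga⟩ := C.graded a a.2
  have hsupp : g.support.Nonempty := by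
    by_contra hcon
    rw [Finset.not_nonempty_iff_eq_empty] at hcon
    rw [hcon, Finset.sum_empty] at hga
    exact ha0 hga
  obtain ⟨m, hm⟩ := hsupp
  have h1 := C.comp_mem hapt hg hga m hm
  obtain ⟨c, nu, hc, hgc⟩ := exists_pw (hg m).1 (s_sub_ne_zero C.coord)
    (Finsupp.mem_support_iff.1 hm)
  have h2 : g m * monom x m = algebraMap k K c * (pw s nu * monom x m) := by
    rw [hgc]; ring
  have hA : algebraMap k K c * (pw s nu * monom x m) ∈ A := h2 ▸ (hg m).2
  have hA' : pw s nu * monom x m ∈ A := mem_scale hc hA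
  refine ⟨nu, m, hA', (mem_pt_scale hc hA hA').1 ?_⟩
  have h3 : (⟨algebraMap k K c * (pw s nu * monom x m), hA⟩ : A) =
      ⟨g m * monom x m, (hg m).2⟩ := Subtype.ext h2.symm
  rw [h3]; exact h1

/-- value of homogeneous elements without constant -/
lemma val_hom (hsx : IsTorusCoord k (Fin.cons s x : Fin (n + 1) → K)) (v : DVal k K)
    {z : Option k} {l : ℕ} (hv : ∀ a, v.val (s - algebraMap k K a) = l * oz z a)
    (nu : k →₀ ℤ) (m : Fin n → ℤ) :
    v.val (pw s nu * monom x m) = l * ordz z nu + m ⬝ᵥ wx v x := by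
  have h1 := val_homEl hsx v hv one_ne_zero nu m
  rwa [map_one, one_mul] at h1

lemma hom_homEl (nu : k →₀ ℤ) (m : Fin n → ℤ) : HomEl k s x (pw s nu * monom x m) :=
  ⟨1, nu, m, one_ne_zero, by rw [map_one, one_mul]⟩

lemma hom_ne_zero (hsx : IsTorusCoord k (Fin.cons s x : Fin (n + 1) → K)) (nu : k →₀ ℤ)
    (m : Fin n → ℤ) : pw s nu * monom x m ≠ 0 := (hom_homEl nu m).ne_zero hsx

/-- the cone condition gives the centre -/
lemma C1Alg.center_of_inCone (C : C1Alg A pt s x) {v : DVal k K} {z : Option k} {l : ℕ}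
    (hpv : IsPageVal k s x v z l)
    (hcone : InCone A pt s x z l (wx v x)) : v.HasCenter A pt := by
  refine C.center_eq hpv ?_ ?_
  · rintro _ ⟨c, nu, m, hc, rfl⟩ hA
    rw [mul_assoc] at hA
    have h1 := (hcone nu m (mem_scale hc hA)).1
    rw [val_homEl C.coord v hpv.page hc]
    exact h1
  · rintro ⟨a, hA⟩ ⟨c, nu, m, hc, rfl⟩
    have hA' := hA
    rw [mul_assoc] at hA'
    have h1 := (hcone nu m (mem_scale hc hA')).2
    change 0 < v.val (algebraMap k K c * pw s nu * monom x m) ↔ _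
    rw [val_homEl C.coord v hpv.page hc, h1, ← mem_pt_scale hc hA' (mem_scale hc hA')]
    have h2 : (⟨algebraMap k K c * (pw s nu * monom x m), hA'⟩ : A) =
        ⟨algebraMap k K c * pw s nu * monom x m, hA⟩ := Subtype.ext (mul_assoc _ _ _).symm
    rw [h2]

/-- a valuation centred at the point satisfies the cone condition -/
lemma C1Alg.inCone_of_center (C : C1Alg A pt s x) {v : DVal k K} {z : Option k} {l : ℕ}
    (hzl : ∀ a, v.val (s - algebraMap k K a) = l * oz z a) (hv : v.HasCenter A pt) :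
    InCone A pt s x z l (wx v x) := by
  intro nu m hA
  have h1 := hv.1 ⟨_, hA⟩
  have h2 := hv.2 ⟨_, hA⟩
  change 0 ≤ v.ord (pw s nu * monom x m) at h1
  change _ ↔ 0 < v.ord (pw s nu * monom x m) at h2
  have h0 := hom_ne_zero C.coord nu m
  rw [v.nonneg_ord_iff] at h1
  rw [v.pos_ord_iff] at h2
  rw [← val_hom C.coord v hzl]
  exact ⟨h1.resolve_left h0, ⟨fun h => h2.2 (Or.inr h), fun h => (h2.1 h).resolve_left h0⟩⟩

/-- the combinatorial data exist -/
theorem C1Alg.exists_data (C : C1Alg A pt s x) [pt.IsMaximal]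
    (ω : Module.Basis (Fin (n + 1)) K (Ω[K⁄k])) {bdry : DVal k K → ℝ} {Γ : Set ℝ}
    {ι : Type} [Fintype ι] {r : ι → ℝ} {sf : ι → K} (sf_ne : ∀ i, sf i ≠ 0)
    (cartier : ∀ v : DVal k K, v.IsPrimeDivisorThrough A pt →
      ∃ e : ℤ, v.FormOrd ω e ∧ (e : ℝ) + bdry v = ∑ i, r i * (v.val (sf i) : ℝ))
    (noninv : ∀ v : DVal k K, v.IsPrimeDivisorThrough A pt → v ∉ InvSet A pt s x → bdry v = 0)
    (inv : ∀ v ∈ InvSet A pt s x, bdry v = 0 ∨ bdry v ∈ Γ)
    (lc : ∀ (v : DVal k K) (P : Ideal A) (e : ℤ), v.IsDivisorial (n + 1) → v.HasCenter A P →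
      P ≤ pt → v.FormOrd ω e → 0 ≤ 1 + (e : ℝ) - ∑ i, r i * (v.val (sf i) : ℝ)) (τ : ℝ)
    (mld : ∀ (v : DVal k K) (e : ℤ), v.IsDivisorial (n + 1) → v.HasCenter A pt →
      v.FormOrd ω e → τ ≤ 1 + (e : ℝ) - ∑ i, r i * (v.val (sf i) : ℝ))
    (hex : ∃ v : DVal k K, v.HasCenter A pt)
    (ω' : Module.Basis (Fin (n + 1)) K (Ω[K⁄k])) {bdry' : DVal k K → ℝ}
    {ι' : Type} [Fintype ι'] {r' : ι' → ℝ} {sf' : ι' → K} (sf_ne' : ∀ i, sf' i ≠ 0)
    (cartier' : ∀ v : DVal k K, v.IsPrimeDivisorThrough A pt →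
      ∃ e : ℤ, v.FormOrd ω' e ∧ (e : ℝ) + bdry' v = ∑ i, r' i * (v.val (sf' i) : ℝ))
    (noninv' : ∀ v : DVal k K, v.IsPrimeDivisorThrough A pt → v ∉ InvSet A pt s x → bdry' v = 0)
    (inv' : ∀ v ∈ InvSet A pt s x, 0 ≤ bdry' v)
    (klt : ∀ (v : DVal k K) (P : Ideal A) (e : ℤ), v.IsDivisorial (n + 1) → v.HasCenter A P →
      P ≤ pt → v.FormOrd ω' e → 0 < 1 + (e : ℝ) - ∑ i, r' i * (v.val (sf' i) : ℝ)) :
    ∃ D : C1Data Γ A pt s x τ, (∀ (v : DVal k K), v.HasCenter A pt →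
      ∀ (z : Option k) (l : ℕ), (∀ a, v.val (s - algebraMap k K a) = l * oz z a) →
      ∀ e : ℤ, v.FormOrd ω e →
      ∑ i, D.u i * (wx v x i : ℝ) + D.c z * (l : ℝ) ≤
          1 + (e : ℝ) - ∑ i, r i * (v.val (sf i) : ℝ)) := by
  classical
  have hprime : pt.IsPrime := Ideal.IsMaximal.isPrime inferInstance
  obtain ⟨u, c, P0, _, _, hcsum, hle, heq⟩ := C.exists_F ω sf_ne cartier noninv
  obtain ⟨u', c', P0', _, _, hcsum', _, heq'⟩ := C.exists_F ω' sf_ne' cartier' noninv'
  have hinv := fun (v : DVal k K) (hv : v ∈ InvSet A pt s x) => C.inv_props hv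
  choose! pg lv hpv hprim using hinv
  have hF : ∀ v ∈ InvSet A pt s x,
      ∑ i, u i * (wx v x i : ℝ) + c (pg v) * (lv v : ℝ) = 1 - bdry v := by
    intro v hv
    obtain ⟨P, hP, _, hPpt⟩ := hv.1
    obtain ⟨e, he, hFe⟩ := heq v P hP hPpt (pg v) (lv v) (hpv v hv)
    obtain ⟨e', he', hcar⟩ := cartier v hv.1
    rw [FormOrd_unique v ω he' he] at hcar
    rw [hFe]; linarith
  have hF' : ∀ v ∈ InvSet A pt s x,
      ∑ i, u' i * (wx v x i : ℝ) + c' (pg v) * (lv v : ℝ) = 1 - bdry' v := by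
    intro v hv
    obtain ⟨P, hP, _, hPpt⟩ := hv.1
    obtain ⟨e, he, hFe⟩ := heq' v P hP hPpt (pg v) (lv v) (hpv v hv)
    obtain ⟨e', he', hcar⟩ := cartier' v hv.1
    rw [FormOrd_unique v ω' he' he] at hcar
    rw [hFe]; linarith
  refine ⟨⟨bdry, u, c, bdry', u', c', P0 ∪ P0',
    fun P hP => hcsum P (Finset.subset_union_left.trans hP),
    fun P hP => hcsum' P (Finset.subset_union_right.trans hP), pg, lv,
    fun v hv => (hpv v hv).page,
    hprim, hF, hF', inv, ?_, inv', ?_, ?_, ?_⟩,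
    fun v hv z l hzl e he => hle v pt hv le_rfl z l hzl e he⟩
  · intro v hv
    obtain ⟨P, hP, _, hPpt⟩ := hv.1
    obtain ⟨e, he, hFe⟩ := heq v P hP hPpt (pg v) (lv v) (hpv v hv)
    have h1 := lc v P e (hpv v hv).divisorial hP hPpt he
    rw [← hFe, hF v hv] at h1
    linarith
  · intro v hv
    obtain ⟨P, hP, _, hPpt⟩ := hv.1
    obtain ⟨e, he, hFe⟩ := heq' v P hP hPpt (pg v) (lv v) (hpv v hv)
    have h1 := klt v P e (hpv v hv).divisorial hP hPpt he
    rw [← hFe, hF' v hv] at h1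
    linarith
  · intro w hw0 hw
    obtain ⟨g, w', hg, hgw, hprim'⟩ := exists_primitive w hw0
    obtain ⟨v, hv, hwx⟩ := exists_isPageVal C.coord none 0 w' (by
      obtain ⟨m, hm⟩ := hprim'
      refine ⟨Fin.cons 0 m, ?_⟩
      unfold dotProduct at hm ⊢
      rw [Fin.sum_univ_succ]
      simpa using hm)
    have hval : ∀ (c : k) (hc : c ≠ 0) (nu : k →₀ ℤ) (m : Fin n → ℤ),
        g * v.val (algebraMap k K c * pw s nu * monom x m) = m ⬝ᵥ w := by
      intro c hc nu m
      rw [val_homEl C.coord v hv.page hc, hwx, hgw, dotProduct_smul, smul_eq_mul]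
      simp
    obtain ⟨P, hP, hPpt⟩ := C.center_le hv (by
        rintro _ ⟨c, nu, m, hc, rfl⟩ hA
        rw [mul_assoc] at hA
        have h1 := (hw nu m (mem_scale hc hA)).1
        rw [← hval c hc] at h1
        exact nonneg_of_mul_nonneg_right h1 hg) (by
        rintro ⟨a, hA⟩ ⟨c, nu, m, hc, rfl⟩ hpos
        have hA' := hA
        rw [mul_assoc] at hA'
        have h1 := (hw nu m (mem_scale hc hA')).2
        rw [← hval c hc] at h1
        have h2 := h1 (mul_pos hg hpos)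
        rw [← mem_pt_scale hc hA' (mem_scale hc hA')] at h2
        have h3 : (⟨algebraMap k K c * (pw s nu * monom x m), hA'⟩ : A) =
            ⟨algebraMap k K c * pw s nu * monom x m, hA⟩ := Subtype.ext (mul_assoc _ _ _).symm
        rwa [h3] at h2)
    obtain ⟨e, he, hFe⟩ := heq v P hP hPpt none 0 hv
    have h1 := lc v P e hv.divisorial hP hPpt he
    obtain ⟨e', he', hFe'⟩ := heq' v P hP hPpt none 0 hv
    have h1' := klt v P e' hv.divisorial hP hPpt he'
    rw [← hFe, hwx] at h1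
    rw [← hFe', hwx] at h1'
    have h2 : ∀ u : Fin n → ℝ, ∑ i, u i * ((w i : ℤ) : ℝ) = g * ∑ i, u i * (w' i : ℝ) := by
      intro u
      rw [Finset.mul_sum]
      refine Finset.sum_congr rfl fun i _ => ?_
      rw [hgw, Pi.smul_apply, smul_eq_mul]
      push_cast
      ring
    rw [h2, h2]
    have h3 : (0 : ℝ) < g := by exact_mod_cast hg
    push_cast at h1 h1'
    rw [mul_zero, add_zero] at h1 h1'
    exact ⟨mul_nonneg h3.le h1, mul_pos h3 h1'⟩
  · intro z l w hcone
    obtain ⟨v0, hv0⟩ := hex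
    obtain ⟨nu0, m0, hA0, hpt0⟩ := C.exists_hom_pt hv0
    set W : Fin (n + 1) → ℤ := Fin.cons (l : ℤ) w with hW
    have hW0 : W ≠ 0 := by
      intro h
      have hl : (l : ℤ) = 0 := by
        have := congrFun h 0
        rwa [hW, Fin.cons_zero] at this
      have hw : w = 0 := by
        funext i
        have := congrFun h i.succ
        rwa [hW, Fin.cons_succ] at this
      have h1 := (hcone nu0 m0 hA0).2.2 hpt0
      rw [hl, hw, dotProduct_zero] at h1
      simp at h1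
    obtain ⟨g, W', hg, hgW, hprim'⟩ := exists_primitive W hW0
    have hl' : 0 ≤ W' 0 := by
      have h1 := congrFun hgW 0
      rw [hW, Fin.cons_zero, Pi.smul_apply, smul_eq_mul] at h1
      have h2 : (0 : ℤ) ≤ l := Int.natCast_nonneg l
      rw [h1] at h2
      exact nonneg_of_mul_nonneg_right h2 hg
    obtain ⟨l', hl'e⟩ := Int.eq_ofNat_of_zero_le hl'
    have hW'e : W' = (Fin.cons (l' : ℤ) (Fin.tail W') : Fin (n + 1) → ℤ) := by
      rw [← hl'e]
      exact (Fin.cons_self_tail W').symm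
    have hlg : (l : ℤ) = g * l' := by
      have h1 := congrFun hgW 0
      rwa [hW, Fin.cons_zero, Pi.smul_apply, smul_eq_mul, hl'e] at h1
    have hwg : w = g • Fin.tail W' := by
      funext i
      have h1 := congrFun hgW i.succ
      rwa [hW, Fin.cons_succ] at h1
    obtain ⟨v, hv, hwx⟩ := exists_isPageVal C.coord z l' (Fin.tail W')
      (by rw [← hW'e]; exact hprim')
    have hscale : ∀ (nu : k →₀ ℤ) (m : Fin n → ℤ),
        l * ordz z nu + m ⬝ᵥ w = g * (l' * ordz z nu + m ⬝ᵥ wx v x) := by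
      intro nu m
      rw [hlg, hwg, hwx, dotProduct_smul, smul_eq_mul]
      ring
    have hcone' : InCone A pt s x z l' (wx v x) := by
      intro nu m hA
      obtain ⟨h1, h2⟩ := hcone nu m hA
      rw [hscale] at h1 h2
      exact ⟨nonneg_of_mul_nonneg_right h1 hg, ⟨fun h => h2.1 (mul_pos hg h),
        fun h => pos_of_mul_pos_right (h2.2 h) hg.le⟩⟩
    have hcent := C.center_of_inCone hv hcone'
    obtain ⟨e, he, hFe⟩ := heq v pt hcent le_rfl z l' hv
    obtain ⟨e', he', hFe'⟩ := heq' v pt hcent le_rfl z l' hv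
    have h1 := lc v pt e hv.divisorial hcent le_rfl he
    have h1' := klt v pt e' hv.divisorial hcent le_rfl he'
    have h2 := mld v e hv.divisorial hcent he
    rw [← hFe, hwx] at h1 h2
    rw [← hFe', hwx] at h1'
    have h3 : ∀ (u : Fin n → ℝ) (c : ℝ), ∑ i, u i * (w i : ℝ) + c * (l : ℝ) =
        g * (∑ i, u i * ((Fin.tail W') i : ℝ) + c * (l' : ℝ)) := by
      intro u c
      have h4 : (l : ℝ) = g * l' := by exact_mod_cast hlg
      rw [h4, hwg, mul_add, Finset.mul_sum]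
      congr 1
      · refine Finset.sum_congr rfl fun i _ => ?_
        rw [Pi.smul_apply, smul_eq_mul]
        push_cast
        ring
      · ring
    rw [h3, h3]
    have h5 : (1 : ℝ) ≤ g := by exact_mod_cast hg
    exact ⟨by nlinarith, mul_nonneg (by linarith) h1'.le⟩

end

end Pool.Agent.H26
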