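import Mathlib
import Pool.Agent.H26.ToricDefs

/-!
# Affine log pairs with a torus action of complexity one: definitions

`K = k(s, x_1, …, x_n)` is the function field of a variety of dimension `n + 1`; the torus
`T = (𝔾_m)^n` acts on `K` by scaling the coordinates `x_1, …, x_n` and fixes `k(s)`.  A rational
function is homogeneous if it is `g x^m` with `g ∈ k(s)` and `m ∈ ℤ^n`, and `m` is its degree.
-/

open scoped BigOperators

namespace Pool.Agent.H26

universe u v

variable {k : Type u} {K : Type v} [Field k] [Field K] [Algebra k K] {n : ℕ}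

namespace LogGerm

/-- `X = Spec A` is a normal affine variety with an effective action of the torus `T = (𝔾_m)^n`, of
complexity one and with rational quotient, and the point `x` is fixed by `T`.  The field of rational
functions is `k(s, x_1, …, x_n)` with algebraically independent `s, x_1, …, x_n`; the homogeneous
components of each element of `A` are in `A`; and the elements of `A` which are homogeneous of
degree different from `0` vanish at `x`. -/
structure HasTorusAction (G : LogGerm k K (n + 1)) (s : K) (x : Fin n → K) : Prop where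
  coordinates : IsTorusCoord k (Fin.cons s x : Fin (n + 1) → K)
  graded : ∀ a ∈ G.A, ∃ g : (Fin n → ℤ) →₀ K,
    (∀ m, g m ∈ IntermediateField.adjoin k {s} ∧ g m * monom x m ∈ G.A) ∧
      a = ∑ m ∈ g.support, g m * monom x m
  fixed_point : ∀ (a : G.A) (g : K) (m : Fin n → ℤ), g ∈ IntermediateField.adjoin k {s} →
    m ≠ 0 → (a : K) = g * monom x m → a ∈ G.pt

/-- A prime divisor is `T`-invariant if some homogeneous rational function has a zero or a pole
along it. -/
def IsInvariant (k : Type u) {K : Type v} [Field k] [Field K] [Algebra k K] {n : ℕ} (s : K)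
    (x : Fin n → K) (v : DVal k K) : Prop :=
  ∃ (g : K) (m : Fin n → ℤ), g ∈ IntermediateField.adjoin k {s} ∧ g ≠ 0 ∧
    v.val (g * monom x m) ≠ 0

/-- The boundary is `T`-invariant, with coefficients in `Γ`. -/
def HasInvariantBoundary (G : LogGerm k K (n + 1)) (s : K) (x : Fin n → K) (Γ : Set ℝ) : Prop :=
  ∀ v : DVal k K, v.IsPrimeDivisorThrough G.A G.pt →
    G.bdry v = 0 ∨ IsInvariant k s x v ∧ G.bdry v ∈ Γ

/-- The pair `(X, Δ)` is log canonical at the point: the prime divisors over `X` whose centre
contains the point have nonnegative log discrepancy. -/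
def IsLogCanonical (G : LogGerm k K n) : Prop :=
  ∀ (v : DVal k K) (P : Ideal G.A) (a : ℝ), v.IsDivisorial n → v.HasCenter G.A P → P ≤ G.pt →
    G.IsLogDiscrepancy v a → 0 ≤ a

/-- The pair `(X, Δ)` is klt at the point: the prime divisors over `X` whose centre contains the
point have positive log discrepancy. -/
def IsKlt (G : LogGerm k K n) : Prop :=
  ∀ (v : DVal k K) (P : Ideal G.A) (a : ℝ), v.IsDivisorial n → v.HasCenter G.A P → P ≤ G.pt →
    G.IsLogDiscrepancy v a → 0 < a

/-- The point of `X` is of klt type: there is an effective torus-invariant `Δ'` such that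
`K_X + Δ'` is `ℝ`-Cartier and `(X, Δ')` is klt at the point. -/
def IsKltType (G : LogGerm k K (n + 1)) (s : K) (x : Fin n → K) : Prop :=
  ∃ G' : LogGerm k K (n + 1), G'.A = G.A ∧
    (∀ a : K, (∃ h : a ∈ G'.A, (⟨a, h⟩ : G'.A) ∈ G'.pt) ↔ ∃ h : a ∈ G.A, (⟨a, h⟩ : G.A) ∈ G.pt) ∧
    G'.HasInvariantBoundary s x (Set.Ici 0) ∧ G'.IsKlt

end LogGerm

/-- The set of the minimal log discrepancies `mld (x, X, Δ)` of the affine log pairs of dimension
`n + 1` over `k` which are log canonical at `x`, where `X` is a normal affine variety with an
action of an `n`-dimensional torus of complexity one with rational quotient, `x` is a fixed point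
of klt type and `Δ` is a torus-invariant boundary with coefficients in `Γ`. -/
def complexityOneMlds (k : Type u) [Field k] (n : ℕ) (Γ : Set ℝ) : Set EReal :=
  {a | ∃ (K : Type u) (_ : Field K) (_ : Algebra k K) (G : LogGerm k K (n + 1)) (s : K)
    (x : Fin n → K), G.HasTorusAction s x ∧ G.HasInvariantBoundary s x Γ ∧ G.IsLogCanonical ∧
      G.IsKltType s x ∧ a = G.mld}

end Pool.Agent.H26
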