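import Mathlib
import Pool.Agent.H26.C1Data

/-! # From the data of a germ to the limiting argument -/

open scoped BigOperators
open KaehlerDifferential

namespace Pool.Agent.H26

set_option linter.unusedSectionVars false
set_option linter.unusedVariables false

universe u v

variable {k : Type u} {K : Type v} [Field k] [Field K] [Algebra k K] {n : ℕ}

namespace C1Data

variable [IsAlgClosed k] [CharZero k] {A : Subalgebra k K} [IsFractionRing A K]
  [IsNoetherianRing A] [IsIntegrallyClosed A] {pt : Ideal A} {s : K} {x : Fin n → K}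
  {Γ : Set ℝ} {τ : ℝ}

/-- value of a homogeneous element along an invariant divisor -/
noncomputable def V (D : C1Data Γ A pt s x τ) (v : DVal k K) (nu : k →₀ ℤ) (m : Fin n → ℤ) : ℤ :=
  D.lv v * ordz (D.pg v) nu + m ⬝ᵥ wx v x

lemma V_eq (D : C1Data Γ A pt s x τ) (C : C1Alg A pt s x) {v : DVal k K}
    (hv : v ∈ InvSet A pt s x) (nu : k →₀ ℤ) (m : Fin n → ℤ) :
    D.V v nu m = v.val (pw s nu * monom x m) := (val_hom C.coord v (D.page v hv) nu m).symm

lemma V_nonneg (D : C1Data Γ A pt s x τ) (C : C1Alg A pt s x) {v : DVal k K}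
    (hv : v ∈ InvSet A pt s x) (nu : k →₀ ℤ) (m : Fin n → ℤ)
    (hA : pw s nu * monom x m ∈ A) : 0 ≤ D.V v nu m := by
  obtain ⟨P, hP, _⟩ := hv.1
  have h1 := hP.1 ⟨_, hA⟩
  change 0 ≤ v.ord (pw s nu * monom x m) at h1
  rw [v.nonneg_ord_iff] at h1
  rw [D.V_eq C hv]
  exact h1.resolve_left (hom_ne_zero C.coord nu m)

lemma V_eq_zero (D : C1Data Γ A pt s x τ) (C : C1Alg A pt s x) {v : DVal k K}
    (hv : v ∈ InvSet A pt s x) (nu : k →₀ ℤ) (m : Fin n → ℤ)
    (hA : pw s nu * monom x m ∈ A) (hpt : (⟨pw s nu * monom x m, hA⟩ : A) ∉ pt) :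
    D.V v nu m = 0 := by
  refine le_antisymm ?_ (D.V_nonneg C hv nu m hA)
  obtain ⟨P, hP, _, hPpt⟩ := hv.1
  by_contra hcon
  push Not at hcon
  rw [D.V_eq C hv] at hcon
  exact hpt (hPpt ((hP.2 _).2 ((v.pos_ord_iff).2 (Or.inr hcon))))

lemma exists_V_pos (D : C1Data Γ A pt s x τ) (C : C1Alg A pt s x) {v : DVal k K}
    (hv : v ∈ InvSet A pt s x) : ∃ (nu : k →₀ ℤ) (m : Fin n → ℤ),
      pw s nu * monom x m ∈ A ∧ 0 < D.V v nu m := by
  obtain ⟨h, ⟨c, nu, m, hc, rfl⟩, hA, hpos⟩ := C.exists_pos hv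
  rw [mul_assoc] at hA
  refine ⟨nu, m, mem_scale hc hA, ?_⟩
  have h1 := (v.pos_ord_iff.1 hpos).resolve_left (HomEl.ne_zero C.coord ⟨c, nu, m, hc, rfl⟩)
  rwa [val_homEl C.coord v (D.page v hv) hc] at h1

/-- there are finitely many invariant divisors on finitely many pages -/
lemma finite_inv (D : C1Data Γ A pt s x τ) (C : C1Alg A pt s x) (P : Finset (Option k)) :
    {v : DVal k K | v ∈ InvSet A pt s x ∧ (D.lv v = 0 ∨ D.pg v ∈ P)}.Finite := by
  classical
  have h1 : (⋃ i : Fin n, {v : DVal k K | v.IsPrimeDivisorThrough A pt ∧ v.val (x i) ≠ 0}).Finite :=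
    Set.finite_iUnion fun i => finite_primeDivisors pt (x i) (x_ne_zero C.coord i)
  have h2 : (⋃ z ∈ P, {v : DVal k K | v.IsPrimeDivisorThrough A pt ∧
      v.val (pageT s z) ≠ 0}).Finite :=
    Set.Finite.biUnion P.finite_toSet fun z _ =>
      finite_primeDivisors pt (pageT s z) (pageT_ne_zero C.coord z)
  refine (h1.union h2).subset ?_
  rintro v ⟨hv, hlP⟩
  by_cases hl : D.lv v = 0
  · left
    obtain ⟨m, hm⟩ := D.prim v hv
    have : ∃ i, v.val (x i) ≠ 0 := by
      by_contra hcon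
      push Not at hcon
      rw [hl] at hm
      unfold dotProduct at hm
      rw [Fin.sum_univ_succ] at hm
      simp [wx, hcon] at hm
    obtain ⟨i, hi⟩ := this
    exact Set.mem_iUnion.2 ⟨i, hv.1, hi⟩
  · right
    have hP := hlP.resolve_left hl
    refine Set.mem_iUnion₂.2 ⟨D.pg v, hP, hv.1, ?_⟩
    have hpage := D.page v hv
    rcases hpg : D.pg v with _ | b
    · rw [hpg] at hpage
      have h3 := hpage 0
      rw [map_zero, sub_zero] at h3
      simp only [pageT]
      rw [v.val_inv (s_ne_zero C.coord), h3]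
      simp only [oz]
      have : (D.lv v : ℤ) ≠ 0 := by exact_mod_cast hl
      omega
    · rw [hpg] at hpage
      simp only [pageT]
      rw [hpage b]
      simp only [oz, if_true, mul_one]
      exact_mod_cast hl

/-- the pages carrying an invariant divisor with nontrivial weights -/
lemma exists_P1 (D : C1Data Γ A pt s x τ) (C : C1Alg A pt s x) :
    ∃ P1 : Finset (Option k), ∀ v ∈ InvSet A pt s x, D.pg v ∉ P1 → wx v x = 0 := by
  classical
  have h1 : (⋃ i : Fin n, {v : DVal k K | v.IsPrimeDivisorThrough A pt ∧ v.val (x i) ≠ 0}).Finite :=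
    Set.finite_iUnion fun i => finite_primeDivisors pt (x i) (x_ne_zero C.coord i)
  refine ⟨(h1.image D.pg).toFinset, fun v hv hvP => ?_⟩
  funext i
  by_contra hne
  apply hvP
  rw [Set.Finite.mem_toFinset]
  exact ⟨v, Set.mem_iUnion.2 ⟨i, hv.1, hne⟩, rfl⟩

section caseA

/-- the data used in the combinatorial theorem -/
noncomputable def pageData (D : C1Data Γ A pt s x τ) (P : Finset (Option k)) (hP : none ∈ P) :
    PageData Γ n P {v : DVal k K // v ∈ InvSet A pt s x ∧ (D.lv v = 0 ∨ D.pg v ∈ P)} where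
  pg := by
    classical
    exact fun r => if h : D.pg r.1 ∈ P then ⟨D.pg r.1, h⟩ else ⟨none, hP⟩
  l := fun r => D.lv r.1
  w := fun r => wx r.1 x
  b := fun r => D.b r.1
  u := D.u
  c := fun z => D.c z
  F_eq := by
    intro r
    rw [← D.F_eq r.1 r.2.1]
    congr 1
    rcases r.2.2 with h | h
    · rw [h]; simp
    · rw [dif_pos h]
  b_mem := fun r => D.b_mem r.1 r.2.1

lemma pageData_pg (D : C1Data Γ A pt s x τ) (P : Finset (Option k)) (hP : none ∈ P)
    (r : {v : DVal k K // v ∈ InvSet A pt s x ∧ (D.lv v = 0 ∨ D.pg v ∈ P)})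
    (φ : Option k → ℝ) :
    φ ((D.pageData P hP).pg r) * (D.lv r.1 : ℝ) = φ (D.pg r.1) * (D.lv r.1 : ℝ) := by
  unfold pageData
  simp only
  rcases r.2.2 with h | h
  · rw [h]; simp
  · rw [dif_pos h]

/-- values of combinations of rays on homogeneous elements -/
lemma sum_V (D : C1Data Γ A pt s x τ) [DecidableEq k] (P : Finset (Option k)) (hP : none ∈ P)
    (T : Finset {v : DVal k K // v ∈ InvSet A pt s x ∧ (D.lv v = 0 ∨ D.pg v ∈ P)})
    (lam : {v : DVal k K // v ∈ InvSet A pt s x ∧ (D.lv v = 0 ∨ D.pg v ∈ P)} → ℝ)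
    (nu : k →₀ ℤ) (m : Fin n → ℤ) :
    ∑ r ∈ T, lam r * (D.V r.1 nu m : ℝ) =
      ∑ i, (m i : ℝ) * (∑ r ∈ T, lam r * (wx r.1 x i : ℝ)) +
      ∑ z : P, (ordz z.1 nu : ℝ) * (D.pageData P hP).lev T lam z := by
  have h1 : ∑ z : P, (ordz z.1 nu : ℝ) * (D.pageData P hP).lev T lam z =
      ∑ r ∈ T, lam r * ((ordz (D.pg r.1) nu : ℝ) * (D.lv r.1 : ℝ)) := by
    unfold PageData.lev
    simp_rw [Finset.mul_sum]
    rw [Finset.sum_comm]
    refine Finset.sum_congr rfl fun r _ => ?_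
    rw [← D.pageData_pg P hP r (fun z => (ordz z nu : ℝ)),
      Finset.sum_eq_single ((D.pageData P hP).pg r)]
    · rw [if_pos rfl]
      change (ordz _ nu : ℝ) * (lam r * (D.lv r.1 : ℝ)) = _
      ring
    · intro z _ hz
      rw [if_neg (Ne.symm hz), mul_zero]
    · intro h; exact absurd (Finset.mem_univ _) h
  rw [h1]
  simp_rw [Finset.mul_sum]
  rw [Finset.sum_comm, ← Finset.sum_add_distrib]
  refine Finset.sum_congr rfl fun r _ => ?_
  unfold V dotProduct
  push_cast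
  rw [mul_add, Finset.mul_sum, add_comm]
  congr 1
  · exact Finset.sum_congr rfl fun i _ => by ring
  · ring

/-- values of a lattice point of a page -/
lemma sum_V_rep (D : C1Data Γ A pt s x τ) [DecidableEq k] (P : Finset (Option k)) (hP : none ∈ P)
    (T : Finset {v : DVal k K // v ∈ InvSet A pt s x ∧ (D.lv v = 0 ∨ D.pg v ∈ P)})
    (lam : {v : DVal k K // v ∈ InvSet A pt s x ∧ (D.lv v = 0 ∨ D.pg v ∈ P)} → ℝ)
    {z1 : P} {l1 : ℕ} {w1 : Fin n → ℤ} {t1 : ℝ}
    (hw : ∀ i, (w1 i : ℝ) = ∑ r ∈ T, lam r * (wx r.1 x i : ℝ))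
    (hl : ∀ z, (D.pageData P hP).lev T lam z = t1 + if z = z1 then (l1 : ℝ) else 0)
    (nu : k →₀ ℤ) (m : Fin n → ℤ) :
    ((l1 * ordz z1.1 nu + m ⬝ᵥ w1 : ℤ) : ℝ) = ∑ r ∈ T, lam r * (D.V r.1 nu m : ℝ) +
      t1 * ((∑ a ∈ nu.support.filter (fun a => some a ∉ P), nu a : ℤ) : ℝ) := by
  rw [D.sum_V P hP T lam nu m]
  simp_rw [hl, ← hw, mul_add, mul_ite, mul_zero]
  rw [Finset.sum_add_distrib, Finset.sum_ite_eq' Finset.univ z1, if_pos (Finset.mem_univ _),
    ← Finset.sum_mul]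
  have h1 : ∑ z : P, (ordz z.1 nu : ℝ) =
      -((∑ a ∈ nu.support.filter (fun a => some a ∉ P), nu a : ℤ) : ℝ) := by
    rw [Finset.sum_coe_sort P (fun z => (ordz z nu : ℝ))]
    have := sum_ordz P hP nu
    exact_mod_cast this
  rw [h1]
  unfold dotProduct
  push_cast
  ring

/-- every page carries an invariant divisor of positive level -/
theorem output_A (D : C1Data Γ A pt s x τ) (C : C1Alg A pt s x) [pt.IsPrime]
    (hΓ : Γ ⊆ Set.Icc 0 1)
    (hvert : ∀ z : Option k, ∃ v ∈ InvSet A pt s x, D.pg v = z ∧ 0 < D.lv v)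
    {v0 : DVal k K} (hv0 : v0.HasCenter A pt) {z0 : Option k} {l0 : ℕ}
    (hzl : ∀ a, v0.val (s - algebraMap k K a) = l0 * oz z0 a) (τ' : ℝ)
    (hlt : ∑ i, D.u i * (wx v0 x i : ℝ) + D.c z0 * (l0 : ℝ) < τ')
    (δ : ℝ) (hδ : 0 < δ) (hδ2 : δ ≤ 1 / 2) (hδb : ∀ b ∈ Γ, b ≠ 0 → δ ≤ b)
    (N : ℕ) (hN : 2 * n + ⌊2 / δ⌋₊ + 2 ≤ N) :
    EngineOut (AddSubmonoid.closure (insert 1 Γ) : Set ℝ) N τ τ' := by
  classical
  obtain ⟨P1, hP1⟩ := D.exists_P1 C
  obtain ⟨P, hPP0, hPP1, hP, hz0, h3P⟩ : ∃ P : Finset (Option k), D.P0 ⊆ P ∧ P1 ⊆ P ∧ none ∈ P ∧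
      z0 ∈ P ∧ 3 ≤ P.card := by
    refine ⟨D.P0 ∪ P1 ∪ {z0, none, some 0, some 1}, ?_, ?_, ?_, ?_, ?_⟩
    · exact (Finset.subset_union_left).trans Finset.subset_union_left
    · exact (Finset.subset_union_right).trans Finset.subset_union_left
    · simp
    · simp
    · have h1 : ({none, some 0, some 1} : Finset (Option k)) ⊆
          D.P0 ∪ P1 ∪ {z0, none, some 0, some 1} := by
        intro z hz
        simp only [Finset.mem_insert, Finset.mem_singleton, Finset.mem_union] at hz ⊢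
        tauto
      have h2 : ({none, some 0, some 1} : Finset (Option k)).card = 3 := by
        rw [Finset.card_insert_of_notMem, Finset.card_pair]
        · intro h
          exact zero_ne_one (Option.some_injective _ h)
        · simp
      have h3 := Finset.card_le_card h1
      omega
  have hcard : 3 ≤ Fintype.card P := by rwa [Fintype.card_coe]
  have hfin := D.finite_inv C P
  have : Fintype {v : DVal k K // v ∈ InvSet A pt s x ∧ (D.lv v = 0 ∨ D.pg v ∈ P)} := hfin.fintype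
  set PD := D.pageData P hP with hPD
  have hpgZ : ∀ (r : {v : DVal k K // v ∈ InvSet A pt s x ∧ (D.lv v = 0 ∨ D.pg v ∈ P)})
      (φ : Option k → ℤ), φ (PD.pg r) * (D.lv r.1 : ℤ) = φ (D.pg r.1) * (D.lv r.1 : ℤ) := by
    intro r φ
    have := D.pageData_pg P hP r (fun z => (φ z : ℝ))
    exact_mod_cast this
  have hc : ∑ z, PD.c z = (Fintype.card P : ℝ) - 2 := by
    rw [Fintype.card_coe, ← D.c_sum P hPP0]
    exact Finset.sum_coe_sort P (fun z => D.c z)
  have hc' : ∑ z : P, D.c' z.1 = (Fintype.card P : ℝ) - 2 := by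
    rw [Fintype.card_coe, ← D.c_sum' P hPP0]
    exact Finset.sum_coe_sort P (fun z => D.c' z)
  have hF' : ∀ r, ∑ i, D.u' i * (PD.w r i : ℝ) + D.c' (PD.pg r).1 * (PD.l r : ℝ) =
      1 - D.b' r.1 := by
    intro r
    rw [← D.F_eq' r.1 r.2.1]
    congr 1
    exact D.pageData_pg P hP r D.c'
  have hb0 : ∀ r, 0 ≤ PD.b r := by
    intro r
    rcases D.b_mem r.1 r.2.1 with h | h
    · exact h.ge
    · exact (hΓ h).1
  have hb1 : ∀ r, PD.b r ≤ 1 := fun r => D.b_le r.1 r.2.1
  have hδb' : ∀ r, PD.b r ≠ 0 → δ ≤ PD.b r := by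
    intro r hr
    exact hδb _ ((D.b_mem r.1 r.2.1).resolve_left hr) hr
  -- contributions from outside `P`
  have ho : ∀ (nu : k →₀ ℤ) (m : Fin n → ℤ) (hA : pw s nu * monom x m ∈ A),
      0 ≤ (∑ a ∈ nu.support.filter (fun a => some a ∉ P), nu a : ℤ) ∧
      ((⟨pw s nu * monom x m, hA⟩ : A) ∉ pt →
        (∑ a ∈ nu.support.filter (fun a => some a ∉ P), nu a : ℤ) = 0) := by
    intro nu m hA
    have hV : ∀ a, some a ∉ P → ∃ v ∈ InvSet A pt s x, 0 < D.lv v ∧
        D.V v nu m = D.lv v * nu a := by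
      intro a ha
      obtain ⟨v, hv, hpg, hlv⟩ := hvert (some a)
      refine ⟨v, hv, hlv, ?_⟩
      unfold V
      rw [hP1 v hv (by rw [hpg]; exact fun h => ha (hPP1 h)), hpg, ordz_some, dotProduct_zero,
        add_zero]
    constructor
    · refine Finset.sum_nonneg fun a ha => ?_
      obtain ⟨v, hv, hlv, hVe⟩ := hV a (Finset.mem_filter.1 ha).2
      have h1 := D.V_nonneg C hv nu m hA
      rw [hVe] at h1
      exact nonneg_of_mul_nonneg_right h1 (by exact_mod_cast hlv)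
    · intro hpt
      refine Finset.sum_eq_zero fun a ha => ?_
      obtain ⟨v, hv, hlv, hVe⟩ := hV a (Finset.mem_filter.1 ha).2
      have h1 := D.V_eq_zero C hv nu m hA hpt
      rw [hVe] at h1
      rcases mul_eq_zero.1 h1 with h2 | h2
      · exact absurd h2 (by exact_mod_cast hlv.ne')
      · exact h2
  have hcone0 := C.inCone_of_center hzl hv0
  -- Farkas
  obtain ⟨lam, hlam0, hlam⟩ := farkas_gen
    (J := Fin n ⊕ P)
    (κ := {v : DVal k K // v ∈ InvSet A pt s x ∧ (D.lv v = 0 ∨ D.pg v ∈ P)} ⊕ Bool)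
    (Sum.elim (fun r => Sum.elim (fun i => wx r.1 x i)
      (fun z => if PD.pg r = z then (D.lv r.1 : ℤ) else 0))
      (fun β => Sum.elim (fun _ => 0) (fun _ => if β then 1 else -1)))
    (Sum.elim (wx v0 x) (fun z => if z = ⟨z0, hz0⟩ then (l0 : ℤ) else 0)) (by
    intro m hm
    let γ : Option k → ℤ := fun z => if h : z ∈ P then m (Sum.inr ⟨z, h⟩) else 0
    have hγP : ∀ z : P, γ z.1 = m (Sum.inr z) := fun z => by simp [γ]
    have hγsum : ∑ z ∈ P, γ z = ∑ z : P, m (Sum.inr z) := by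
      rw [← Finset.sum_coe_sort P γ]
      exact Finset.sum_congr rfl fun z _ => hγP z
    have hγ : ∑ z ∈ P, γ z = 0 := by
      have h1 := hm (Sum.inr true)
      have h2 := hm (Sum.inr false)
      rw [Fintype.sum_sum_type] at h1 h2
      simp only [Sum.elim_inr, Sum.elim_inl, mul_zero, Finset.sum_const_zero, zero_add,
        if_true, mul_one, Bool.false_eq_true, if_false, mul_neg,
        Finset.sum_neg_distrib] at h1 h2
      rw [hγsum]
      linarith
    have hord := ordz_prescribed P hP γ hγ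
    set nu : k →₀ ℤ := ∑ z ∈ P, nuOf z (γ z) with hnu
    have hloc : pw s nu * monom x (fun i => m (Sum.inl i)) ∈ Loc K pt := by
      refine C.mem_Loc (hom_homEl nu _) fun v hv => ?_
      rw [← D.V_eq C hv]
      unfold V
      by_cases hvP : D.lv v = 0 ∨ D.pg v ∈ P
      · have h1 := hm (Sum.inl ⟨v, hv, hvP⟩)
        rw [Fintype.sum_sum_type] at h1
        simp only [Sum.elim_inl, Sum.elim_inr, mul_ite, mul_zero] at h1
        rw [Finset.sum_ite_eq, if_pos (Finset.mem_univ _), ← hγP, hpgZ ⟨v, hv, hvP⟩ γ] at h1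
        have h2 : (D.lv v : ℤ) * ordz (D.pg v) nu = γ (D.pg v) * (D.lv v : ℤ) := by
          rcases hvP with h | h
          · rw [h]; simp
          · rw [hord, if_pos h]; ring
        rw [h2]
        unfold dotProduct
        linarith
      · rw [not_or] at hvP
        rw [hord, if_neg hvP.2, hP1 v hv (fun h => hvP.2 (hPP1 h)), dotProduct_zero]
        simp
    have h1 := ord_nonneg_of_mem_Loc hv0 le_rfl hloc
    rw [v0.nonneg_ord_iff] at h1
    have h2 := h1.resolve_left (hom_ne_zero C.coord nu _)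
    rw [val_hom C.coord v0 hzl, hord, if_pos hz0] at h2
    rw [Fintype.sum_sum_type]
    simp only [Sum.elim_inl, Sum.elim_inr, mul_ite, mul_zero]
    rw [Finset.sum_ite_eq', if_pos (Finset.mem_univ _), ← hγP]
    unfold dotProduct at h2
    linarith)
  let xx : {v : DVal k K // v ∈ InvSet A pt s x ∧ (D.lv v = 0 ∨ D.pg v ∈ P)} → ℚ :=
    fun r => lam (Sum.inl r)
  let T := Finset.univ.filter fun r => 0 < xx r
  have hsumT : ∀ φ : {v : DVal k K // v ∈ InvSet A pt s x ∧ (D.lv v = 0 ∨ D.pg v ∈ P)} → ℚ,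
      ∑ r ∈ T, xx r * φ r = ∑ r, xx r * φ r := by
    intro φ
    refine Finset.sum_subset (Finset.filter_subset _ _) fun r _ hr => ?_
    have h1 : ¬ 0 < xx r := fun h => hr (Finset.mem_filter.2 ⟨Finset.mem_univ _, h⟩)
    have h2 : xx r = 0 := le_antisymm (not_lt.1 h1) (hlam0 _)
    rw [h2, zero_mul]
  have hw : ∀ i, (wx v0 x i : ℚ) = ∑ r ∈ T, xx r * (PD.w r i : ℚ) := by
    intro i
    rw [hsumT]
    have h1 := hlam (Sum.inl i)
    rw [Fintype.sum_sum_type] at h1
    simp only [Sum.elim_inl, Sum.elim_inr, Int.cast_zero, mul_zero, Finset.sum_const_zero,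
      add_zero] at h1
    exact h1
  have hl : ∀ z, ∑ r ∈ T, (if PD.pg r = z then xx r * (PD.l r : ℚ) else 0) =
      (lam (Sum.inr false) - lam (Sum.inr true)) + if z = ⟨z0, hz0⟩ then (l0 : ℚ) else 0 := by
    intro z
    have h1 := hlam (Sum.inr z)
    rw [Fintype.sum_sum_type] at h1
    simp only [Sum.elim_inr, Sum.elim_inl, Fintype.sum_bool, if_true, Bool.false_eq_true,
      if_false] at h1
    have h2 : ∑ r ∈ T, (if PD.pg r = z then xx r * (PD.l r : ℚ) else 0) =
        ∑ r ∈ T, xx r * (((if PD.pg r = z then (D.lv r.1 : ℤ) else 0) : ℤ) : ℚ) := by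
      refine Finset.sum_congr rfl fun r _ => ?_
      split_ifs
      · rfl
      · simp
    have h3 : (((if z = ⟨z0, hz0⟩ then (l0 : ℤ) else 0) : ℤ) : ℚ) =
        if z = ⟨z0, hz0⟩ then (l0 : ℚ) else 0 := by split_ifs <;> simp
    rw [h2, hsumT, ← h3, h1]
    push_cast
    ring
  have ht : 0 ≤ lam (Sum.inr false) - lam (Sum.inr true) := by
    obtain ⟨z, hz⟩ : ∃ z : P, z ≠ ⟨z0, hz0⟩ := by
      have : Nontrivial P := Fintype.one_lt_card_iff_nontrivial.1 (by omega)
      exact exists_ne _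
    have h1 := hl z
    rw [if_neg hz, add_zero] at h1
    rw [← h1]
    refine Finset.sum_nonneg fun r hr => ?_
    split_ifs
    · exact mul_nonneg (Finset.mem_filter.1 hr).2.le (Nat.cast_nonneg _)
    · exact le_rfl
  have h0 : wx v0 x ≠ 0 ∨ l0 ≠ 0 := by
    by_contra hcon
    push Not at hcon
    obtain ⟨nu, m, hA, hpt⟩ := C.exists_hom_pt hv0
    have h1 := (hcone0 nu m hA).2.2 hpt
    rw [hcon.1, hcon.2, dotProduct_zero] at h1
    simp at h1
  refine PD.core hcard hc hb0 hb1 (b' := fun r => D.b' r.1) (u' := D.u')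
    (c' := fun z => D.c' z.1) hF' hc' (fun r => D.b'_nonneg r.1 r.2.1)
    (fun r => D.b'_lt r.1 r.2.1) δ hδ hδ2 hδb' T xx (fun r hr => (Finset.mem_filter.1 hr).2)
    ht h0 hw hl ?_ τ τ' ?_ hlt N hN
  · -- klt
    intro T' a ha hal
    have hlev1 : ∀ z, PD.lev T' (fun r => (a r : ℝ)) z = 1 := by
      intro z
      have h1 := congrArg (fun y : ℚ => (y : ℝ)) (hal z)
      simp only [Rat.cast_sum, Rat.cast_one] at h1
      rw [← h1]
      unfold PageData.lev
      refine Finset.sum_congr rfl fun r _ => ?_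
      split_ifs <;> simp
    let W : Fin n → ℚ := fun i => ∑ r ∈ T', a r * (wx r.1 x i : ℚ)
    have hWR : ∀ i, (W i : ℝ) = ∑ r ∈ T', (a r : ℝ) * (wx r.1 x i : ℝ) := by
      intro i
      simp only [W]
      push_cast
      rfl
    have hdotW : ∀ (nu : k →₀ ℤ) (m : Fin n → ℤ), ∑ i, (m i : ℝ) * (W i : ℝ) =
        ∑ r ∈ T', (a r : ℝ) * (D.V r.1 nu m : ℝ) +
          ((∑ a ∈ nu.support.filter (fun a => some a ∉ P), nu a : ℤ) : ℝ) := by
      intro nu m
      rw [D.sum_V P hP T' (fun r => (a r : ℝ)) nu m]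
      simp_rw [← hWR]
      have h1 : ∑ z : P, (ordz z.1 nu : ℝ) * (D.pageData P hP).lev T' (fun r => (a r : ℝ)) z =
          -((∑ a ∈ nu.support.filter (fun a => some a ∉ P), nu a : ℤ) : ℝ) := by
        have h2 : ∀ z : P, (ordz z.1 nu : ℝ) *
            (D.pageData P hP).lev T' (fun r => (a r : ℝ)) z = (ordz z.1 nu : ℝ) := by
          intro z
          rw [← hPD, hlev1 z, mul_one]
        rw [Finset.sum_congr rfl fun z _ => h2 z, Finset.sum_coe_sort P (fun z => (ordz z nu : ℝ))]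
        have := sum_ordz P hP nu
        exact_mod_cast this
      rw [h1]
      ring
    obtain ⟨Q, hQ, hQW⟩ := exists_common_den W
    choose W' hW' using hQW
    have hQR : (0 : ℝ) < Q := by exact_mod_cast hQ
    have hdotW' : ∀ (nu : k →₀ ℤ) (m : Fin n → ℤ), ((m ⬝ᵥ W' : ℤ) : ℝ) =
        Q * (∑ r ∈ T', (a r : ℝ) * (D.V r.1 nu m : ℝ) +
          ((∑ a ∈ nu.support.filter (fun a => some a ∉ P), nu a : ℤ) : ℝ)) := by
      intro nu m
      rw [← hdotW, Finset.mul_sum]
      unfold dotProduct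
      push_cast
      refine Finset.sum_congr rfl fun i _ => ?_
      rw [← hW' i]; ring
    have hsumnn : ∀ (nu : k →₀ ℤ) (m : Fin n → ℤ), pw s nu * monom x m ∈ A →
        0 ≤ ∑ r ∈ T', (a r : ℝ) * (D.V r.1 nu m : ℝ) := by
      intro nu m hA
      refine Finset.sum_nonneg fun r _ => mul_nonneg (by exact_mod_cast ha r) ?_
      exact_mod_cast D.V_nonneg C r.2.1 nu m hA
    have hW'0 : W' ≠ 0 := by
      intro hcon
      have h1 := hal ⟨none, hP⟩
      obtain ⟨r, hr, hrne⟩ := Finset.exists_ne_zero_of_sum_ne_zero (by rw [h1]; exact one_ne_zero)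
      have har : 0 < a r := by
        refine lt_of_le_of_ne (ha r) fun h => hrne ?_
        rw [← h]; simp
      obtain ⟨nu, m, hA, hV⟩ := D.exists_V_pos C r.2.1
      have h2 := hdotW' nu m
      rw [hcon, dotProduct_zero] at h2
      have h3 : 0 < ∑ r ∈ T', (a r : ℝ) * (D.V r.1 nu m : ℝ) := by
        refine Finset.sum_pos' (fun r _ => mul_nonneg (by exact_mod_cast ha r) ?_) ⟨r, hr, ?_⟩
        · exact_mod_cast D.V_nonneg C r.2.1 nu m hA
        · exact mul_pos (by exact_mod_cast har) (by exact_mod_cast hV)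
      have h4 : (0 : ℝ) ≤ ((∑ a ∈ nu.support.filter (fun a => some a ∉ P), nu a : ℤ) : ℝ) := by
        exact_mod_cast (ho nu m hA).1
      have h5 := mul_pos hQR (add_pos_of_pos_of_nonneg h3 h4)
      rw [← h2] at h5
      simp at h5
    have hklt := D.klt W' hW'0 (fun nu m hA => by
      have h1 := hdotW' nu m
      have h2 := hsumnn nu m hA
      have h4 : (0 : ℝ) ≤ ((∑ a ∈ nu.support.filter (fun a => some a ∉ P), nu a : ℤ) : ℝ) := by
        exact_mod_cast (ho nu m hA).1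
      constructor
      · have h5 : (0 : ℝ) ≤ ((m ⬝ᵥ W' : ℤ) : ℝ) := by rw [h1]; positivity
        exact_mod_cast h5
      · intro hpos
        by_contra hpt
        rw [(ho nu m hA).2 hpt, Finset.sum_eq_zero (fun r _ => by
          rw [D.V_eq_zero C r.2.1 nu m hA hpt]; simp)] at h1
        have h5 : ((m ⬝ᵥ W' : ℤ) : ℝ) = 0 := by rw [h1]; simp
        have h6 : m ⬝ᵥ W' = 0 := by exact_mod_cast h5
        omega)
    have h3 : ∀ u : Fin n → ℝ, ∑ i, u i * (W' i : ℝ) = Q * ∑ i, u i * (W i : ℝ) := by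
      intro u
      rw [Finset.mul_sum]
      refine Finset.sum_congr rfl fun i _ => ?_
      rw [← hW' i]; ring
    rw [h3, h3] at hklt
    have h2 : ∀ u : Fin n → ℝ, ∑ i, u i * (∑ r ∈ T', (a r : ℝ) * (PD.w r i : ℝ)) =
        ∑ i, u i * (W i : ℝ) := by
      intro u
      refine Finset.sum_congr rfl fun i _ => ?_
      rw [hWR i]
      rfl
    constructor
    · rw [PD.sum_F_eq T' (fun r => (a r : ℝ)), h2]
      have h1 : ∑ z, PD.c z * PD.lev T' (fun r => (a r : ℝ)) z = (Fintype.card P : ℝ) - 2 := by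
        rw [← hc]
        exact Finset.sum_congr rfl fun z _ => by rw [hlev1 z, mul_one]
      rw [h1]
      have h4 : 0 ≤ ∑ i, D.u i * (W i : ℝ) := nonneg_of_mul_nonneg_right hklt.1 hQR
      change _ ≤ ∑ i, D.u i * (W i : ℝ) + _
      linarith
    · rw [PD.sum_F_eq_aux (b' := fun r => D.b' r.1) (u' := D.u') (c' := fun z => D.c' z.1)
        hF' T' (fun r => (a r : ℝ)), h2]
      have h1 : ∑ z : P, D.c' z.1 * PD.lev T' (fun r => (a r : ℝ)) z =
          (Fintype.card P : ℝ) - 2 := by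
        rw [← hc']
        exact Finset.sum_congr rfl fun z _ => by rw [hlev1 z, mul_one]
      rw [h1]
      have h4 := pos_of_mul_pos_right hklt.2 hQR.le
      linarith
  · -- the bound
    intro T' x' t' lam' z1 l1 w1 t1 hx' ht' hw' hl' hlam' ht1 htt1 hw1 hl1
    refine D.bound z1.1 l1 w1 ?_
    intro nu m hA
    have e1 := D.sum_V_rep P hP T' lam' hw1 hl1 nu m
    have e0 := D.sum_V_rep P hP T' x' hw' hl' nu m
    obtain ⟨o1, o2⟩ := ho nu m hA
    have o1' : (0 : ℝ) ≤ ((∑ a ∈ nu.support.filter (fun a => some a ∉ P), nu a : ℤ) : ℝ) := by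
      exact_mod_cast o1
    have hVnn : ∀ r ∈ T', 0 ≤ lam' r * (D.V r.1 nu m : ℝ) := fun r hr =>
      mul_nonneg (hlam' r hr).le (by exact_mod_cast D.V_nonneg C r.2.1 nu m hA)
    have hnn : (0 : ℝ) ≤ ((l1 * ordz z1.1 nu + m ⬝ᵥ w1 : ℤ) : ℝ) := by
      rw [e1]
      exact add_nonneg (Finset.sum_nonneg hVnn) (mul_nonneg ht1 o1')
    refine ⟨by exact_mod_cast hnn, ⟨fun hpos => ?_, fun hpt => ?_⟩⟩
    · by_contra hpt
      rw [o2 hpt, Finset.sum_eq_zero (fun r _ => by
          rw [D.V_eq_zero C r.2.1 nu m hA hpt]; simp)] at e1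
      have h5 : ((l1 * ordz z1.1 nu + m ⬝ᵥ w1 : ℤ) : ℝ) = 0 := by rw [e1]; simp
      have h6 : (l1 * ordz z1.1 nu + m ⬝ᵥ w1 : ℤ) = 0 := by exact_mod_cast h5
      omega
    · have h1 := (hcone0 nu m hA).2.2 hpt
      have h2 : (0 : ℝ) < ((l0 * ordz z0 nu + m ⬝ᵥ wx v0 x : ℤ) : ℝ) := by exact_mod_cast h1
      have h3 : (0 : ℝ) < ((l1 * ordz z1.1 nu + m ⬝ᵥ w1 : ℤ) : ℝ) := by
        rw [e1]
        by_cases hex : ∃ r ∈ T', 0 < D.V r.1 nu m
        · obtain ⟨r, hr, hrV⟩ := hex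
          refine add_pos_of_pos_of_nonneg (Finset.sum_pos' hVnn ⟨r, hr, ?_⟩) (mul_nonneg ht1 o1')
          exact mul_pos (hlam' r hr) (by exact_mod_cast hrV)
        · push Not at hex
          have h4 : ∑ r ∈ T', x' r * (D.V r.1 nu m : ℝ) = 0 := by
            refine Finset.sum_eq_zero fun r hr => ?_
            have h5 : D.V r.1 nu m = 0 := le_antisymm (hex r hr) (D.V_nonneg C r.2.1 nu m hA)
            rw [h5]; simp
          rw [e0, h4, zero_add] at h2
          have h6 : 0 < t' := by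
            rcases ht'.eq_or_lt with h | h
            · rw [← h, zero_mul] at h2
              exact absurd h2 (lt_irrefl _)
            · exact h
          have h7 := pos_of_mul_pos_right h2 h6.le
          exact add_pos_of_nonneg_of_pos (Finset.sum_nonneg hVnn) (mul_pos (htt1 h6) h7)
      exact_mod_cast h3

end caseA

section caseB

/-- in the absence of an invariant divisor of positive level on some page, all of them are on the
page of the valuations centred at the point -/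
lemma one_page (D : C1Data Γ A pt s x τ) (C : C1Alg A pt s x) [pt.IsPrime] (z1 : Option k)
    (hz1 : ∀ v ∈ InvSet A pt s x, D.pg v = z1 → D.lv v = 0)
    {v0 : DVal k K} (hv0 : v0.HasCenter A pt) {z0 : Option k} {l0 : ℕ}
    (hzl : ∀ a, v0.val (s - algebraMap k K a) = l0 * oz z0 a) :
    ∀ v ∈ InvSet A pt s x, D.lv v = 0 ∨ D.pg v = z0 := by
  classical
  intro v hv
  by_cases hl : D.lv v = 0
  · exact Or.inl hl
  right
  have hne : D.pg v ≠ z1 := fun h => hl (hz1 v hv h)
  set nu : k →₀ ℤ := nuOf (D.pg v) 1 + nuOf z1 (-1) with hnu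
  have hord : ∀ y, ordz y nu = (if y = D.pg v then 1 else 0) - if y = z1 then 1 else 0 := by
    intro y
    rw [hnu, ordz_add, ordz_nuOf, ordz_nuOf]
    ring
  have hloc : pw s nu * monom x 0 ∈ Loc K pt := by
    refine C.mem_Loc (hom_homEl nu 0) fun v' hv' => ?_
    rw [← D.V_eq C hv']
    unfold V
    rw [hord, zero_dotProduct, add_zero]
    by_cases h : D.pg v' = z1
    · rw [hz1 v' hv' h]; simp
    · rw [if_neg h, sub_zero]
      split_ifs <;> simp
  have hpos : 0 < v.val (pw s nu * monom x 0) := by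
    rw [← D.V_eq C hv]
    unfold V
    rw [hord, zero_dotProduct, add_zero, if_pos rfl, if_neg hne]
    simp only [sub_zero, mul_one]
    exact_mod_cast Nat.pos_of_ne_zero hl
  obtain ⟨a, b, hb, hab⟩ := (mem_Loc_iff pt _).1 hloc
  have hab' : pw s nu * monom x 0 * (b : K) = (a : K) := hab
  obtain ⟨P, hP, _, hPpt⟩ := hv.1
  have hb0 : (b : K) ≠ 0 := by
    intro h
    have : b = 0 := Subtype.ext h
    exact hb (this ▸ pt.zero_mem)
  have hh0 := hom_ne_zero C.coord nu (0 : Fin n → ℤ)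
  have hbv : 0 ≤ v.val (b : K) := by
    have := hP.1 b
    rw [v.nonneg_ord_iff] at this
    exact this.resolve_left hb0
  have hapt : a ∈ pt := by
    refine hPpt ((hP.2 a).2 ?_)
    rw [← hab', v.pos_ord_iff, v.val_mul hh0 hb0]
    right
    omega
  have ha0 := (hv0.2 a).1 hapt
  rw [← hab', v0.pos_ord_iff, v0.val_mul hh0 hb0] at ha0
  have hb0v : v0.val (b : K) = 0 := by
    have h2 := hv0.1 b
    have h3 := (hv0.2 b).not.1 hb
    exact ((v0.ord_eq_zero_iff).1 (le_antisymm (not_lt.1 h3) h2)).2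
  have h1 := ha0.resolve_left (mul_ne_zero hh0 hb0)
  rw [hb0v, add_zero, val_hom C.coord v0 hzl, hord, zero_dotProduct, add_zero] at h1
  by_contra hcon
  rw [if_neg (Ne.symm hcon)] at h1
  have h2 : (0 : ℤ) ≤ l0 := Int.natCast_nonneg _
  split_ifs at h1 <;> nlinarith

/-- all invariant divisors are on one page -/
theorem output_B (D : C1Data Γ A pt s x τ) (C : C1Alg A pt s x) [pt.IsPrime]
    (hΓ : Γ ⊆ Set.Icc 0 1) (z1 : Option k)
    (hz1 : ∀ v ∈ InvSet A pt s x, D.pg v = z1 → D.lv v = 0)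
    {v0 : DVal k K} (hv0 : v0.HasCenter A pt) {z0 : Option k} {l0 : ℕ}
    (hzl : ∀ a, v0.val (s - algebraMap k K a) = l0 * oz z0 a) (τ' : ℝ)
    (hlt : ∑ i, D.u i * (wx v0 x i : ℝ) + D.c z0 * (l0 : ℝ) < τ')
    (N : ℕ) (hN : n + 1 ≤ N) :
    EngineOut (AddSubmonoid.closure (insert 1 Γ) : Set ℝ) N τ τ' := by
  classical
  have hone := D.one_page C z1 hz1 hv0 hzl
  have hfinite : (InvSet A pt s x).Finite := by
    refine (D.finite_inv C {z0}).subset fun v hv => ⟨hv, ?_⟩
    rcases hone v hv with h | h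
    · exact Or.inl h
    · exact Or.inr (by rw [h]; exact Finset.mem_singleton_self _)
  have : Fintype (InvSet A pt s x) := hfinite.fintype
  let PD : PageData Γ n Unit (InvSet A pt s x) :=
    { pg := fun _ => ()
      l := fun r => D.lv r.1
      w := fun r => wx r.1 x
      b := fun r => D.b r.1
      u := D.u
      c := fun _ => D.c z0
      F_eq := by
        intro r
        rw [← D.F_eq r.1 r.2]
        congr 1
        rcases hone r.1 r.2 with h | h
        · rw [h]; simp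
        · rw [h]
      b_mem := fun r => D.b_mem r.1 r.2 }
  have hV : ∀ (r : InvSet A pt s x) (nu : k →₀ ℤ) (m : Fin n → ℤ),
      D.V r.1 nu m = D.lv r.1 * ordz z0 nu + m ⬝ᵥ wx r.1 x := by
    intro r nu m
    unfold V
    rcases hone r.1 r.2 with h | h
    · rw [h]; simp
    · rw [h]
  have hsumV : ∀ (T : Finset (InvSet A pt s x)) (lam : InvSet A pt s x → ℝ) (l1 : ℕ)
      (w1 : Fin n → ℤ), (∀ i, (w1 i : ℝ) = ∑ r ∈ T, lam r * (wx r.1 x i : ℝ)) →
      ((l1 : ℝ) = ∑ r ∈ T, lam r * (D.lv r.1 : ℝ)) → ∀ (nu : k →₀ ℤ) (m : Fin n → ℤ),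
      ((l1 * ordz z0 nu + m ⬝ᵥ w1 : ℤ) : ℝ) = ∑ r ∈ T, lam r * (D.V r.1 nu m : ℝ) := by
    intro T lam l1 w1 hw hl nu m
    simp_rw [hV]
    unfold dotProduct
    push_cast
    rw [hl, Finset.sum_mul]
    simp_rw [hw, Finset.mul_sum, mul_add, Finset.sum_add_distrib]
    congr 1
    · exact Finset.sum_congr rfl fun r _ => by ring
    · rw [Finset.sum_comm]
      refine Finset.sum_congr rfl fun r _ => ?_
      rw [Finset.mul_sum]
      exact Finset.sum_congr rfl fun i _ => by ring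
  have hcone0 := C.inCone_of_center hzl hv0
  -- Farkas
  obtain ⟨lam, hlam0, hlam⟩ := farkas_gen (J := Fin n ⊕ Unit) (κ := InvSet A pt s x)
    (fun r => Sum.elim (fun i => wx r.1 x i) (fun _ => (D.lv r.1 : ℤ)))
    (Sum.elim (wx v0 x) (fun _ => (l0 : ℤ))) (by
    intro m hm
    obtain ⟨z', hz'⟩ : ∃ z' : Option k, z' ≠ z0 := exists_ne z0
    set nu : k →₀ ℤ := nuOf z0 (m (Sum.inr ())) + nuOf z' (-m (Sum.inr ())) with hnu
    have hord : ordz z0 nu = m (Sum.inr ()) := by
      rw [hnu, ordz_add, ordz_nuOf, ordz_nuOf, if_pos rfl, if_neg (Ne.symm hz')]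
      ring
    have hloc : pw s nu * monom x (fun i => m (Sum.inl i)) ∈ Loc K pt := by
      refine C.mem_Loc (hom_homEl nu _) fun v hv => ?_
      rw [← D.V_eq C hv]
      have h1 := hm ⟨v, hv⟩
      rw [Fintype.sum_sum_type] at h1
      simp only [Sum.elim_inl, Sum.elim_inr, Finset.univ_unique, Finset.sum_singleton,
        PUnit.default_eq_unit] at h1
      rw [hV ⟨v, hv⟩, hord]
      unfold dotProduct
      linarith
    have h1 := ord_nonneg_of_mem_Loc hv0 le_rfl hloc
    rw [v0.nonneg_ord_iff] at h1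
    have h2 := h1.resolve_left (hom_ne_zero C.coord nu _)
    rw [val_hom C.coord v0 hzl, hord] at h2
    rw [Fintype.sum_sum_type]
    simp only [Sum.elim_inl, Sum.elim_inr, Finset.univ_unique, Finset.sum_singleton,
      PUnit.default_eq_unit]
    unfold dotProduct at h2
    linarith)
  let T0 := Finset.univ.filter fun r => 0 < lam r
  obtain ⟨T, x', _, hx', hsum, hli⟩ := caratheodory PD.vec T0.card T0 lam rfl
    (fun r hr => (Finset.mem_filter.1 hr).2)
  have hsumT : ∑ r ∈ T0, lam r • PD.vec r = ∑ r, lam r • PD.vec r := by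
    refine Finset.sum_subset (Finset.filter_subset _ _) fun r _ hr => ?_
    have h1 : ¬ 0 < lam r := fun h => hr (Finset.mem_filter.2 ⟨Finset.mem_univ _, h⟩)
    have h2 : lam r = 0 := le_antisymm (not_lt.1 h1) (hlam0 _)
    rw [h2, zero_smul]
  rw [hsumT] at hsum
  have hw : ∀ i, (wx v0 x i : ℚ) = ∑ r ∈ T, x' r * (PD.w r i : ℚ) := by
    intro i
    have h1 := congrFun hsum (Sum.inl i)
    simp only [Finset.sum_apply, Pi.smul_apply, smul_eq_mul, PageData.vec, Sum.elim_inl] at h1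
    rw [h1]
    exact hlam (Sum.inl i)
  have hl : (l0 : ℚ) = ∑ r ∈ T, x' r * (PD.l r : ℚ) := by
    have h1 := congrFun hsum (Sum.inr ())
    simp only [Finset.sum_apply, Pi.smul_apply, smul_eq_mul, PageData.vec, Sum.elim_inr,
      if_true] at h1
    rw [h1]
    have h2 := hlam (Sum.inr ())
    simp only [Sum.elim_inr] at h2
    exact_mod_cast h2
  have hwR : ∀ i, (wx v0 x i : ℝ) = ∑ r ∈ T, (x' r : ℝ) * (wx r.1 x i : ℝ) := by
    intro i
    have := congrArg (fun a : ℚ => (a : ℝ)) (hw i)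
    push_cast at this
    exact this
  have hlR : (l0 : ℝ) = ∑ r ∈ T, (x' r : ℝ) * (D.lv r.1 : ℝ) := by
    have := congrArg (fun a : ℚ => (a : ℝ)) hl
    push_cast at this
    exact this
  have hTne : T.Nonempty := by
    by_contra hcon
    rw [Finset.not_nonempty_iff_eq_empty] at hcon
    obtain ⟨nu, m, hA, hpt⟩ := C.exists_hom_pt hv0
    have h1 := (hcone0 nu m hA).2.2 hpt
    have h2 : wx v0 x = 0 := by
      funext i
      have := hwR i
      rw [hcon, Finset.sum_empty] at this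
      exact_mod_cast this
    have h3 : l0 = 0 := by
      rw [hcon, Finset.sum_empty] at hlR
      exact_mod_cast hlR
    rw [h2, h3, dotProduct_zero] at h1
    simp at h1
  have hcardT : T.card ≤ n + 1 := by
    have h1 := hli.fintype_card_le_finrank
    rw [Module.finrank_fintype_fun_eq_card, Fintype.card_sum, Fintype.card_fin] at h1
    simpa using h1
  refine PD.core0 (z0 := ()) T hTne x' hx' N (by omega) (fun r _ => Or.inl rfl) hw hl τ τ' ?_ hlt
  intro lam' l1 w1 hlam' hw1 hl1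
  refine (D.bound z0 l1 w1 ?_).1
  intro nu m hA
  have e1 := hsumV T lam' l1 w1 hw1 hl1 nu m
  have e0 := hsumV T (fun r => (x' r : ℝ)) l0 (wx v0 x) hwR hlR nu m
  have hVnn : ∀ r ∈ T, 0 ≤ lam' r * (D.V r.1 nu m : ℝ) := fun r hr =>
    mul_nonneg (hlam' r hr).le (by exact_mod_cast D.V_nonneg C r.2 nu m hA)
  have hnn : (0 : ℝ) ≤ ((l1 * ordz z0 nu + m ⬝ᵥ w1 : ℤ) : ℝ) := by
    rw [e1]
    exact Finset.sum_nonneg hVnn
  refine ⟨by exact_mod_cast hnn, ⟨fun hpos => ?_, fun hpt => ?_⟩⟩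
  · by_contra hpt
    rw [Finset.sum_eq_zero (fun r _ => by
        rw [D.V_eq_zero C r.2 nu m hA hpt]; simp)] at e1
    have h6 : (l1 * ordz z0 nu + m ⬝ᵥ w1 : ℤ) = 0 := by exact_mod_cast e1
    omega
  · have h1 := (hcone0 nu m hA).2.2 hpt
    have h2 : (0 : ℝ) < ((l0 * ordz z0 nu + m ⬝ᵥ wx v0 x : ℤ) : ℝ) := by exact_mod_cast h1
    have h3 : (0 : ℝ) < ((l1 * ordz z0 nu + m ⬝ᵥ w1 : ℤ) : ℝ) := by
      rw [e1]
      obtain ⟨r, hr, hrV⟩ : ∃ r ∈ T, 0 < D.V r.1 nu m := by
        by_contra hcon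
        push Not at hcon
        rw [e0] at h2
        refine absurd h2 (not_lt.2 (Finset.sum_nonpos fun r hr => ?_))
        exact mul_nonpos_of_nonneg_of_nonpos (by exact_mod_cast (hx' r hr).le)
          (by exact_mod_cast hcon r hr)
      exact Finset.sum_pos' hVnn ⟨r, hr, mul_pos (hlam' r hr) (by exact_mod_cast hrV)⟩
    exact_mod_cast h3

end caseB

end C1Data

end Pool.Agent.H26
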