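import Mathlib
import Pool.Agent.H26.C1Defs
import Pool.Agent.H26.C1Final

/-! # ACC for minimal log discrepancies of klt germs with torus action of complexity one -/

open scoped BigOperators
open KaehlerDifferential

namespace Pool.Agent.H26

universe u v

variable {k : Type u} {K : Type v} [Field k] [Field K] [Algebra k K] {n : ℕ}

lemma pw_mem_adjoin (s : K) (nu : k →₀ ℤ) : pw s nu ∈ IntermediateField.adjoin k {s} := by
  unfold pw
  refine prod_mem fun a _ => zpow_mem (sub_mem ?_ ?_) _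
  · exact IntermediateField.mem_adjoin_simple_self k s
  · exact IntermediateField.algebraMap_mem _ a

theorem c1_output [IsAlgClosed k] [CharZero k] (G : LogGerm k K (n + 1)) (s : K) (x : Fin n → K)
    (Γ : Set ℝ) (hΓ : Γ ⊆ Set.Icc 0 1) (hG : G.HasTorusAction s x)
    (hB : G.HasInvariantBoundary s x Γ) (hlc : G.IsLogCanonical) (hklt : G.IsKltType s x)
    (δ : ℝ) (hδ : 0 < δ)
    (hδ2 : δ ≤ 1 / 2) (hδb : ∀ b ∈ Γ, b ≠ 0 → δ ≤ b) (N : ℕ) (hN : 2 * n + ⌊2 / δ⌋₊ + 2 ≤ N)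
    (t t' : ℝ) (ht : G.mld = t) (htt' : t < t') :
    EngineOut (AddSubmonoid.closure (insert 1 Γ) : Set ℝ) N t t' := by
  classical
  have h1 : G.mld < ((t' : ℝ) : EReal) := by rw [ht]; exact_mod_cast htt'
  obtain ⟨_, ⟨v0, b0, _, hv0, ⟨e0, he0, hb0⟩, rfl⟩, hlt⟩ := sInf_lt_iff.1 h1
  have hlt' : b0 < t' := by exact_mod_cast hlt
  have hmld : ∀ (v : DVal k K) (e : ℤ), v.IsDivisorial (n + 1) → v.HasCenter G.A G.pt →
      v.FormOrd G.ω e → t ≤ 1 + (e : ℝ) - ∑ i, G.r i * (v.val (G.s i) : ℝ) := by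
    intro v e hv1 hv2 he
    have h2 : G.mld ≤ ((1 + (e : ℝ) - ∑ i, G.r i * (v.val (G.s i) : ℝ) : ℝ) : EReal) :=
      sInf_le ⟨v, _, hv1, hv2, ⟨e, he, rfl⟩, rfl⟩
    rw [ht] at h2
    exact_mod_cast h2
  have hlc' : ∀ (v : DVal k K) (P : Ideal G.A) (e : ℤ), v.IsDivisorial (n + 1) →
      v.HasCenter G.A P → P ≤ G.pt → v.FormOrd G.ω e →
      0 ≤ 1 + (e : ℝ) - ∑ i, G.r i * (v.val (G.s i) : ℝ) :=
    fun v P e hv1 hv2 hP he => hlc v P _ hv1 hv2 hP ⟨e, he, rfl⟩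
  obtain ⟨G', hA', hpt', hB', hklt'⟩ := hklt
  have hklt'' : ∀ (v : DVal k K) (P : Ideal G'.A) (e : ℤ), v.IsDivisorial (n + 1) →
      v.HasCenter G'.A P → P ≤ G'.pt → v.FormOrd G'.ω e →
      0 < 1 + (e : ℝ) - ∑ i, G'.r i * (v.val (G'.s i) : ℝ) :=
    fun v P e hv1 hv2 hP he => hklt' v P _ hv1 hv2 hP ⟨e, he, rfl⟩
  clear hklt' hlc
  obtain ⟨A, fg, hfrac, hnorm, pt, hmax, bdry, ω, ι, hfin, r, sf, sf_ne, cartier⟩ := G
  obtain ⟨A', fg', hfrac', hnorm', pt', hmax', bdry', ω', ι', hfin', r', sf', sf_ne', cartier'⟩ := G'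
  simp only at hv0 hmld hlc' he0 hb0 cartier hA' hpt' hklt'' cartier'
  subst hA'
  have hpteq : pt' = pt := by
    ext ⟨a, ha⟩
    constructor
    · intro h
      obtain ⟨_, h2⟩ := (hpt' a).1 ⟨ha, h⟩
      exact h2
    · intro h
      obtain ⟨_, h2⟩ := (hpt' a).2 ⟨ha, h⟩
      exact h2
  subst hpteq
  have C : C1Alg A' pt' s x := ⟨hG.coordinates, hG.graded, hG.fixed_point⟩
  have hnoeth : IsNoetherianRing A' := by
    have : Algebra.FiniteType k A' := A'.fg_iff_finiteType.1 fg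
    exact Algebra.FiniteType.isNoetherianRing k _
  have hprime := hmax.isPrime
  have hnotinv : ∀ v : DVal k K, v ∉ InvSet A' pt' s x → v.IsPrimeDivisorThrough A' pt' →
      ¬ LogGerm.IsInvariant k s x v := by
    rintro v hvI hv ⟨g, m, hg, hg0, hne⟩
    exact hvI ⟨hv, _, homEl_of C.coord hg hg0 m, hne⟩
  obtain ⟨D, hD⟩ := C.exists_data (Γ := Γ) ω sf_ne cartier
    (fun v hv hvI => (hB v hv).resolve_right fun h => hnotinv v hvI hv h.1)
    (fun v hv => (hB v hv.1).imp id And.right) hlc' t hmld ⟨v0, hv0⟩ ω' sf_ne' cartier'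
    (fun v hv hvI => (hB' v hv).resolve_right fun h => hnotinv v hvI hv h.1)
    (fun v hv => by
      rcases hB' v hv.1 with h | h
      · exact h.ge
      · exact h.2) hklt''
  obtain ⟨z0, l0, hzl⟩ := exists_page v0 (s_sub_ne_zero C.coord)
  have hlt0 := hD v0 hv0 z0 l0 hzl e0 he0
  rw [← hb0] at hlt0
  by_cases hvert : ∀ z : Option k, ∃ v ∈ InvSet A' pt' s x, D.pg v = z ∧ 0 < D.lv v
  · exact D.output_A C hΓ hvert hv0 hzl t' (hlt0.trans_lt hlt') δ hδ hδ2 hδb N hN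
  · push Not at hvert
    obtain ⟨z1, hz1⟩ := hvert
    exact D.output_B C hΓ z1 (fun v hv h => Nat.le_zero.1 (hz1 v hv h)) hv0 hzl t'
      (hlt0.trans_lt hlt') N (by omega)

lemma DCC.exists_delta {Γ : Set ℝ} (h : DCC Γ) (h0 : Γ ⊆ Set.Icc 0 1) :
    ∃ δ : ℝ, 0 < δ ∧ δ ≤ 1 / 2 ∧ ∀ b ∈ Γ, b ≠ 0 → δ ≤ b := by
  by_cases hne : (Γ ∩ Set.Ioi 0).Nonempty
  · have hWF : (Γ ∩ Set.Ioi 0).IsWF := (Set.isPWO_iff_isWF.1 h.isPWO).mono Set.inter_subset_left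
    have h1 : hWF.min hne ∈ Γ ∩ Set.Ioi 0 := Set.IsWF.min_mem hWF hne
    refine ⟨min (hWF.min hne) (1 / 2), lt_min h1.2 (by norm_num), min_le_right _ _, ?_⟩
    intro b hb hb0
    refine (min_le_left _ _).trans (Set.IsWF.min_le hWF hne ⟨hb, ?_⟩)
    exact lt_of_le_of_ne (h0 hb).1 (Ne.symm hb0)
  · refine ⟨1 / 2, by norm_num, le_rfl, fun b hb hb0 => ?_⟩
    exact absurd ⟨b, hb, lt_of_le_of_ne (h0 hb).1 (Ne.symm hb0)⟩ hne

theorem c1_acc (k : Type u) [Field k] [IsAlgClosed k] [CharZero k] (n : ℕ) (Γ : Set ℝ)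
    (hΓ : Γ ⊆ Set.Icc 0 1) (hDCC : DCC Γ) : ACC (complexityOneMlds k n Γ) := by
  obtain ⟨δ, hδ, hδ2, hδb⟩ := hDCC.exists_delta hΓ
  have hpwo : (insert (1 : ℝ) Γ).IsPWO := hDCC.isPWO.insert 1
  have hnn : ∀ x ∈ insert (1 : ℝ) Γ, 0 ≤ x := by
    rintro x (rfl | hx)
    · exact zero_le_one
    · exact (hΓ hx).1
  refine ACC_of_real fun t ht => ?_
  refine not_strictMono_of_engineOut (W := (AddSubmonoid.closure (insert 1 Γ) : Set ℝ))
    (hpwo.addSubmonoid_closure fun _ hx => hnn _ hx) ?_ (2 * n + ⌊2 / δ⌋₊ + 2) t fun j hj => ?_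
  · intro w hw
    have : AddSubmonoid.closure (insert 1 Γ) ≤ AddSubmonoid.nonneg ℝ := by
      rw [AddSubmonoid.closure_le]
      intro x hx
      exact hnn x hx
    exact this hw
  · obtain ⟨K, _, _, G, s, x, hG, hB, hlc, hklt, hmld⟩ := ht j
    exact c1_output G s x Γ hΓ hG hB hlc hklt δ hδ hδ2 hδb _ le_rfl (t j) (t (j + 1)) hmld.symm hj

end Pool.Agent.H26
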